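import Pool.Agent.FL.Sect

/-! MP_8a5d4f_co, project FL, row FL-4 -/

set_option autoImplicit false

namespace Pool.Agent.FL

open Set Filter Topology Pool.Agent.H54.Fl Pool.Agent.H75.PolyJ Pool.Agent.H95.Poly

section mirror

variable {n : ℕ} {v : ℕ → ℝ × ℝ}

theorem mr_mr (p : ℝ × ℝ) : mr (mr p) = p := by
  unfold mr; simp

lemma fl4_mr_inj {p q : ℝ × ℝ} (h : mr p = mr q) : p = q := by
  rw [← mr_mr p, h, mr_mr]

lemma fl4_idx {k : ℕ} (hk : k < n) :
    (k = 0 ∧ (n - k) % n = 0) ∨ (0 < k ∧ (n - k) % n = n - k) := by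
  rcases Nat.eq_zero_or_pos k with h | h
  · left
    subst h
    exact ⟨rfl, by rw [Nat.sub_zero, Nat.mod_self]⟩
  · right
    exact ⟨h, Nat.mod_eq_of_lt (by omega)⟩

lemma fl4_idx2 {k : ℕ} (hk : k < n) : (n - (n - k) % n) % n = k := by
  rcases fl4_idx hk with ⟨h1, h2⟩ | ⟨h1, h2⟩
  · rw [h2, Nat.sub_zero, Nat.mod_self, h1]
  · rw [h2]
    have : n - (n - k) = k := by omega
    rw [this, Nat.mod_eq_of_lt hk]

lemma fl4_lt {k : ℕ} (hk : k < n) : (n - k) % n < n := Nat.mod_lt _ (by omega)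

lemma fl4_mir (n : ℕ) (v : ℕ → ℝ × ℝ) (k : ℕ) : mir n v k = mr (v ((n - k) % n)) := rfl

lemma fl4_mir' {k : ℕ} (hk : k < n) : mir n v ((n - k) % n) = mr (v k) := by
  rw [fl4_mir, fl4_idx2 hk]

theorem mir_mir {k : ℕ} (hk : k < n) : mir n (mir n v) k = v k := by
  rw [fl4_mir, fl4_mir' hk, mr_mr]

theorem orient_mr (a b c : ℝ × ℝ) : orient (mr a) (mr b) (mr c) = - orient a b c := by
  unfold orient mr; ring

lemma fl4_seg {a b p : ℝ × ℝ} : mr p ∈ segment ℝ (mr a) (mr b) ↔ p ∈ segment ℝ a b := by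
  have key : ∀ {a b p : ℝ × ℝ}, p ∈ segment ℝ a b → mr p ∈ segment ℝ (mr a) (mr b) := by
    rintro a b p ⟨s, t, hs, ht, hst, rfl⟩
    refine ⟨s, t, hs, ht, hst, ?_⟩
    unfold mr
    ext <;> simp <;> ring
  constructor
  · intro h
    have := key h
    rwa [mr_mr, mr_mr, mr_mr] at this
  · exact key

lemma fl4_oseg {a b p : ℝ × ℝ} : mr p ∈ openSegment ℝ (mr a) (mr b) ↔ p ∈ openSegment ℝ a b := by
  have key : ∀ {a b p : ℝ × ℝ}, p ∈ openSegment ℝ a b → mr p ∈ openSegment ℝ (mr a) (mr b) := by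
    rintro a b p ⟨s, t, hs, ht, hst, rfl⟩
    refine ⟨s, t, hs, ht, hst, ?_⟩
    unfold mr
    ext <;> simp <;> ring
  constructor
  · intro h
    have := key h
    rwa [mr_mr, mr_mr, mr_mr] at this
  · exact key

/-- the reflected polygon (clockwise) -/
def fl4_r (v : ℕ → ℝ × ℝ) (k : ℕ) : ℝ × ℝ := mr (v k)

lemma fl4_edge {i : ℕ} {p : ℝ × ℝ} : mr p ∈ edge n (fl4_r v) i ↔ p ∈ edge n v i := fl4_seg

lemma fl4_curve {p : ℝ × ℝ} : mr p ∈ curve n (fl4_r v) ↔ p ∈ curve n v := by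
  constructor
  · rintro ⟨i, hi, h⟩
    exact ⟨i, hi, fl4_edge.1 h⟩
  · rintro ⟨i, hi, h⟩
    exact ⟨i, hi, fl4_edge.2 h⟩

lemma fl4_simple (h : IsSimplePolygon n v) : IsSimplePolygon n (fl4_r v) := by
  refine ⟨h.three_le, ?_, ?_, ?_⟩
  · intro i hi
    have h1 := h.adjacent i hi
    ext q
    obtain ⟨p, rfl⟩ : ∃ p, q = mr p := ⟨mr q, (mr_mr q).symm⟩
    constructor
    · rintro ⟨h2, h3⟩
      have h4 : p ∈ edge n v i ∩ edge n v ((i + 1) % n) := ⟨fl4_edge.1 h2, fl4_edge.1 h3⟩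
      rw [h1] at h4
      have h5 : p = v ((i + 1) % n) := h4
      rw [h5]
      exact rfl
    · intro h2
      have h5 : mr p = mr (v ((i + 1) % n)) := h2
      have h6 := fl4_mr_inj h5
      have h4 : p ∈ edge n v i ∩ edge n v ((i + 1) % n) := by rw [h1, h6]; exact rfl
      exact ⟨fl4_edge.2 h4.1, fl4_edge.2 h4.2⟩
  · intro i hi j hj h1 h2 h3
    have h4 := h.nonadjacent i hi j hj h1 h2 h3
    rw [Set.disjoint_left] at h4 ⊢
    intro q
    obtain ⟨p, rfl⟩ : ∃ p, q = mr p := ⟨mr q, (mr_mr q).symm⟩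
    intro h5 h6
    exact h4 (fl4_edge.1 h5) (fl4_edge.1 h6)
  · intro i hi
    have h1 := h.genuine i hi
    unfold fl4_r
    rw [orient_mr]
    exact neg_ne_zero.2 h1

lemma fl4_quo (a b p : ℝ × ℝ) : quo (mr a) (mr b) (mr p) = (starRingEnd ℂ) (quo a b p) := by
  have key : ∀ a p : ℝ × ℝ, Pool.Agent.H75.PolyJ.cx (mr a) - Pool.Agent.H75.PolyJ.cx (mr p) =
      - (starRingEnd ℂ) (Pool.Agent.H75.PolyJ.cx a - Pool.Agent.H75.PolyJ.cx p) := by
    intro a p
    apply Complex.ext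
    · simp [Pool.Agent.H75.PolyJ.cx, mr]; ring
    · simp [Pool.Agent.H75.PolyJ.cx, mr]; ring
  unfold quo
  rw [key, key, neg_div_neg_eq, map_div₀]

lemma fl4_ang {a b p : ℝ × ℝ} (h : p ∉ segment ℝ a b) :
    ang (mr a) (mr b) (mr p) = - ang a b p := by
  unfold ang
  rw [fl4_quo, Complex.arg_conj]
  have h2 := slit_of_notMem h
  rw [Complex.mem_slitPlane_iff_arg] at h2
  rw [if_neg h2.1]

lemma fl4_angSum {p : ℝ × ℝ} (hp : p ∉ curve n v) :
    angSum n (fl4_r v) (mr p) = - angSum n v p := by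
  unfold angSum
  rw [← Finset.sum_neg_distrib]
  apply Finset.sum_congr rfl
  intro i hi
  exact fl4_ang fun h => hp ⟨i, Finset.mem_range.1 hi, h⟩

lemma fl4_wind {p : ℝ × ℝ} (hp : p ∉ curve n v) : wind n (fl4_r v) (mr p) = - wind n v p := by
  have h1 := angSum_eq hp
  have hp' : mr p ∉ curve n (fl4_r v) := fun h => hp (fl4_curve.1 h)
  have h2 := angSum_eq hp'
  rw [fl4_angSum hp, h1] at h2
  have h3 : (2 * Real.pi) * (wind n (fl4_r v) (mr p) : ℝ) =
      (2 * Real.pi) * (-(wind n v p : ℝ)) := by linarith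
  have h4 := mul_left_cancel₀ (by positivity : (2 * Real.pi) ≠ 0) h3
  exact_mod_cast h4

/-- the reversed numbering, `0` stays `0` -/
lemma fl4_eq {k : ℕ} (hk : k < n) :
    fl4_r (sh n (rev n v) (n - 1)) k = mir n v k := by
  unfold fl4_r mir
  congr 1
  unfold sh rev
  congr 1
  rcases fl4_idx hk with ⟨h1, h2⟩ | ⟨h1, h2⟩
  · rw [h2, h1, Nat.add_zero, Nat.mod_eq_of_lt (by omega)]; omega
  · rw [h2]
    have : n - 1 + k = (k - 1) + n := by omega
    rw [this, Nat.add_mod_right, Nat.mod_eq_of_lt (by omega)]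
    omega

lemma fl4_simple' (h : IsSimplePolygon n v) : IsSimplePolygon n (mir n v) :=
  simple_congr (fun _ hk => fl4_eq hk) (fl4_simple (simple_sh (simple_rev h) (n - 1)))

lemma fl4_curve' (h : IsSimplePolygon n v) {p : ℝ × ℝ} :
    mr p ∈ curve n (mir n v) ↔ p ∈ curve n v := by
  rw [← curve_congr (fun _ hk => fl4_eq hk), fl4_curve, curve_sh (simple_rev h), curve_rev]

lemma fl4_wind' (h : IsSimplePolygon n v) {p : ℝ × ℝ} (hp : p ∉ curve n v) :
    wind n (mir n v) (mr p) = wind n v p := by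
  have h1 : p ∉ curve n (sh n (rev n v) (n - 1)) := by
    rw [curve_sh (simple_rev h), curve_rev]; exact hp
  rw [← wind_congr (fun _ hk => fl4_eq hk), fl4_wind h1, wind_sh (simple_rev h), wind_rev hp,
    neg_neg]

theorem PG.mir (P : PG n v) : PG n (mir n v) := by
  refine ⟨fl4_simple' P.simple, ?_, ?_⟩
  · obtain ⟨p, hp, h1⟩ := P.ccw
    exact ⟨mr p, fun h => hp ((fl4_curve' P.simple).1 h), by rw [fl4_wind' P.simple hp, h1]⟩
  · intro i hi j hj k hk h1 h2 h3
    rw [fl4_mir, fl4_mir, fl4_mir, orient_mr]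
    have key : ∀ {a b : ℕ}, a < n → b < n → a ≠ b → (n - a) % n ≠ (n - b) % n := by
      intro a b ha hb hab h
      apply hab
      rw [← fl4_idx2 ha, h, fl4_idx2 hb]
    exact neg_ne_zero.2 (P.gen _ (fl4_lt hi) _ (fl4_lt hj) _ (fl4_lt hk) (key hi hj h1)
      (key hi hk h2) (key hj hk h3))

theorem mem_inner_mir (P : PG n v) {p : ℝ × ℝ} : mr p ∈ inn n (mir n v) ↔ p ∈ inn n v := by
  constructor
  · rintro ⟨h1, h2⟩
    have h3 : p ∉ curve n v := fun h => h1 ((fl4_curve' P.simple).2 h)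
    rw [fl4_wind' P.simple h3] at h2
    exact ⟨h3, h2⟩
  · rintro ⟨h1, h2⟩
    refine ⟨fun h => h1 ((fl4_curve' P.simple).1 h), ?_⟩
    rw [fl4_wind' P.simple h1]
    exact h2

theorem mem_region_mir (P : PG n v) {p : ℝ × ℝ} :
    mr p ∈ region n (mir n v) ↔ p ∈ region n v := by
  rw [region_eq P.simple, region_eq P.mir.simple, mem_union, mem_union]
  exact or_congr (fl4_curve' P.simple) (mem_inner_mir P)

theorem see_mir (P : PG n v) {p q : ℝ × ℝ} : See n (mir n v) (mr p) (mr q) ↔ See n v p q := by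
  constructor
  · intro h z hz
    exact (mem_inner_mir P).1 (h _ (fl4_oseg.2 hz))
  · intro h z hz
    obtain ⟨w, rfl⟩ : ∃ w, z = mr w := ⟨mr z, (mr_mr z).symm⟩
    exact (mem_inner_mir P).2 (h _ (fl4_oseg.1 hz))

theorem gp_mir (P : PG n v) {p : ℝ × ℝ} : GP n (mir n v) (mr p) ↔ GP n v p := by
  have _ := P
  constructor
  · intro h i hi j hj hij
    have h1 := h _ (fl4_lt hi) _ (fl4_lt hj) (fun h => hij (by
      rw [← fl4_idx2 hi, h, fl4_idx2 hj]))
    rw [fl4_mir' hi, fl4_mir' hj, orient_mr] at h1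
    exact fun h2 => h1 (by rw [h2, neg_zero])
  · intro h i hi j hj hij
    rw [fl4_mir, fl4_mir, orient_mr]
    exact neg_ne_zero.2 (h _ (fl4_lt hi) _ (fl4_lt hj) (fun h => hij (by
      rw [← fl4_idx2 hi, h, fl4_idx2 hj])))

lemma fl4_pv {k : ℕ} (hk : k < n) : (n - pv n k) % n = nx n ((n - k) % n) := by
  rcases fl4_idx hk with ⟨h1, h2⟩ | ⟨h1, h2⟩
  · rw [h2]
    rcases pv_cases hk with ⟨h3, h4⟩ | ⟨h3, h4⟩
    · omega
    · rw [h4]
      have : n - (n - 1) = 1 := by omega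
      rw [this]; rfl
  · rw [h2]
    rcases pv_cases hk with ⟨h3, h4⟩ | ⟨h3, h4⟩
    · rw [h4]
      unfold nx
      congr 1
      omega
    · omega

lemma fl4_nx {k : ℕ} (hk : k < n) : (n - nx n k) % n = pv n ((n - k) % n) := by
  rcases fl4_idx hk with ⟨h1, h2⟩ | ⟨h1, h2⟩
  · rw [h2]
    subst h1
    rcases nx_cases hk with ⟨h3, h4⟩ | ⟨h3, h4⟩
    · rw [h4]
      unfold pv
      congr 1
      omega
    · rw [h4]
      unfold pv
      have e1 : n = 1 := by omega
      subst e1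
      rfl
  · rw [h2]
    rcases nx_cases hk with ⟨h3, h4⟩ | ⟨h3, h4⟩
    · rw [h4]
      rcases pv_cases (show n - k < n by omega) with ⟨h5, h6⟩ | ⟨h5, h6⟩
      · rw [h6, Nat.mod_eq_of_lt (by omega)]; omega
      · omega
    · rw [h4, Nat.sub_zero, Nat.mod_self]
      rcases pv_cases (show n - k < n by omega) with ⟨h5, h6⟩ | ⟨h5, h6⟩
      · rw [h6]; omega
      · omega

theorem tn_mir (hn : 0 < n) {k : ℕ} (hk : k < n) : tn n (mir n v) k = tn n v ((n - k) % n) := by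
  have _ := hn
  unfold tn
  rw [fl4_mir, fl4_mir, fl4_mir, orient_mr, fl4_pv hk, fl4_nx hk]
  unfold orient
  ring

theorem kc_mir (P : PG n v) : kc n (mir n v) = kc n v := by
  have hn := pos P.simple
  unfold kc
  refine Finset.card_bij (fun i _ => (n - i) % n) ?_ ?_ ?_
  · intro i hi
    rw [Finset.mem_filter, Finset.mem_range] at hi ⊢
    exact ⟨fl4_lt hi.1, by rw [← tn_mir hn hi.1]; exact hi.2⟩
  · intro i hi j hj h
    rw [Finset.mem_filter, Finset.mem_range] at hi hj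
    rw [← fl4_idx2 hi.1, h, fl4_idx2 hj.1]
  · intro i hi
    rw [Finset.mem_filter, Finset.mem_range] at hi
    refine ⟨(n - i) % n, ?_, fl4_idx2 hi.1⟩
    rw [Finset.mem_filter, Finset.mem_range]
    exact ⟨fl4_lt hi.1, by rw [tn_mir hn (fl4_lt hi.1), fl4_idx2 hi.1]; exact hi.2⟩

theorem cov_mir (P : PG n v) {σ : ℕ → St} (h : Cov n (mir n v) σ) :
    Cov n v (fun k => match σ ((n - k) % n) with
      | St.off => St.off
      | St.N => St.P
      | St.P => St.N
      | St.K => St.K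
      | St.H d => St.H (d.1, -d.2)) := by
  intro p hp hg
  obtain ⟨i, hi, h1, h2⟩ := h (mr p) ((mem_inner_mir P).2 hp) ((gp_mir P).2 hg)
  refine ⟨(n - i) % n, fl4_lt hi, ?_, ?_⟩
  · simp only [fl4_idx2 hi]
    generalize σ i = s at h1
    cases s with
    | off => exact h1
    | N =>
      simp only [Use] at h1 ⊢
      rw [fl4_mir, fl4_mir, orient_mr, fl4_pv hi] at h1
      unfold orient at h1 ⊢
      linarith
    | P =>
      simp only [Use] at h1 ⊢
      rw [fl4_mir, fl4_mir, orient_mr, fl4_nx hi] at h1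
      unfold orient at h1 ⊢
      linarith
    | K => trivial
    | H d =>
      simp only [Use] at h1 ⊢
      rw [fl4_mir] at h1
      unfold cr mr at h1
      unfold cr
      simp only [Prod.fst_sub, Prod.snd_sub] at h1 ⊢
      linarith
  · rw [fl4_mir] at h2
    exact (see_mir P).1 h2

theorem PT.mir {α β : ℕ} (T : PT n α β v) : PT n (n - β) (n - α) (mir n v) := by
  have hn := pos T.pg.simple
  have h0 := T.h0
  have h1 := T.h1
  have h2 := T.h2
  refine ⟨T.pg.mir, by omega, by omega, by omega, ?_, ?_, ?_, ?_⟩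
  · rw [tn_mir hn hn, Nat.sub_zero, Nat.mod_self]
    exact T.c0
  · rw [tn_mir hn (by omega)]
    have : n - (n - β) = β := by omega
    rw [this, Nat.mod_eq_of_lt h2]
    exact T.c2
  · rw [tn_mir hn (by omega)]
    have : n - (n - α) = α := by omega
    rw [this, Nat.mod_eq_of_lt (by omega)]
    exact T.c1
  · intro i hi a1 a2 a3
    rw [tn_mir hn hi, Nat.mod_eq_of_lt (by omega)]
    exact T.rf _ (by omega) (by omega) (by omega) (by omega)

lemma fl4_dg (P : PG n v) {a b : ℕ} (ha : 0 < a) (D : Dg n v a b) :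
    Dg n (Pool.Agent.FL.mir n v) (n - b) (n - a) := by
  have h1 := D.lt
  have h2 := D.ltn
  refine ⟨by omega, by omega, by omega, ?_⟩
  have e1 : (n - (n - b)) % n = b := by
    have : n - (n - b) = b := by omega
    rw [this, Nat.mod_eq_of_lt h2]
  have e2 : (n - (n - a)) % n = a := by
    have : n - (n - a) = a := by omega
    rw [this, Nat.mod_eq_of_lt (by omega)]
  rw [fl4_mir, fl4_mir, e1, e2]
  exact (see_mir P).2 D.see.symm

theorem Core.mir {α β i j k : ℕ} (C : Core n α β i j k v) :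
    Core n (n - β) (n - α) (n - k) (n - j) (n - i) (mir n v) := by
  have h1 := C.i0
  have h2 := C.i1
  have h3 := C.j0
  have h4 := C.j1
  have h5 := C.k0
  have h6 := C.k1
  exact ⟨C.pt.mir, by omega, by omega, by omega, by omega, by omega, by omega,
    fl4_dg C.pt.pg (by omega) C.djk, fl4_dg C.pt.pg (by omega) C.dij,
    fl4_dg C.pt.pg (by omega) C.dik⟩

end mirror

end Pool.Agent.FL
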