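import Pool.Agent.FL.Sect

/-! MP_8a5d4f_co, project FL, row FL-5 -/

set_option autoImplicit false

namespace Pool.Agent.FL

open Set Filter Topology Pool.Agent.H54.Fl Pool.Agent.H75.PolyJ Pool.Agent.H95.Poly

section aux

variable {n : ℕ} {v v' : ℕ → ℝ × ℝ} {i j : ℕ}

theorem fl5_inner_congr (hv : ∀ k < n, v k = v' k) : inn n v = inn n v' := by
  ext p
  change (p ∉ curve n v ∧ wind n v p ≠ 0) ↔ (p ∉ curve n v' ∧ wind n v' p ≠ 0)
  rw [curve_congr hv, wind_congr hv]

theorem fl5_gen_congr (hv : ∀ k < n, v k = v' k) (h : Gen n v) : Gen n v' := by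
  intro a ha b hb c hc h1 h2 h3
  rw [← hv a ha, ← hv b hb, ← hv c hc]
  exact h a ha b hb c hc h1 h2 h3

theorem fl5_sh0 (hi : i < n) : sh n v i 0 = v i := by
  unfold sh; rw [Nat.add_zero, Nat.mod_eq_of_lt hi]

theorem fl5_shk {k : ℕ} (h : i + k < n) : sh n v i k = v (i + k) := sh_at h

theorem fl5_arc_eq (hj : j < n) (hij : i ≤ j) : ∀ k < j - i + 1, sh n v i k = arc v i k := by
  intro k hk
  rw [fl5_shk (by omega)]
  rfl

theorem fl5_co_le {k : ℕ} (h : k ≤ i) : co v i j k = v k := by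
  unfold co; rw [if_pos h]

theorem fl5_co_gt {k : ℕ} (h : i < k) : co v i j k = v (k + (j - i) - 1) := by
  unfold co; rw [if_neg (by omega)]

theorem fl5_co_cx (k : ℕ) : co v i j k = v (cx i j k) := by
  unfold co cx; split_ifs <;> rfl

theorem fl5_cx_lt {k : ℕ} (hj : j < n) (hij : i < j) (hk : k < n - (j - i) + 1) :
    cx i j k < n := by
  unfold cx; split_ifs <;> omega

theorem fl5_cx_inj {k l : ℕ} (hij : i + 2 ≤ j) (h : cx i j k = cx i j l) : k = l := by
  unfold cx at h; split_ifs at h <;> omega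

theorem fl5_cx_inj' {k l : ℕ} (hij : i < j) (h : cx i j k = cx i j l) : k = l := by
  unfold cx at h; split_ifs at h <;> omega

/-- the second part is a shift of the part from `j` to `i` -/
theorem fl5_co_eq (hj : j < n) (hij : i < j) : ∀ k < n - (j - i) + 1,
    sh (n - (j - i) + 1) (sh n v j) (n - j) k = co v i j k := by
  intro k hk
  rcases Nat.lt_or_ge i k with h | h
  · rw [fl5_co_gt h]
    have e1 : (n - j + k) % (n - (j - i) + 1) = k - (i + 1) := by
      have : n - j + k = (k - (i + 1)) + (n - (j - i) + 1) := by omega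
      rw [this, Nat.add_mod_right]
      exact Nat.mod_eq_of_lt (by omega)
    change sh n v j ((n - j + k) % (n - (j - i) + 1)) = _
    rw [e1, fl5_shk (by omega)]
    congr 1; omega
  · rw [fl5_co_le h]
    change sh n v j ((n - j + k) % (n - (j - i) + 1)) = _
    rw [Nat.mod_eq_of_lt (by omega)]
    unfold sh
    have : j + (n - j + k) = k + n := by omega
    rw [this, Nat.add_mod_right, Nat.mod_eq_of_lt (by omega)]

theorem fl5_split (P : PG n v) (D : Dg n v i j) : Split n (sh n v i) (j - i) := by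
  have h1 := D.lt
  have h2 := D.ltn
  have h3 := D.nl
  have hin : i < n := by omega
  have ej : sh n v i (j - i) = v j := by
    rw [fl5_shk (by omega)]; congr 1; omega
  have ei : sh n v i 0 = v i := fl5_sh0 hin
  refine ⟨by omega, by omega, ?_, ?_, ?_, ?_, ?_⟩
  · intro p hp hp1 hp2
    rw [ei, ej] at hp
    rw [ei] at hp1
    rw [ej] at hp2
    rw [inner_sh P.simple]
    apply D.see
    rw [← insert_endpoints_openSegment, mem_insert_iff, mem_insert_iff] at hp
    rcases hp with hp | hp | hp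
    · exact absurd hp hp1
    · exact absurd hp hp2
    · exact hp
  · rw [ei, ej, fl5_shk (by omega)]
    exact P.gen _ (by omega) _ (by omega) _ (by omega) (by omega) (by omega) (by omega)
  · rw [ei, ej, fl5_shk (by omega)]
    exact P.gen _ (by omega) _ (by omega) _ (by omega) (by omega) (by omega) (by omega)
  · rw [ei, ej]
    have e : sh n v i (j - i + 1) = v (nx n j) := by
      change v ((i + (j - i + 1)) % n) = v ((j + 1) % n)
      congr 2; omega
    rw [e]
    rcases nx_cases h2 with ⟨h4, h5⟩ | ⟨h4, h5⟩ <;> rw [h5] <;>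
      exact P.gen _ (by omega) _ (by omega) _ (by omega) (by omega) (by omega) (by omega)
  · rw [ei, ej]
    have e : sh n v i (n - 1) = v (pv n i) := rfl
    rw [e]
    rcases pv_cases hin with ⟨h4, h5⟩ | ⟨h4, h5⟩ <;> rw [h5] <;>
      exact P.gen _ (by omega) _ (by omega) _ (by omega) (by omega) (by omega) (by omega)

theorem fl5_sh_sh (hij : i ≤ j) : sh n (sh n v i) (j - i) = sh n v j := by
  rw [sh_sh]; congr 1; omega

end aux

section split

variable {n : ℕ} {v : ℕ → ℝ × ℝ} {i j : ℕ}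

theorem Dg.arc_pg (P : PG n v) (D : Dg n v i j) : PG (j - i + 1) (arc v i) := by
  have h1 := D.lt
  have h2 := D.ltn
  have s := fl5_split P D
  have hs := simple_sh P.simple i
  have hc := ccw_sh P.simple i P.ccw
  have he := fl5_arc_eq (v := v) h2 (show i ≤ j by omega)
  refine ⟨simple_congr he (s.simple1 hs), ccw_congr he (s.ccw hs hc).1, ?_⟩
  intro a ha b hb c hc h1 h2 h3
  exact P.gen _ (by omega) _ (by omega) _ (by omega) (by omega) (by omega) (by omega)

theorem fl5_simple2 (P : PG n v) (D : Dg n v i j) :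
    IsSimplePolygon (n - (j - i) + 1) (sh n v j) := by
  have s := fl5_split P D
  have h := s.simple2 (simple_sh P.simple i)
  rwa [fl5_sh_sh (by have := D.lt; omega)] at h

theorem fl5_ccw2 (P : PG n v) (D : Dg n v i j) : CCW (n - (j - i) + 1) (sh n v j) := by
  have s := fl5_split P D
  have h := (s.ccw (simple_sh P.simple i) (ccw_sh P.simple i P.ccw)).2
  rwa [fl5_sh_sh (by have := D.lt; omega)] at h

theorem Dg.co_pg (P : PG n v) (D : Dg n v i j) : PG (n - (j - i) + 1) (co v i j) := by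
  have h1 := D.lt
  have h2 := D.ltn
  have he := fl5_co_eq (v := v) h2 (show i < j by omega)
  have hs := fl5_simple2 P D
  refine ⟨simple_congr he (simple_sh hs _), ccw_congr he (ccw_sh hs _ (fl5_ccw2 P D)), ?_⟩
  intro a ha b hb c hc h3 h4 h5
  rw [fl5_co_cx, fl5_co_cx, fl5_co_cx]
  exact P.gen _ (fl5_cx_lt h2 (by omega) ha) _ (fl5_cx_lt h2 (by omega) hb) _
    (fl5_cx_lt h2 (by omega) hc) (fun h => h3 (fl5_cx_inj h1 h)) (fun h => h4 (fl5_cx_inj h1 h))
    (fun h => h5 (fl5_cx_inj h1 h))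

theorem fl5_region_arc (P : PG n v) (D : Dg n v i j) :
    region (j - i + 1) (sh n v i) = region (j - i + 1) (arc v i) :=
  region_congr_curve (curve_congr (fl5_arc_eq D.ltn (by have := D.lt; omega)))

theorem fl5_region_co (P : PG n v) (D : Dg n v i j) :
    region (n - (j - i) + 1) (sh n v j) = region (n - (j - i) + 1) (co v i j) := by
  rw [← region_sh (fl5_simple2 P D) (n - j)]
  exact region_congr_curve (curve_congr (fl5_co_eq D.ltn (by have := D.lt; omega)))

theorem Dg.region_eq (P : PG n v) (D : Dg n v i j) :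
    region n v = region (j - i + 1) (arc v i) ∪ region (n - (j - i) + 1) (co v i j) := by
  have s := fl5_split P D
  have h := s.region_eq (simple_sh P.simple i) (ccw_sh P.simple i P.ccw)
  rw [fl5_sh_sh (by have := D.lt; omega), region_sh P.simple, fl5_region_arc P D,
    fl5_region_co P D] at h
  exact h

theorem Dg.inner_arc (P : PG n v) (D : Dg n v i j) : inn (j - i + 1) (arc v i) ⊆ inn n v := by
  have h1 := (D.arc_pg P).simple
  have e : inn n v = interior (region n v) := (interior_region P.simple).symm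
  rw [e]
  apply interior_maximal _ (isOpen_inner _ _)
  rw [D.region_eq P]
  exact (inner_subset_region h1).trans subset_union_left

theorem Dg.inner_co (P : PG n v) (D : Dg n v i j) :
    inn (n - (j - i) + 1) (co v i j) ⊆ inn n v := by
  have h1 := (D.co_pg P).simple
  have e : inn n v = interior (region n v) := (interior_region P.simple).symm
  rw [e]
  apply interior_maximal _ (isOpen_inner _ _)
  rw [D.region_eq P]
  exact (inner_subset_region h1).trans subset_union_right

theorem fl5_curves (P : PG n v) (D : Dg n v i j) : curve (j - i + 1) (arc v i) ∪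
    curve (n - (j - i) + 1) (co v i j) = curve n v ∪ segment ℝ (v i) (v j) := by
  have h1 := D.lt
  have h2 := D.ltn
  have h := curve_parts (n := n) (v := sh n v i) (j := j - i) (by omega) (by omega)
  rw [fl5_sh_sh (by omega), curve_sh P.simple, fl5_sh0 (by omega)] at h
  have e1 : sh n v i (j - i) = v j := by
    rw [fl5_shk (by omega)]; congr 1; omega
  rw [e1] at h
  rw [← h, ← curve_sh (fl5_simple2 P D) (n - j)]
  rw [curve_congr (fl5_arc_eq (v := v) h2 (show i ≤ j by omega)),
    curve_congr (fl5_co_eq (v := v) h2 (show i < j by omega))]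

theorem Dg.inner_or (P : PG n v) (D : Dg n v i j) {p : ℝ × ℝ} (hp : p ∈ inn n v)
    (hd : p ∉ segment ℝ (v i) (v j)) :
    p ∈ inn (j - i + 1) (arc v i) ∨ p ∈ inn (n - (j - i) + 1) (co v i j) := by
  have h1 := (D.arc_pg P).simple
  have h2 := (D.co_pg P).simple
  have hr : p ∈ region n v := inner_subset_region P.simple hp
  have hc : p ∉ curve (j - i + 1) (arc v i) ∪ curve (n - (j - i) + 1) (co v i j) := by
    rw [fl5_curves P D]
    rintro (h | h)
    · exact hp.1 h
    · exact hd h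
  rw [D.region_eq P] at hr
  rcases hr with hr | hr
  · left
    rw [Pool.Agent.H75.PolyJ.region_eq h1] at hr
    rcases hr with hr | hr
    · exact absurd (Or.inl hr) hc
    · exact hr
  · right
    rw [Pool.Agent.H75.PolyJ.region_eq h2] at hr
    rcases hr with hr | hr
    · exact absurd (Or.inr hr) hc
    · exact hr

theorem Dg.disj1 (P : PG n v) (D : Dg n v i j) {p : ℝ × ℝ} (hp : p ∈ inn (j - i + 1) (arc v i)) :
    p ∉ region (n - (j - i) + 1) (co v i j) := by
  have s := fl5_split P D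
  have hp' : p ∈ inn (j - i + 1) (sh n v i) := by
    rw [fl5_inner_congr (fl5_arc_eq (v := v) D.ltn (show i ≤ j by have := D.lt; omega))]
    exact hp
  have h := (s.inner1 (simple_sh P.simple i) (ccw_sh P.simple i P.ccw) hp').2
  rw [fl5_sh_sh (by have := D.lt; omega), fl5_region_co P D] at h
  exact h

theorem Dg.disj2 (P : PG n v) (D : Dg n v i j) {p : ℝ × ℝ}
    (hp : p ∈ inn (n - (j - i) + 1) (co v i j)) : p ∉ region (j - i + 1) (arc v i) := by
  have h1 := (D.arc_pg P).simple
  have h2 := (D.co_pg P).simple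
  intro hr
  rw [← closure_inner h1] at hr
  obtain ⟨q, hq1, hq2⟩ := mem_closure_iff.1 hr _ (isOpen_inner _ _) hp
  exact D.disj1 P hq2 (inner_subset_region h2 hq1)

theorem gp_arc {p : ℝ × ℝ} (hj : j < n) (hij : i ≤ j) (h : GP n v p) :
    GP (j - i + 1) (arc v i) p := by
  intro a ha b hb hab
  exact h _ (by omega) _ (by omega) (by omega)

theorem gp_co {p : ℝ × ℝ} (hj : j < n) (hij : i < j) (h : GP n v p) :
    GP (n - (j - i) + 1) (co v i j) p := by
  intro a ha b hb hab
  rw [fl5_co_cx, fl5_co_cx]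
  exact h _ (fl5_cx_lt hj hij ha) _ (fl5_cx_lt hj hij hb) (fun he => hab (fl5_cx_inj' hij he))

theorem Dg.inner_or_gp (P : PG n v) (D : Dg n v i j) {p : ℝ × ℝ} (hp : p ∈ inn n v)
    (hg : GP n v p) :
    p ∈ inn (j - i + 1) (arc v i) ∨ p ∈ inn (n - (j - i) + 1) (co v i j) := by
  apply D.inner_or P hp
  intro hs
  have h1 := D.lt
  have h2 := D.ltn
  exact hg i (by omega) j h2 (by omega) (orient_of_mem hs)

/-- the turns of the parts -/
theorem tn_arc_mid (hj : j < n) {m : ℕ} (h1 : i < m) (h2 : m < j) :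
    tn (j - i + 1) (arc v i) (m - i) = tn n v m := by
  unfold tn
  rcases pv_cases (show m - i < j - i + 1 by omega) with ⟨-, e1⟩ | ⟨h, -⟩
  swap
  · omega
  rcases nx_cases (show m - i < j - i + 1 by omega) with ⟨-, e2⟩ | ⟨h, -⟩
  swap
  · omega
  rcases pv_cases (show m < n by omega) with ⟨-, e3⟩ | ⟨h, -⟩
  swap
  · omega
  rcases nx_cases (show m < n by omega) with ⟨-, e4⟩ | ⟨h, -⟩
  swap
  · omega
  rw [e1, e2, e3, e4]
  unfold arc
  congr 2 <;> omega

theorem tn_arc_0 (hj : j < n) (hij : i + 2 ≤ j) :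
    tn (j - i + 1) (arc v i) 0 = orient (v j) (v i) (v (i + 1)) := by
  unfold tn
  rcases pv_cases (show 0 < j - i + 1 by omega) with ⟨h, -⟩ | ⟨-, e1⟩
  · omega
  rcases nx_cases (show 0 < j - i + 1 by omega) with ⟨-, e2⟩ | ⟨h, -⟩
  swap
  · omega
  rw [e1, e2]
  unfold arc
  have : i + (j - i + 1 - 1) = j := by omega
  rw [this, Nat.add_zero, Nat.zero_add]

theorem tn_arc_last (hj : j < n) (hij : i + 2 ≤ j) :
    tn (j - i + 1) (arc v i) (j - i) = orient (v (j - 1)) (v j) (v i) := by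
  unfold tn
  rcases pv_cases (show j - i < j - i + 1 by omega) with ⟨-, e1⟩ | ⟨h, -⟩
  swap
  · omega
  rcases nx_cases (show j - i < j - i + 1 by omega) with ⟨h, -⟩ | ⟨-, e2⟩
  · omega
  rw [e1, e2]
  unfold arc
  have h1 : i + (j - i - 1) = j - 1 := by omega
  have h2 : i + (j - i) = j := by omega
  rw [h1, h2, Nat.add_zero]

theorem tn_co_lt (hj : j < n) (hij : i + 2 ≤ j) {m : ℕ} (h0 : 0 < m) (h1 : m < i) :
    tn (n - (j - i) + 1) (co v i j) m = tn n v m := by
  unfold tn
  rcases pv_cases (show m < n - (j - i) + 1 by omega) with ⟨-, e1⟩ | ⟨h, -⟩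
  swap
  · omega
  rcases nx_cases (show m < n - (j - i) + 1 by omega) with ⟨-, e2⟩ | ⟨h, -⟩
  swap
  · omega
  rcases pv_cases (show m < n by omega) with ⟨-, e3⟩ | ⟨h, -⟩
  swap
  · omega
  rcases nx_cases (show m < n by omega) with ⟨-, e4⟩ | ⟨h, -⟩
  swap
  · omega
  rw [e1, e2, e3, e4, fl5_co_le (by omega), fl5_co_le (by omega), fl5_co_le (by omega)]

theorem tn_co_0 (hj : j < n) (hij : i + 2 ≤ j) (hi : 0 < i) :
    tn (n - (j - i) + 1) (co v i j) 0 = tn n v 0 := by
  unfold tn
  rcases pv_cases (show 0 < n - (j - i) + 1 by omega) with ⟨h, -⟩ | ⟨-, e1⟩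
  · omega
  rcases nx_cases (show 0 < n - (j - i) + 1 by omega) with ⟨-, e2⟩ | ⟨h, -⟩
  swap
  · omega
  rcases pv_cases (show 0 < n by omega) with ⟨h, -⟩ | ⟨-, e3⟩
  · omega
  rcases nx_cases (show 0 < n by omega) with ⟨-, e4⟩ | ⟨h, -⟩
  swap
  · omega
  rw [e1, e2, e3, e4, fl5_co_gt (by omega), fl5_co_le (by omega), fl5_co_le (by omega)]
  congr 2; omega

theorem tn_co_gt (hj : j < n) (hij : i + 2 ≤ j) {m : ℕ} (h1 : j < m) (h2 : m < n) :
    tn (n - (j - i) + 1) (co v i j) (m - (j - i) + 1) = tn n v m := by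
  unfold tn
  rcases pv_cases (show m - (j - i) + 1 < n - (j - i) + 1 by omega) with ⟨-, e1⟩ | ⟨h, -⟩
  swap
  · omega
  rcases pv_cases (show m < n by omega) with ⟨-, e3⟩ | ⟨h, -⟩
  swap
  · omega
  rw [e1, e3, fl5_co_gt (by omega), fl5_co_gt (by omega)]
  have a1 : m - (j - i) + 1 - 1 + (j - i) - 1 = m - 1 := by omega
  have a2 : m - (j - i) + 1 + (j - i) - 1 = m := by omega
  rw [a1, a2]
  rcases nx_cases (show m < n by omega) with ⟨h3, e4⟩ | ⟨h3, e4⟩
  · rcases nx_cases (show m - (j - i) + 1 < n - (j - i) + 1 by omega) with ⟨-, e2⟩ | ⟨h, -⟩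
    swap
    · omega
    rw [e2, e4, fl5_co_gt (by omega)]
    congr 2; omega
  · rcases nx_cases (show m - (j - i) + 1 < n - (j - i) + 1 by omega) with ⟨h, -⟩ | ⟨-, e2⟩
    · omega
    rw [e2, e4, fl5_co_le (by omega)]

theorem tn_co_i (hj : j < n) (hij : i + 2 ≤ j) (hn : ¬ (i = 0 ∧ j + 1 = n)) :
    tn (n - (j - i) + 1) (co v i j) i = orient (v (pv n i)) (v i) (v j) := by
  unfold tn
  rcases nx_cases (show i < n - (j - i) + 1 by omega) with ⟨-, e2⟩ | ⟨h, -⟩
  swap
  · omega
  rw [e2, fl5_co_le (le_refl i), fl5_co_gt (show i < i + 1 by omega)]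
  have a2 : i + 1 + (j - i) - 1 = j := by omega
  rw [a2]
  rcases pv_cases (show i < n by omega) with ⟨h3, e3⟩ | ⟨h3, e3⟩
  · rcases pv_cases (show i < n - (j - i) + 1 by omega) with ⟨-, e1⟩ | ⟨h, -⟩
    swap
    · omega
    rw [e1, e3, fl5_co_le (by omega)]
  · rcases pv_cases (show i < n - (j - i) + 1 by omega) with ⟨h, -⟩ | ⟨-, e1⟩
    · omega
    rw [e1, e3, fl5_co_gt (by omega)]
    congr 2; omega

theorem tn_co_j (hj : j < n) (hij : i + 2 ≤ j) (hn : ¬ (i = 0 ∧ j + 1 = n)) :
    tn (n - (j - i) + 1) (co v i j) (i + 1) = orient (v i) (v j) (v (nx n j)) := by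
  unfold tn
  rcases pv_cases (show i + 1 < n - (j - i) + 1 by omega) with ⟨-, e1⟩ | ⟨h, -⟩
  swap
  · omega
  rw [e1, Nat.add_sub_cancel, fl5_co_le (le_refl i), fl5_co_gt (show i < i + 1 by omega)]
  have a2 : i + 1 + (j - i) - 1 = j := by omega
  rw [a2]
  rcases nx_cases hj with ⟨h3, e3⟩ | ⟨h3, e3⟩
  · rcases nx_cases (show i + 1 < n - (j - i) + 1 by omega) with ⟨-, e2⟩ | ⟨h, -⟩
    swap
    · omega
    rw [e2, e3, fl5_co_gt (by omega)]
    congr 2; omega
  · rcases nx_cases (show i + 1 < n - (j - i) + 1 by omega) with ⟨h, -⟩ | ⟨-, e2⟩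
    · omega
    rw [e2, e3, fl5_co_le (by omega)]

end split

end Pool.Agent.FL
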