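import Pool.Agent.FL.Turn
import Pool.Agent.FL.SplitIJ
import Pool.Agent.FL.Mirror

/-! MP_8a5d4f_co, project FL, row FL-29 -/

set_option autoImplicit false

namespace Pool.Agent.FL

open Set Filter Topology Pool.Agent.H54.Fl Pool.Agent.H75.PolyJ Pool.Agent.H95.Poly

section apix

theorem fl29_cyc (a b c : ℝ × ℝ) : orient a b c = orient b c a := by
  unfold orient; ring

theorem exists_ap {n : ℕ} {v : ℕ → ℝ × ℝ} (P : PG n v) (h0 : 0 < tn n v 0) :
    ∃ b c, Ap n b c v := by
  classical
  have hn : 3 ≤ n := P.simple.three_le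
  have h3 := three_le_kc P
  set S : Finset ℕ := ((Finset.range n).filter fun i => 0 < tn n v i) with hS
  have hk : kc n v = S.card := by
    unfold kc; rw [hS]
  rw [hk] at h3
  have h0S : 0 ∈ S := by
    rw [hS, Finset.mem_filter, Finset.mem_range]; exact ⟨by omega, h0⟩
  set T := S.erase 0 with hT
  have hTc : 2 ≤ T.card := by
    rw [hT, Finset.card_erase_of_mem h0S]; omega
  have hTne : T.Nonempty := Finset.card_pos.1 (by omega)
  have hmem : ∀ m, m ∈ T ↔ 0 < m ∧ m < n ∧ 0 < tn n v m := by
    intro m
    rw [hT, Finset.mem_erase, hS, Finset.mem_filter, Finset.mem_range]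
    constructor
    · rintro ⟨h1, h2, h3⟩; exact ⟨by omega, h2, h3⟩
    · rintro ⟨h1, h2, h3⟩; exact ⟨by omega, h2, h3⟩
  have hb := (hmem _).1 (T.min'_mem hTne)
  have hc := (hmem _).1 (T.max'_mem hTne)
  refine ⟨T.min' hTne, T.max' hTne, ⟨P, hb.1, ?_, hc.2.1, h0, hb.2.2, hc.2.2, ?_, ?_⟩⟩
  · exact Finset.min'_lt_max'_of_card T (by omega)
  · intro m hm1 hm2
    have hmn : m < n := lt_trans hm2 hb.2.1
    rcases lt_trichotomy (tn n v m) 0 with h | h | h
    · exact h
    · exact absurd h (tn_ne P hmn)
    · have := T.min'_le m ((hmem m).2 ⟨hm1, hmn, h⟩)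
      omega
  · intro m hm1 hm2
    rcases lt_trichotomy (tn n v m) 0 with h | h | h
    · exact h
    · exact absurd h (tn_ne P hm2)
    · have := T.le_max' m ((hmem m).2 ⟨by omega, hm2, h⟩)
      omega

theorem Ap.pt {n b c : ℕ} {v : ℕ → ℝ × ℝ} (A : Ap n b c v) (hk : kc n v = 3) : PT n b c v := by
  classical
  have hb := A.hb
  have hbc := A.hbc
  have hc := A.hc
  refine ⟨A.pg, A.hb, A.hbc, A.hc, A.c0, A.cb, A.cc, ?_⟩
  intro i hi h0 h1 h2
  rcases lt_trichotomy (tn n v i) 0 with h | h | h
  · exact h
  · exact absurd h (tn_ne A.pg hi)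
  · exfalso
    have hsub : ({0, b, c, i} : Finset ℕ) ⊆ (Finset.range n).filter fun i => 0 < tn n v i := by
      intro m hm
      simp only [Finset.mem_insert, Finset.mem_singleton] at hm
      rw [Finset.mem_filter, Finset.mem_range]
      rcases hm with rfl | rfl | rfl | rfl
      · exact ⟨by omega, A.c0⟩
      · exact ⟨by omega, A.cb⟩
      · exact ⟨by omega, A.cc⟩
      · exact ⟨hi, h⟩
    have hcard := Finset.card_le_card hsub
    have h4 : ({0, b, c, i} : Finset ℕ).card = 4 := by
      rw [Finset.card_insert_of_notMem, Finset.card_insert_of_notMem,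
        Finset.card_insert_of_notMem, Finset.card_singleton]
      · simp only [Finset.mem_singleton]; omega
      · simp only [Finset.mem_insert, Finset.mem_singleton]; omega
      · simp only [Finset.mem_insert, Finset.mem_singleton]; omega
    rw [h4] at hcard
    have hk' : ((Finset.range n).filter fun i => 0 < tn n v i).card = 3 := by
      rw [← hk]; unfold kc; congr 1
    omega

theorem Ap.mir {n b c : ℕ} {v : ℕ → ℝ × ℝ} (A : Ap n b c v) : Ap n (n - c) (n - b) (mir n v) := by
  have hb := A.hb
  have hbc := A.hbc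
  have hc := A.hc
  have hn : 0 < n := by omega
  have key : ∀ k, 0 < k → k < n → tn n (Pool.Agent.FL.mir n v) k = tn n v (n - k) := by
    intro k h1 h2
    rw [tn_mir hn h2, Nat.mod_eq_of_lt (by omega)]
  refine ⟨A.pg.mir, by omega, by omega, by omega, ?_, ?_, ?_, ?_, ?_⟩
  · rw [tn_mir hn hn, Nat.sub_zero, Nat.mod_self]; exact A.c0
  · rw [key _ (by omega) (by omega)]
    have : n - (n - c) = c := by omega
    rw [this]; exact A.cc
  · rw [key _ (by omega) (by omega)]
    have : n - (n - b) = b := by omega
    rw [this]; exact A.cb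
  · intro m h1 h2
    rw [key _ h1 (by omega)]
    exact A.rc _ (by omega) (by omega)
  · intro m h1 h2
    rw [key _ (by omega) h2]
    exact A.rb _ (by omega) (by omega)

/-- the two parts of a first diagonal and their apices -/
theorem FDc.ix {n b c i j : ℕ} {v : ℕ → ℝ × ℝ} (A : Ap n b c v) (F : FDc n v i j) :
    i < b ∧ b < j ∧ j < c ∧
    (∃ ca, Ap (j - i + 1) (b - i) ca (arc v i) ∧
      (0 < tn (j - i + 1) (arc v i) (j - i) → ca = j - i)) ∧
    (∃ bc, Ap (n - (j - i) + 1) bc (c - (j - i) + 1) (co v i j) ∧ i < bc ∧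
      (0 < tn (n - (j - i) + 1) (co v i j) (i + 1) → bc = i + 1)) ∧
    (0 < i → tn (n - (j - i) + 1) (co v i j) i < 0) := by
  have D := F.dg
  have hij := D.lt
  have hjn := D.ltn
  have hnl := D.nl
  have hb := A.hb
  have hbc := A.hbc
  have hc := A.hc
  have P := A.pg
  have hin : i < n := by omega
  have hib : i < b := by
    by_contra h
    have := F.ch b hb (by omega)
    have := A.cb
    linarith
  have hnxi : nx n i = i + 1 := by
    rcases nx_cases hin with ⟨_, h⟩ | ⟨h, _⟩
    · exact h
    · omega
  -- the reflex side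
  have hri : 0 < i → tn (n - (j - i) + 1) (co v i j) i < 0 := by
    intro hi
    rw [tn_co_i hjn hij hnl]
    rcases pv_cases hin with ⟨_, h⟩ | ⟨h, _⟩
    · rw [h]
      rcases F.ri with h' | h'
      · omega
      · exact h'
    · omega
  have hpvj : j ≠ pv n i := by
    rcases pv_cases hin with ⟨_, h⟩ | ⟨h, h'⟩
    · omega
    · intro h1; apply hnl; omega
  have hsec := see_sector_vx P hin hjn (by omega) hpvj (by omega) D.see
  rw [hnxi] at hsec
  -- the apex of the part `i … j` is convex
  have ha0 : 0 < tn (j - i + 1) (arc v i) 0 := by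
    rw [tn_arc_0 hjn hij, fl29_cyc]
    rcases Nat.eq_zero_or_pos i with hi | hi
    · subst hi
      rcases hsec with ⟨_, _, h⟩ | ⟨h, _⟩
      · exact h
      · have := A.c0; linarith
    · have hr : orient (v (pv n i)) (v i) (v j) < 0 := by
        have := hri hi
        rwa [tn_co_i hjn hij hnl] at this
      rcases hsec with ⟨h, _⟩ | ⟨_, h⟩
      · have := F.ch i hi le_rfl; linarith
      · rcases h with h | h
        · linarith
        · exact h
  -- the apex of the other part is convex
  have hc0 : 0 < tn (n - (j - i) + 1) (co v i j) 0 := by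
    rcases Nat.eq_zero_or_pos i with hi | hi
    · subst hi
      rw [tn_co_i hjn hij hnl]
      rcases hsec with ⟨_, h, _⟩ | ⟨h, _⟩
      · exact h
      · have := A.c0; linarith
    · rw [tn_co_0 hjn hij hi]; exact A.c0
  have Pa := D.arc_pg P
  have Pc := D.co_pg P
  obtain ⟨ba, ca, Aa⟩ := exists_ap Pa ha0
  obtain ⟨bc, cc, Ac⟩ := exists_ap Pc hc0
  have a1 := Aa.hb
  have a2 := Aa.hbc
  have a3 := Aa.hc
  have c1 := Ac.hb
  have c2 := Ac.hbc
  have c3 := Ac.hc
  -- `b < j`
  have hmid : ∀ k, 0 < k → k < j - i → tn (j - i + 1) (arc v i) k = tn n v (i + k) := by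
    intro k h1 h2
    have := tn_arc_mid (v := v) (i := i) hjn (m := i + k) (by omega) (by omega)
    rwa [show i + k - i = k by omega] at this
  have hbj : b < j := by
    have h1 : 0 < tn n v (i + ba) := by
      rw [← hmid ba a1 (by omega)]; exact Aa.cb
    by_contra h
    have := A.rb (i + ba) (by omega) (by omega)
    linarith
  -- first convex vertex of the part `i … j`
  have hba : ba = b - i := by
    rcases lt_trichotomy ba (b - i) with h | h | h
    · exfalso
      have h1 := Aa.cb
      rw [hmid ba a1 (by omega)] at h1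
      have := A.rb (i + ba) (by omega) (by omega)
      linarith
    · exact h
    · exfalso
      have h1 := Aa.rb (b - i) (by omega) h
      rw [hmid (b - i) (by omega) (by omega), show i + (b - i) = b by omega] at h1
      have := A.cb
      linarith
  -- the vertices of the other part
  have hgt : ∀ k, i + 1 < k → k < n - (j - i) + 1 →
      tn (n - (j - i) + 1) (co v i j) k = tn n v (k + (j - i) - 1) := by
    intro k h1 h2
    have := tn_co_gt (v := v) (i := i) hjn hij (m := k + (j - i) - 1) (by omega) (by omega)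
    rwa [show k + (j - i) - 1 - (j - i) + 1 = k by omega] at this
  have hlow : ∀ k, 0 < k → k ≤ i → tn (n - (j - i) + 1) (co v i j) k < 0 := by
    intro k h1 h2
    rcases Nat.lt_or_ge k i with h | h
    · rw [tn_co_lt hjn hij h1 h]
      exact F.ch k h1 h2
    · have : k = i := by omega
      rw [this]; exact hri (by omega)
  have hibc : i < bc := by
    by_contra h
    have h1 := hlow bc c1 (by omega)
    have := Ac.cb
    linarith
  have hjc : j < c := by
    have h1 := Ac.cc
    rw [hgt cc (by omega) c3] at h1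
    by_contra h
    have := A.rc (cc + (j - i) - 1) (by omega) (by omega)
    linarith
  have hcc : cc = c - (j - i) + 1 := by
    rcases lt_trichotomy cc (c - (j - i) + 1) with h | h | h
    · exfalso
      have h1 := Ac.rc (c - (j - i) + 1) h (by omega)
      rw [hgt _ (by omega) (by omega), show c - (j - i) + 1 + (j - i) - 1 = c by omega] at h1
      have := A.cc
      linarith
    · exact h
    · exfalso
      have h1 := Ac.cc
      rw [hgt cc (by omega) c3] at h1
      have := A.rc (cc + (j - i) - 1) (by omega) (by omega)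
      linarith
  refine ⟨hib, hbj, hjc, ⟨ca, hba ▸ Aa, ?_⟩, ⟨bc, hcc ▸ Ac, hibc, ?_⟩, hri⟩
  · intro h
    by_contra h'
    have := Aa.rc (j - i) (by omega) (by omega)
    linarith
  · intro h
    by_contra h'
    have := Ac.rb (i + 1) (by omega) (by omega)
    linarith

end apix

end Pool.Agent.FL
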