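import Pool.Agent.FL.SplitIJ

/-! MP_8a5d4f_co, project FL, row FL-6 -/

set_option autoImplicit false

namespace Pool.Agent.FL

open Set Filter Topology Pool.Agent.H54.Fl Pool.Agent.H75.PolyJ Pool.Agent.H95.Poly

section fl6

/-- The open segment between two boundary points which is in the union of a polygon, one of its
edges and a set `B` disjoint from the polygon is inside of the polygon, if the end points off the
line of the edge are not in the closure of `B`. -/
private theorem fl6_key {m k : ℕ} {w : ℕ → ℝ × ℝ} (Q : PG m w) (hk : k < m) {B : Set (ℝ × ℝ)}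
    (hB : IsOpen B) (hAB : Disjoint (inn m w) B) {p q : ℝ × ℝ}
    (hS : ∀ z ∈ openSegment ℝ p q, z ∈ segment ℝ (w k) (w (nx m k)) ∨ z ∈ inn m w ∨ z ∈ B)
    (hx : ∀ z ∈ openSegment ℝ p q, z ≠ w k ∧ z ≠ w (nx m k))
    (hp : orient (w k) (w (nx m k)) p ≠ 0 → p ∉ closure B)
    (hq : orient (w k) (w (nx m k)) q ≠ 0 → q ∉ closure B)
    (hpq : ¬ (orient (w k) (w (nx m k)) p = 0 ∧ orient (w k) (w (nx m k)) q = 0)) :
    See m w p q := by
  have hA : IsOpen (inn m w) := isOpen_inner m w
  -- a segment which avoids the edge and has an end point off the closure of `B`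
  have main : ∀ a b : ℝ × ℝ, (∀ z ∈ openSegment ℝ a b, z ∈ inn m w ∨ z ∈ B) →
      (a ∉ closure B ∨ b ∉ closure B) → See m w a b := by
    intro a b hz hab
    have hcon : IsPreconnected (openSegment ℝ a b) := (convex_openSegment a b).isPreconnected
    rcases hcon.subset_or_subset hA hB hAB (fun z hz' => hz z hz') with h1 | h1
    · exact fun z hz' => h1 hz'
    · exfalso
      have h2 : segment ℝ a b ⊆ closure B := by
        refine (segment_subset_closure_openSegment).trans (closure_mono h1)
      rcases hab with h3 | h3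
      · exact h3 (h2 (left_mem_segment ℝ a b))
      · exact h3 (h2 (right_mem_segment ℝ a b))
  by_cases hz : ∃ z ∈ openSegment ℝ p q, z ∈ segment ℝ (w k) (w (nx m k))
  · exfalso
    obtain ⟨z, hz1, hz2⟩ := hz
    have hz0 := orient_of_mem hz2
    obtain ⟨s, t, hs, ht, hst, hzz⟩ := hz1
    have hcomb := orient_comb (w k) (w (nx m k)) p q hst
    rw [hzz, hz0] at hcomb
    have hp0 : orient (w k) (w (nx m k)) p ≠ 0 := by
      intro h0
      refine hpq ⟨h0, ?_⟩
      rw [h0, mul_zero, zero_add] at hcomb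
      exact (mul_eq_zero.mp hcomb.symm).resolve_left ht.ne'
    have hq0 : orient (w k) (w (nx m k)) q ≠ 0 := by
      intro h0
      rw [h0, mul_zero, add_zero] at hcomb
      exact hp0 ((mul_eq_zero.mp hcomb.symm).resolve_left hs.ne')
    have hz1 : z ∈ openSegment ℝ p q := ⟨s, t, hs, ht, hst, hzz⟩
    have hzo : z ∈ openSegment ℝ (w k) (w (nx m k)) := by
      obtain ⟨h1, h2⟩ := hx z hz1
      exact mem_openSegment_of_ne_left_right (Ne.symm h1) (Ne.symm h2) hz2
    -- both halves are inside
    have half : ∀ a b : ℝ × ℝ, z ∈ openSegment ℝ a b →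
        (∀ y ∈ openSegment ℝ a b, y ∈ openSegment ℝ p q) →
        orient (w k) (w (nx m k)) a ≠ 0 → a ∉ closure B →
        0 ≤ orient (w k) (w (nx m k)) a := by
      intro a b hzab hsub ha0 haB
      have hs1 : See m w a z := by
        refine main a z ?_ (Or.inl haB)
        intro y hy
        have hyab : y ∈ openSegment ℝ p q := by
          apply hsub
          have h1 : openSegment ℝ a z ⊆ openSegment ℝ a b := by
            intro y hy
            obtain ⟨s1, t1, hs1, ht1, hst1, rfl⟩ := hy
            obtain ⟨s2, t2, hs2, ht2, hst2, rfl⟩ := hzab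
            refine ⟨s1 + t1 * s2, t1 * t2, by positivity, by positivity, ?_, ?_⟩
            · calc s1 + t1 * s2 + t1 * t2 = s1 + t1 * (s2 + t2) := by ring
                _ = 1 := by rw [hst2, mul_one, hst1]
            · rw [smul_add, smul_smul, smul_smul, add_smul, add_assoc]
          exact h1 hy
        rcases hS y hyab with h1 | h1
        · exfalso
          have h2 := orient_of_mem h1
          obtain ⟨s1, t1, hs1, ht1, hst1, hyy⟩ := hy
          have h3 := orient_comb (w k) (w (nx m k)) a z hst1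
          rw [hyy, h2, hz0, mul_zero, add_zero] at h3
          exact ha0 ((mul_eq_zero.mp h3.symm).resolve_left hs1.ne')
        · exact h1
      have hne : a ≠ z := by
        rintro rfl
        exact ha0 hz0
      exact left_of_hit Q hk hzo hne hs1
    have g1 := half p q hz1 (fun _ h => h) hp0 (hp hp0)
    have g2 := half q p (by rwa [openSegment_symm]) (fun y hy => by rwa [openSegment_symm]) hq0
      (hq hq0)
    have g3 : 0 < s * orient (w k) (w (nx m k)) p :=
      mul_pos hs (lt_of_le_of_ne g1 (Ne.symm hp0))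
    have g4 : 0 ≤ t * orient (w k) (w (nx m k)) q := mul_nonneg ht.le g2
    linarith
  · push Not at hz
    refine main p q (fun z hz' => (hS z hz').resolve_left (hz z hz')) ?_
    by_contra hcon
    push Not at hcon
    exact hpq ⟨by_contra fun h => hp h hcon.1, by_contra fun h => hq h hcon.2⟩

private theorem fl6_cx_lt {n i j k : ℕ} (h1 : i + 2 ≤ j) (h2 : j < n)
    (hk : k < n - (j - i) + 1) : cx i j k < n := by
  unfold cx; split_ifs <;> omega

private theorem fl6_cx_or {i j : ℕ} (k : ℕ) (h1 : i + 2 ≤ j) : cx i j k ≤ i ∨ j ≤ cx i j k := by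
  unfold cx; split_ifs <;> omega

private theorem fl6_cx_inj {i j k l : ℕ} (h1 : i + 2 ≤ j) (h : cx i j k = cx i j l) : k = l := by
  unfold cx at h; split_ifs at h <;> omega

private theorem fl6_cx_mono {i j k l : ℕ} (h1 : i + 2 ≤ j) (h : k < l) : cx i j k < cx i j l := by
  unfold cx; split_ifs <;> omega

private theorem fl6_co (v : ℕ → ℝ × ℝ) (i j k : ℕ) : co v i j k = v (cx i j k) := by
  unfold Pool.Agent.FL.co cx; split_ifs <;> rfl

private theorem fl6_cy_lt {n i j c : ℕ} (h1 : i + 2 ≤ j) (h2 : j < n) (hc : c < n) :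
    cy i j c < n - (j - i) + 1 := by
  unfold cy; split_ifs <;> omega

private theorem fl6_cx_cy {i j c : ℕ} (h1 : i + 2 ≤ j) (h : c ≤ i ∨ j ≤ c) :
    cx i j (cy i j c) = c := by
  unfold cx cy; split_ifs <;> omega

private theorem fl6_mod {m k : ℕ} (hm : 2 ≤ m) (hk : k < m) : (k + 1) % m < m ∧ (k + 1) % m ≠ k := by
  refine ⟨Nat.mod_lt _ (by omega), ?_⟩
  rcases Nat.lt_or_ge (k + 1) m with h | h
  · rw [Nat.mod_eq_of_lt h]; omega
  · have : k + 1 = m := by omega
    rw [this, Nat.mod_self]; omega

variable {n : ℕ} {v : ℕ → ℝ × ℝ} {i j : ℕ}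

private theorem fl6_A (P : PG n v) (D : Dg n v i j) {c : ℕ} (h1 : i < c) (h2 : c < j) :
    v c ∉ closure (inn (n - (j - i) + 1) (co v i j)) := by
  have Q := D.co_pg P
  have A := D.arc_pg P
  have hij := D.lt
  have hjn := D.ltn
  rw [closure_inner Q.simple, Pool.Agent.H75.PolyJ.region_eq Q.simple]
  rintro (hc | hc)
  · obtain ⟨k, hk, hc⟩ := hc
    have h3 := orient_of_mem hc
    rw [fl6_co, fl6_co] at h3
    obtain ⟨h4, h5⟩ := fl6_mod (m := n - (j - i) + 1) (by omega) hk
    have h6 := fl6_cx_or (i := i) (j := j) k hij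
    have h7 := fl6_cx_or (i := i) (j := j) ((k + 1) % (n - (j - i) + 1)) hij
    refine P.gen (cx i j k) (fl6_cx_lt hij hjn hk) _ (fl6_cx_lt hij hjn h4) c (by omega) ?_
      (by omega) (by omega) h3
    intro h8
    exact h5 (fl6_cx_inj hij h8).symm
  · have h3 : v c ∈ region (j - i + 1) (arc v i) := by
      apply curve_subset_region A.simple
      refine ⟨c - i, by omega, ?_⟩
      have : v c = arc v i (c - i) := by
        unfold arc; congr 1; omega
      rw [this]
      exact left_mem_segment ℝ _ _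
    rw [← closure_inner A.simple, mem_closure_iff] at h3
    obtain ⟨z, hz1, hz2⟩ := h3 _ (isOpen_inner _ _) hc
    exact D.disj1 P hz2 (inner_subset_region Q.simple hz1)

private theorem fl6_B (P : PG n v) (D : Dg n v i j) {c : ℕ} (hc' : c < n) (h1 : c < i ∨ j < c) :
    v c ∉ closure (inn (j - i + 1) (arc v i)) := by
  have Q := D.co_pg P
  have A := D.arc_pg P
  have hij := D.lt
  have hjn := D.ltn
  rw [closure_inner A.simple, Pool.Agent.H75.PolyJ.region_eq A.simple]
  rintro (hc | hc)
  · obtain ⟨k, hk, hc⟩ := hc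
    have h3 := orient_of_mem hc
    obtain ⟨h4, h5⟩ := fl6_mod (m := j - i + 1) (by omega) hk
    unfold arc at h3
    exact P.gen (i + k) (by omega) (i + (k + 1) % (j - i + 1)) (by omega) c hc' (by omega)
      (by omega) (by omega) h3
  · have h3 : v c ∈ region (n - (j - i) + 1) (co v i j) := by
      apply curve_subset_region Q.simple
      refine ⟨cy i j c, fl6_cy_lt hij hjn hc', ?_⟩
      have : v c = co v i j (cy i j c) := by
        rw [fl6_co, fl6_cx_cy hij (by omega)]
      rw [this]
      exact left_mem_segment ℝ _ _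
    rw [← closure_inner Q.simple, mem_closure_iff] at h3
    obtain ⟨z, hz1, hz2⟩ := h3 _ (isOpen_inner _ _) hc
    exact D.disj2 P hz2 (inner_subset_region A.simple hz1)

private theorem fl6_off {p : ℝ × ℝ} (hp : p ∈ inn n v) {c : ℕ} (hc : c < n) : p ≠ v c := by
  rintro rfl
  exact hp.1 ⟨c, hc, left_mem_segment ℝ _ _⟩

end fl6

section dgsub

variable {n : ℕ} {v : ℕ → ℝ × ℝ} {i j a b : ℕ}

/-- diagonals of the parts are diagonals -/
theorem Dg.of_arc (P : PG n v) (D : Dg n v i j) (h : Dg (j - i + 1) (arc v i) a b) :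
    Dg n v (i + a) (i + b) := by
  have h1 := h.lt
  have h2 := h.ltn
  have h3 := h.nl
  have h4 := D.lt
  have h5 := D.ltn
  exact ⟨by omega, by omega, by omega, fun z hz => D.inner_arc P (h.see z hz)⟩

theorem Dg.of_co (P : PG n v) (D : Dg n v i j) (h : Dg (n - (j - i) + 1) (co v i j) a b) :
    Dg n v (cx i j a) (cx i j b) := by
  have h1 := h.lt
  have h2 := h.ltn
  have h3 := h.nl
  have h4 := D.lt
  have h5 := D.ltn
  refine ⟨?_, fl6_cx_lt h4 h5 h2, ?_, fun z hz => D.inner_co P (h.see z ?_)⟩
  · unfold cx; split_ifs <;> omega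
  · unfold cx; split_ifs <;> omega
  · rw [fl6_co, fl6_co]
    exact hz

theorem Ed.of_co (P : PG n v) (D : Dg n v i j) (h : Ed (n - (j - i) + 1) (co v i j) a b)
    (hab : a < b) : Ed n v (cx i j a) (cx i j b) := by
  have h4 := D.lt
  have h5 := D.ltn
  rcases h with ⟨h1, h2⟩ | h
  · by_cases h6 : a = i ∧ b = i + 1
    · right
      obtain ⟨rfl, rfl⟩ := h6
      have e1 : cx a j a = a := by unfold cx; rw [if_pos le_rfl]
      have e2 : cx a j (a + 1) = j := by unfold cx; rw [if_neg (by omega)]; omega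
      rw [e1, e2]
      exact D
    · left
      refine ⟨fl6_cx_lt h4 h5 h1, ?_⟩
      unfold cx
      split_ifs <;> omega
  · exact Or.inr (Dg.of_co P D h)

theorem Ed.of_arc (P : PG n v) (D : Dg n v i j) (h : Ed (j - i + 1) (arc v i) a b)
    (hab : a < b) : Ed n v (i + a) (i + b) := by
  have h4 := D.lt
  have h5 := D.ltn
  rcases h with ⟨h1, h2 | ⟨h2, h3⟩⟩ | h
  · left
    exact ⟨by omega, Or.inl (by omega)⟩
  · right
    have e1 : i + a = i := by omega
    have e2 : i + b = j := by omega
    rw [e1, e2]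
    exact D
  · exact Or.inr (Dg.of_arc P D h)

/-- diagonals between vertices of a part are diagonals of the part -/
theorem Dg.arc_of (P : PG n v) (D : Dg n v i j) (E : Dg n v a b) (h1 : i ≤ a) (h2 : b ≤ j)
    (h3 : ¬ (a = i ∧ b = j)) : Dg (j - i + 1) (arc v i) (a - i) (b - i) := by
  have h4 := D.lt
  have h5 := D.ltn
  have h6 := E.lt
  refine ⟨by omega, by omega, by omega, ?_⟩
  have Q := D.co_pg P
  have A := D.arc_pg P
  have w1 : arc v i (j - i) = v j := by unfold arc; congr 1; omega
  have w2 : nx (j - i + 1) (j - i) = 0 := by unfold nx; exact Nat.mod_self _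
  have w3 : arc v i 0 = v i := rfl
  have w4 : arc v i (a - i) = v a := by unfold arc; congr 1; omega
  have w5 : arc v i (b - i) = v b := by unfold arc; congr 1; omega
  rw [w4, w5]
  refine fl6_key A (k := j - i) (by omega) (isOpen_inner (n - (j - i) + 1) (co v i j)) ?_ ?_ ?_
    ?_ ?_ ?_
  · rw [Set.disjoint_left]
    intro z hz1 hz2
    exact D.disj1 P hz1 (inner_subset_region Q.simple hz2)
  · intro z hz
    rw [w2, w1, w3, segment_symm]
    by_cases hd : z ∈ segment ℝ (v i) (v j)
    · exact Or.inl hd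
    · exact Or.inr (D.inner_or P (E.see z hz) hd)
  · intro z hz
    rw [w2, w1, w3]
    exact ⟨fl6_off (E.see z hz) h5, fl6_off (E.see z hz) (by omega)⟩
  · intro h0
    rw [w2, w1, w3] at h0
    have ha : a ≠ i := by
      rintro rfl
      exact h0 (orient_of_mem (right_mem_segment ℝ _ _))
    exact fl6_A P D (by omega) (by omega)
  · intro h0
    rw [w2, w1, w3] at h0
    have hb : b ≠ j := by
      rintro rfl
      exact h0 (orient_of_mem (left_mem_segment ℝ _ _))
    exact fl6_A P D (by omega) (by omega)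
  · rw [w2, w1, w3]
    rintro ⟨g1, g2⟩
    by_cases ha : a = i
    · have hb : b ≠ j := fun hb => h3 ⟨ha, hb⟩
      exact P.gen j h5 i (by omega) b (by omega) (by omega) (by omega) (by omega) g2
    · exact P.gen j h5 i (by omega) a (by omega) (by omega) (by omega) (by omega) g1

theorem Dg.co_of (P : PG n v) (D : Dg n v i j) (E : Dg n v a b) (h1 : a ≤ i ∨ j ≤ a)
    (h2 : b ≤ i ∨ j ≤ b) (h3 : ¬ (a = i ∧ b = j)) :
    Dg (n - (j - i) + 1) (co v i j) (cy i j a) (cy i j b) := by
  have h4 := D.lt
  have h5 := D.ltn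
  have h6 := E.lt
  have h7 := E.ltn
  have h8 := E.nl
  refine ⟨?_, fl6_cy_lt h4 h5 h7, ?_, ?_⟩
  · unfold cy; split_ifs <;> omega
  · rintro ⟨g1, g2⟩
    apply h8
    unfold cy at g1 g2
    split_ifs at g1 g2 <;> omega
  have Q := D.co_pg P
  have A := D.arc_pg P
  have w1 : co v i j i = v i := by
    rw [fl6_co]; unfold cx; rw [if_pos le_rfl]
  have w2 : nx (n - (j - i) + 1) i = i + 1 := by
    unfold nx; exact Nat.mod_eq_of_lt (by omega)
  have w3 : co v i j (i + 1) = v j := by
    rw [fl6_co]; unfold cx; rw [if_neg (by omega)]; congr 1; omega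
  have w4 : co v i j (cy i j a) = v a := by rw [fl6_co, fl6_cx_cy h4 h1]
  have w5 : co v i j (cy i j b) = v b := by rw [fl6_co, fl6_cx_cy h4 h2]
  rw [w4, w5]
  refine fl6_key Q (k := i) (by omega) (isOpen_inner (j - i + 1) (arc v i)) ?_ ?_ ?_
    ?_ ?_ ?_
  · rw [Set.disjoint_left]
    intro z hz1 hz2
    exact D.disj2 P hz1 (inner_subset_region A.simple hz2)
  · intro z hz
    rw [w2, w1, w3]
    by_cases hd : z ∈ segment ℝ (v i) (v j)
    · exact Or.inl hd
    · exact Or.inr (D.inner_or P (E.see z hz) hd).symm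
  · intro z hz
    rw [w2, w1, w3]
    exact ⟨fl6_off (E.see z hz) (by omega), fl6_off (E.see z hz) h5⟩
  · intro h0
    rw [w2, w1, w3] at h0
    have ha : a ≠ i := by
      rintro rfl
      exact h0 (orient_of_mem (left_mem_segment ℝ _ _))
    have ha' : a ≠ j := by
      rintro rfl
      exact h0 (orient_of_mem (right_mem_segment ℝ _ _))
    exact fl6_B P D (by omega) (by omega)
  · intro h0
    rw [w2, w1, w3] at h0
    have hb : b ≠ i := by
      rintro rfl
      exact h0 (orient_of_mem (left_mem_segment ℝ _ _))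
    have hb' : b ≠ j := by
      rintro rfl
      exact h0 (orient_of_mem (right_mem_segment ℝ _ _))
    exact fl6_B P D (by omega) (by omega)
  · rw [w2, w1, w3]
    rintro ⟨g1, g2⟩
    by_cases ha : a = i ∨ a = j
    · have hb : b ≠ i ∧ b ≠ j := by
        constructor
        · rintro rfl; omega
        · rintro rfl; omega
      exact P.gen i (by omega) j h5 b (by omega) (by omega) (by omega) (by omega) g2
    · exact P.gen i (by omega) j h5 a (by omega) (by omega) (by omega) (by omega) g1

end dgsub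

end Pool.Agent.FL
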