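import Pool.Agent.FL.Turn
import Pool.Agent.FL.DgSub

/-! MP_8a5d4f_co, project FL, row FL-15 -/

set_option autoImplicit false

namespace Pool.Agent.FL

open Set Filter Topology Pool.Agent.H54.Fl Pool.Agent.H75.PolyJ Pool.Agent.H95.Poly

section arm

variable {n : ℕ} {v : ℕ → ℝ × ℝ} {α β : ℕ}

/-- if all the vertices but three are reflex, then the three are distinct and convex -/
theorem fl15_three (P : PG n v) {a b c : ℕ}
    (h : ∀ i < n, i ≠ a → i ≠ b → i ≠ c → tn n v i < 0) :
    0 < tn n v a ∧ 0 < tn n v b ∧ 0 < tn n v c ∧ a ≠ b ∧ b ≠ c ∧ a ≠ c := by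
  classical
  have h3 := three_le_kc P
  unfold kc at h3
  have hsub : ((Finset.range n).filter fun i => 0 < tn n v i) ⊆ ({a, b, c} : Finset ℕ) := by
    intro i hi
    rw [Finset.mem_filter, Finset.mem_range] at hi
    by_contra hc
    simp only [Finset.mem_insert, Finset.mem_singleton, not_or] at hc
    exact absurd (h i hi.1 hc.1 hc.2.1 hc.2.2) (not_lt.mpr hi.2.le)
  have h3' : 3 ≤ ((Finset.range n).filter fun i => 0 < tn n v i).card := by
    convert h3
  have hle : ({a, b, c} : Finset ℕ).card ≤ 3 := Finset.card_le_three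
  have heq := Finset.eq_of_subset_of_card_le hsub (hle.trans h3')
  have hc3 : ({a, b, c} : Finset ℕ).card = 3 := le_antisymm hle (by rw [← heq]; exact h3')
  have hmem : ∀ i ∈ ({a, b, c} : Finset ℕ), 0 < tn n v i := by
    intro i hi
    rw [← heq, Finset.mem_filter] at hi
    exact hi.2
  refine ⟨hmem a (by simp), hmem b (by simp), hmem c (by simp), ?_, ?_, ?_⟩
  · rintro rfl
    have : ({a, a, c} : Finset ℕ).card ≤ 2 := by
      rw [Finset.insert_eq_of_mem (by simp)]; exact Finset.card_le_two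
    omega
  · rintro rfl
    have : ({a, b, b} : Finset ℕ).card ≤ 2 := by
      rw [show ({a, b, b} : Finset ℕ) = {a, b} by simp]; exact Finset.card_le_two
    omega
  · rintro rfl
    have : ({a, b, a} : Finset ℕ).card ≤ 2 := by
      rw [show ({a, b, a} : Finset ℕ) = {a, b} by
        ext x; simp only [Finset.mem_insert, Finset.mem_singleton]; tauto]
      exact Finset.card_le_two
    omega

/-- the turns inside an arc -/
theorem fl15_arc {i j : ℕ} (D : Dg n v i j) {k : ℕ} (hk : k < j - i + 1) (h0 : k ≠ 0)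
    (h1 : k ≠ j - i) : tn (j - i + 1) (arc v i) k = tn n v (i + k) := by
  have h := tn_arc_mid (v := v) (i := i) D.ltn (m := i + k) (by omega) (by omega)
  rwa [show i + k - i = k by omega] at h

/-- the turns of the other part beyond the diagonal -/
theorem fl15_co {i j : ℕ} (D : Dg n v i j) {k : ℕ} (hk : k < n - (j - i) + 1)
    (h1 : i + 1 < k) : tn (n - (j - i) + 1) (co v i j) k = tn n v (k + (j - i) - 1) := by
  have hl := D.lt
  have hn := D.ltn
  have h := tn_co_gt (v := v) (i := i) hn hl (m := k + (j - i) - 1) (by omega) (by omega)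
  rwa [show k + (j - i) - 1 - (j - i) + 1 = k by omega] at h

/-- the part around the corner `α` is a pseudo-triangle -/
theorem PT.arm (T : PT n α β v) {i j : ℕ} (hi : i < α) (hj : α < j) (hj2 : j ≤ β)
    (D : Dg n v i j) : PT (j - i + 1) (α - i) (j - i) (arc v i) := by
  have hP := D.arc_pg T.pg
  have hn := D.ltn
  have hr : ∀ k < j - i + 1, k ≠ 0 → k ≠ α - i → k ≠ j - i →
      tn (j - i + 1) (arc v i) k < 0 := by
    intro k hk h0 h1 h2
    rw [fl15_arc D hk h0 h2]
    exact T.rf _ (by omega) (by omega) (by omega) (by omega)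
  obtain ⟨a, b, c, -, -, -⟩ := fl15_three hP hr
  exact ⟨hP, by omega, by omega, by omega, a, b, c, hr⟩

/-- the part around the corner `β` is a pseudo-triangle -/
theorem PT.arm2 (T : PT n α β v) {j k : ℕ} (hj : α ≤ j) (hj2 : j < β) (hk : β < k)
    (D : Dg n v j k) : PT (k - j + 1) (β - j) (k - j) (arc v j) := by
  have hP := D.arc_pg T.pg
  have hn := D.ltn
  have h00 := T.h0
  have hr : ∀ m < k - j + 1, m ≠ 0 → m ≠ β - j → m ≠ k - j →
      tn (k - j + 1) (arc v j) m < 0 := by
    intro m hm h0 h1 h2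
    rw [fl15_arc D hm h0 h2]
    exact T.rf _ (by omega) (by omega) (by omega) (by omega)
  obtain ⟨a, b, c, -, -, -⟩ := fl15_three hP hr
  exact ⟨hP, by omega, by omega, by omega, a, b, c, hr⟩

/-- the part around the corner `0` is a pseudo-triangle -/
theorem PT.arm3 (T : PT n α β v) {i k : ℕ} (hi : 0 < i) (hi2 : i ≤ α) (hk : β ≤ k)
    (D : Dg n v i k) : PT (n - (k - i) + 1) i (i + 1) (co v i k) := by
  have hP := D.co_pg T.pg
  have hn := D.ltn
  have hl := D.lt
  have h00 := T.h0
  have h01 := T.h1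
  have hr : ∀ m < n - (k - i) + 1, m ≠ 0 → m ≠ i → m ≠ i + 1 →
      tn (n - (k - i) + 1) (co v i k) m < 0 := by
    intro m hm h0 h1 h2
    rcases lt_or_gt_of_ne h1 with h | h
    · rw [tn_co_lt hn hl (by omega) h]
      exact T.rf _ (by omega) (by omega) (by omega) (by omega)
    · rw [fl15_co D hm (by omega)]
      exact T.rf _ (by omega) (by omega) (by omega) (by omega)
  obtain ⟨a, b, c, -, -, -⟩ := fl15_three hP hr
  exact ⟨hP, by omega, by omega, by omega, a, b, c, hr⟩

/-- the other part for a diagonal of the corner `0` -/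
theorem PT.arm' (T : PT n α β v) {j : ℕ} (hj : α < j) (hj2 : j < β)
    (D : Dg n v 0 j) : PT (n - j + 1) 1 (β - j + 1) (co v 0 j) := by
  have hP : PG (n - j + 1) (co v 0 j) := D.co_pg T.pg
  have hn := D.ltn
  have hl := D.lt
  have h02 := T.h2
  have hr : ∀ m < n - j + 1, m ≠ 0 → m ≠ 1 → m ≠ β - j + 1 →
      tn (n - j + 1) (co v 0 j) m < 0 := by
    intro m hm h0 h1 h2
    have h := fl15_co D (k := m) hm (by omega)
    rw [Nat.sub_zero] at h
    rw [h]
    exact T.rf _ (by omega) (by omega) (by omega) (by omega)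
  obtain ⟨a, b, c, -, -, -⟩ := fl15_three hP hr
  exact ⟨hP, by omega, by omega, by omega, a, b, c, hr⟩

/-- in a pseudo-triangle there are no diagonals between vertices of a chain -/
theorem PT.no_dg (T : PT n α β v) {i j : ℕ} (D : Dg n v i j) :
    ¬ (j ≤ α) ∧ ¬ (α ≤ i ∧ j ≤ β) ∧ ¬ (β ≤ i) ∧ ¬ (i = 0 ∧ β ≤ j) := by
  have hn := D.ltn
  have hl := D.lt
  have h00 := T.h0
  have h01 := T.h1
  have h02 := T.h2
  have key : (∀ m, i < m → m < j → m ≠ α ∧ m ≠ β) → False := by
    intro hm
    have hr : ∀ k < j - i + 1, k ≠ 0 → k ≠ j - i → k ≠ j - i →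
        tn (j - i + 1) (arc v i) k < 0 := by
      intro k hk h0 h1 _
      rw [fl15_arc D hk h0 h1]
      obtain ⟨p, q⟩ := hm (i + k) (by omega) (by omega)
      exact T.rf _ (by omega) (by omega) p q
    exact (fl15_three (D.arc_pg T.pg) hr).2.2.2.2.1 rfl
  refine ⟨fun h => key fun m _ _ => ⟨by omega, by omega⟩,
    fun h => key fun m _ _ => ⟨by omega, by omega⟩,
    fun h => key fun m _ _ => ⟨by omega, by omega⟩, ?_⟩
  rintro ⟨rfl, hb⟩
  have hr : ∀ m < n - (j - 0) + 1, m ≠ 0 → m ≠ 1 → m ≠ 1 →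
      tn (n - (j - 0) + 1) (co v 0 j) m < 0 := by
    intro m hm h0 h1 _
    rw [fl15_co D hm (by omega)]
    exact T.rf _ (by omega) (by omega) (by omega) (by omega)
  exact (fl15_three (D.co_pg T.pg) hr).2.2.2.2.1 rfl

end arm

end Pool.Agent.FL
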