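import Pool.Agent.FL.Defs

/-! MP_8a5d4f_co, project FL, row FL-23 -/

set_option autoImplicit false

namespace Pool.Agent.FL

open Set Filter Topology Pool.Agent.H54.Fl Pool.Agent.H75.PolyJ Pool.Agent.H95.Poly

section gv

/-- the product of two cross products at the vertex `x` -/
theorem gv_id (x u w q p : ℝ × ℝ) : orient q x p * orient w x u =
    orient q x u * orient w x p + orient q x w * orient x u p := by
  unfold orient; ring

theorem gv_id2 (x u w q p : ℝ × ℝ) : orient x u p * orient q x w =
    orient q x p * orient w x u + orient q x u * orient x w p := by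
  unfold orient; ring

theorem gv_id3 (x u w q d : ℝ × ℝ) : cr d (x - q) * orient w x u =
    orient q x u * cr d (x - w) - orient q x w * cr (u - x) d := by
  simp only [orient, cr, Prod.fst_sub, Prod.snd_sub]; ring

theorem gv_id4 (x u w q d : ℝ × ℝ) : cr (u - x) d * orient q x w =
    - (cr d (x - q) * orient w x u) + orient q x u * cr (w - x) d := by
  simp only [orient, cr, Prod.fst_sub, Prod.snd_sub]; ring

/-- gluing at a vertex `x` with the next vertex `u`, the previous vertex `q` and the diagonal end
`w`; the part with the next edge `u` is reflex, the part with the previous edge `q` is convex -/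
theorem gv1 {x u w q p : ℝ × ℝ} (h1 : orient w x u < 0) (h2 : 0 < orient q x w)
    (h3 : orient q x u < 0) (h4 : orient w x p < 0) (h5 : 0 < orient x u p) :
    orient q x p < 0 := by
  have h := gv_id x u w q p
  by_contra hc
  push Not at hc
  have e1 : orient q x p * orient w x u ≤ 0 := mul_nonpos_of_nonneg_of_nonpos hc h1.le
  have e2 : 0 < orient q x u * orient w x p := mul_pos_of_neg_of_neg h3 h4
  have e3 : 0 < orient q x w * orient x u p := mul_pos h2 h5
  linarith

theorem gv2 {x u w q p : ℝ × ℝ} (h1 : orient w x u < 0) (h2 : 0 < orient q x w)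
    (h3 : orient q x u < 0) (h4 : 0 < orient q x p) (h5 : 0 < orient x w p) :
    orient x u p < 0 := by
  have h := gv_id2 x u w q p
  by_contra hc
  push Not at hc
  have e1 : 0 ≤ orient x u p * orient q x w := mul_nonneg hc h2.le
  have e2 : orient q x p * orient w x u < 0 := mul_neg_of_pos_of_neg h4 h1
  have e3 : orient q x u * orient x w p < 0 := mul_neg_of_neg_of_pos h3 h5
  linarith

theorem gv3 {x u w q d : ℝ × ℝ} (h1 : orient w x u < 0) (h2 : 0 < orient q x w)
    (h3 : orient q x u < 0) (h4 : 0 ≤ cr (u - x) d) (h5 : 0 ≤ cr d (x - w)) :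
    0 ≤ cr d (x - q) := by
  have h := gv_id3 x u w q d
  by_contra hc
  push Not at hc
  have e1 : 0 < cr d (x - q) * orient w x u := mul_pos_of_neg_of_neg hc h1
  have e2 : orient q x u * cr d (x - w) ≤ 0 := mul_nonpos_of_nonpos_of_nonneg h3.le h5
  have e3 : 0 ≤ orient q x w * cr (u - x) d := mul_nonneg h2.le h4
  linarith

/-- the mirror images -/
theorem gv1' {x u w q p : ℝ × ℝ} (h1 : orient q x w < 0) (h2 : 0 < orient w x u)
    (h3 : orient q x u < 0) (h4 : orient x w p < 0) (h5 : 0 < orient q x p) :
    orient x u p < 0 := by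
  have h := gv_id2 x u w q p
  by_contra hc
  push Not at hc
  have e1 : orient x u p * orient q x w ≤ 0 := mul_nonpos_of_nonneg_of_nonpos hc h1.le
  have e2 : 0 < orient q x p * orient w x u := mul_pos h5 h2
  have e3 : 0 < orient q x u * orient x w p := mul_pos_of_neg_of_neg h3 h4
  linarith

theorem gv2' {x u w q p : ℝ × ℝ} (h1 : orient q x w < 0) (h2 : 0 < orient w x u)
    (h3 : orient q x u < 0) (h4 : 0 < orient x u p) (h5 : 0 < orient w x p) :
    orient q x p < 0 := by
  have h := gv_id x u w q p
  by_contra hc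
  push Not at hc
  have e1 : 0 ≤ orient q x p * orient w x u := mul_nonneg hc h2.le
  have e2 : orient q x u * orient w x p < 0 := mul_neg_of_neg_of_pos h3 h5
  have e3 : orient q x w * orient x u p < 0 := mul_neg_of_neg_of_pos h1 h4
  linarith

theorem gv3' {x u w q d : ℝ × ℝ} (h1 : orient q x w < 0) (h2 : 0 < orient w x u)
    (h3 : orient q x u < 0) (h4 : 0 ≤ cr (w - x) d) (h5 : 0 ≤ cr d (x - q)) :
    0 ≤ cr (u - x) d := by
  have h := gv_id4 x u w q d
  by_contra hc
  push Not at hc
  have e1 : 0 < cr (u - x) d * orient q x w := mul_pos_of_neg_of_neg hc h1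
  have e2 : orient q x u * cr (w - x) d ≤ 0 := mul_nonpos_of_nonpos_of_nonneg h3.le h4
  have e3 : 0 ≤ cr d (x - q) * orient w x u := mul_nonneg h5 h2.le
  linarith

end gv

end Pool.Agent.FL
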