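import Pool.Agent.FL.DgSub
import Pool.Agent.FL.Arm
import Pool.Agent.H81.FL.Ear

/-! MP_8a5d4f_co, project FL, row FL-16 -/

set_option autoImplicit false

namespace Pool.Agent.FL

open Set Filter Topology Pool.Agent.H54.Fl Pool.Agent.H75.PolyJ Pool.Agent.H95.Poly

section parts

variable {n : ℕ} {v : ℕ → ℝ × ℝ} {α β i j k : ℕ}

/-- a counterclockwise triangle is positively oriented -/
theorem fl16_pos {w : ℕ → ℝ × ℝ} (P : PG 3 w) : 0 < orient (w 0) (w 1) (w 2) := by
  obtain ⟨m, hm, h⟩ := exists_convex P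
  rw [tn] at h
  interval_cases m
  · have h1 : 0 < orient (w 2) (w 0) (w 1) := h
    rwa [← orient_cyc] at h1
  · exact h
  · have h1 : 0 < orient (w 1) (w 2) (w 0) := h
    rwa [orient_cyc] at h1

/-- the points of the open triangle are inside -/
theorem fl16_inner {w : ℕ → ℝ × ℝ} (P : PG 3 w) {p : ℝ × ℝ} (h1 : 0 < orient (w 0) (w 1) p)
    (h2 : 0 < orient (w 1) (w 2) p) (h3 : 0 < orient (w 2) (w 0) p) : p ∈ inn 3 w := by
  refine Pool.Agent.H81.FL.small_inner P.simple P.ccw (j := 1) (by norm_num) (fl16_pos P)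
    (c := 0) le_rfl ?_ h1 h2 h3
  intro m hm g1 g2
  exfalso
  have g1' : 0 < orient (w 0) (w 1) (w m) := g1
  have g2' : 0 < orient (w 1) (w 2) (w m) := g2
  interval_cases m
  · rw [orient_self_left] at g1'
    exact lt_irrefl _ g1'
  · rw [orient_self_right] at g1'
    exact lt_irrefl _ g1'
  · rw [orient_self_right] at g2'
    exact lt_irrefl _ g2'

/-- an inner point is not strictly to the right of a line which has the curve on its left -/
theorem fl16_half {m : ℕ} {w : ℕ → ℝ × ℝ} (hS : IsSimplePolygon m w) {a b : ℝ × ℝ} (hab : a ≠ b)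
    (hc : ∀ l < m, 0 ≤ orient a b (w l)) {p : ℝ × ℝ} (hp : p ∈ inn m w) :
    0 ≤ orient a b p := by
  by_contra hneg
  rw [not_le] at hneg
  have hreg : p ∈ region m w := inner_subset_region hS hp
  have hdis : Disjoint {q | orient a b q < 0} (curve m w) := by
    rw [Set.disjoint_left]
    rintro q hq ⟨l, hl, hql⟩
    have hm : 0 < m := by have := hS.three_le; omega
    have h1 := hc l hl
    have h2 := hc _ (nx_lt hm l)
    have h3 : 0 ≤ orient a b q := Pool.Agent.H81.FL.orient_nonneg_seg hql h1 h2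
    exact absurd hq (not_lt.2 h3)
  have hb := hreg {q | orient a b q < 0} ⟨⟨p, hneg⟩, (convex_neg a b).isPreconnected⟩ hneg hdis
  -- the half-plane is not bounded
  obtain ⟨R, hR⟩ := hb.subset_ball p
  have hne : b - a ≠ 0 := sub_ne_zero.2 (Ne.symm hab)
  have hn : 0 < ‖b - a‖ := norm_pos_iff.2 hne
  have hR0 : 0 < R := by
    have := hR hneg
    rw [Metric.mem_ball, dist_self] at this
    exact this
  have hq : orient a b (p + (R / ‖b - a‖) • (b - a)) < 0 := by
    have : orient a b (p + (R / ‖b - a‖) • (b - a)) = orient a b p := by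
      unfold orient
      simp only [Prod.fst_add, Prod.smul_fst, Prod.snd_add, Prod.smul_snd, smul_eq_mul,
        Prod.fst_sub, Prod.snd_sub]
      ring
    rw [this]
    exact hneg
  have h4 := hR hq
  rw [Metric.mem_ball, dist_eq_norm, add_sub_cancel_left, norm_smul, Real.norm_eq_abs, abs_div,
    abs_of_pos hR0, abs_of_pos hn, div_mul_cancel₀ _ hn.ne'] at h4
  exact lt_irrefl _ h4

theorem fl16_of_inner {w : ℕ → ℝ × ℝ} (P : PG 3 w) {p : ℝ × ℝ} (hp : p ∈ inn 3 w) :
    0 ≤ orient (w 0) (w 1) p ∧ 0 ≤ orient (w 1) (w 2) p ∧ 0 ≤ orient (w 2) (w 0) p := by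
  have hpos := fl16_pos P
  have e1 : orient (w 1) (w 2) (w 0) = orient (w 0) (w 1) (w 2) := orient_cyc _ _ _
  have e2 : orient (w 2) (w 0) (w 1) = orient (w 0) (w 1) (w 2) := by
    rw [orient_cyc, orient_cyc]
  have d0 : w 0 ≠ w 1 := edge_nondeg P.simple (i := 0) (by norm_num)
  have d1 : w 1 ≠ w 2 := edge_nondeg P.simple (i := 1) (by norm_num)
  have d2 : w 2 ≠ w 0 := edge_nondeg P.simple (i := 2) (by norm_num)
  refine ⟨?_, ?_, ?_⟩
  · refine fl16_half P.simple d0 ?_ hp
    intro l hl
    interval_cases l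
    · rw [orient_self_left]
    · rw [orient_self_right]
    · exact hpos.le
  · refine fl16_half P.simple d1 ?_ hp
    intro l hl
    interval_cases l
    · rw [e1]; exact hpos.le
    · rw [orient_self_left]
    · rw [orient_self_right]
  · refine fl16_half P.simple d2 ?_ hp
    intro l hl
    interval_cases l
    · rw [orient_self_right]
    · rw [e2]; exact hpos.le
    · rw [orient_self_left]

/-- the core triangle as a part of the polygon -/
theorem fl16_data (C : Core n α β i j k v) : ∃ w : ℕ → ℝ × ℝ, PG 3 w ∧ w 0 = v i ∧ w 1 = v j ∧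
    w 2 = v k ∧ inn 3 w ⊆ inn n v ∧ ∀ p, p ∈ inn n v → GP n v p →
      p ∈ inn (j - i + 1) (arc v i) ∨ p ∈ inn (k - j + 1) (arc v j) ∨
        p ∈ inn (n - (k - i) + 1) (co v i k) ∨ p ∈ inn 3 w := by
  have P := C.pt.pg
  have hi1 := C.i1
  have hj0 := C.j0
  have hj1 := C.j1
  have hk0 := C.k0
  have hk1 := C.k1
  have lij := C.dij.lt
  have ljk := C.djk.lt
  -- the part `i, …, k`
  have P1 := C.dik.arc_pg P
  have D1 : Dg (k - i + 1) (arc v i) 0 (j - i) := by
    have h := C.dik.arc_of P C.dij le_rfl (by omega) (by omega)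
    rwa [Nat.sub_self] at h
  have E1 : Dg (k - i + 1) (arc v i) (j - i) (k - i) :=
    C.dik.arc_of P C.djk (by omega) le_rfl (by omega)
  -- the part `i, j, …, k`
  have P2 := D1.co_pg P1
  have D2 := D1.co_of P1 E1 (Or.inr le_rfl) (Or.inr (by omega)) (by omega)
  have c1 : cy 0 (j - i) (j - i) = 1 := by
    rw [cy, if_neg (by omega)]
    omega
  have c2 : cy 0 (j - i) (k - i) = k - j + 1 := by
    rw [cy, if_neg (by omega)]
    omega
  have n2 : k - i + 1 - (j - i - 0) + 1 = k - j + 2 := by omega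
  rw [c1, c2, n2] at D2
  rw [n2] at P2
  have P3 := D2.co_pg P2
  have n3 : k - j + 2 - (k - j + 1 - 1) + 1 = 3 := by omega
  rw [n3] at P3
  set v2 : ℕ → ℝ × ℝ := co (arc v i) 0 (j - i) with hv2
  have a0 : v2 0 = v i := by rw [hv2, co, if_pos le_rfl, arc, add_zero]
  have a1 : ∀ m, v2 (1 + m) = v (j + m) := by
    intro m
    rw [hv2, co, if_neg (by omega), arc]
    congr 1
    omega
  have harc2 : arc v2 1 = arc v j := by
    funext m
    exact a1 m
  have harc1 : arc (arc v i) 0 = arc v i := by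
    funext m
    simp only [arc, zero_add]
  refine ⟨co v2 1 (k - j + 1), P3, ?_, ?_, ?_, ?_, ?_⟩
  · rw [co, if_pos (by omega)]
    exact a0
  · rw [co, if_pos le_rfl]
    have := a1 0
    rwa [add_zero, add_zero] at this
  · rw [co, if_neg (by omega)]
    have h : 2 + (k - j + 1 - 1) - 1 = 1 + (k - j) := by omega
    rw [h, a1]
    congr 1
    omega
  · intro p hp
    have h1 : p ∈ inn (k - j + 2) v2 := by
      refine D2.inner_co P2 ?_
      rw [n3]
      exact hp
    have h2 : p ∈ inn (k - i + 1) (arc v i) := by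
      refine D1.inner_co P1 ?_
      rw [n2]
      exact h1
    exact C.dik.inner_arc P h2
  · intro p hp hg
    rcases C.dik.inner_or_gp P hp hg with h1 | h1
    · have hg1 := gp_arc (i := i) (j := k) hk1 (by omega) hg
      rcases D1.inner_or_gp P1 h1 hg1 with h2 | h2
      · left
        rw [harc1, Nat.sub_zero] at h2
        exact h2
      · have hg2 := gp_co (i := 0) (j := j - i) (by omega) (by omega) hg1
        rw [n2] at h2 hg2
        rcases D2.inner_or_gp P2 h2 hg2 with h3 | h3
        · right; left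
          rw [harc2, Nat.add_sub_cancel] at h3
          exact h3
        · right; right; right
          rw [n3] at h3
          exact h3
    · right; right; left
      exact h1

theorem Core.pos (C : Core n α β i j k v) : 0 < orient (v i) (v j) (v k) := by
  obtain ⟨w, P, h0, h1, h2, -, -⟩ := fl16_data C
  rw [← h0, ← h1, ← h2]
  exact fl16_pos P

/-- the three arms and the core triangle -/
theorem Core.parts (C : Core n α β i j k v) {p : ℝ × ℝ} (hp : p ∈ inn n v) (hg : GP n v p) :
    p ∈ inn (j - i + 1) (arc v i) ∨ p ∈ inn (k - j + 1) (arc v j) ∨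
      p ∈ inn (n - (k - i) + 1) (co v i k) ∨
      (0 < orient (v i) (v j) p ∧ 0 < orient (v j) (v k) p ∧ 0 < orient (v k) (v i) p) := by
  obtain ⟨w, P, h0, h1, h2, -, h⟩ := fl16_data C
  have hi1 := C.i1
  have hj0 := C.j0
  have hj1 := C.j1
  have hk0 := C.k0
  have hk1 := C.k1
  rcases h p hp hg with h3 | h3 | h3 | h3
  · exact Or.inl h3
  · exact Or.inr (Or.inl h3)
  · exact Or.inr (Or.inr (Or.inl h3))
  · right; right; right
    have h4 := fl16_of_inner P h3
    rw [h0, h1, h2] at h4
    exact ⟨lt_of_le_of_ne h4.1 (Ne.symm (hg i (by omega) j (by omega) (by omega))),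
      lt_of_le_of_ne h4.2.1 (Ne.symm (hg j (by omega) k (by omega) (by omega))),
      lt_of_le_of_ne h4.2.2 (Ne.symm (hg k (by omega) i (by omega) (by omega)))⟩

/-- the open triangle is stable under moving towards a point of the closed triangle -/
theorem fl16_move {a b p q z : ℝ × ℝ} (hz : z ∈ openSegment ℝ p q) (h : 0 < orient a b p)
    (hq : 0 ≤ orient a b q) : 0 < orient a b z := by
  obtain ⟨s, t, hs, ht, hst, rfl⟩ := hz
  rw [orient_comb _ _ _ _ hst]
  have h1 := mul_pos hs h
  have h2 := mul_nonneg ht.le hq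
  linarith

theorem Core.tri (C : Core n α β i j k v) {p : ℝ × ℝ} (h1 : 0 < orient (v i) (v j) p)
    (h2 : 0 < orient (v j) (v k) p) (h3 : 0 < orient (v k) (v i) p) :
    p ∈ inn n v ∧ See n v p (v i) ∧ See n v p (v j) ∧ See n v p (v k) := by
  obtain ⟨w, P, g0, g1, g2, hsub, -⟩ := fl16_data C
  have hpos := C.pos
  have e1 : orient (v j) (v k) (v i) = orient (v i) (v j) (v k) := orient_cyc _ _ _
  have e2 : orient (v k) (v i) (v j) = orient (v i) (v j) (v k) := by
    rw [orient_cyc, orient_cyc]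
  have key : ∀ z : ℝ × ℝ, 0 < orient (v i) (v j) z → 0 < orient (v j) (v k) z →
      0 < orient (v k) (v i) z → z ∈ inn n v := by
    intro z k1 k2 k3
    refine hsub (fl16_inner P ?_ ?_ ?_)
    · rw [g0, g1]; exact k1
    · rw [g1, g2]; exact k2
    · rw [g2, g0]; exact k3
  refine ⟨key p h1 h2 h3, fun z hz => key z ?_ ?_ ?_, fun z hz => key z ?_ ?_ ?_,
    fun z hz => key z ?_ ?_ ?_⟩
  · exact fl16_move hz h1 (by rw [orient_self_left])
  · exact fl16_move hz h2 (by rw [e1]; exact hpos.le)
  · exact fl16_move hz h3 (by rw [orient_self_right])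
  · exact fl16_move hz h1 (by rw [orient_self_right])
  · exact fl16_move hz h2 (by rw [orient_self_left])
  · exact fl16_move hz h3 (by rw [e2]; exact hpos.le)
  · exact fl16_move hz h1 hpos.le
  · exact fl16_move hz h2 (by rw [orient_self_right])
  · exact fl16_move hz h3 (by rw [orient_self_left])

end parts

end Pool.Agent.FL
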