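import Pool.Agent.FL.Half
import Pool.Agent.FL.Parts
import Pool.Agent.FL.Gv

/-! MP_8a5d4f_co, project FL, row FL-20 -/

set_option autoImplicit false

namespace Pool.Agent.FL

open Set Filter Topology Pool.Agent.H54.Fl Pool.Agent.H75.PolyJ Pool.Agent.H95.Poly

section dcov

variable {n : ℕ} {v : ℕ → ℝ × ℝ} {α β i j k : ℕ}

/-! ### planar vector lemmas -/

theorem fl20_v1 {x u y w p : ℝ × ℝ} (h1 : 0 < orient y x u) (h2 : orient x u p < 0)
    (h3 : 0 < orient x y p) (h4 : 0 < orient w x p) (h5 : 0 < orient x y w) :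
    orient w x u < 0 := by
  have h : orient w x u * orient x y p = orient x u p * orient x y w - orient y x u * orient w x p := by
    unfold orient
    ring
  by_contra hc
  push Not at hc
  have a1 := mul_nonneg hc h3.le
  have a2 := mul_neg_of_neg_of_pos h2 h5
  have a3 := mul_pos h1 h4
  linarith

theorem fl20_v1' {x q y w p : ℝ × ℝ} (h1 : 0 < orient q x w) (h2 : orient q x p < 0)
    (h3 : 0 < orient x y p) (h4 : 0 < orient w x p) (h5 : 0 < orient x y w) :
    orient q x y < 0 := by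
  have h : orient q x y * orient w x p = orient q x p * orient x y w - orient q x w * orient x y p := by
    unfold orient
    ring
  by_contra hc
  push Not at hc
  have a1 := mul_nonneg hc h4.le
  have a2 := mul_neg_of_neg_of_pos h2 h5
  have a3 := mul_pos h1 h3
  linarith

theorem fl20_v3 {x u y p p0 : ℝ × ℝ} (h1 : 0 < orient y x u) (h2 : 0 < orient x u p)
    (h3 : orient x u p0 < 0) (h4 : 0 < orient x y p) (h5 : 0 < orient x y p0) :
    0 < orient x p p0 := by
  have h : orient y x u * orient x p p0 = orient x u p * orient x y p0 - orient x u p0 * orient x y p := by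
    unfold orient
    ring
  by_contra hc
  push Not at hc
  have a1 := mul_nonpos_of_nonneg_of_nonpos h1.le hc
  have a2 := mul_pos h2 h5
  have a3 := mul_neg_of_neg_of_pos h3 h4
  linarith

theorem fl20_v3' {x q w p p0 : ℝ × ℝ} (h1 : 0 < orient q x w) (h2 : 0 < orient q x p)
    (h3 : orient q x p0 < 0) (h4 : 0 < orient w x p) (h5 : 0 < orient w x p0) :
    0 < orient x p0 p := by
  have h : orient q x w * orient x p0 p = orient q x p * orient w x p0 - orient q x p0 * orient w x p := by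
    unfold orient
    ring
  by_contra hc
  push Not at hc
  have a1 := mul_nonpos_of_nonneg_of_nonpos h1.le hc
  have a2 := mul_pos h2 h5
  have a3 := mul_neg_of_neg_of_pos h3 h4
  linarith

theorem fl20_v4 {x y z p p0 : ℝ × ℝ} (h1 : 0 < orient x y p0) (h2 : 0 < orient y z p0)
    (h3 : 0 < orient z x p0) (g1 : 0 < orient x p p0) (g2 : 0 < orient y p p0)
    (g3 : 0 < orient z p p0) : False := by
  have h : orient y z p0 * orient x p p0 + orient z x p0 * orient y p p0 +
      orient x y p0 * orient z p p0 = 0 := by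
    unfold orient
    ring
  have a1 := mul_pos h2 g1
  have a2 := mul_pos h3 g2
  have a3 := mul_pos h1 g3
  linarith

theorem fl20_cyc (a b c : ℝ × ℝ) : orient a b c = orient b c a := by
  unfold orient
  ring

theorem fl20_crH {a x p : ℝ × ℝ} : cr (x - a) (p - x) = orient a x p := by
  simp only [cr, orient, Prod.fst_sub, Prod.snd_sub]
  ring

theorem fl20_crH' {b x p : ℝ × ℝ} : cr (b - x) (p - x) = orient x b p := by
  simp only [cr, orient, Prod.fst_sub, Prod.snd_sub]

/-! ### seeing inside a part -/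

/-- the points `p + t (x - p)`, `0 ≤ t < 1` -/
theorem fl20_conn {A B : Set (ℝ × ℝ)} (hA : IsOpen A) (hB : IsOpen B) (hAB : Disjoint A B)
    {p x : ℝ × ℝ} (hp : p ∈ A) (h : ∀ z ∈ openSegment ℝ p x, z ∈ A ∨ z ∈ B) :
    ∀ z ∈ openSegment ℝ p x, z ∈ A := by
  set S : Set (ℝ × ℝ) := (fun t : ℝ => p + t • (x - p)) '' Set.Ico 0 1 with hS
  have hSc : IsPreconnected S := by
    refine isPreconnected_Ico.image _ ?_
    exact (Continuous.continuousOn (by fun_prop))
  have hos : ∀ z ∈ openSegment ℝ p x, z ∈ S := by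
    rintro z ⟨a, b, ha, hb, hab, rfl⟩
    refine ⟨b, ⟨hb.le, by linarith⟩, ?_⟩
    have ha' : a = 1 - b := by linarith
    subst ha'
    simp only [smul_sub, sub_smul, one_smul]
    abel
  have hcov : S ⊆ A ∪ B := by
    rintro z ⟨t, ⟨ht0, ht1⟩, rfl⟩
    rcases ht0.eq_or_lt with h0 | h0
    · left
      rw [← h0]
      simpa using hp
    · have hz : p + t • (x - p) ∈ openSegment ℝ p x := by
        refine ⟨1 - t, t, by linarith, h0, by ring, ?_⟩
        simp only [smul_sub, sub_smul, one_smul]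
        abel
      rcases h _ hz with h1 | h1
      · exact Or.inl h1
      · exact Or.inr h1
  have hpS : p ∈ S := ⟨0, ⟨le_rfl, one_pos⟩, by simp⟩
  have hsub := hSc.subset_left_of_subset_union hA hB hAB hcov ⟨p, hpS, hp⟩
  exact fun z hz => hsub (hos z hz)

theorem fl20_notseg {a b p x : ℝ × ℝ} (hx : x = a ∨ x = b) (hg : orient a b p ≠ 0)
    {z : ℝ × ℝ} (hz : z ∈ openSegment ℝ p x) : z ∉ segment ℝ a b := by
  have hx0 : orient a b x = 0 := by
    rcases hx with rfl | rfl
    · unfold orient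
      ring
    · unfold orient
      ring
  obtain ⟨s, t, hs, ht, hst, rfl⟩ := hz
  rintro ⟨c, d, hc, hd, hcd, he⟩
  have h1 : orient a b (s • p + t • x) = s * orient a b p + t * orient a b x := by
    have ht' : t = 1 - s := by linarith
    subst ht'
    simp only [orient, Prod.fst_add, Prod.snd_add, Prod.smul_fst, Prod.smul_snd, smul_eq_mul]
    ring
  have h2 : orient a b (c • a + d • b) = 0 := by
    have hd' : d = 1 - c := by linarith
    subst hd'
    simp only [orient, Prod.fst_add, Prod.snd_add, Prod.smul_fst, Prod.smul_snd, smul_eq_mul]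
    ring
  rw [← he, h2, hx0, mul_zero, add_zero] at h1
  exact mul_ne_zero hs.ne' hg h1.symm

theorem fl20_see_arc (P : PG n v) (D : Dg n v i j) {p x : ℝ × ℝ} (hg : GP n v p)
    (hp : p ∈ inn (j - i + 1) (arc v i)) (hx : x = v i ∨ x = v j) (hs : See n v p x) :
    See (j - i + 1) (arc v i) p x := by
  have hlt := D.lt
  have hln := D.ltn
  have hne : orient (v i) (v j) p ≠ 0 := hg i (by omega) j hln (by omega)
  refine fl20_conn (isOpen_inner _ _) (isOpen_inner (n - (j - i) + 1) (co v i j)) ?_ hp ?_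
  · rw [Set.disjoint_left]
    intro z hz1 hz2
    exact D.disj1 P hz1 (inner_subset_region (D.co_pg P).simple hz2)
  · intro z hz
    exact D.inner_or P (hs z hz) (fl20_notseg hx hne hz)

theorem fl20_see_co (P : PG n v) (D : Dg n v i j) {p x : ℝ × ℝ} (hg : GP n v p)
    (hp : p ∈ inn (n - (j - i) + 1) (co v i j)) (hx : x = v i ∨ x = v j) (hs : See n v p x) :
    See (n - (j - i) + 1) (co v i j) p x := by
  have hlt := D.lt
  have hln := D.ltn
  have hne : orient (v i) (v j) p ≠ 0 := hg i (by omega) j hln (by omega)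
  refine fl20_conn (isOpen_inner _ _) (isOpen_inner (j - i + 1) (arc v i)) ?_ hp ?_
  · rw [Set.disjoint_left]
    intro z hz1 hz2
    exact D.disj2 P hz1 (inner_subset_region (D.arc_pg P).simple hz2)
  · intro z hz
    exact (D.inner_or P (hs z hz) (fl20_notseg hx hne hz)).symm

/-- the sector at a convex vertex -/
theorem fl20_sec {N : ℕ} {w : ℕ → ℝ × ℝ} (P : PG N w) {m : ℕ} (hm : m < N) (ht : 0 < tn N w m)
    {p : ℝ × ℝ} (hg : GP N w p) (hs : See N w p (w m)) :
    0 < orient (w (pv N m)) (w m) p ∧ 0 < orient (w m) (w (nx N m)) p := by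
  rcases see_sector_gp P hm hg hs.symm with h | h
  · exact h.2
  · exact absurd h.1 (not_lt.2 ht.le)

theorem fl20_nx {m : ℕ} (hm : m + 1 < n) : nx n m = m + 1 := by
  rcases nx_cases (show m < n by omega) with ⟨_, h⟩ | ⟨h, _⟩ <;> omega

theorem fl20_pv {m : ℕ} (h0 : 0 < m) (hm : m < n) : pv n m = m - 1 := by
  rcases pv_cases hm with ⟨_, h⟩ | ⟨h, _⟩ <;> omega

theorem fl20_nx_last {m : ℕ} (hm : m + 1 = n) : nx n m = 0 := by
  rcases nx_cases (show m < n by omega) with ⟨h, _⟩ | ⟨_, h⟩ <;> omega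

/-! ### the arcs at their two ends -/

theorem fl20_arc0 (P : PG n v) (D : Dg n v i j) (hc : 0 < tn (j - i + 1) (arc v i) 0)
    {p : ℝ × ℝ} (hg : GP n v p) (hp : p ∈ inn (j - i + 1) (arc v i)) (hs : See n v p (v i)) :
    0 < orient (v j) (v i) p ∧ 0 < orient (v i) (v (i + 1)) p := by
  have hlt := D.lt
  have hln := D.ltn
  have h := fl20_sec (D.arc_pg P) (by omega) hc (gp_arc hln (by omega) hg)
    (by simpa [arc] using fl20_see_arc P D hg hp (Or.inl rfl) hs)
  have h1 : nx (j - i + 1) 0 = 1 := by rw [fl20_nx (by omega)]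
  have h2 : pv (j - i + 1) 0 = j - i := by
    rcases pv_cases (show 0 < j - i + 1 by omega) with ⟨h, _⟩ | ⟨_, h⟩ <;> omega
  rw [h1, h2] at h
  have h3 : arc v i (j - i) = v j := by
    unfold arc
    congr 1
    omega
  rw [h3] at h
  simpa [arc] using h

theorem fl20_arc1 (P : PG n v) (D : Dg n v i j) (hc : 0 < tn (j - i + 1) (arc v i) (j - i))
    {p : ℝ × ℝ} (hg : GP n v p) (hp : p ∈ inn (j - i + 1) (arc v i)) (hs : See n v p (v j)) :
    0 < orient (v (j - 1)) (v j) p ∧ 0 < orient (v j) (v i) p := by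
  have hlt := D.lt
  have hln := D.ltn
  have h3 : arc v i (j - i) = v j := by
    unfold arc
    congr 1
    omega
  have h := fl20_sec (D.arc_pg P) (show j - i < j - i + 1 by omega) hc (gp_arc hln (by omega) hg)
    (by
      rw [h3]
      exact fl20_see_arc P D hg hp (Or.inr rfl) hs)
  have h1 : nx (j - i + 1) (j - i) = 0 := fl20_nx_last rfl
  have h2 : pv (j - i + 1) (j - i) = j - i - 1 := fl20_pv (by omega) (by omega)
  have h4 : arc v i (j - i - 1) = v (j - 1) := by
    unfold arc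
    congr 1
    omega
  rw [h1, h2, h3, h4] at h
  simpa [arc] using h

theorem fl20_co0 (P : PG n v) (D : Dg n v i k) (hi : 0 < i)
    (hc : 0 < tn (n - (k - i) + 1) (co v i k) i)
    {p : ℝ × ℝ} (hg : GP n v p) (hp : p ∈ inn (n - (k - i) + 1) (co v i k))
    (hs : See n v p (v i)) :
    0 < orient (v (i - 1)) (v i) p ∧ 0 < orient (v i) (v k) p := by
  have hlt := D.lt
  have hln := D.ltn
  have h3 : co v i k i = v i := by
    unfold co
    rw [if_pos le_rfl]
  have h := fl20_sec (D.co_pg P) (show i < n - (k - i) + 1 by omega) hc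
    (gp_co hln (by omega) hg)
    (by
      rw [h3]
      exact fl20_see_co P D hg hp (Or.inl rfl) hs)
  have h1 : nx (n - (k - i) + 1) i = i + 1 := fl20_nx (by omega)
  have h2 : pv (n - (k - i) + 1) i = i - 1 := fl20_pv hi (by omega)
  have h4 : co v i k (i + 1) = v k := by
    unfold co
    rw [if_neg (by omega)]
    congr 1
    omega
  have h5 : co v i k (i - 1) = v (i - 1) := by
    unfold co
    rw [if_pos (by omega)]
  rw [h1, h2, h3, h4, h5] at h
  exact h

theorem fl20_co1 (P : PG n v) (D : Dg n v i k)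
    (hc : 0 < tn (n - (k - i) + 1) (co v i k) (i + 1))
    {p : ℝ × ℝ} (hg : GP n v p) (hp : p ∈ inn (n - (k - i) + 1) (co v i k))
    (hs : See n v p (v k)) : 0 < orient (v i) (v k) p := by
  have hlt := D.lt
  have hln := D.ltn
  have hnl := D.nl
  have h4 : co v i k (i + 1) = v k := by
    unfold co
    rw [if_neg (by omega)]
    congr 1
    omega
  have h := (fl20_sec (D.co_pg P) (show i + 1 < n - (k - i) + 1 by omega) hc
    (gp_co hln (by omega) hg)
    (by
      rw [h4]
      exact fl20_see_co P D hg hp (Or.inr rfl) hs)).1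
  have h2 : pv (n - (k - i) + 1) (i + 1) = i := by
    rw [fl20_pv (by omega) (by omega)]
    omega
  have h3 : co v i k i = v i := by
    unfold co
    rw [if_pos le_rfl]
  rw [h2, h3, h4] at h
  exact h

/-! ### the states -/

theorem fl20_e1 {x y z : St} {m : ℕ} (h0 : 0 < m) (h1 : m < i) : sDE α β i j k x y z m = St.P := by
  unfold sDE
  rw [if_neg (by omega), if_pos h1]

theorem fl20_e2 {x y z : St} (h0 : 0 < i) : sDE α β i j k x y z i = x := by
  unfold sDE
  rw [if_neg (by omega), if_neg (by omega), if_pos rfl]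

theorem fl20_e3 {x y z : St} {m : ℕ} (h1 : i < α) (h2 : α < m) (h3 : m < j) :
    sDE α β i j k x y z m = St.P := by
  unfold sDE
  rw [if_neg (by omega), if_neg (by omega), if_neg (by omega), if_neg (by omega), if_pos h3]

theorem fl20_e4 {x y z : St} (h1 : i < α) (h2 : α < j) : sDE α β i j k x y z j = y := by
  unfold sDE
  rw [if_neg (by omega), if_neg (by omega), if_neg (by omega), if_neg (by omega),
    if_neg (by omega), if_pos rfl]

theorem fl20_e5 {x y z : St} {m : ℕ} (h1 : i < α) (h2 : α < j) (h3 : j < β) (h4 : β < m)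
    (h5 : m < k) : sDE α β i j k x y z m = St.P := by
  unfold sDE
  rw [if_neg (by omega), if_neg (by omega), if_neg (by omega), if_neg (by omega),
    if_neg (by omega), if_neg (by omega), if_neg (by omega), if_pos h5]

theorem fl20_e6 {x y z : St} (h1 : i < α) (h2 : α < j) (h3 : j < β) (h4 : β < k) :
    sDE α β i j k x y z k = z := by
  unfold sDE
  rw [if_neg (by omega), if_neg (by omega), if_neg (by omega), if_neg (by omega),
    if_neg (by omega), if_neg (by omega), if_neg (by omega), if_neg (by omega), if_pos rfl]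

theorem fl20_f1 {x y z : St} (h1 : i < α) : sDF α β i j k x y z i = x := by
  unfold sDF
  rw [if_pos h1, if_neg (by omega), if_pos rfl]

theorem fl20_f2 {x y z : St} {m : ℕ} (h1 : i < m) (h2 : m < α) :
    sDF α β i j k x y z m = St.N := by
  unfold sDF
  rw [if_pos h2, if_neg (by omega), if_neg (by omega)]

theorem fl20_f3 {x y z : St} (h1 : α < j) (h2 : j < β) : sDF α β i j k x y z j = y := by
  unfold sDF
  rw [if_neg (by omega), if_pos h2, if_neg (by omega), if_pos rfl]

theorem fl20_f4 {x y z : St} {m : ℕ} (h1 : α < j) (h2 : j < m) (h3 : m < β) :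
    sDF α β i j k x y z m = St.N := by
  unfold sDF
  rw [if_neg (by omega), if_pos h3, if_neg (by omega), if_neg (by omega)]

theorem fl20_f5 {x y z : St} (h1 : α < j) (h2 : j < β) (h3 : β < k) :
    sDF α β i j k x y z k = z := by
  unfold sDF
  rw [if_neg (by omega), if_neg (by omega), if_neg (by omega), if_pos rfl]

theorem fl20_f6 {x y z : St} {m : ℕ} (h1 : α < j) (h2 : j < β) (h3 : β < k) (h4 : k < m) :
    sDF α β i j k x y z m = St.N := by
  unfold sDF
  rw [if_neg (by omega), if_neg (by omega), if_neg (by omega), if_neg (by omega)]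

theorem Core.cD (C : Core n α β i j k v) :
    Cov n v (sDE α β i j k St.P St.P St.P) ∨ Cov n v (sDF α β i j k St.N St.N St.N) ∨
    (Cov n v (sDE α β i j k (St.H (v i - v (i - 1))) (St.H (v j - v (j - 1)))
        (St.H (v k - v (k - 1)))) ∧
      Cov n v (sDF α β i j k (St.H (ed n v i)) (St.H (ed n v j)) (St.H (ed n v k)))) := by
  have P := C.pt.pg
  have i0 := C.i0
  have i1 := C.i1
  have j0 := C.j0
  have j1 := C.j1
  have k0 := C.k0
  have k1 := C.k1
  have T1 := C.pt.arm i1 j0 j1.le C.dij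
  have T2 := C.pt.arm2 j0.le j1 k0 C.djk
  have T3 := C.pt.arm3 i0 i1.le k0.le C.dik
  have hnxi : nx n i = i + 1 := fl20_nx (by omega)
  have hnxj : nx n j = j + 1 := fl20_nx (by omega)
  have hpvi : pv n i = i - 1 := fl20_pv i0 (by omega)
  have hpvj : pv n j = j - 1 := fl20_pv (by omega) (by omega)
  have hpvk : pv n k = k - 1 := fl20_pv (by omega) k1
  -- the turns
  have r1 : orient (v (i - 1)) (v i) (v (i + 1)) < 0 := by
    have h := C.pt.rf i (by omega) (by omega) (by omega) (by omega)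
    unfold tn at h
    rwa [hnxi, hpvi] at h
  have r2 : orient (v (j - 1)) (v j) (v (j + 1)) < 0 := by
    have h := C.pt.rf j (by omega) (by omega) (by omega) (by omega)
    unfold tn at h
    rwa [hnxj, hpvj] at h
  have r3 : orient (v (k - 1)) (v k) (v (nx n k)) < 0 := by
    have h := C.pt.rf k k1 (by omega) (by omega) (by omega)
    unfold tn at h
    rwa [hpvk] at h
  have a1 : 0 < orient (v j) (v i) (v (i + 1)) := by
    have h := T1.c0
    rwa [tn_arc_0 (by omega) (by omega)] at h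
  have a2 : 0 < orient (v (j - 1)) (v j) (v i) := by
    have h := T1.c2
    rwa [tn_arc_last (by omega) (by omega)] at h
  have b1 : 0 < orient (v k) (v j) (v (j + 1)) := by
    have h := T2.c0
    rwa [tn_arc_0 k1 (by have := C.djk.lt; omega)] at h
  have b2 : 0 < orient (v (k - 1)) (v k) (v j) := by
    have h := T2.c2
    rwa [tn_arc_last k1 (by have := C.djk.lt; omega)] at h
  have c1 : 0 < orient (v (i - 1)) (v i) (v k) := by
    have h := T3.c1
    rwa [tn_co_i k1 (by omega) (by omega), hpvi] at h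
  have c2 : 0 < orient (v i) (v k) (v (nx n k)) := by
    have h := T3.c2
    rwa [tn_co_j k1 (by omega) (by omega)] at h
  have hD := C.pos
  have hD2 : 0 < orient (v j) (v k) (v i) := by rwa [← fl20_cyc]
  have hD3 : 0 < orient (v k) (v i) (v j) := by rwa [← fl20_cyc]
  -- states
  have hgE : ∀ p, GP n v p → orient (v i) (v (i + 1)) p ≠ 0 ∧ orient (v j) (v (j + 1)) p ≠ 0 ∧
      orient (v k) (v (nx n k)) p ≠ 0 ∧ orient (v (i - 1)) (v i) p ≠ 0 ∧
      orient (v (j - 1)) (v j) p ≠ 0 ∧ orient (v (k - 1)) (v k) p ≠ 0 := by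
    intro p hg
    refine ⟨hg i (by omega) (i + 1) (by omega) (by omega),
      hg j (by omega) (j + 1) (by omega) (by omega), hg k k1 (nx n k) (nx_lt (by omega) k) ?_,
      hg (i - 1) (by omega) i (by omega) (by omega),
      hg (j - 1) (by omega) j (by omega) (by omega),
      hg (k - 1) (by omega) k k1 (by omega)⟩
    rcases nx_cases k1 with ⟨_, h⟩ | ⟨_, h⟩ <;> omega
  -- the light of a star vertex, used from the arm which it lights
  by_cases hA : ∃ q, (0 < orient (v i) (v j) q ∧ 0 < orient (v j) (v k) q ∧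
      0 < orient (v k) (v i) q) ∧ orient (v i) (v (i + 1)) q < 0 ∧
      orient (v j) (v (j + 1)) q < 0 ∧ orient (v k) (v (nx n k)) q < 0
  · left
    obtain ⟨q, ⟨t1, t2, t3⟩, z1, z2, z3⟩ := hA
    have w1 : orient (v k) (v i) (v (i + 1)) < 0 := fl20_v1 a1 z1 t1 t3 hD
    have w2 : orient (v i) (v j) (v (j + 1)) < 0 := fl20_v1 b1 z2 t2 t1 hD2
    have w3 : orient (v j) (v k) (v (nx n k)) < 0 := fl20_v1 c2 z3 t3 t2 hD3
    intro p hp hg
    rcases C.parts hp hg with hq | hq | hq | ⟨s1, s2, s3⟩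
    · rcases (C.pt.half i1 j0 j1.le C.dij hq hg).2 with ⟨hs, _⟩ | ⟨m, m1, m2, hs, ho⟩
      · obtain ⟨o1, o2⟩ := fl20_arc1 P C.dij T1.c2 hg hq hs
        refine ⟨j, by omega, ?_, hs⟩
        rw [fl20_e4 i1 j0]
        change orient (v j) (v (nx n j)) p < 0
        rw [hnxj]
        exact gv2 w2 a2 r2 o1 o2
      · refine ⟨m, by omega, ?_, hs⟩
        rw [fl20_e3 i1 m1 m2]
        change orient (v m) (v (nx n m)) p < 0
        rwa [fl20_nx (by omega)]
    · rcases (C.pt.half2 j0.le j1 k0 C.djk hq hg).2 with ⟨hs, _⟩ | ⟨m, m1, m2, hs, ho⟩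
      · obtain ⟨o1, o2⟩ := fl20_arc1 P C.djk T2.c2 hg hq hs
        refine ⟨k, k1, ?_, hs⟩
        rw [fl20_e6 i1 j0 j1 k0]
        exact gv2 w3 b2 r3 o1 o2
      · refine ⟨m, by omega, ?_, hs⟩
        rw [fl20_e5 i1 j0 j1 m1 m2]
        change orient (v m) (v (nx n m)) p < 0
        rwa [fl20_nx (by omega)]
    · rcases (C.pt.half3 i0 i1.le k0.le C.dik hq hg).2 with ⟨hs, _⟩ | ⟨m, m1, m2, hs, ho⟩
      · obtain ⟨o1, o2⟩ := fl20_co0 P C.dik i0 T3.c1 hg hq hs
        refine ⟨i, by omega, ?_, hs⟩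
        rw [fl20_e2 i0]
        change orient (v i) (v (nx n i)) p < 0
        rw [hnxi]
        exact gv2 w1 c1 r1 o1 o2
      · refine ⟨m, by omega, ?_, hs⟩
        rw [fl20_e1 m1 m2]
        change orient (v m) (v (nx n m)) p < 0
        rwa [fl20_nx (by omega)]
    · obtain ⟨_, g1, g2, g3⟩ := C.tri s1 s2 s3
      obtain ⟨n1, n2, n3, _, _, _⟩ := hgE p hg
      by_cases u1 : orient (v i) (v (i + 1)) p < 0
      · refine ⟨i, by omega, ?_, g1⟩
        rw [fl20_e2 i0]
        change orient (v i) (v (nx n i)) p < 0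
        rwa [hnxi]
      by_cases u2 : orient (v j) (v (j + 1)) p < 0
      · refine ⟨j, by omega, ?_, g2⟩
        rw [fl20_e4 i1 j0]
        change orient (v j) (v (nx n j)) p < 0
        rwa [hnxj]
      by_cases u3 : orient (v k) (v (nx n k)) p < 0
      · refine ⟨k, k1, ?_, g3⟩
        rw [fl20_e6 i1 j0 j1 k0]
        exact u3
      exfalso
      have u1' := lt_of_le_of_ne (not_lt.1 u1) n1.symm
      have u2' := lt_of_le_of_ne (not_lt.1 u2) n2.symm
      have u3' := lt_of_le_of_ne (not_lt.1 u3) n3.symm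
      exact fl20_v4 t1 t2 t3 (fl20_v3 a1 u1' z1 s1 t1) (fl20_v3 b1 u2' z2 s2 t2)
        (fl20_v3 c2 u3' z3 s3 t3)
  by_cases hB : ∃ q, (0 < orient (v i) (v j) q ∧ 0 < orient (v j) (v k) q ∧
      0 < orient (v k) (v i) q) ∧ orient (v (i - 1)) (v i) q < 0 ∧
      orient (v (j - 1)) (v j) q < 0 ∧ orient (v (k - 1)) (v k) q < 0
  · right
    left
    obtain ⟨q, ⟨t1, t2, t3⟩, z1, z2, z3⟩ := hB
    have w1 : orient (v (i - 1)) (v i) (v j) < 0 := fl20_v1' c1 z1 t1 t3 hD
    have w2 : orient (v (j - 1)) (v j) (v k) < 0 := fl20_v1' a2 z2 t2 t1 hD2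
    have w3 : orient (v (k - 1)) (v k) (v i) < 0 := fl20_v1' b2 z3 t3 t2 hD3
    intro p hp hg
    rcases C.parts hp hg with hq | hq | hq | ⟨s1, s2, s3⟩
    · rcases (C.pt.half i1 j0 j1.le C.dij hq hg).1 with ⟨hs, _⟩ | ⟨m, m1, m2, hs, ho⟩
      · obtain ⟨o1, o2⟩ := fl20_arc0 P C.dij T1.c0 hg hq hs
        refine ⟨i, by omega, ?_, hs⟩
        rw [fl20_f1 i1]
        change orient (v (pv n i)) (v i) p < 0
        rw [hpvi]
        exact gv2' w1 a1 r1 o2 o1
      · refine ⟨m, by omega, ?_, hs⟩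
        rw [fl20_f2 m1 m2]
        change orient (v (pv n m)) (v m) p < 0
        rwa [fl20_pv (by omega) (by omega)]
    · rcases (C.pt.half2 j0.le j1 k0 C.djk hq hg).1 with ⟨hs, _⟩ | ⟨m, m1, m2, hs, ho⟩
      · obtain ⟨o1, o2⟩ := fl20_arc0 P C.djk T2.c0 hg hq hs
        refine ⟨j, by omega, ?_, hs⟩
        rw [fl20_f3 j0 j1]
        change orient (v (pv n j)) (v j) p < 0
        rw [hpvj]
        exact gv2' w2 b1 r2 o2 o1
      · refine ⟨m, by omega, ?_, hs⟩
        rw [fl20_f4 j0 m1 m2]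
        change orient (v (pv n m)) (v m) p < 0
        rwa [fl20_pv (by omega) (by omega)]
    · rcases (C.pt.half3 i0 i1.le k0.le C.dik hq hg).1 with ⟨hs, ho⟩ | ⟨m, m1, m2, hs, ho⟩
      · have o1 := fl20_co1 P C.dik T3.c2 hg hq hs
        refine ⟨k, k1, ?_, hs⟩
        rw [fl20_f5 j0 j1 k0]
        change orient (v (pv n k)) (v k) p < 0
        rw [hpvk]
        exact gv2' w3 c2 r3 ho o1
      · refine ⟨m, by omega, ?_, hs⟩
        rw [fl20_f6 j0 j1 k0 m1]
        change orient (v (pv n m)) (v m) p < 0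
        rwa [fl20_pv (by omega) (by omega)]
    · obtain ⟨_, g1, g2, g3⟩ := C.tri s1 s2 s3
      obtain ⟨_, _, _, n1, n2, n3⟩ := hgE p hg
      by_cases u1 : orient (v (i - 1)) (v i) p < 0
      · refine ⟨i, by omega, ?_, g1⟩
        rw [fl20_f1 i1]
        change orient (v (pv n i)) (v i) p < 0
        rwa [hpvi]
      by_cases u2 : orient (v (j - 1)) (v j) p < 0
      · refine ⟨j, by omega, ?_, g2⟩
        rw [fl20_f3 j0 j1]
        change orient (v (pv n j)) (v j) p < 0
        rwa [hpvj]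
      by_cases u3 : orient (v (k - 1)) (v k) p < 0
      · refine ⟨k, k1, ?_, g3⟩
        rw [fl20_f5 j0 j1 k0]
        change orient (v (pv n k)) (v k) p < 0
        rwa [hpvk]
      exfalso
      have u1' := lt_of_le_of_ne (not_lt.1 u1) n1.symm
      have u2' := lt_of_le_of_ne (not_lt.1 u2) n2.symm
      have u3' := lt_of_le_of_ne (not_lt.1 u3) n3.symm
      exact fl20_v4 s1 s2 s3 (fl20_v3' c1 u1' z1 s3 t3) (fl20_v3' a2 u2' z2 s1 t1)
        (fl20_v3' b2 u3' z3 s2 t2)
  right
  right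
  push Not at hA hB
  refine ⟨?_, ?_⟩
  · intro p hp hg
    rcases C.parts hp hg with hq | hq | hq | ⟨s1, s2, s3⟩
    · rcases (C.pt.half i1 j0 j1.le C.dij hq hg).2 with ⟨hs, ho⟩ | ⟨m, m1, m2, hs, ho⟩
      · refine ⟨j, by omega, ?_, hs⟩
        rw [fl20_e4 i1 j0]
        change 0 < cr (v j - v (j - 1)) (p - v j)
        rwa [fl20_crH]
      · refine ⟨m, by omega, ?_, hs⟩
        rw [fl20_e3 i1 m1 m2]
        change orient (v m) (v (nx n m)) p < 0
        rwa [fl20_nx (by omega)]
    · rcases (C.pt.half2 j0.le j1 k0 C.djk hq hg).2 with ⟨hs, ho⟩ | ⟨m, m1, m2, hs, ho⟩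
      · refine ⟨k, k1, ?_, hs⟩
        rw [fl20_e6 i1 j0 j1 k0]
        change 0 < cr (v k - v (k - 1)) (p - v k)
        rwa [fl20_crH]
      · refine ⟨m, by omega, ?_, hs⟩
        rw [fl20_e5 i1 j0 j1 m1 m2]
        change orient (v m) (v (nx n m)) p < 0
        rwa [fl20_nx (by omega)]
    · rcases (C.pt.half3 i0 i1.le k0.le C.dik hq hg).2 with ⟨hs, ho⟩ | ⟨m, m1, m2, hs, ho⟩
      · refine ⟨i, by omega, ?_, hs⟩
        rw [fl20_e2 i0]
        change 0 < cr (v i - v (i - 1)) (p - v i)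
        rwa [fl20_crH]
      · refine ⟨m, by omega, ?_, hs⟩
        rw [fl20_e1 m1 m2]
        change orient (v m) (v (nx n m)) p < 0
        rwa [fl20_nx (by omega)]
    · obtain ⟨_, g1, g2, g3⟩ := C.tri s1 s2 s3
      obtain ⟨_, _, _, n1, n2, n3⟩ := hgE p hg
      by_cases u1 : 0 < orient (v (i - 1)) (v i) p
      · refine ⟨i, by omega, ?_, g1⟩
        rw [fl20_e2 i0]
        change 0 < cr (v i - v (i - 1)) (p - v i)
        rwa [fl20_crH]
      by_cases u2 : 0 < orient (v (j - 1)) (v j) p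
      · refine ⟨j, by omega, ?_, g2⟩
        rw [fl20_e4 i1 j0]
        change 0 < cr (v j - v (j - 1)) (p - v j)
        rwa [fl20_crH]
      have u1' := lt_of_le_of_ne (not_lt.1 u1) n1
      have u2' := lt_of_le_of_ne (not_lt.1 u2) n2
      have u3 := hB p ⟨s1, s2, s3⟩ u1' u2'
      refine ⟨k, k1, ?_, g3⟩
      rw [fl20_e6 i1 j0 j1 k0]
      change 0 < cr (v k - v (k - 1)) (p - v k)
      rw [fl20_crH]
      exact lt_of_le_of_ne u3 n3.symm
  · intro p hp hg
    rcases C.parts hp hg with hq | hq | hq | ⟨s1, s2, s3⟩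
    · rcases (C.pt.half i1 j0 j1.le C.dij hq hg).1 with ⟨hs, ho⟩ | ⟨m, m1, m2, hs, ho⟩
      · refine ⟨i, by omega, ?_, hs⟩
        rw [fl20_f1 i1]
        change 0 < cr (v (nx n i) - v i) (p - v i)
        rwa [fl20_crH', hnxi]
      · refine ⟨m, by omega, ?_, hs⟩
        rw [fl20_f2 m1 m2]
        change orient (v (pv n m)) (v m) p < 0
        rwa [fl20_pv (by omega) (by omega)]
    · rcases (C.pt.half2 j0.le j1 k0 C.djk hq hg).1 with ⟨hs, ho⟩ | ⟨m, m1, m2, hs, ho⟩
      · refine ⟨j, by omega, ?_, hs⟩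
        rw [fl20_f3 j0 j1]
        change 0 < cr (v (nx n j) - v j) (p - v j)
        rwa [fl20_crH', hnxj]
      · refine ⟨m, by omega, ?_, hs⟩
        rw [fl20_f4 j0 m1 m2]
        change orient (v (pv n m)) (v m) p < 0
        rwa [fl20_pv (by omega) (by omega)]
    · rcases (C.pt.half3 i0 i1.le k0.le C.dik hq hg).1 with ⟨hs, ho⟩ | ⟨m, m1, m2, hs, ho⟩
      · refine ⟨k, k1, ?_, hs⟩
        rw [fl20_f5 j0 j1 k0]
        change 0 < cr (v (nx n k) - v k) (p - v k)
        rwa [fl20_crH']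
      · refine ⟨m, by omega, ?_, hs⟩
        rw [fl20_f6 j0 j1 k0 m1]
        change orient (v (pv n m)) (v m) p < 0
        rwa [fl20_pv (by omega) (by omega)]
    · obtain ⟨_, g1, g2, g3⟩ := C.tri s1 s2 s3
      obtain ⟨n1, n2, n3, _, _, _⟩ := hgE p hg
      by_cases u1 : 0 < orient (v i) (v (i + 1)) p
      · refine ⟨i, by omega, ?_, g1⟩
        rw [fl20_f1 i1]
        change 0 < cr (v (nx n i) - v i) (p - v i)
        rwa [fl20_crH', hnxi]
      by_cases u2 : 0 < orient (v j) (v (j + 1)) p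
      · refine ⟨j, by omega, ?_, g2⟩
        rw [fl20_f3 j0 j1]
        change 0 < cr (v (nx n j) - v j) (p - v j)
        rwa [fl20_crH', hnxj]
      have u1' := lt_of_le_of_ne (not_lt.1 u1) n1
      have u2' := lt_of_le_of_ne (not_lt.1 u2) n2
      have u3 := hA p ⟨s1, s2, s3⟩ u1' u2'
      refine ⟨k, k1, ?_, g3⟩
      rw [fl20_f5 j0 j1 k0]
      change 0 < cr (v (nx n k) - v k) (p - v k)
      rw [fl20_crH']
      exact lt_of_le_of_ne u3 n3.symm

end dcov

end Pool.Agent.FL
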