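import Pool.Agent.FL.Sect

/-! MP_8a5d4f_co, project FL, row FL-12 -/

set_option autoImplicit false

namespace Pool.Agent.FL

open Set Filter Topology Pool.Agent.H54.Fl Pool.Agent.H75.PolyJ Pool.Agent.H95.Poly

section shift

variable {n : ℕ} {v : ℕ → ℝ × ℝ} {α β : ℕ}

/-- index bookkeeping: shift and the next index -/
lemma fl12_nx (s i : ℕ) : (s + nx n i) % n = nx n ((s + i) % n) := by
  unfold nx
  rw [Nat.add_mod_mod, Nat.mod_add_mod, Nat.add_assoc]

lemma fl12_pv (s i : ℕ) : (s + pv n i) % n = pv n ((s + i) % n) := by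
  unfold pv
  rw [Nat.add_mod_mod, Nat.mod_add_mod, Nat.add_assoc]

lemma fl12_inj {s i j : ℕ} (hi : i < n) (hj : j < n) (h : (s + i) % n = (s + j) % n) : i = j := by
  have h1 : s + i ≡ s + j [MOD n] := h
  have h2 : i ≡ j [MOD n] := Nat.ModEq.add_left_cancel' s h1
  have h3 : i % n = j % n := h2
  rwa [Nat.mod_eq_of_lt hi, Nat.mod_eq_of_lt hj] at h3

/-- the inverse shift -/
lemma fl12_surj (s : ℕ) {i : ℕ} (hi : i < n) : ∃ j < n, (s + j) % n = i := by
  have hn : 0 < n := by omega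
  refine ⟨(i + (n - s % n)) % n, Nat.mod_lt _ hn, ?_⟩
  have h1 : s % n < n := Nat.mod_lt _ hn
  rw [Nat.add_mod_mod, ← Nat.mod_add_mod]
  have h2 : s % n + (i + (n - s % n)) = i + n := by omega
  rw [h2, Nat.add_mod_right]
  exact Nat.mod_eq_of_lt hi

lemma fl12_sh_nx (s i : ℕ) : Pool.Agent.H75.PolyJ.sh n v s (nx n i) = v (nx n ((s + i) % n)) := by
  unfold Pool.Agent.H75.PolyJ.sh
  rw [fl12_nx]

lemma fl12_sh_pv (s i : ℕ) : Pool.Agent.H75.PolyJ.sh n v s (pv n i) = v (pv n ((s + i) % n)) := by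
  unfold Pool.Agent.H75.PolyJ.sh
  rw [fl12_pv]

theorem PG.sh (P : PG n v) (s : ℕ) : PG n (sh n v s) := by
  refine ⟨simple_sh P.simple s, ccw_sh P.simple s P.ccw, ?_⟩
  have hn := pos P.simple
  intro i hi j hj k hk hij hik hjk
  exact P.gen _ (Nat.mod_lt _ hn) _ (Nat.mod_lt _ hn) _ (Nat.mod_lt _ hn)
    (fun h => hij (fl12_inj hi hj h)) (fun h => hik (fl12_inj hi hk h))
    (fun h => hjk (fl12_inj hj hk h))

theorem tn_sh (hn : 0 < n) (s i : ℕ) : tn n (sh n v s) i = tn n v ((s + i) % n) := by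
  unfold tn
  rw [fl12_sh_nx, fl12_sh_pv]
  rfl

theorem see_sh (P : PG n v) (s : ℕ) {p q : ℝ × ℝ} : See n (sh n v s) p q ↔ See n v p q := by
  unfold See inn
  rw [inner_sh P.simple]

theorem gp_sh (P : PG n v) (s : ℕ) {p : ℝ × ℝ} : GP n (sh n v s) p ↔ GP n v p := by
  have hn := pos P.simple
  constructor
  · intro h i hi j hj hij
    obtain ⟨i', hi', e1⟩ := fl12_surj s hi
    obtain ⟨j', hj', e2⟩ := fl12_surj s hj
    have h1 := h i' hi' j' hj' (fun e => hij (by rw [← e1, ← e2, e]))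
    unfold Pool.Agent.H75.PolyJ.sh at h1
    rwa [e1, e2] at h1
  · intro h i hi j hj hij
    exact h _ (Nat.mod_lt _ hn) _ (Nat.mod_lt _ hn) (fun e => hij (fl12_inj hi hj e))

lemma fl12_use {s i : ℕ} {x : St} {p : ℝ × ℝ} (h : Use n (sh n v s) i x p) :
    Use n v ((s + i) % n) x p := by
  cases x with
  | off => exact h
  | N =>
    have h1 : orient (Pool.Agent.H75.PolyJ.sh n v s (pv n i)) (Pool.Agent.H75.PolyJ.sh n v s i) p
      < 0 := h
    rw [fl12_sh_pv] at h1
    exact h1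
  | P =>
    have h1 : orient (Pool.Agent.H75.PolyJ.sh n v s i) (Pool.Agent.H75.PolyJ.sh n v s (nx n i)) p
      < 0 := h
    rw [fl12_sh_nx] at h1
    exact h1
  | K => exact h
  | H d => exact h

theorem cov_sh (P : PG n v) {s : ℕ} (hs : s ≤ n) {σ : ℕ → St} (h : Cov n (sh n v s) σ) :
    Cov n v (fun i => σ ((i + (n - s)) % n)) := by
  have hn := pos P.simple
  intro p hp hg
  have hp' : p ∈ inn n (sh n v s) := by
    unfold inn
    rw [inner_sh P.simple]
    exact hp
  obtain ⟨i, hi, hu, hv⟩ := h p hp' ((gp_sh P s).2 hg)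
  refine ⟨(s + i) % n, Nat.mod_lt _ hn, ?_, (see_sh P s).1 hv⟩
  have e : ((s + i) % n + (n - s)) % n = i := by
    rw [Nat.mod_add_mod]
    have : s + i + (n - s) = i + n := by omega
    rw [this, Nat.add_mod_right]
    exact Nat.mod_eq_of_lt hi
  show Use n v ((s + i) % n) (σ (((s + i) % n + (n - s)) % n)) p
  rw [e]
  exact fl12_use hu

theorem kc_sh (P : PG n v) (s : ℕ) : kc n (sh n v s) = kc n v := by
  classical
  have hn := pos P.simple
  unfold kc
  refine Finset.card_bij (fun i _ => (s + i) % n) ?_ ?_ ?_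
  · intro i hi
    rw [Finset.mem_filter, Finset.mem_range] at hi
    rw [Finset.mem_filter, Finset.mem_range]
    refine ⟨Nat.mod_lt _ hn, ?_⟩
    rw [← tn_sh hn]
    exact hi.2
  · intro i hi j hj h
    rw [Finset.mem_filter, Finset.mem_range] at hi hj
    exact fl12_inj hi.1 hj.1 h
  · intro i hi
    rw [Finset.mem_filter, Finset.mem_range] at hi
    obtain ⟨j, hj, e⟩ := fl12_surj s hi.1
    refine ⟨j, ?_, e⟩
    rw [Finset.mem_filter, Finset.mem_range]
    refine ⟨hj, ?_⟩
    rw [tn_sh hn, e]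
    exact hi.2

theorem PT.sh1 (T : PT n α β v) : PT n (β - α) (n - α) (sh n v α) := by
  have h0 := T.h0
  have h1 := T.h1
  have h2 := T.h2
  have hn : 0 < n := by omega
  refine ⟨T.pg.sh α, by omega, by omega, by omega, ?_, ?_, ?_, ?_⟩
  · rw [tn_sh hn, Nat.add_zero, Nat.mod_eq_of_lt (by omega)]
    exact T.c1
  · have e : α + (β - α) = β := by omega
    rw [tn_sh hn, e, Nat.mod_eq_of_lt h2]
    exact T.c2
  · have e : α + (n - α) = n := by omega
    rw [tn_sh hn, e, Nat.mod_self]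
    exact T.c0
  · intro i hi hi0 hi1 hi2
    rw [tn_sh hn]
    rcases Nat.lt_or_ge (α + i) n with h | h
    · rw [Nat.mod_eq_of_lt h]
      exact T.rf _ h (by omega) (by omega) (by omega)
    · have e : (α + i) % n = α + i - n := by
        rw [Nat.mod_eq_sub_mod h, Nat.mod_eq_of_lt (by omega)]
      rw [e]
      exact T.rf _ (by omega) (by omega) (by omega) (by omega)

lemma fl12_see_symm {p q : ℝ × ℝ} (h : See n v p q) : See n v q p := by
  intro z hz
  rw [openSegment_symm] at hz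
  exact h z hz

theorem Core.sh1 {i j k : ℕ} (C : Core n α β i j k v) :
    Core n (β - α) (n - α) (j - α) (k - α) (i + n - α) (sh n v α) := by
  have h0 := C.pt.h0
  have h1 := C.pt.h1
  have h2 := C.pt.h2
  have i0 := C.i0
  have i1 := C.i1
  have j0 := C.j0
  have j1 := C.j1
  have k0 := C.k0
  have k1 := C.k1
  have d1 := C.djk.lt
  have d2 := C.dij.lt
  have ej : Pool.Agent.H75.PolyJ.sh n v α (j - α) = v j := by
    unfold Pool.Agent.H75.PolyJ.sh
    have e : α + (j - α) = j := by omega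
    rw [e, Nat.mod_eq_of_lt (by omega)]
  have ek : Pool.Agent.H75.PolyJ.sh n v α (k - α) = v k := by
    unfold Pool.Agent.H75.PolyJ.sh
    have e : α + (k - α) = k := by omega
    rw [e, Nat.mod_eq_of_lt (by omega)]
  have ei : Pool.Agent.H75.PolyJ.sh n v α (i + n - α) = v i := by
    unfold Pool.Agent.H75.PolyJ.sh
    have e : α + (i + n - α) = i + n := by omega
    rw [e, Nat.add_mod_right, Nat.mod_eq_of_lt (by omega)]
  refine ⟨C.pt.sh1, by omega, by omega, by omega, by omega, by omega, by omega, ?_, ?_, ?_⟩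
  · refine ⟨by omega, by omega, by omega, ?_⟩
    rw [see_sh C.pt.pg, ej, ek]
    exact C.djk.see
  · refine ⟨by omega, by omega, by omega, ?_⟩
    rw [see_sh C.pt.pg, ek, ei]
    exact fl12_see_symm C.dik.see
  · refine ⟨by omega, by omega, by omega, ?_⟩
    rw [see_sh C.pt.pg, ej, ei]
    exact fl12_see_symm C.dij.see

end shift

end Pool.Agent.FL
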