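import Pool.Agent.FL.Sa
import Pool.Agent.FL.Shift

/-! MP_8a5d4f_co, project FL, row FL-13 -/

set_option autoImplicit false

namespace Pool.Agent.FL

open Set Filter Topology Pool.Agent.H54.Fl Pool.Agent.H75.PolyJ Pool.Agent.H95.Poly

section scov

variable {n : ℕ} {v : ℕ → ℝ × ℝ} {α β : ℕ}

theorem fl13_congr {σ σ' : ℕ → St} (h : ∀ i < n, σ i = σ' i) (hc : Cov n v σ) : Cov n v σ' := by
  intro p hp hg
  obtain ⟨i, hi, hu, hs⟩ := hc p hp hg
  rw [h i hi] at hu
  exact ⟨i, hi, hu, hs⟩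

theorem fl13_mod {n α i : ℕ} (hα : α < n) (hi : i < n) :
    (α ≤ i ∧ (i + (n - α)) % n = i - α) ∨ (i < α ∧ (i + (n - α)) % n = i + (n - α)) := by
  rcases Nat.lt_or_ge i α with h | h
  · exact Or.inr ⟨h, Nat.mod_eq_of_lt (by omega)⟩
  · refine Or.inl ⟨h, ?_⟩
    have h1 : i + (n - α) = (i - α) + n := by omega
    rw [h1, Nat.add_mod_right, Nat.mod_eq_of_lt (by omega)]

theorem PT.cS1 (T : PT n α β v) : Cov n v (sS1 α β) := by
  have h0 := T.h0
  have h1 := T.h1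
  have h2 := T.h2
  have h := cov_sh T.pg (s := α) (by omega) T.sh1.cS0
  refine fl13_congr (fun i hi => ?_) h
  simp only [sS0, sS1]
  rcases fl13_mod (n := n) (α := α) (i := i) (by omega) hi with ⟨h3, h4⟩ | ⟨h3, h4⟩ <;> rw [h4] <;>
    split_ifs <;> first | rfl | omega

theorem PT.cS2 (T : PT n α β v) : Cov n v (sS2 α β) := by
  have h0 := T.h0
  have h1 := T.h1
  have h2 := T.h2
  have h := cov_sh T.pg (s := α) (by omega) T.sh1.cS1
  refine fl13_congr (fun i hi => ?_) h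
  simp only [sS1, sS2]
  rcases fl13_mod (n := n) (α := α) (i := i) (by omega) hi with ⟨h3, h4⟩ | ⟨h3, h4⟩ <;> rw [h4] <;>
    split_ifs <;> first | rfl | omega

end scov

end Pool.Agent.FL
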