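import Pool.Agent.FL.Defs

/-! MP_8a5d4f_co, project FL, row FL-1 -/

set_option autoImplicit false

namespace Pool.Agent.FL

open Set Filter Topology Pool.Agent.H54.Fl Pool.Agent.H75.PolyJ Pool.Agent.H95.Poly

section sect

variable {n : ℕ} {v : ℕ → ℝ × ℝ}

theorem See.symm {p q : ℝ × ℝ} (h : See n v p q) : See n v q p := by
  intro z hz
  exact h z (by rwa [openSegment_symm])

theorem tn_ne (P : PG n v) {i : ℕ} (hi : i < n) : tn n v i ≠ 0 := gen' P.simple hi

lemma fl1_ray {u x w z : ℝ × ℝ} {t : ℝ} (ht : 0 < t) :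
    lsV u x w (x + t • (z - x)) ↔ lsV u x w z := by
  have e1 : orient u x (x + t • (z - x)) = t * orient u x z := by
    unfold orient; simp only [Prod.fst_add, Prod.snd_add, Prod.smul_fst, Prod.smul_snd,
      Prod.fst_sub, Prod.snd_sub, smul_eq_mul]; ring
  have e2 : orient x w (x + t • (z - x)) = t * orient x w z := by
    unfold orient; simp only [Prod.fst_add, Prod.snd_add, Prod.smul_fst, Prod.smul_snd,
      Prod.fst_sub, Prod.snd_sub, smul_eq_mul]; ring
  unfold lsV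
  rw [e1, e2, mul_pos_iff_of_pos_left ht, mul_pos_iff_of_pos_left ht]

lemma fl1_tendsto (x p : ℝ × ℝ) :
    Tendsto (fun t : ℝ => x + t • (p - x)) (𝓝[>] 0) (𝓝 x) := by
  have : Continuous (fun t : ℝ => x + t • (p - x)) := by fun_prop
  have h2 := this.tendsto 0
  simp only [zero_smul, add_zero] at h2
  exact h2.mono_left nhdsWithin_le_nhds

lemma fl1_mem {x p : ℝ × ℝ} {t : ℝ} (ht : t ∈ Ioo (0 : ℝ) 1) :
    x + t • (p - x) ∈ openSegment ℝ x p := by
  rw [openSegment_eq_image']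
  exact ⟨t, ht, rfl⟩

/-- the strict form of the sector -/
lemma fl1_strict (P : PG n v) {i : ℕ} (hi : i < n) {p : ℝ × ℝ} (hs : See n v (v i) p) :
    lsV (v (pv n i)) (v i) (v (nx n i)) p := by
  have h1 := region_loc P.simple P.ccw ⟨i, hi, left_mem_segment ℝ _ _⟩ (IsLoc.V i hi rfl)
  have h3 := (fl1_tendsto (v i) p).eventually h1
  have h4 : ∀ᶠ t : ℝ in 𝓝[>] 0, t ∈ Ioo (0 : ℝ) 1 := Ioo_mem_nhdsGT one_pos
  obtain ⟨t, ht1, ht2⟩ := (h3.and h4).exists
  rw [← fl1_ray ht2.1]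
  exact ht1.2.1 (hs _ (fl1_mem ht2))

/-- a point seen from a vertex is in the interior angle -/
theorem see_sector (P : PG n v) {i : ℕ} (hi : i < n) {p : ℝ × ℝ} (hp : p ≠ v i)
    (hs : See n v (v i) p) :
    (0 < tn n v i ∧ 0 ≤ orient (v (pv n i)) (v i) p ∧ 0 ≤ orient (v i) (v (nx n i)) p) ∨
    (tn n v i < 0 ∧ (0 ≤ orient (v (pv n i)) (v i) p ∨ 0 ≤ orient (v i) (v (nx n i)) p)) := by
  rcases fl1_strict P hi hs with ⟨h1, h2, h3⟩ | ⟨h1, h2⟩
  · exact Or.inl ⟨h1, h2.le, h3.le⟩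
  · exact Or.inr ⟨h1, h2.imp le_of_lt le_of_lt⟩

theorem see_sector_gp (P : PG n v) {i : ℕ} (hi : i < n) {p : ℝ × ℝ} (hg : GP n v p)
    (hs : See n v (v i) p) :
    (0 < tn n v i ∧ 0 < orient (v (pv n i)) (v i) p ∧ 0 < orient (v i) (v (nx n i)) p) ∨
    (tn n v i < 0 ∧ (0 < orient (v (pv n i)) (v i) p ∨ 0 < orient (v i) (v (nx n i)) p)) :=
  fl1_strict P hi hs

theorem see_sector_vx (P : PG n v) {i j : ℕ} (hi : i < n) (hj : j < n) (h1 : j ≠ i)
    (h2 : j ≠ pv n i) (h3 : j ≠ nx n i) (hs : See n v (v i) (v j)) :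
    (0 < tn n v i ∧ 0 < orient (v (pv n i)) (v i) (v j) ∧ 0 < orient (v i) (v (nx n i)) (v j)) ∨
    (tn n v i < 0 ∧ (0 < orient (v (pv n i)) (v i) (v j) ∨
      0 < orient (v i) (v (nx n i)) (v j))) :=
  fl1_strict P hi hs

/-- points of the strict interior angle near the vertex are inside -/
theorem start_in (P : PG n v) {i : ℕ} (hi : i < n) {p : ℝ × ℝ}
    (h : (0 < tn n v i ∧ 0 < orient (v (pv n i)) (v i) p ∧ 0 < orient (v i) (v (nx n i)) p) ∨
      (tn n v i < 0 ∧ (0 < orient (v (pv n i)) (v i) p ∨ 0 < orient (v i) (v (nx n i)) p))) :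
    ∀ᶠ t : ℝ in 𝓝[>] 0, v i + t • (p - v i) ∈ inn n v := by
  have h1 := region_loc P.simple P.ccw ⟨i, hi, left_mem_segment ℝ _ _⟩ (IsLoc.V i hi rfl)
  have h3 := (fl1_tendsto (v i) p).eventually h1
  filter_upwards [h3, self_mem_nhdsWithin] with t ht1 ht2
  exact ht1.2.2 ((fl1_ray ht2).2 h)

theorem see_of (P : PG n v) {p q : ℝ × ℝ} (hd : ∀ z ∈ openSegment ℝ p q, z ∉ curve n v)
    (hz : ∃ z ∈ openSegment ℝ p q, z ∈ region n v) : See n v p q := by
  have hd' : Disjoint (openSegment ℝ p q) (curve n v) :=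
    Set.disjoint_left.2 fun z h1 h2 => hd z h1 h2
  obtain ⟨z, h1, h2⟩ := hz
  exact subset_inner P.simple (convex_openSegment p q).isPreconnected hd' h1 h2

theorem see_of_inner (P : PG n v) {p q : ℝ × ℝ} (hp : p ∈ inn n v)
    (hd : ∀ z ∈ openSegment ℝ p q, z ∉ curve n v) : See n v p q := by
  apply see_of P hd
  have h1 : ∀ᶠ z in 𝓝 p, z ∈ inn n v := (isOpen_inner n v).mem_nhds hp
  have h2 := (fl1_tendsto p q).eventually h1
  have h4 : ∀ᶠ t : ℝ in 𝓝[>] 0, t ∈ Ioo (0 : ℝ) 1 := Ioo_mem_nhdsGT one_pos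
  obtain ⟨t, ht1, ht2⟩ := (h2.and h4).exists
  exact ⟨_, fl1_mem ht2, inner_subset_region P.simple ht1⟩

theorem see_region (P : PG n v) {p q : ℝ × ℝ} (hs : See n v p q) : segment ℝ p q ⊆ region n v := by
  rw [← closure_openSegment]
  apply closure_minimal _ (Pool.Agent.H75.PolyJ.isClosed_region P.simple)
  intro z hz
  exact inner_subset_region P.simple (hs z hz)

/-- an edge which is hit from inside is hit from the left -/
theorem left_of_hit (P : PG n v) {k : ℕ} (hk : k < n) {p x : ℝ × ℝ}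
    (hx : x ∈ openSegment ℝ (v k) (v (nx n k))) (hpx : p ≠ x) (hs : See n v p x) :
    0 ≤ orient (v k) (v (nx n k)) p := by
  have hne := edge_nondeg P.simple hk
  have hx' := openSegment_subset_segment ℝ _ _ hx
  have h1 : x ≠ v k := by
    rintro rfl
    exact hne ((left_mem_openSegment_iff).1 hx)
  have h2 : x ≠ v (nx n k) := by
    rintro rfl
    exact hne ((right_mem_openSegment_iff).1 hx)
  have h3 := region_edge P.simple P.ccw hk (show x ∈ edge n v k from hx') h1 h2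
  have h4 := (fl1_tendsto x p).eventually h3
  have h5 : ∀ᶠ t : ℝ in 𝓝[>] 0, t ∈ Ioo (0 : ℝ) 1 := Ioo_mem_nhdsGT one_pos
  obtain ⟨t, ht1, ht2⟩ := (h4.and h5).exists
  have h6 : x + t • (p - x) ∈ region n v :=
    inner_subset_region P.simple (hs.symm _ (fl1_mem ht2))
  have h7 := ht1.1 h6
  have h8 : orient (v k) (v (nx n k)) (x + t • (p - x)) =
      (1 - t) * orient (v k) (v (nx n k)) x + t * orient (v k) (v (nx n k)) p := by
    unfold orient; simp only [Prod.fst_add, Prod.snd_add, Prod.smul_fst, Prod.smul_snd,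
      Prod.fst_sub, Prod.snd_sub, smul_eq_mul]; ring
  rw [h8, orient_of_mem hx', mul_zero, zero_add] at h7
  exact nonneg_of_mul_nonneg_right h7 ht2.1

end sect

end Pool.Agent.FL
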