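import Pool.Agent.FL.Arm
import Pool.Agent.FL.Scov
import Pool.Agent.FL.Sect
import Pool.Agent.FL.SplitIJ

/-! MP_8a5d4f_co, project FL, row FL-17 -/

set_option autoImplicit false

namespace Pool.Agent.FL

open Set Filter Topology Pool.Agent.H54.Fl Pool.Agent.H75.PolyJ Pool.Agent.H95.Poly

section half

variable {n : ℕ} {v : ℕ → ℝ × ℝ} {α β i j k : ℕ}

theorem fl17_nx {n i : ℕ} (h : i + 1 < n) : nx n i = i + 1 := Nat.mod_eq_of_lt h

theorem fl17_pv {n i : ℕ} (h0 : 0 < i) (h : i < n) : pv n i = i - 1 := by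
  unfold pv
  have h1 : i + (n - 1) = (i - 1) + n := by omega
  rw [h1, Nat.add_mod_right, Nat.mod_eq_of_lt (by omega)]

/-- a light at a convex vertex: the point is in the interior angle -/
theorem fl17_conv (P : PG n v) {i : ℕ} (hi : i < n) (hc : 0 < tn n v i) {p : ℝ × ℝ}
    (hg : GP n v p) (hs : See n v p (v i)) :
    0 < orient (v (pv n i)) (v i) p ∧ 0 < orient (v i) (v (nx n i)) p := by
  rcases see_sector_gp P hi hg hs.symm with h | h
  · exact h.2
  · exact absurd h.1 (not_lt.2 hc.le)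

/-- the cover of the corner `0` for a trivial last chain -/
theorem fl17_S0 (T : PT n α β v) (hβ : β + 1 = n) {p : ℝ × ℝ} (hp : p ∈ inn n v)
    (hg : GP n v p) : (See n v p (v 0) ∧ 0 < orient (v 0) (v 1) p) ∨
      ∃ m, 0 < m ∧ m < α ∧ See n v p (v m) ∧ orient (v (m - 1)) (v m) p < 0 := by
  have h0 := T.h0
  have h1 := T.h1
  obtain ⟨m, hm, hu, hs⟩ := T.cS0 p hp hg
  unfold sS0 at hu
  split_ifs at hu with h2 h3 h4
  · subst h2
    have h5 := (fl17_conv T.pg hm T.c0 hg hs).2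
    rw [fl17_nx (by omega)] at h5
    exact Or.inl ⟨hs, h5⟩
  · refine Or.inr ⟨m, by omega, h3, hs, ?_⟩
    have h5 : orient (v (pv n m)) (v m) p < 0 := hu
    rwa [fl17_pv (by omega) hm] at h5
  · exact absurd hu (by simp [Use])
  · omega

/-- the cover of the corner `β` for a trivial last chain -/
theorem fl17_S2 (T : PT n α β v) (hβ : β + 1 = n) {p : ℝ × ℝ} (hp : p ∈ inn n v)
    (hg : GP n v p) : (See n v p (v β) ∧ 0 < orient (v (β - 1)) (v β) p) ∨
      ∃ m, α < m ∧ m < β ∧ See n v p (v m) ∧ orient (v m) (v (m + 1)) p < 0 := by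
  have h0 := T.h0
  have h1 := T.h1
  obtain ⟨m, hm, hu, hs⟩ := T.cS2 p hp hg
  unfold sS2 at hu
  split_ifs at hu with h2 h3 h4
  · subst h2
    have h5 := (fl17_conv T.pg hm T.c2 hg hs).1
    rw [fl17_pv (by omega) hm] at h5
    exact Or.inl ⟨hs, h5⟩
  · exact absurd hu (by simp [Use])
  · refine Or.inr ⟨m, by omega, h4, hs, ?_⟩
    have h5 : orient (v m) (v (nx n m)) p < 0 := hu
    rwa [fl17_nx (by omega)] at h5
  · omega

/-- the cover of the corner `β` for a trivial middle chain -/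
theorem fl17_S2' (T : PT n α β v) (hβ : β = α + 1) {p : ℝ × ℝ} (hp : p ∈ inn n v)
    (hg : GP n v p) : (See n v p (v β) ∧ 0 < orient (v β) (v (nx n β)) p) ∨
      ∃ m, β < m ∧ m < n ∧ See n v p (v m) ∧ orient (v (m - 1)) (v m) p < 0 := by
  have h0 := T.h0
  have h1 := T.h1
  obtain ⟨m, hm, hu, hs⟩ := T.cS2 p hp hg
  unfold sS2 at hu
  split_ifs at hu with h2 h3 h4
  · subst h2
    exact Or.inl ⟨hs, (fl17_conv T.pg hm T.c2 hg hs).2⟩
  · exact absurd hu (by simp [Use])
  · omega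
  · refine Or.inr ⟨m, by omega, hm, hs, ?_⟩
    have h5 : orient (v (pv n m)) (v m) p < 0 := hu
    rwa [fl17_pv (by omega) hm] at h5

/-- the cover of the corner `α` for a trivial middle chain -/
theorem fl17_S1' (T : PT n α β v) (hβ : β = α + 1) {p : ℝ × ℝ} (hp : p ∈ inn n v)
    (hg : GP n v p) : (See n v p (v α) ∧ 0 < orient (v (α - 1)) (v α) p) ∨
      ∃ m, 0 < m ∧ m < α ∧ See n v p (v m) ∧ orient (v m) (v (m + 1)) p < 0 := by
  have h0 := T.h0
  have h1 := T.h1
  have h6 := T.h2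
  obtain ⟨m, hm, hu, hs⟩ := T.cS1 p hp hg
  unfold sS1 at hu
  split_ifs at hu with h2 h3 h4 h5
  · subst h2
    have h5 := (fl17_conv T.pg hm T.c1 hg hs).1
    rw [fl17_pv (by omega) hm] at h5
    exact Or.inl ⟨hs, h5⟩
  · exact absurd hu (by simp [Use])
  · refine Or.inr ⟨m, by omega, h4, hs, ?_⟩
    have h5 : orient (v m) (v (nx n m)) p < 0 := hu
    rwa [fl17_nx (by omega)] at h5
  · omega
  · exact absurd hu (by simp [Use])

theorem fl17_arc (P : PG n v) (D : Dg n v i j) (hα : i < α) (hα2 : α < j)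
    (T : PT (j - i + 1) (α - i) (j - i) (arc v i))
    {p : ℝ × ℝ} (hp : p ∈ inn (j - i + 1) (arc v i)) (hg : GP n v p) :
    ((See n v p (v i) ∧ 0 < orient (v i) (v (i + 1)) p) ∨
      ∃ m, i < m ∧ m < α ∧ See n v p (v m) ∧ orient (v (m - 1)) (v m) p < 0) ∧
    ((See n v p (v j) ∧ 0 < orient (v (j - 1)) (v j) p) ∨
      ∃ m, α < m ∧ m < j ∧ See n v p (v m) ∧ orient (v m) (v (m + 1)) p < 0) := by
  have h1 := D.lt
  have hga : GP (j - i + 1) (arc v i) p := gp_arc D.ltn (by omega) hg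
  have hsub : ∀ q, See (j - i + 1) (arc v i) p q → See n v p q :=
    fun q h z hz => D.inner_arc P (h z hz)
  constructor
  · rcases fl17_S0 T rfl hp hga with ⟨h2, h3⟩ | ⟨m, h2, h3, h4, h5⟩
    · exact Or.inl ⟨hsub _ h2, h3⟩
    · refine Or.inr ⟨i + m, by omega, by omega, hsub _ h4, ?_⟩
      have h6 : i + m - 1 = i + (m - 1) := by omega
      rw [h6]
      exact h5
  · rcases fl17_S2 T rfl hp hga with ⟨h2, h3⟩ | ⟨m, h2, h3, h4, h5⟩
    · left
      have e1 : arc v i (j - i) = v j := by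
        show v (i + (j - i)) = v j
        congr 1
        omega
      have e2 : arc v i (j - i - 1) = v (j - 1) := by
        show v (i + (j - i - 1)) = v (j - 1)
        congr 1
        omega
      rw [e1] at h2
      rw [e1, e2] at h3
      exact ⟨hsub _ h2, h3⟩
    · exact Or.inr ⟨i + m, by omega, by omega, hsub _ h4, h5⟩

/-- a half arm is lit by one of its two chains -/
theorem PT.half (T : PT n α β v) (hi : i < α) (hj : α < j) (hj2 : j ≤ β) (D : Dg n v i j)
    {p : ℝ × ℝ} (hp : p ∈ inn (j - i + 1) (arc v i)) (hg : GP n v p) :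
    ((See n v p (v i) ∧ 0 < orient (v i) (v (i + 1)) p) ∨
      ∃ m, i < m ∧ m < α ∧ See n v p (v m) ∧ orient (v (m - 1)) (v m) p < 0) ∧
    ((See n v p (v j) ∧ 0 < orient (v (j - 1)) (v j) p) ∨
      ∃ m, α < m ∧ m < j ∧ See n v p (v m) ∧ orient (v m) (v (m + 1)) p < 0) :=
  fl17_arc T.pg D hi hj (T.arm hi hj hj2 D) hp hg

theorem PT.half2 (T : PT n α β v) (hj : α ≤ j) (hj2 : j < β) (hk : β < k) (D : Dg n v j k)
    {p : ℝ × ℝ} (hp : p ∈ inn (k - j + 1) (arc v j)) (hg : GP n v p) :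
    ((See n v p (v j) ∧ 0 < orient (v j) (v (j + 1)) p) ∨
      ∃ m, j < m ∧ m < β ∧ See n v p (v m) ∧ orient (v (m - 1)) (v m) p < 0) ∧
    ((See n v p (v k) ∧ 0 < orient (v (k - 1)) (v k) p) ∨
      ∃ m, β < m ∧ m < k ∧ See n v p (v m) ∧ orient (v m) (v (m + 1)) p < 0) :=
  fl17_arc T.pg D hj2 hk (T.arm2 hj hj2 hk D) hp hg

theorem PT.half3 (T : PT n α β v) (hi : 0 < i) (hi2 : i ≤ α) (hk : β ≤ k) (D : Dg n v i k)
    {p : ℝ × ℝ} (hp : p ∈ inn (n - (k - i) + 1) (co v i k)) (hg : GP n v p) :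
    ((See n v p (v k) ∧ 0 < orient (v k) (v (nx n k)) p) ∨
      ∃ m, k < m ∧ m < n ∧ See n v p (v m) ∧ orient (v (m - 1)) (v m) p < 0) ∧
    ((See n v p (v i) ∧ 0 < orient (v (i - 1)) (v i) p) ∨
      ∃ m, 0 < m ∧ m < i ∧ See n v p (v m) ∧ orient (v m) (v (m + 1)) p < 0) := by
  have T3 := T.arm3 hi hi2 hk D
  have h1 := D.lt
  have h2 := D.ltn
  have hga : GP (n - (k - i) + 1) (co v i k) p := gp_co D.ltn (by omega) hg
  have hsub : ∀ q, See (n - (k - i) + 1) (co v i k) p q → See n v p q :=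
    fun q h z hz => D.inner_co T.pg (h z hz)
  have cle : ∀ m, m ≤ i → co v i k m = v m := fun m hm => if_pos hm
  have cgt : ∀ m, i < m → co v i k m = v (m + (k - i) - 1) := fun m hm => if_neg (by omega)
  constructor
  · rcases fl17_S2' T3 rfl hp hga with ⟨h3, h4⟩ | ⟨m, h3, h4, h5, h6⟩
    · left
      have e1 : co v i k (i + 1) = v k := by
        rw [cgt _ (by omega)]
        congr 1
        omega
      have e2 : co v i k (nx (n - (k - i) + 1) (i + 1)) = v (nx n k) := by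
        rcases Nat.lt_or_ge (k + 1) n with h5 | h5
        · rw [fl17_nx (by omega), fl17_nx h5, cgt _ (by omega)]
          congr 1
          omega
        · have h6 : k + 1 = n := by omega
          have h7 : nx n k = 0 := by
            unfold nx
            rw [h6, Nat.mod_self]
          have h8 : nx (n - (k - i) + 1) (i + 1) = 0 := by
            unfold nx
            have h9 : i + 1 + 1 = n - (k - i) + 1 := by omega
            rw [h9, Nat.mod_self]
          rw [h7, h8, cle _ (Nat.zero_le _)]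
      rw [e1] at h3
      rw [e1, e2] at h4
      exact ⟨hsub _ h3, h4⟩
    · right
      rw [cgt m (by omega)] at h5
      rw [cgt m (by omega), cgt (m - 1) (by omega)] at h6
      refine ⟨m + (k - i) - 1, by omega, by omega, hsub _ h5, ?_⟩
      have e1 : m + (k - i) - 1 - 1 = m - 1 + (k - i) - 1 := by omega
      rw [e1]
      exact h6
  · rcases fl17_S1' T3 rfl hp hga with ⟨h3, h4⟩ | ⟨m, h3, h4, h5, h6⟩
    · left
      rw [cle _ le_rfl] at h3
      rw [cle _ le_rfl, cle _ (by omega)] at h4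
      exact ⟨hsub _ h3, h4⟩
    · right
      rw [cle _ (by omega)] at h5
      rw [cle _ (by omega), cle _ (by omega)] at h6
      exact ⟨m, h3, h4, hsub _ h5, h6⟩

end half

end Pool.Agent.FL
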