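import Pool.Agent.FL.Arm
import Pool.Agent.FL.Scov
import Pool.Agent.FL.Shift
import Pool.Agent.FL.Half

/-! MP_8a5d4f_co, project FL, row FL-21 -/

set_option autoImplicit false

namespace Pool.Agent.FL

open Set Filter Topology Pool.Agent.H54.Fl Pool.Agent.H75.PolyJ Pool.Agent.H95.Poly

section kcov

variable {n : ℕ} {v : ℕ → ℝ × ℝ} {α β : ℕ}

theorem fl21_congr {σ σ' : ℕ → St} (h : ∀ i < n, σ i = σ' i) (hc : Cov n v σ) : Cov n v σ' := by
  intro p hp hg
  obtain ⟨i, hi, hu, hs⟩ := hc p hp hg
  exact ⟨i, hi, by rw [← h i hi]; exact hu, hs⟩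

theorem fl21_pv {i : ℕ} (hi : i < n) (h0 : 0 < i) : pv n i = i - 1 := by
  rcases pv_cases hi with ⟨_, h⟩ | ⟨h, _⟩
  · exact h
  · omega

theorem fl21_nx {i : ℕ} (hi : i + 1 < n) : nx n i = i + 1 := Nat.mod_eq_of_lt hi

theorem fl21_cr (a b p : ℝ × ℝ) : cr (b - a) (p - a) = orient a b p := by
  unfold cr orient
  simp only [Prod.fst_sub, Prod.snd_sub]

theorem fl21_cr' (a b p : ℝ × ℝ) : cr (b - a) (p - b) = orient a b p := by
  unfold cr orient
  simp only [Prod.fst_sub, Prod.snd_sub]
  ring

theorem fl21_co {j m : ℕ} (hm : 0 < m) : co v 0 j m = v (m + j - 1) := by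
  unfold co
  rw [if_neg (by omega)]
  rfl

theorem fl21_co0 {j : ℕ} : co v 0 j 0 = v 0 := rfl

theorem fl21_see (P : PG n v) {j : ℕ} (D : Dg n v 0 j) {p q : ℝ × ℝ}
    (h : See (n - j + 1) (co v 0 j) p q) : See n v p q :=
  fun z hz => D.inner_co P (h z hz)

theorem fl21_gp {j : ℕ} (hj : j < n) (h0 : 0 < j) {p : ℝ × ℝ} (h : GP n v p) :
    GP (n - j + 1) (co v 0 j) p := gp_co hj h0 h

theorem PT.cK1 (T : PT n α β v) {j : ℕ} (hj : α < j) (hj2 : j < β) (D : Dg n v 0 j) :
    Cov n v (sK1 α β j (St.H (ed n v j))) := by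
  intro p hp hg
  have P := T.pg
  have hα := T.h0
  have hβ := T.h2
  rcases D.inner_or_gp P hp hg with h | h
  · rcases (T.half hα hj hj2.le D h hg).1 with ⟨h1, _⟩ | ⟨m, h1, h2, h3, h4⟩
    · exact ⟨0, by omega, trivial, h1⟩
    · refine ⟨m, by omega, ?_, h3⟩
      have e : sK1 α β j (St.H (ed n v j)) m = St.N := by
        unfold sK1
        rw [if_neg (by omega), if_pos (by omega)]
      rw [e]
      change orient (v (pv n m)) (v m) p < 0
      rw [fl21_pv (by omega) h1]
      exact h4
  · have T' := T.arm' hj hj2 D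
    have hg' : GP (n - j + 1) (co v 0 j) p := fl21_gp (by omega) (by omega) hg
    obtain ⟨m, hm, hu, hs⟩ := T'.cS1 p h hg'
    have hs' : See n v p (co v 0 j m) := fl21_see P D hs
    rcases Nat.eq_zero_or_pos m with h0 | h0
    · exfalso
      subst h0
      have e : sS1 1 (β - j + 1) 0 = St.off := by
        unfold sS1
        rw [if_neg (by omega), if_pos rfl]
      rw [e] at hu
      exact hu
    · rw [fl21_co h0] at hs'
      refine ⟨m + j - 1, by omega, ?_, hs'⟩
      rcases Nat.lt_or_ge 1 m with h1 | h1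
      · by_cases h2 : m < β - j + 1
        · have e : sS1 1 (β - j + 1) m = St.N := by
            unfold sS1
            rw [if_neg (by omega), if_neg (by omega), if_neg (by omega), if_pos h2]
          have e2 : sK1 α β j (St.H (ed n v j)) (m + j - 1) = St.N := by
            unfold sK1
            rw [if_neg (by omega), if_neg (by omega), if_neg (by omega), if_neg (by omega),
              if_pos (by omega)]
          rw [e] at hu
          rw [e2]
          change orient (v (pv n (m + j - 1))) (v (m + j - 1)) p < 0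
          change orient (co v 0 j (pv (n - j + 1) m)) (co v 0 j m) p < 0 at hu
          rw [fl21_pv hm h0, fl21_co h0, fl21_co (by omega)] at hu
          rw [fl21_pv (by omega) (by omega)]
          have e3 : m - 1 + j - 1 = m + j - 1 - 1 := by omega
          rwa [e3] at hu
        · exfalso
          have e : sS1 1 (β - j + 1) m = St.off := by
            unfold sS1
            rw [if_neg (by omega), if_neg (by omega), if_neg (by omega), if_neg h2]
          rw [e] at hu
          exact hu
      · have h2 : m = 1 := by omega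
        subst h2
        have e1 : 1 + j - 1 = j := by omega
        rw [e1]
        have e2 : sK1 α β j (St.H (ed n v j)) j = St.H (ed n v j) := by
          unfold sK1
          rw [if_neg (by omega), if_neg (by omega), if_neg (by omega), if_pos rfl]
        rw [e2]
        change 0 < cr (v (nx n j) - v j) (p - v j)
        rw [fl21_cr]
        rcases see_sector_gp T'.pg hm hg' hs.symm with ⟨_, _, h3⟩ | ⟨h3, _⟩
        · rw [fl21_nx (by omega), fl21_co (by omega), fl21_co (by omega), e1] at h3
          rw [fl21_nx (by omega)]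
          have e3 : 1 + 1 + j - 1 = j + 1 := by omega
          rwa [e3] at h3
        · exact absurd T'.c1 (by linarith)

theorem PT.cK2 (T : PT n α β v) {j : ℕ} (hj : α < j) (hj2 : j < β) (D : Dg n v 0 j) :
    Cov n v (sK2 α β j (St.H (v j - v (j - 1)))) := by
  intro p hp hg
  have P := T.pg
  have hα := T.h0
  have hβ := T.h2
  rcases D.inner_or_gp P hp hg with h | h
  · rcases (T.half hα hj hj2.le D h hg).2 with ⟨h1, h2⟩ | ⟨m, h1, h2, h3, h4⟩
    · refine ⟨j, by omega, ?_, h1⟩
      have e : sK2 α β j (St.H (v j - v (j - 1))) j = St.H (v j - v (j - 1)) := by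
        unfold sK2
        rw [if_neg (by omega), if_neg (by omega), if_neg (by omega), if_pos rfl]
      rw [e]
      change 0 < cr (v j - v (j - 1)) (p - v j)
      rw [fl21_cr']
      exact h2
    · refine ⟨m, by omega, ?_, h3⟩
      have e : sK2 α β j (St.H (v j - v (j - 1))) m = St.P := by
        unfold sK2
        rw [if_neg (by omega), if_neg (by omega), if_pos (by omega)]
      rw [e]
      change orient (v m) (v (nx n m)) p < 0
      rw [fl21_nx (by omega)]
      exact h4
  · have T' := T.arm' hj hj2 D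
    have hg' : GP (n - j + 1) (co v 0 j) p := fl21_gp (by omega) (by omega) hg
    obtain ⟨m, hm, hu, hs⟩ := T'.cS0 p h hg'
    have hs' : See n v p (co v 0 j m) := fl21_see P D hs
    rcases Nat.eq_zero_or_pos m with h0 | h0
    · subst h0
      exact ⟨0, by omega, trivial, hs'⟩
    · rw [fl21_co h0] at hs'
      refine ⟨m + j - 1, by omega, ?_, hs'⟩
      by_cases h2 : m ≤ β - j + 1
      · exfalso
        have e : sS0 1 (β - j + 1) m = St.off := by
          unfold sS0
          rw [if_neg (by omega), if_neg (by omega), if_pos h2]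
        rw [e] at hu
        exact hu
      · have e : sS0 1 (β - j + 1) m = St.P := by
          unfold sS0
          rw [if_neg (by omega), if_neg (by omega), if_neg h2]
        have e2 : sK2 α β j (St.H (v j - v (j - 1))) (m + j - 1) = St.P := by
          unfold sK2
          rw [if_neg (by omega), if_neg (by omega), if_neg (by omega), if_neg (by omega),
            if_neg (by omega)]
        rw [e] at hu
        rw [e2]
        change orient (v (m + j - 1)) (v (nx n (m + j - 1))) p < 0
        change orient (co v 0 j m) (co v 0 j (nx (n - j + 1) m)) p < 0 at hu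
        rw [fl21_co h0] at hu
        rcases nx_cases hm with ⟨h3, h4⟩ | ⟨h3, h4⟩
        · rw [h4, fl21_co (by omega)] at hu
          rw [fl21_nx (by omega)]
          have e3 : m + 1 + j - 1 = m + j - 1 + 1 := by omega
          rwa [e3] at hu
        · rw [h4, fl21_co0] at hu
          have e3 : nx n (m + j - 1) = 0 := by
            rcases nx_cases (show m + j - 1 < n by omega) with ⟨h5, _⟩ | ⟨_, h6⟩
            · omega
            · exact h6
          rwa [e3]

theorem fl21_sh {s k m : ℕ} (h : s + k = m ∨ s + k = m + n) (hm : m < n) :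
    sh n v s k = v m := by
  unfold sh
  rcases h with h | h
  · rw [h, Nat.mod_eq_of_lt hm]
  · rw [h, Nat.add_mod_right, Nat.mod_eq_of_lt hm]

theorem fl21_mod {s m : ℕ} (hs : s ≤ n) (hm : m < n) :
    ((m + (n - s)) % n = m - s ∧ s ≤ m) ∨ ((m + (n - s)) % n = m + (n - s) ∧ m < s) := by
  by_cases h : s ≤ m
  · left
    refine ⟨?_, h⟩
    have e : m + (n - s) = (m - s) + n := by omega
    rw [e, Nat.add_mod_right]
    exact Nat.mod_eq_of_lt (by omega)
  · right
    exact ⟨Nat.mod_eq_of_lt (by omega), by omega⟩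

theorem fl21_dgb (T : PT n α β v) {k : ℕ} (D : Dg n v α k) :
    Dg n (sh n v α) 0 (k - α) := by
  have hα := T.h0
  have h1 := D.lt
  have h2 := D.ltn
  refine ⟨by omega, by omega, by omega, ?_⟩
  rw [see_sh T.pg, fl21_sh (m := α) (by omega) (by omega),
    fl21_sh (m := k) (by omega) (by omega)]
  exact D.see

theorem fl21_ptc (T : PT n α β v) : PT n (n - β) (n - β + α) (sh n v β) := by
  have h0 := T.h0
  have h1 := T.h1
  have h2 := T.h2
  have T' := T.sh1.sh1
  have e1 : n - α - (β - α) = n - β := by omega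
  have e2 : n - (β - α) = n - β + α := by omega
  have e3 : sh n (sh n v α) (β - α) = sh n v β := by
    funext k
    unfold sh
    congr 1
    rw [Nat.add_mod_mod]
    congr 1
    omega
  rwa [e1, e2, e3] at T'

theorem fl21_dgc (T : PT n α β v) {i : ℕ} (hi : 0 < i) (hi2 : i < α) (D : Dg n v i β) :
    Dg n (sh n v β) 0 (n - β + i) := by
  have h0 := T.h0
  have h1 := T.h1
  have h2 := T.h2
  refine ⟨by omega, by omega, by omega, ?_⟩
  rw [see_sh T.pg, fl21_sh (m := β) (by omega) (by omega),
    fl21_sh (m := i) (by omega) (by omega)]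
  exact D.see.symm

theorem PT.cK1b (T : PT n α β v) {k : ℕ} (hk : β < k) (D : Dg n v α k) :
    Cov n v (sK1b α β k (St.H (ed n v k))) := by
  have h0 := T.h0
  have h1 := T.h1
  have h2 := T.h2
  have h3 := D.ltn
  have h := T.sh1.cK1 (j := k - α) (by omega) (by omega) (fl21_dgb T D)
  have h' := cov_sh T.pg (show α ≤ n by omega) h
  refine fl21_congr ?_ h'
  intro m hm
  have e : ed n (sh n v α) (k - α) = ed n v k := by
    unfold ed
    rw [fl21_sh (s := α) (k := k - α) (m := k) (by omega) (by omega)]
    rcases nx_cases h3 with ⟨h4, h5⟩ | ⟨h4, h5⟩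
    · rw [h5, fl21_nx (by omega), fl21_sh (m := k + 1) (by omega) (by omega)]
    · rw [h5, fl21_nx (by omega), fl21_sh (m := 0) (by omega) (by omega)]
  simp only [e]
  unfold sK1 sK1b
  rcases fl21_mod (show α ≤ n by omega) hm with ⟨h4, h5⟩ | ⟨h4, h5⟩
  · rw [h4]
    split_ifs <;> first | rfl | omega
  · rw [h4]
    split_ifs <;> first | rfl | omega

theorem PT.cK2b (T : PT n α β v) {k : ℕ} (hk : β < k) (D : Dg n v α k) :
    Cov n v (sK2b α β k (St.H (v k - v (k - 1)))) := by
  have h0 := T.h0
  have h1 := T.h1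
  have h2 := T.h2
  have h3 := D.ltn
  have h := T.sh1.cK2 (j := k - α) (by omega) (by omega) (fl21_dgb T D)
  have h' := cov_sh T.pg (show α ≤ n by omega) h
  refine fl21_congr ?_ h'
  intro m hm
  have e : sh n v α (k - α) - sh n v α (k - α - 1) = v k - v (k - 1) := by
    rw [fl21_sh (m := k) (by omega) (by omega),
      fl21_sh (m := k - 1) (by omega) (by omega)]
  simp only [e]
  unfold sK2 sK2b
  rcases fl21_mod (show α ≤ n by omega) hm with ⟨h4, h5⟩ | ⟨h4, h5⟩
  · rw [h4]
    split_ifs <;> first | rfl | omega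
  · rw [h4]
    split_ifs <;> first | rfl | omega

theorem PT.cK1c (T : PT n α β v) {i : ℕ} (hi : 0 < i) (hi2 : i < α) (D : Dg n v i β) :
    Cov n v (sK1c α β i (St.H (ed n v i))) := by
  have h0 := T.h0
  have h1 := T.h1
  have h2 := T.h2
  have h := (fl21_ptc T).cK1 (j := n - β + i) (by omega) (by omega) (fl21_dgc T hi hi2 D)
  have h' := cov_sh T.pg (show β ≤ n by omega) h
  refine fl21_congr ?_ h'
  intro m hm
  have e : ed n (sh n v β) (n - β + i) = ed n v i := by
    unfold ed
    rw [fl21_sh (s := β) (k := n - β + i) (m := i) (by omega) (by omega), fl21_nx (by omega),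
      fl21_nx (by omega),
      fl21_sh (m := i + 1) (by omega) (by omega)]
  simp only [e]
  unfold sK1 sK1c
  rcases fl21_mod (show β ≤ n by omega) hm with ⟨h4, h5⟩ | ⟨h4, h5⟩
  · rw [h4]
    split_ifs <;> first | rfl | omega
  · rw [h4]
    split_ifs <;> first | rfl | omega

theorem PT.cK2c (T : PT n α β v) {i : ℕ} (hi : 0 < i) (hi2 : i < α) (D : Dg n v i β) :
    Cov n v (sK2c α β i (St.H (v i - v (i - 1)))) := by
  have h0 := T.h0
  have h1 := T.h1
  have h2 := T.h2
  have h := (fl21_ptc T).cK2 (j := n - β + i) (by omega) (by omega) (fl21_dgc T hi hi2 D)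
  have h' := cov_sh T.pg (show β ≤ n by omega) h
  refine fl21_congr ?_ h'
  intro m hm
  have e : sh n v β (n - β + i) - sh n v β (n - β + i - 1) = v i - v (i - 1) := by
    rw [fl21_sh (m := i) (by omega) (by omega),
      fl21_sh (m := i - 1) (by omega) (by omega)]
  simp only [e]
  unfold sK2 sK2c
  rcases fl21_mod (show β ≤ n by omega) hm with ⟨h4, h5⟩ | ⟨h4, h5⟩
  · rw [h4]
    split_ifs <;> first | rfl | omega
  · rw [h4]
    split_ifs <;> first | rfl | omega

end kcov

end Pool.Agent.FL
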