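import Pool.Agent.FL.Tri
import Pool.Agent.FL.Arm
import Pool.Agent.FL.Shift

/-! MP_8a5d4f_co, project FL, row FL-23 -/

set_option autoImplicit false

namespace Pool.Agent.FL

open Set Filter Topology Pool.Agent.H54.Fl Pool.Agent.H75.PolyJ Pool.Agent.H95.Poly

section rain

variable {n : ℕ} {v : ℕ → ℝ × ℝ} {α β : ℕ}

lemma fl23_mod {N x : ℕ} (h : x < 2 * N) : (x < N ∧ x % N = x) ∨ (N ≤ x ∧ x % N = x - N) := by
  rcases Nat.lt_or_ge x N with h1 | h1
  · exact Or.inl ⟨h1, Nat.mod_eq_of_lt h1⟩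
  · right
    refine ⟨h1, ?_⟩
    rw [Nat.mod_eq_sub_mod h1]
    exact Nat.mod_eq_of_lt (by omega)

/-- joined by an edge or a diagonal, in any order -/
def fl23_Ed (n : ℕ) (v : ℕ → ℝ × ℝ) (i j : ℕ) : Prop := (i < j ∧ Ed n v i j) ∨ (j < i ∧ Ed n v j i)

lemma fl23_sh (P : PG n v) {s a b : ℕ} (hs : s < n) (hab : a < b) (hb : b < n)
    (h : Ed n (sh n v s) a b) : fl23_Ed n v ((s + a) % n) ((s + b) % n) := by
  have hA := fl23_mod (N := n) (x := s + a) (by omega)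
  have hB := fl23_mod (N := n) (x := s + b) (by omega)
  rcases h with ⟨_, h1 | ⟨h1, h2⟩⟩ | h
  · rcases hA with ⟨_, hA⟩ | ⟨_, hA⟩ <;> rcases hB with ⟨_, hB⟩ | ⟨_, hB⟩ <;> rw [hA, hB]
    · exact Or.inl ⟨by omega, Or.inl ⟨by omega, Or.inl (by omega)⟩⟩
    · exact Or.inr ⟨by omega, Or.inl ⟨by omega, Or.inr ⟨by omega, by omega⟩⟩⟩
    · exfalso; omega
    · exact Or.inl ⟨by omega, Or.inl ⟨by omega, Or.inl (by omega)⟩⟩
  · rcases hA with ⟨_, hA⟩ | ⟨_, hA⟩ <;> rcases hB with ⟨_, hB⟩ | ⟨_, hB⟩ <;> rw [hA, hB]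
    · exact Or.inl ⟨by omega, Or.inl ⟨by omega, Or.inr ⟨by omega, by omega⟩⟩⟩
    · exact Or.inr ⟨by omega, Or.inl ⟨by omega, Or.inl (by omega)⟩⟩
    · exfalso; omega
    · exfalso; omega
  · have hsee : See n v (v ((s + a) % n)) (v ((s + b) % n)) := (see_sh P s).1 h.see
    have h1 := h.lt
    have h2 := h.nl
    rcases hA with ⟨_, hA⟩ | ⟨_, hA⟩ <;> rcases hB with ⟨_, hB⟩ | ⟨_, hB⟩ <;>
      rw [hA, hB] at hsee ⊢
    · exact Or.inl ⟨by omega, Or.inr ⟨by omega, by omega, by omega, hsee⟩⟩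
    · exact Or.inr ⟨by omega, Or.inr ⟨by omega, by omega, by omega, hsee.symm⟩⟩
    · exfalso; omega
    · exact Or.inl ⟨by omega, Or.inr ⟨by omega, by omega, by omega, hsee⟩⟩

/-- the third vertex of a triangle at the edge from `i` to `i + 1` -/
lemma fl23_third (P : PG n v) {i : ℕ} (hi : i + 1 < n) :
    ∃ m < n, m ≠ i ∧ m ≠ i + 1 ∧ fl23_Ed n v (i + 1) m ∧ fl23_Ed n v m i := by
  obtain ⟨k, hk0, hk1, h1, h2⟩ := third (PG.sh P (i + 1))
  have e1 := fl23_sh P hi hk0 (by omega) h1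
  have e2 := fl23_sh P hi (show k < n - 1 by omega) (by omega) h2
  have m1 : (i + 1 + 0) % n = i + 1 := Nat.mod_eq_of_lt (by omega)
  have m2 : (i + 1 + (n - 1)) % n = i := by
    rcases fl23_mod (N := n) (x := i + 1 + (n - 1)) (by omega) with ⟨h, _⟩ | ⟨_, h⟩ <;> omega
  rw [m1] at e1
  rw [m2] at e2
  have m3 := fl23_mod (N := n) (x := i + 1 + k) (by omega)
  exact ⟨(i + 1 + k) % n, Nat.mod_lt _ (by omega), by omega, by omega, e1, e2⟩

lemma fl23_co (i : ℕ) : co v i (i + 1) = v := by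
  funext k
  unfold co
  split_ifs with h
  · rfl
  · congr 1
    omega

/-- the third vertex on the far side of an edge or diagonal -/
lemma fl23_far (P : PG n v) {i j : ℕ} (hij : i < j) (hj : j < n) (hn : ¬ (i = 0 ∧ j + 1 = n))
    (h : Ed n v i j) : ∃ m < n, (m < i ∨ j < m) ∧ fl23_Ed n v j m ∧ fl23_Ed n v m i := by
  rcases h with ⟨_, h1 | h1⟩ | D
  · subst h1
    obtain ⟨m, hm, h2, h3, h4, h5⟩ := fl23_third P hj
    exact ⟨m, hm, by omega, h4, h5⟩
  · exact absurd h1 hn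
  · have hlt := D.lt
    have Q := D.co_pg P
    obtain ⟨m, hm, h2, h3, h4, h5⟩ := fl23_third Q (i := i) (by omega)
    have ci : cx i j i = i := if_pos le_rfl
    have cj : cx i j (i + 1) = j := by
      unfold cx; rw [if_neg (by omega)]; omega
    refine ⟨cx i j m, ?_, ?_, ?_, ?_⟩
    · unfold cx; split_ifs <;> omega
    · unfold cx; split_ifs <;> omega
    · rcases h4 with ⟨h6, h7⟩ | ⟨h6, h7⟩
      · have h8 := Ed.of_co P D h7 h6
        rw [cj] at h8
        refine Or.inl ⟨?_, h8⟩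
        unfold cx; split_ifs <;> omega
      · have h8 := Ed.of_co P D h7 h6
        rw [cj] at h8
        refine Or.inr ⟨?_, h8⟩
        unfold cx; split_ifs <;> omega
    · rcases h5 with ⟨h6, h7⟩ | ⟨h6, h7⟩
      · have h8 := Ed.of_co P D h7 h6
        rw [ci] at h8
        refine Or.inl ⟨?_, h8⟩
        unfold cx; split_ifs <;> omega
      · have h8 := Ed.of_co P D h7 h6
        rw [ci] at h8
        refine Or.inr ⟨?_, h8⟩
        unfold cx; split_ifs <;> omega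

lemma fl23_dg {i j : ℕ} (h : Ed n v i j) (h1 : i + 2 ≤ j) (h2 : ¬ (i = 0 ∧ j + 1 = n)) :
    Dg n v i j := by
  rcases h with ⟨_, h | h⟩ | D
  · omega
  · exact absurd h h2
  · exact D

/-- all chains nonempty: a core triangle or a corner which sees a vertex of the opposite chain -/
theorem PT.rain (T : PT n α β v) (h0 : 1 < α) (h1 : α + 1 < β) (h2 : β + 1 < n) :
    (∃ i j k, Core n α β i j k v) ∨ (∃ j, α < j ∧ j < β ∧ Dg n v 0 j) ∨
      (∃ k, β < k ∧ k < n ∧ Dg n v α k) ∨ (∃ i, 0 < i ∧ i < α ∧ Dg n v i β) := by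
  classical
  set Q : ℕ → Prop := fun d => ∃ i j, i < α ∧ α ≤ j ∧ j < β ∧ Ed n v i j ∧ j - i = d with hQ
  have hQ1 : Q 1 := ⟨α - 1, α, by omega, le_rfl, by omega,
    Or.inl ⟨by omega, Or.inl (by omega)⟩, by omega⟩
  obtain ⟨d, ⟨i, j, hi, hj, hj2, hE, hd⟩, hmax⟩ : ∃ d, Q d ∧ ∀ d', Q d' → d' ≤ d :=
    ⟨Nat.findGreatest Q n, Nat.findGreatest_spec (m := 1) (by omega) hQ1, fun d' hd' => by
      obtain ⟨i, j, a1, a2, a3, a4, a5⟩ := id hd'
      exact Nat.le_findGreatest (by omega) hd'⟩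
  have hmax' : ∀ i' j', i' < α → α ≤ j' → j' < β → Ed n v i' j' → j' - i' ≤ j - i := by
    intro i' j' a1 a2 a3 a4
    have := hmax (j' - i') ⟨i', j', a1, a2, a3, a4, rfl⟩
    omega
  obtain ⟨m, hm, hm2, h4, h5⟩ := fl23_far T.pg (show i < j by omega) (by omega) (by omega) hE
  by_cases hi0 : i = 0
  · subst hi0
    rcases Nat.lt_or_ge α j with h6 | h6
    · exact Or.inr (Or.inl ⟨j, h6, hj2, fl23_dg hE (by omega) (by omega)⟩)
    · exact absurd h6 (T.no_dg (fl23_dg hE (by omega) (by omega))).1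
  rcases hm2 with hm2 | hm2
  · exfalso
    rcases h4 with ⟨h6, h7⟩ | ⟨h6, h7⟩
    · omega
    · have := hmax' m j (by omega) hj hj2 h7
      omega
  have e1 : Ed n v j m := by
    rcases h4 with ⟨h6, h7⟩ | ⟨h6, h7⟩
    · exact h7
    · omega
  have e2 : Ed n v i m := by
    rcases h5 with ⟨h6, h7⟩ | ⟨h6, h7⟩
    · omega
    · exact h7
  rcases Nat.lt_trichotomy m β with h6 | h6 | h6
  · exfalso
    have := hmax' i m hi (by omega) h6 e2
    omega
  · subst h6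
    exact Or.inr (Or.inr (Or.inr ⟨i, by omega, hi, fl23_dg e2 (by omega) (by omega)⟩))
  · rcases Nat.lt_or_ge α j with h7 | h7
    · left
      exact ⟨i, j, m, T, by omega, hi, h7, hj2, h6, hm, fl23_dg hE (by omega) (by omega),
        fl23_dg e1 (by omega) (by omega), fl23_dg e2 (by omega) (by omega)⟩
    · have h8 : j = α := by omega
      subst h8
      exact Or.inr (Or.inr (Or.inl ⟨m, h6, hm, fl23_dg e1 (by omega) (by omega)⟩))

end rain

end Pool.Agent.FL
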