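import Pool.Agent.FL.Sa
import Pool.Agent.FL.Scov

/-! MP_8a5d4f_co, project FL, row FL-22 -/

set_option autoImplicit false

namespace Pool.Agent.FL

open Set Filter Topology Pool.Agent.H54.Fl Pool.Agent.H75.PolyJ Pool.Agent.H95.Poly

section trade

variable {n : ℕ} {v : ℕ → ℝ × ℝ} {α β : ℕ}

theorem fl22_or (a b p : ℝ × ℝ) : orient a b p = cr (b - a) (p - b) := by
  simp only [orient, cr, Prod.fst_sub, Prod.snd_sub]
  ring

theorem fl22_or' (a b p : ℝ × ℝ) : orient a b p = cr (b - a) (p - a) := by
  simp only [orient, cr, Prod.fst_sub, Prod.snd_sub]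

theorem fl22_add (z a b : ℝ × ℝ) : cr z (a + b) = cr z a + cr z b := by
  simp only [cr, Prod.fst_add, Prod.snd_add]
  ring

theorem fl22_tri (z a b c : ℝ × ℝ) : cr z (c - a) = cr z (b - a) + cr z (c - b) := by
  simp only [cr, Prod.fst_sub, Prod.snd_sub]
  ring

theorem fl22_neg (z a b : ℝ × ℝ) : cr z (b - a) = - cr z (a - b) := by
  simp only [cr, Prod.fst_sub, Prod.snd_sub]
  ring

theorem fl22_swap (a b : ℝ × ℝ) : cr a b = - cr b a := by
  simp only [cr]
  ring

/-- a vector which is right of `a` and left of `b`, where `b` is clockwise of `a`, is a positive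
combination of `a` and `b` -/
theorem fl22_cone {z a b q : ℝ × ℝ} (h1 : cr a q < 0) (h2 : 0 < cr b q) (h0 : cr a b < 0)
    (h3 : 0 < cr z a) (h4 : 0 < cr z b) : 0 < cr z q := by
  have e : cr a b * cr z q = - (cr b q * cr z a) + cr a q * cr z b := by
    simp only [cr]
    ring
  have h5 := mul_pos h2 h3
  have h6 := mul_neg_of_neg_of_pos h1 h4
  by_contra h
  have h7 := mul_nonneg_of_nonpos_of_nonpos h0.le (not_lt.mp h)
  linarith

theorem fl22_cone' {z a b q : ℝ × ℝ} (h1 : cr a q < 0) (h2 : 0 < cr b q) (h0 : cr a b < 0)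
    (h3 : cr z a < 0) (h4 : cr z b < 0) : cr z q < 0 := by
  have e : cr a b * cr z q = - (cr b q * cr z a) + cr a q * cr z b := by
    simp only [cr]
    ring
  have h5 := mul_neg_of_pos_of_neg h2 h3
  have h6 := mul_pos_of_neg_of_neg h1 h4
  by_contra h
  have h7 := mul_nonpos_of_nonpos_of_nonneg h0.le (not_lt.mp h)
  linarith

theorem fl22_nx {i : ℕ} (h : i + 1 < n) : nx n i = i + 1 := by
  unfold nx
  exact Nat.mod_eq_of_lt h

theorem fl22_pv {i : ℕ} (h0 : 0 < i) (h : i < n) : pv n i = i - 1 := by
  unfold pv
  rw [show i + (n - 1) = (i - 1) + n by omega, Nat.add_mod_right]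
  exact Nat.mod_eq_of_lt (by omega)

theorem fl22_ed {i : ℕ} (h : i + 1 < n) : ed n v i = v (i + 1) - v i := by
  unfold ed
  rw [fl22_nx h]

theorem fl22_last (h : 0 < n) : nx n (n - 1) = 0 := by
  unfold nx
  rw [Nat.sub_add_cancel h]
  exact Nat.mod_self n

theorem fl22_sum {z : ℝ × ℝ} {j m : ℕ} (hjm : j ≤ m) (hm : m < n)
    (h : ∀ l, j ≤ l → l < m → 0 < cr z (ed n v l)) : 0 ≤ cr z (v m - v j) := by
  induction m, hjm using Nat.le_induction with
  | base => simp [cr]
  | succ m hjm ih =>
    have h1 := ih (by omega) (fun l h1 h2 => h l h1 (by omega))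
    have h2 := h m hjm (by omega)
    rw [fl22_ed hm] at h2
    rw [fl22_tri z (v j) (v m) (v (m + 1))]
    linarith

theorem fl22_sum' {z : ℝ × ℝ} {j m : ℕ} (hjm : j ≤ m) (hm : m < n)
    (h : ∀ l, j ≤ l → l < m → cr z (ed n v l) < 0) : cr z (v m - v j) ≤ 0 := by
  induction m, hjm using Nat.le_induction with
  | base => simp [cr]
  | succ m hjm ih =>
    have h1 := ih (by omega) (fun l h1 h2 => h l h1 (by omega))
    have h2 := h m hjm (by omega)
    rw [fl22_ed hm] at h2
    rw [fl22_tri z (v j) (v m) (v (m + 1))]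
    linarith

/-- the zone of a reflex vertex `m` on the first chain -/
theorem PT.fl22_zoneN (T : PT n α β v) {p : ℝ × ℝ} (hg : GP n v p) {m : ℕ} (hm : m < n)
    (ht : tn n v m < 0) (hs : See n v p (v m)) (h : orient (v (pv n m)) (v m) p < 0) :
    0 < orient (v m) (v (nx n m)) p := by
  rcases see_sector_gp T.pg hm hg hs.symm with ⟨h1, _⟩ | ⟨_, h1⟩
  · exact absurd h1 (not_lt.mpr ht.le)
  · rcases h1 with h1 | h1
    · exact absurd h1 (not_lt.mpr h.le)
    · exact h1

theorem PT.fl22_zoneP (T : PT n α β v) {p : ℝ × ℝ} (hg : GP n v p) {m : ℕ} (hm : m < n)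
    (ht : tn n v m < 0) (hs : See n v p (v m)) (h : orient (v m) (v (nx n m)) p < 0) :
    0 < orient (v (pv n m)) (v m) p := by
  rcases see_sector_gp T.pg hm hg hs.symm with ⟨h1, _⟩ | ⟨_, h1⟩
  · exact absurd h1 (not_lt.mpr ht.le)
  · rcases h1 with h1 | h1
    · exact h1
    · exact absurd h1 (not_lt.mpr h.le)

theorem PT.fl22_tn (_T : PT n α β v) {m : ℕ} (hm : 0 < m) (hm2 : m < n) :
    tn n v m = cr (ed n v (m - 1)) (ed n v m) := by
  unfold tn
  rw [fl22_or, fl22_pv hm hm2]
  unfold ed
  rw [fl22_nx (show m - 1 + 1 < n by omega), Nat.sub_add_cancel hm]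

theorem PT.fl22_T1 (T : PT n α β v) (h0 : 1 < α) (h2 : β + 1 < n)
    (hA : 0 < orient (v 1) (v 2) (v (n - 1))) : Cov n v (sT1 α β) := by
  have k0 := T.h0
  have k1 := T.h1
  have k2 := T.h2
  intro p hp hg
  obtain ⟨i, hi, hu, hs⟩ := T.cS1 p hp hg
  by_cases h1 : i = 1
  · subst h1
    have e1 : sS1 α β 1 = St.P := by
      unfold sS1
      rw [if_neg (by omega), if_neg (by omega), if_pos (by omega)]
    rw [e1] at hu
    have hu' : orient (v 1) (v (nx n 1)) p < 0 := hu
    have r1 : tn n v 1 < 0 := T.rf 1 (by omega) (by omega) (by omega) (by omega)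
    have hl := T.fl22_zoneP hg (by omega) r1 hs hu'
    rw [fl22_pv one_pos (by omega)] at hl
    rw [fl22_nx (by omega)] at hu'
    -- the corner sees p
    have hl' : 0 < cr (ed n v 0) (p - v 1) := by
      rw [fl22_ed (by omega)]
      rw [fl22_or] at hl
      exact hl
    have hu2 : cr (ed n v 1) (p - v 1) < 0 := by
      rw [fl22_ed (by omega)]
      rw [fl22_or'] at hu'
      exact hu'
    obtain ⟨m, hm, hu3, hs3⟩ := T.cS0 p hp hg
    by_cases m0 : m = 0
    · subst m0
      refine ⟨0, by omega, ?_, hs3⟩
      have e2 : sT1 α β 0 = St.K := by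
        unfold sT1
        rw [if_pos rfl]
      rw [e2]
      trivial
    exfalso
    by_cases m1 : m < α
    · have e2 : sS0 α β m = St.N := by
        unfold sS0
        rw [if_neg m0, if_pos m1]
      rw [e2] at hu3
      have hu4 : orient (v (pv n m)) (v m) p < 0 := hu3
      have rm : tn n v m < 0 := T.rf m hm m0 (by omega) (by omega)
      have hz := T.fl22_zoneN hg hm rm hs3 hu4
      rw [fl22_pv (by omega) hm] at hu4
      rcases Nat.lt_or_ge m 2 with m2 | m2
      · have : m = 1 := by omega
        subst this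
        exact absurd hl (not_lt.mpr hu4.le)
      · rw [T.fl22_tn (by omega) hm] at rm
        have hz' : 0 < cr (ed n v m) (p - v m) := by
          rw [fl22_or'] at hz
          exact hz
        have hu5 : cr (ed n v (m - 1)) (p - v m) < 0 := by
          rw [fl22_or] at hu4
          rw [fl22_ed (by omega), Nat.sub_add_cancel (by omega)]
          exact hu4
        have q1 : cr (ed n v 0) (p - v m) < 0 := by
          apply fl22_cone' hu5 hz' rm
          · exact T.t1 (by omega) (Or.inl (by omega))
          · exact T.t1 (by omega) (Or.inl (by omega))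
        have q2 : cr (ed n v 0) (v m - v 1) ≤ 0 := by
          apply fl22_sum' (n := n) (by omega) hm
          intro l l1 l2
          exact T.t1 (by omega) (Or.inl (by omega))
        rw [fl22_tri _ (v 1) (v m) p] at hl'
        linarith
    · by_cases m2 : m ≤ β
      · have e2 : sS0 α β m = St.off := by
          unfold sS0
          rw [if_neg m0, if_neg m1, if_pos m2]
        rw [e2] at hu3
        exact hu3
      · have e2 : sS0 α β m = St.P := by
          unfold sS0
          rw [if_neg m0, if_neg m1, if_neg m2]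
        rw [e2] at hu3
        have hu4 : orient (v m) (v (nx n m)) p < 0 := hu3
        have rm : tn n v m < 0 := T.rf m hm m0 (by omega) (by omega)
        have hz := T.fl22_zoneP hg hm rm hs3 hu4
        rw [fl22_pv (by omega) hm] at hz
        rw [T.fl22_tn (by omega) hm] at rm
        have hz' : 0 < cr (ed n v (m - 1)) (p - v m) := by
          rw [fl22_or] at hz
          rw [fl22_ed (by omega), Nat.sub_add_cancel (by omega)]
          exact hz
        have hu5 : cr (ed n v m) (p - v m) < 0 := by
          rw [fl22_or'] at hu4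
          exact hu4
        -- p - v m = - (u B_(m-1) + w B_m)
        have q1 : cr (ed n v 1) (v m - p) < 0 := by
          apply fl22_cone' (a := ed n v (m - 1)) (b := ed n v m)
          · rw [fl22_neg]
            linarith
          · rw [fl22_neg]
            linarith
          · exact rm
          · rw [fl22_swap]
            have := T.t2 (i := m - 1) (j := 1) (Or.inr (Or.inr ⟨by omega, by omega, by omega⟩))
            linarith
          · rw [fl22_swap]
            have := T.t2 (i := m) (j := 1) (Or.inr (Or.inr ⟨by omega, by omega, by omega⟩))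
            linarith
        have q2 : cr (ed n v 1) (v (n - 1) - v m) ≤ 0 := by
          apply fl22_sum' (n := n) (by omega) (by omega)
          intro l l1 l2
          rw [fl22_swap]
          have := T.t2 (i := l) (j := 1) (Or.inr (Or.inr ⟨by omega, by omega, by omega⟩))
          linarith
        have q3 : 0 < cr (ed n v 1) (v (n - 1) - v 1) := by
          rw [fl22_or'] at hA
          rw [fl22_ed (by omega)]
          exact hA
        rw [fl22_tri _ (v 1) (v m) (v (n - 1))] at q3
        rw [fl22_tri _ (v 1) (v m) p, fl22_neg _ (v m) p] at hu2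
        linarith
  · refine ⟨i, hi, ?_, hs⟩
    by_cases i0 : i = 0
    · subst i0
      have e1 : sS1 α β 0 = St.off := by
        unfold sS1
        rw [if_neg (by omega), if_pos rfl]
      rw [e1] at hu
      exact absurd hu (fun h => h)
    · have e1 : sT1 α β i = sS1 α β i := by
        unfold sT1 sS1
        rw [if_neg i0]
        split_ifs <;> rfl
      rw [e1]
      exact hu

theorem PT.fl22_T2 (T : PT n α β v) (h0 : 1 < α) (h2 : β + 1 < n)
    (hA : 0 < orient (v (n - 2)) (v (n - 1)) (v 1)) : Cov n v (sT2 n α β) := by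
  have k0 := T.h0
  have k1 := T.h1
  have k2 := T.h2
  intro p hp hg
  obtain ⟨i, hi, hu, hs⟩ := T.cS2 p hp hg
  by_cases h1 : i = n - 1
  · subst h1
    have e1 : sS2 α β (n - 1) = St.N := by
      unfold sS2
      rw [if_neg (by omega), if_neg (by omega), if_neg (by omega)]
    rw [e1] at hu
    have hu' : orient (v (pv n (n - 1))) (v (n - 1)) p < 0 := hu
    have r1 : tn n v (n - 1) < 0 := T.rf (n - 1) (by omega) (by omega) (by omega) (by omega)
    have hl := T.fl22_zoneN hg (by omega) r1 hs hu'
    rw [fl22_pv (by omega) (by omega)] at hu'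
    -- the corner sees p
    have hl' : 0 < cr (ed n v (n - 1)) (p - v (n - 1)) := by
      rw [fl22_or'] at hl
      exact hl
    have hu2 : cr (ed n v (n - 2)) (p - v (n - 1)) < 0 := by
      rw [fl22_ed (by omega), show n - 2 + 1 = n - 1 by omega]
      rw [fl22_or, show n - 1 - 1 = n - 2 by omega] at hu'
      exact hu'
    obtain ⟨m, hm, hu3, hs3⟩ := T.cS0 p hp hg
    by_cases m0 : m = 0
    · subst m0
      refine ⟨0, by omega, ?_, hs3⟩
      have e2 : sT2 n α β 0 = St.K := by
        unfold sT2
        rw [if_pos rfl]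
      rw [e2]
      trivial
    exfalso
    by_cases m1 : m < α
    · have e2 : sS0 α β m = St.N := by
        unfold sS0
        rw [if_neg m0, if_pos m1]
      rw [e2] at hu3
      have hu4 : orient (v (pv n m)) (v m) p < 0 := hu3
      have rm : tn n v m < 0 := T.rf m hm m0 (by omega) (by omega)
      have hz := T.fl22_zoneN hg hm rm hs3 hu4
      rw [fl22_pv (by omega) hm] at hu4
      rw [T.fl22_tn (by omega) hm] at rm
      have hz' : 0 < cr (ed n v m) (p - v m) := by
        rw [fl22_or'] at hz
        exact hz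
      have hu5 : cr (ed n v (m - 1)) (p - v m) < 0 := by
        rw [fl22_or] at hu4
        rw [fl22_ed (by omega), Nat.sub_add_cancel (by omega)]
        exact hu4
      have q1 : 0 < cr (ed n v (n - 2)) (p - v m) := by
        apply fl22_cone hu5 hz' rm
        · exact T.t2 (Or.inr (Or.inr ⟨by omega, by omega, by omega⟩))
        · exact T.t2 (Or.inr (Or.inr ⟨by omega, by omega, by omega⟩))
      have q2 : 0 ≤ cr (ed n v (n - 2)) (v m - v 1) := by
        apply fl22_sum (n := n) (by omega) hm
        intro l l1 l2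
        exact T.t2 (Or.inr (Or.inr ⟨by omega, by omega, by omega⟩))
      have q3 : 0 < cr (ed n v (n - 2)) (v 1 - v (n - 1)) := by
        rw [fl22_or] at hA
        rw [fl22_ed (by omega), show n - 2 + 1 = n - 1 by omega]
        exact hA
      rw [fl22_tri _ (v (n - 1)) (v 1) p, fl22_tri _ (v 1) (v m) p] at hu2
      linarith
    · by_cases m2 : m ≤ β
      · have e2 : sS0 α β m = St.off := by
          unfold sS0
          rw [if_neg m0, if_neg m1, if_pos m2]
        rw [e2] at hu3
        exact hu3
      · have e2 : sS0 α β m = St.P := by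
          unfold sS0
          rw [if_neg m0, if_neg m1, if_neg m2]
        rw [e2] at hu3
        have hu4 : orient (v m) (v (nx n m)) p < 0 := hu3
        rcases Nat.lt_or_ge m (n - 1) with m3 | m3
        · have rm : tn n v m < 0 := T.rf m hm m0 (by omega) (by omega)
          have hz := T.fl22_zoneP hg hm rm hs3 hu4
          rw [fl22_pv (by omega) hm] at hz
          rw [T.fl22_tn (by omega) hm] at rm
          have hz' : 0 < cr (ed n v (m - 1)) (p - v m) := by
            rw [fl22_or] at hz
            rw [fl22_ed (by omega), Nat.sub_add_cancel (by omega)]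
            exact hz
          have hu5 : cr (ed n v m) (p - v m) < 0 := by
            rw [fl22_or'] at hu4
            exact hu4
          have q1 : 0 < cr (ed n v (n - 1)) (v m - p) := by
            apply fl22_cone (a := ed n v (m - 1)) (b := ed n v m)
            · rw [fl22_neg]
              linarith
            · rw [fl22_neg]
              linarith
            · exact rm
            · rw [fl22_swap]
              have := T.t1 (i := m - 1) (j := n - 1) (by omega)
                (Or.inr (Or.inr ⟨by omega, by omega⟩))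
              linarith
            · rw [fl22_swap]
              have := T.t1 (i := m) (j := n - 1) (by omega)
                (Or.inr (Or.inr ⟨by omega, by omega⟩))
              linarith
          have q2 : 0 ≤ cr (ed n v (n - 1)) (v (n - 1) - v m) := by
            apply fl22_sum (n := n) (by omega) (by omega)
            intro l l1 l2
            rw [fl22_swap]
            have := T.t1 (i := l) (j := n - 1) (by omega)
              (Or.inr (Or.inr ⟨by omega, by omega⟩))
            linarith
          rw [fl22_tri _ (v (n - 1)) (v m) p, fl22_neg _ (v (n - 1)) (v m),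
            fl22_neg _ (v m) p] at hl'
          linarith
        · have : m = n - 1 := by omega
          subst this
          exact absurd hl (not_lt.mpr hu4.le)
  · refine ⟨i, hi, ?_, hs⟩
    by_cases i0 : i = 0
    · subst i0
      have e1 : sS2 α β 0 = St.off := by
        unfold sS2
        rw [if_neg (by omega), if_pos (by omega)]
      rw [e1] at hu
      exact absurd hu (fun h => h)
    · have e1 : sT2 n α β i = sS2 α β i := by
        unfold sT2 sS2
        rw [if_neg i0, if_neg (show ¬ (i + 1 = n) by omega)]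
      rw [e1]
      exact hu

/-- the trade lemma -/
theorem PT.trade {n α β : ℕ} {v : ℕ → ℝ × ℝ} (T : PT n α β v) (h0 : 1 < α) (h2 : β + 1 < n) :
    Cov n v (sT1 α β) ∨ Cov n v (sT2 n α β) := by
  have k0 := T.h0
  have k1 := T.h1
  have k2 := T.h2
  by_cases hA : 0 < orient (v 1) (v 2) (v (n - 1))
  · exact Or.inl (T.fl22_T1 h0 h2 hA)
  by_cases hB : 0 < orient (v (n - 2)) (v (n - 1)) (v 1)
  · exact Or.inr (T.fl22_T2 h0 h2 hB)
  exfalso
  have a1 : 0 ≤ cr (ed n v 1) (v 1 - v (n - 1)) := by
    rw [fl22_or'] at hA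
    rw [fl22_ed (by omega), fl22_neg]
    have := not_lt.mp hA
    linarith
  have a2 : cr (ed n v (n - 2)) (v 1 - v (n - 1)) ≤ 0 := by
    rw [fl22_or] at hB
    rw [fl22_ed (by omega), show n - 2 + 1 = n - 1 by omega]
    exact not_lt.mp hB
  -- u = ed (n-2), w' = ed 1
  have b0 : 0 < cr (ed n v (n - 2)) (ed n v 1) :=
    T.t2 (Or.inr (Or.inr ⟨by omega, by omega, by omega⟩))
  have b1 : cr (ed n v (n - 2)) (ed n v (n - 1)) < 0 :=
    T.t1 (by omega) (Or.inr (Or.inr ⟨by omega, by omega⟩))
  have b2 : 0 < cr (ed n v (n - 1)) (ed n v 1) :=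
    T.t2 (Or.inr (Or.inr ⟨by omega, by omega, by omega⟩))
  have b3 : 0 < cr (ed n v (n - 1)) (ed n v 0) :=
    T.t2 (Or.inr (Or.inr ⟨by omega, by omega, by omega⟩))
  have b4 : cr (ed n v (n - 1)) (v 1 - v (n - 1)) = cr (ed n v (n - 1)) (ed n v 0) := by
    unfold ed
    rw [fl22_last (by omega), fl22_nx (by omega)]
    simp only [cr, Prod.fst_sub, Prod.snd_sub]
    ring
  have e : cr (ed n v (n - 2)) (ed n v 1) * cr (ed n v (n - 1)) (v 1 - v (n - 1)) =
      cr (ed n v 1) (v 1 - v (n - 1)) * cr (ed n v (n - 2)) (ed n v (n - 1)) +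
      cr (ed n v (n - 2)) (v 1 - v (n - 1)) * cr (ed n v (n - 1)) (ed n v 1) := by
    simp only [cr]
    ring
  have c1 := mul_pos b0 b3
  have c2 := mul_nonpos_of_nonneg_of_nonpos a1 b1.le
  have c3 := mul_nonpos_of_nonpos_of_nonneg a2 b2.le
  rw [b4] at e
  linarith

end trade

end Pool.Agent.FL
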