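import Pool.Agent.FL.Ecov2
import Pool.Agent.FL.Scov
import Pool.Agent.FL.Dcov
import Pool.Agent.FL.Kcov
import Pool.Agent.FL.Trade
import Pool.Agent.FL.Rain
import Pool.Agent.H62.FL.TMain

/-! MP_8a5d4f_co, project FL, row FL-32 -/

set_option autoImplicit false

namespace Pool.Agent.FL

open Set Filter Topology Pool.Agent.H54.Fl Pool.Agent.H75.PolyJ Pool.Agent.H95.Poly

section base14

open Pool.Agent.H62 (FL.St FL.Good FL.table)

/-- the states with a direction -/
def fl32_tr (s : Pool.Agent.H62.FL.St) (d : ℝ × ℝ) : St :=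
  match s with
  | .off => St.off
  | .N => St.N
  | .P => St.P
  | .K => St.K
  | .H => St.H d

theorem fl32_tr_off {s : Pool.Agent.H62.FL.St} {d : ℝ × ℝ} :
    fl32_tr s d = St.off ↔ s = .off := by
  cases s <;> simp [fl32_tr]

/-- the states cover the polygon for some directions -/
def fl32_val (n : ℕ) (v : ℕ → ℝ × ℝ) (S : ℕ → Pool.Agent.H62.FL.St) : Prop :=
  ∃ d : ℕ → ℝ × ℝ, (∀ i < n, tn n v i < 0 → Ok n v i (St.H (d i))) ∧
    Cov n v fun i => fl32_tr (S i) (d i)

theorem fl32_cr (a b c : ℝ × ℝ) : orient a b c = cr (b - a) (c - b) := by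
  unfold orient cr
  simp only [Prod.fst_sub, Prod.snd_sub]
  ring

theorem fl32_cr_self (a : ℝ × ℝ) : cr a a = 0 := by
  unfold cr
  ring

theorem fl32_cr_swap (a b : ℝ × ℝ) : cr a b = - cr b a := by
  unfold cr
  ring

theorem fl32_fwd {n : ℕ} {v : ℕ → ℝ × ℝ} {i : ℕ} (h : tn n v i < 0) :
    Ok n v i (St.H (ed n v i)) := by
  have h1 : tn n v i = cr (v i - v (pv n i)) (ed n v i) := fl32_cr _ _ _
  refine ⟨?_, h, le_of_eq (fl32_cr_self _).symm, ?_⟩
  · intro h2
    rw [h1, h2] at h
    simp [cr] at h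
  · rw [fl32_cr_swap, ← h1]
    linarith

theorem fl32_bwd {n : ℕ} {v : ℕ → ℝ × ℝ} {i : ℕ} (h : tn n v i < 0) :
    Ok n v i (St.H (v i - v (pv n i))) := by
  have h1 : tn n v i = cr (v i - v (pv n i)) (ed n v i) := fl32_cr _ _ _
  refine ⟨?_, h, ?_, le_of_eq (fl32_cr_self _).symm⟩
  · intro h2
    rw [h1, h2] at h
    simp [cr] at h
  · rw [fl32_cr_swap, ← h1]
    linarith

theorem fl32_mono {n : ℕ} {v : ℕ → ℝ × ℝ} {σ σ' : ℕ → St} (h : Cov n v σ)
    (h1 : ∀ i < n, σ i = St.off ∨ σ' i = σ i) : Cov n v σ' := by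
  intro p hp hg
  obtain ⟨i, hi, hu, hs⟩ := h p hp hg
  refine ⟨i, hi, ?_, hs⟩
  rcases h1 i hi with h2 | h2
  · rw [h2] at hu
    exact absurd hu (by simp [Use])
  · rw [h2]
    exact hu

theorem fl32_pv {n i : ℕ} (h0 : 0 < i) (hi : i < n) : pv n i = i - 1 := by
  unfold pv
  have h1 : i + (n - 1) = (i - 1) + n := by omega
  rw [h1, Nat.add_mod_right, Nat.mod_eq_of_lt (by omega)]

/-- from a cover to the predicate, half-planes at the next edges -/
theorem fl32_vf {n : ℕ} {v : ℕ → ℝ × ℝ} {σ : ℕ → St} {S : ℕ → Pool.Agent.H62.FL.St}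
    (h : Cov n v σ) (h1 : ∀ i < n, σ i = St.off ∨ fl32_tr (S i) (ed n v i) = σ i) :
    fl32_val n v S :=
  ⟨fun i => ed n v i, fun _ _ h2 => fl32_fwd h2, fl32_mono h h1⟩

/-- from a cover to the predicate, half-planes at the previous edges -/
theorem fl32_vb {n : ℕ} {v : ℕ → ℝ × ℝ} {σ : ℕ → St} {S : ℕ → Pool.Agent.H62.FL.St}
    (h : Cov n v σ) (h1 : ∀ i < n, σ i = St.off ∨ fl32_tr (S i) (v i - v (pv n i)) = σ i) :
    fl32_val n v S :=
  ⟨fun i => v i - v (pv n i), fun _ _ h2 => fl32_bwd h2, fl32_mono h h1⟩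

variable {n α β : ℕ} {v : ℕ → ℝ × ℝ}

open Pool.Agent.H62.FL (CovS CovP CovN CovX CovA CovB CovC TrI TrJ)

theorem fl32_S (T : PT n α β v) : CovS n α β (fl32_val n v) where
  Sa := by
    intro S h1 h2 h3
    refine fl32_vf T.cS0 fun i hi => ?_
    unfold sS0
    split_ifs <;> first
      | exact Or.inl rfl
      | exact Or.inr (by rw [show i = 0 by omega, h1]; rfl)
      | exact Or.inr (by rw [h2 i (by omega) (by omega)]; rfl)
      | exact Or.inr (by rw [h3 i (by omega) (by omega)]; rfl)
  Sb := by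
    intro S h1 h2 h3
    refine fl32_vf T.cS1 fun i hi => ?_
    unfold sS1
    split_ifs <;> first
      | exact Or.inl rfl
      | exact Or.inr (by rw [show i = α by omega, h1]; rfl)
      | exact Or.inr (by rw [h2 i (by omega) (by omega)]; rfl)
      | exact Or.inr (by rw [h3 i (by omega) (by omega)]; rfl)
  Sc := by
    intro S h1 h2 h3
    refine fl32_vf T.cS2 fun i hi => ?_
    unfold sS2
    split_ifs <;> first
      | exact Or.inl rfl
      | exact Or.inr (by rw [show i = β by omega, h1]; rfl)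
      | exact Or.inr (by rw [h2 i (by omega) (by omega)]; rfl)
      | exact Or.inr (by rw [h3 i (by omega) (by omega)]; rfl)

theorem fl32_T (T : PT n α β v) (h0 : 1 < α) (h2 : β + 1 < n) :
    TrI α β (fl32_val n v) ∨ TrJ n α β (fl32_val n v) := by
  rcases T.trade h0 h2 with h | h
  · left
    intro S h1 h2 h3 h4
    refine fl32_vf h fun i hi => ?_
    unfold sT1
    split_ifs <;> first
      | exact Or.inl rfl
      | exact Or.inr (by rw [show i = 0 by omega, h1]; rfl)
      | exact Or.inr (by rw [show i = α by omega, h2]; rfl)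
      | exact Or.inr (by rw [h3 i (by omega) (by omega)]; rfl)
      | exact Or.inr (by rw [h4 i (by omega) (by omega)]; rfl)
  · right
    intro S h1 h2 h3 h4
    refine fl32_vf h fun i hi => ?_
    unfold sT2
    split_ifs <;> first
      | exact Or.inl rfl
      | exact Or.inr (by rw [show i = 0 by omega, h1]; rfl)
      | exact Or.inr (by rw [show i = β by omega, h2]; rfl)
      | exact Or.inr (by rw [h3 i (by omega) (by omega)]; rfl)
      | exact Or.inr (by rw [h4 i (by omega) (by omega)]; rfl)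

theorem fl32_P {x w z : ℕ} (C : Core n α β x w z v)
    (hD : Cov n v (sDE α β x w z St.P St.P St.P)) : CovP n α β x w z (fl32_val n v) := by
  have i0 := C.i0
  have i1 := C.i1
  have j0 := C.j0
  have j1 := C.j1
  have k0 := C.k0
  have k1 := C.k1
  exact {
    Ea := by
      intro S h1 h2 h3 h4 h5
      refine fl32_vf C.cE0 fun i hi => ?_
      unfold sE0
      split_ifs <;> first
        | exact Or.inl rfl
        | exact Or.inr (by rw [show i = 0 by omega, h1]; rfl)
        | exact Or.inr (by rw [show i = w by omega, h3]; rfl)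
        | exact Or.inr (by rw [h2 i (by omega) (by omega)]; rfl)
        | exact Or.inr (by rw [h4 i (by omega) (by omega)]; rfl)
        | exact Or.inr (by rw [h5 i (by omega) (by omega)]; rfl)
    Eb := by
      intro S h1 h2 h3 h4 h5
      refine fl32_vf C.cE1 fun i hi => ?_
      unfold sE1
      split_ifs <;> first
        | exact Or.inl rfl
        | exact Or.inr (by rw [show i = α by omega, h1]; rfl)
        | exact Or.inr (by rw [show i = z by omega, h3]; rfl)
        | exact Or.inr (by rw [h2 i (by omega) (by omega)]; rfl)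
        | exact Or.inr (by rw [h4 i (by omega) (by omega)]; rfl)
        | exact Or.inr (by rw [h5 i (by omega) (by omega)]; rfl)
    Ec := by
      intro S h1 h2 h3 h4 h5
      refine fl32_vf C.cE2 fun i hi => ?_
      unfold sE2
      split_ifs <;> first
        | exact Or.inl rfl
        | exact Or.inr (by rw [show i = β by omega, h1]; rfl)
        | exact Or.inr (by rw [show i = x by omega, h3]; rfl)
        | exact Or.inr (by rw [h2 i (by omega) (by omega)]; rfl)
        | exact Or.inr (by rw [h4 i (by omega) (by omega)]; rfl)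
        | exact Or.inr (by rw [h5 i (by omega) (by omega)]; rfl)
    DE := by
      intro S h1 h2 h3
      refine fl32_vf hD fun i hi => ?_
      unfold sDE
      split_ifs <;> first
        | exact Or.inl rfl
        | exact Or.inr (by rw [h1 i (by omega) (by omega)]; rfl)
        | exact Or.inr (by rw [h2 i (by omega) (by omega)]; rfl)
        | exact Or.inr (by rw [h3 i (by omega) (by omega)]; rfl)
  }

theorem fl32_N {x w z : ℕ} (C : Core n α β x w z v)
    (hD : Cov n v (sDF α β x w z St.N St.N St.N)) : CovN n α β x w z (fl32_val n v) := by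
  have i0 := C.i0
  have i1 := C.i1
  have j0 := C.j0
  have j1 := C.j1
  have k0 := C.k0
  have k1 := C.k1
  exact {
    Ea := by
      intro S h1 h2 h3 h4 h5
      refine fl32_vb C.cF0 fun i hi => ?_
      unfold sF0
      split_ifs <;> first
        | exact Or.inl rfl
        | exact Or.inr (by rw [show i = 0 by omega, h1]; rfl)
        | exact Or.inr (by rw [show i = w by omega, h3, fl32_pv (by omega) (by omega)]; rfl)
        | exact Or.inr (by rw [h2 i (by omega) (by omega)]; rfl)
        | exact Or.inr (by rw [h4 i (by omega) (by omega)]; rfl)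
        | exact Or.inr (by rw [h5 i (by omega) (by omega)]; rfl)
    Eb := by
      intro S h1 h2 h3 h4 h5
      refine fl32_vb C.cF1 fun i hi => ?_
      unfold sF1
      split_ifs <;> first
        | exact Or.inl rfl
        | exact Or.inr (by rw [show i = α by omega, h1]; rfl)
        | exact Or.inr (by rw [show i = z by omega, h3, fl32_pv (by omega) (by omega)]; rfl)
        | exact Or.inr (by rw [h2 i (by omega) (by omega)]; rfl)
        | exact Or.inr (by rw [h4 i (by omega) (by omega)]; rfl)
        | exact Or.inr (by rw [h5 i (by omega) (by omega)]; rfl)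
    Ec := by
      intro S h1 h2 h3 h4 h5
      refine fl32_vb C.cF2 fun i hi => ?_
      unfold sF2
      split_ifs <;> first
        | exact Or.inl rfl
        | exact Or.inr (by rw [show i = β by omega, h1]; rfl)
        | exact Or.inr (by rw [show i = x by omega, h3, fl32_pv (by omega) (by omega)]; rfl)
        | exact Or.inr (by rw [h2 i (by omega) (by omega)]; rfl)
        | exact Or.inr (by rw [h4 i (by omega) (by omega)]; rfl)
        | exact Or.inr (by rw [h5 i (by omega) (by omega)]; rfl)
    DF := by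
      intro S h1 h2 h3
      refine fl32_vf hD fun i hi => ?_
      unfold sDF
      split_ifs <;> first
        | exact Or.inl rfl
        | exact Or.inr (by rw [h1 i (by omega) (by omega)]; rfl)
        | exact Or.inr (by rw [h2 i (by omega) (by omega)]; rfl)
        | exact Or.inr (by rw [h3 i (by omega) (by omega)]; rfl)
  }

theorem fl32_X {x w z : ℕ} (C : Core n α β x w z v)
    (hD : Cov n v (sDE α β x w z (St.H (v x - v (x - 1))) (St.H (v w - v (w - 1)))
      (St.H (v z - v (z - 1)))))
    (hF : Cov n v (sDF α β x w z (St.H (ed n v x)) (St.H (ed n v w)) (St.H (ed n v z)))) :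
    CovX n α β x w z (fl32_val n v) := by
  have i0 := C.i0
  have i1 := C.i1
  have j0 := C.j0
  have j1 := C.j1
  have k0 := C.k0
  have k1 := C.k1
  exact {
    DE := by
      intro S h1 h2 h3 h4 h5 h6
      refine fl32_vb hD fun i hi => ?_
      unfold sDE
      split_ifs <;> first
        | exact Or.inl rfl
        | exact Or.inr (by rw [show i = x by omega, h2, fl32_pv (by omega) (by omega)]; rfl)
        | exact Or.inr (by rw [show i = w by omega, h4, fl32_pv (by omega) (by omega)]; rfl)
        | exact Or.inr (by rw [show i = z by omega, h6, fl32_pv (by omega) (by omega)]; rfl)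
        | exact Or.inr (by rw [h1 i (by omega) (by omega)]; rfl)
        | exact Or.inr (by rw [h3 i (by omega) (by omega)]; rfl)
        | exact Or.inr (by rw [h5 i (by omega) (by omega)]; rfl)
    DF := by
      intro S h1 h2 h3 h4 h5 h6
      refine fl32_vf hF fun i hi => ?_
      unfold sDF
      split_ifs <;> first
        | exact Or.inl rfl
        | exact Or.inr (by rw [show i = x by omega, h2]; rfl)
        | exact Or.inr (by rw [show i = w by omega, h4]; rfl)
        | exact Or.inr (by rw [show i = z by omega, h6]; rfl)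
        | exact Or.inr (by rw [h1 i (by omega) (by omega)]; rfl)
        | exact Or.inr (by rw [h3 i (by omega) (by omega)]; rfl)
        | exact Or.inr (by rw [h5 i (by omega) (by omega)]; rfl)
  }

theorem fl32_A (T : PT n α β v) {j : ℕ} (hj : α < j) (hj2 : j < β) (D : Dg n v 0 j) :
    CovA n α β j (fl32_val n v) := by
  have h2 := T.h2
  have h0 := T.h0
  exact {
    D1 := by
      intro S h1 h2 h3 h4
      refine fl32_vf (T.cK1 hj hj2 D) fun i hi => ?_
      unfold sK1
      split_ifs <;> first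
        | exact Or.inl rfl
        | exact Or.inr (by rw [show i = 0 by omega, h1]; rfl)
        | exact Or.inr (by rw [show i = j by omega, h3]; rfl)
        | exact Or.inr (by rw [h2 i (by omega) (by omega)]; rfl)
        | exact Or.inr (by rw [h4 i (by omega) (by omega)]; rfl)
    D2 := by
      intro S h1 h2 h3 h4
      refine fl32_vb (T.cK2 hj hj2 D) fun i hi => ?_
      unfold sK2
      split_ifs <;> first
        | exact Or.inl rfl
        | exact Or.inr (by rw [show i = 0 by omega, h1]; rfl)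
        | exact Or.inr (by rw [show i = j by omega, h3, fl32_pv (by omega) (by omega)]; rfl)
        | exact Or.inr (by rw [h2 i (by omega) (by omega)]; rfl)
        | exact Or.inr (by rw [h4 i (by omega) (by omega)]; rfl)
  }

theorem fl32_B (T : PT n α β v) {j : ℕ} (hj : β < j) (hj2 : j < n) (D : Dg n v α j) :
    CovB n α β j (fl32_val n v) := by
  have h01 := T.h1
  have h0 := T.h0
  exact {
    D1 := by
      intro S h1 h2 h3 h4
      refine fl32_vf (T.cK1b hj D) fun i hi => ?_
      unfold sK1b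
      split_ifs <;> first
        | exact Or.inl rfl
        | exact Or.inr (by rw [show i = α by omega, h1]; rfl)
        | exact Or.inr (by rw [show i = j by omega, h3]; rfl)
        | exact Or.inr (by rw [h2 i (by omega) (by omega)]; rfl)
        | exact Or.inr (by rw [h4 i (by omega) (by omega)]; rfl)
    D2 := by
      intro S h1 h2 h3 h4
      refine fl32_vb (T.cK2b hj D) fun i hi => ?_
      unfold sK2b
      split_ifs <;> first
        | exact Or.inl rfl
        | exact Or.inr (by rw [show i = α by omega, h1]; rfl)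
        | exact Or.inr (by rw [show i = j by omega, h3, fl32_pv (by omega) (by omega)]; rfl)
        | exact Or.inr (by rw [h2 i (by omega) (by omega)]; rfl)
        | exact Or.inr (by rw [h4 i (by omega) (by omega)]; rfl)
  }

theorem fl32_C (T : PT n α β v) {j : ℕ} (hj : 0 < j) (hj2 : j < α) (D : Dg n v j β) :
    CovC n α β j (fl32_val n v) := by
  have h01 := T.h1
  have h22 := T.h2
  exact {
    D1 := by
      intro S h1 h2 h3 h4
      refine fl32_vb (T.cK2c hj hj2 D) fun i hi => ?_
      unfold sK2c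
      split_ifs <;> first
        | exact Or.inl rfl
        | exact Or.inr (by rw [show i = β by omega, h1]; rfl)
        | exact Or.inr (by rw [show i = j by omega, h3, fl32_pv (by omega) (by omega)]; rfl)
        | exact Or.inr (by rw [h2 i (by omega) (by omega)]; rfl)
        | exact Or.inr (by rw [h4 i (by omega) (by omega)]; rfl)
    D2 := by
      intro S h1 h2 h3 h4
      refine fl32_vf (T.cK1c hj hj2 D) fun i hi => ?_
      unfold sK1c
      split_ifs <;> first
        | exact Or.inl rfl
        | exact Or.inr (by rw [show i = β by omega, h1]; rfl)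
        | exact Or.inr (by rw [show i = j by omega, h3]; rfl)
        | exact Or.inr (by rw [h2 i (by omega) (by omega)]; rfl)
        | exact Or.inr (by rw [h4 i (by omega) (by omega)]; rfl)
  }

theorem fl32_table (T : PT n α β v) :
    ∃ (st : Fin 14 → ℕ → Pool.Agent.H62.FL.St) (R L : ℕ → Finset (Fin 14)),
      (∀ k, fl32_val n v (st k)) ∧ Pool.Agent.H62.FL.Good n α β st R L := by
  refine Pool.Agent.H62.FL.table T.h0 T.h1 T.h2 (fl32_S T) fun h0 h1 h2 => ?_
  rcases T.rain h0 h1 h2 with ⟨i, j, k, C⟩ | ⟨j, h3, h4, D⟩ | ⟨k, h3, h4, D⟩ | ⟨i, h3, h4, D⟩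
  · left
    refine ⟨i, j, k, ⟨C.i0, C.i1⟩, ⟨C.j0, C.j1⟩, ⟨C.k0, C.k1⟩, ?_⟩
    rcases C.cD with h | h | ⟨h, h'⟩
    · exact Or.inl ⟨fl32_T T h0 h2, Or.inl (fl32_P C h)⟩
    · exact Or.inl ⟨fl32_T T h0 h2, Or.inr (fl32_N C h)⟩
    · exact Or.inr (fl32_X C h h')
  · exact Or.inr (Or.inl ⟨j, ⟨h3, h4⟩, fl32_A T h3 h4 D⟩)
  · exact Or.inr (Or.inr (Or.inl ⟨k, ⟨h3, h4⟩, fl32_B T h3 h4 D⟩))
  · exact Or.inr (Or.inr (Or.inr ⟨i, ⟨h3, h4⟩, fl32_C T h3 h4 D⟩))

theorem fl32_nx {n i : ℕ} (hi : i < n) : (i + 1 < n ∧ nx n i = i + 1) ∨ (i + 1 = n ∧ nx n i = 0) := by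
  unfold nx
  by_cases h : i + 1 < n
  · exact Or.inl ⟨h, Nat.mod_eq_of_lt h⟩
  · have h1 : i + 1 = n := by omega
    exact Or.inr ⟨h1, by rw [h1, Nat.mod_self]⟩

open Classical in
theorem fl32_lc {σ : Fin 14 → ℕ → St} {st : Fin 14 → ℕ → Pool.Agent.H62.FL.St}
    {d : Fin 14 → ℕ → ℝ × ℝ} (hσ : ∀ k i, σ k i = fl32_tr (st k i) (d k i))
    {S : Finset (Fin 14)} {i m : ℕ} {u : Pool.Agent.H62.FL.St} (hu : u ≠ .off)
    (h : m ≤ (S.filter fun k => st k i = u).card) : m ≤ lc σ S i := by
  refine h.trans (Finset.card_le_card fun k hk => ?_)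
  rw [Finset.mem_filter] at hk ⊢
  refine ⟨hk.1, fun h1 => hu ?_⟩
  rw [hσ, fl32_tr_off, hk.2] at h1
  exact h1

open Classical in
theorem fl32_lcK {σ : Fin 14 → ℕ → St} {st : Fin 14 → ℕ → Pool.Agent.H62.FL.St}
    {d : Fin 14 → ℕ → ℝ × ℝ} (hσ : ∀ k i, σ k i = fl32_tr (st k i) (d k i))
    {S : Finset (Fin 14)} {i m : ℕ} (hS : ∀ k, st k i = .K → k ∈ S)
    (h : m ≤ (Finset.univ.filter fun k => st k i = .K).card) : m ≤ lc σ S i := by
  refine h.trans (Finset.card_le_card fun k hk => ?_)
  rw [Finset.mem_filter] at hk ⊢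
  refine ⟨hS k hk.2, fun h1 => ?_⟩
  rw [hσ, fl32_tr_off, hk.2] at h1
  exact absurd h1 (by decide)

open Classical in
theorem fl32_cnt {n : ℕ} {σ : Fin 14 → ℕ → St} {st : Fin 14 → ℕ → Pool.Agent.H62.FL.St}
    {d : Fin 14 → ℕ → ℝ × ℝ} (hσ : ∀ k i, σ k i = fl32_tr (st k i) (d k i)) :
    ∑ s, cnt n (σ s) = ∑ i ∈ Finset.range n, Pool.Agent.H62.FL.wt st i := by
  unfold cnt Pool.Agent.H62.FL.wt
  simp only [Finset.card_filter]
  rw [Finset.sum_comm]
  refine Finset.sum_congr rfl fun i _ => Finset.sum_congr rfl fun k _ => ?_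
  rw [hσ]
  by_cases h : st k i = .off
  · rw [if_neg (fun h1 => h1 (fl32_tr_off.2 h)), if_neg (fun h1 => h1 h)]
  · rw [if_pos (fun h1 => h (fl32_tr_off.1 h1)), if_pos h]

/-- pseudo-triangles satisfy the contract -/
theorem PT.con14 {n α β : ℕ} {v : ℕ → ℝ × ℝ} (T : PT n α β v) : Con14 n α β v := by
  obtain ⟨st, R, L, hv, G⟩ := fl32_table T
  choose d hd using hv
  have h0 := T.h0
  have h1 := T.h1
  have h2 := T.h2
  have hσ : ∀ k i, (fun (k : Fin 14) i => fl32_tr (st k i) (d k i)) k i =
    fl32_tr (st k i) (d k i) := fun _ _ => rfl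
  have hL : ∀ i < n, (if nx n i = 0 then R 0 else L (nx n i)) = L (i + 1) := by
    intro i hi
    rcases fl32_nx hi with ⟨h3, h4⟩ | ⟨h3, h4⟩
    · rw [h4, if_neg (by omega)]
    · rw [h4, if_pos rfl, h3, G.apex]
  have hX : ∀ i, (i < α ∨ β ≤ i) → i < n → i = 0 ∨ i = β ∨ (0 < i ∧ i < α) ∨ (β < i ∧ i < n) := by
    intro i h3 h4
    omega
  have hY : ∀ i, (i < α ∨ β ≤ i) → i < n → (i + 1 = n ∧ nx n i = 0) ∨
      (i + 1 = α ∧ nx n i = α) ∨ (nx n i = i + 1 ∧ ((0 < i + 1 ∧ i + 1 < α) ∨
        (β < i + 1 ∧ i + 1 < n))) := by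
    intro i h3 h4
    rcases fl32_nx h4 with ⟨h5, h6⟩ | ⟨h5, h6⟩ <;> omega
  refine ⟨R, fun i => if i = 0 then R 0 else L i, fun k i => fl32_tr (st k i) (d k i),
    ⟨?_, fun k => (hd k).2, ?_, ?_, ?_, ?_, ?_, ?_, ?_⟩, ?_, ?_, ?_, ?_, ?_⟩
  · intro k i hi
    show Ok n v i (fl32_tr (st k i) (d k i))
    by_cases hc : i = 0 ∨ i = α ∨ i = β
    · have h3 : (st k i = .off ∨ st k i = .K) ∧ 0 < tn n v i := by
        rcases hc with rfl | rfl | rfl
        · exact ⟨G.kA k, T.c0⟩
        · exact ⟨G.kB k, T.c1⟩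
        · exact ⟨G.kC k, T.c2⟩
      rcases h3 with ⟨h3 | h3, h4⟩
      · rw [h3]
        trivial
      · rw [h3]
        exact h4
    · have h3 : tn n v i < 0 := T.rf i hi (by omega) (by omega) (by omega)
      have h4 : st k i ≠ .K := by
        by_cases h5 : α < i ∧ i < β
        · exact G.kM i h5.1 h5.2 k
        · exact G.kR i (by omega) k
      have h6 := (hd k).1 i hi h3
      cases h7 : st k i with
      | off => trivial
      | N => exact h3
      | P => exact h3
      | K => exact absurd h7 h4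
      | H => exact h6
  · intro i hi hx k hk
    show fl32_tr (st k i) (d k i) = _ ∨ _ ∨ _
    rcases hX i hx hi with rfl | rfl | h3
    · rcases G.kA k with h4 | h4 <;> rw [h4] <;> simp [fl32_tr]
    · rcases G.kC k with h4 | h4 <;> rw [h4] <;> simp [fl32_tr]
    · rcases G.stR i h3 k hk with h4 | h4 <;> rw [h4] <;> simp [fl32_tr]
  · intro i hi hx ht k hk
    show fl32_tr (st k i) (d k i) = _
    rw [fl32_tr_off]
    rcases hX i hx hi with rfl | rfl | h3
    · rcases G.kA k with h4 | h4
      · exact h4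
      · exact absurd (G.memA k h4) hk
    · rcases G.kC k with h4 | h4
      · exact h4
      · exact absurd (G.memC k h4) hk
    · exact absurd (T.rf i hi (by omega) (by omega) (by omega)) (by linarith)
  · intro i hi hx k hk
    simp only [hL i hi] at hk
    show fl32_tr (st k (nx n i)) (d k (nx n i)) = _ ∨ _ ∨ _
    rcases hY i hx hi with ⟨h3, h4⟩ | ⟨h3, h4⟩ | ⟨h4, h3⟩
    · rw [h4]
      rcases G.kA k with h5 | h5 <;> rw [h5] <;> simp [fl32_tr]
    · rw [h4]
      rcases G.kB k with h5 | h5 <;> rw [h5] <;> simp [fl32_tr]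
    · rw [h4]
      rcases G.stL (i + 1) h3 k hk with h5 | h5 <;> rw [h5] <;> simp [fl32_tr]
  · intro i hi hx ht k hk
    simp only [hL i hi] at hk
    show fl32_tr (st k (nx n i)) (d k (nx n i)) = _
    rw [fl32_tr_off]
    rcases hY i hx hi with ⟨h3, h4⟩ | ⟨h3, h4⟩ | ⟨h4, h3⟩
    · rw [h4]
      rcases G.kA k with h5 | h5
      · exact h5
      · rw [h3, G.apex] at hk
        exact absurd (G.memA k h5) hk
    · rw [h4]
      rcases G.kB k with h5 | h5
      · exact h5
      · rw [h3] at hk
        exact absurd (G.memB k h5) hk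
    · rw [h4] at ht
      exact absurd (T.rf (i + 1) (by omega) (by omega) (by omega) (by omega)) (by linarith)
  · intro i hi hx
    show Disjoint (R i) (if nx n i = 0 then R 0 else L (nx n i))
    rw [hL i hi]
    exact G.edge i (by omega)
  · intro i hi hx _ ht
    show Disjoint (R i) (if i = 0 then R 0 else L i)
    have h3 : i ≠ 0 := by
      rintro rfl
      exact absurd T.c0 (by linarith)
    have h4 : i ≠ β := by
      rintro rfl
      exact absurd T.c2 (by linarith)
    rw [if_neg h3]
    exact G.disj i (by omega)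
  · intro i hi hx hx' ht
    show R i = if i = 0 then R 0 else L i
    by_cases h3 : i = 0
    · rw [if_pos h3, h3]
    · exfalso
      rw [fl32_pv (by omega) hi] at hx'
      by_cases h4 : i = α
      · omega
      · by_cases h5 : i = β
        · omega
        · exact absurd (T.rf i hi h3 h4 h5) (by linarith)
  · intro i hi hx
    show (R i).card = 6 ∧ 4 ≤ lc _ (R i) i ∧ (if nx n i = 0 then R 0 else L (nx n i)).card = 6 ∧
      4 ≤ lc _ (if nx n i = 0 then R 0 else L (nx n i)) (nx n i)
    rw [hL i hi]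
    refine ⟨G.cardR i (by omega), ?_, G.cardL (i + 1) (by omega), ?_⟩
    · rcases hX i hx hi with rfl | rfl | h3
      · exact fl32_lcK hσ G.memA (le_trans (by norm_num) G.cntA)
      · exact fl32_lcK hσ G.memC G.cntC
      · exact fl32_lc hσ (by decide) (G.cntR i h3)
    · rcases hY i hx hi with ⟨h3, h4⟩ | ⟨h3, h4⟩ | ⟨h4, h3⟩
      · rw [h4, h3, G.apex]
        exact fl32_lcK hσ G.memA (le_trans (by norm_num) G.cntA)
      · rw [h4, h3]
        exact fl32_lcK hσ G.memB G.cntB
      · rw [h4]
        exact fl32_lc hσ (by decide) (G.cntL (i + 1) h3)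
  · exact fl32_lcK hσ G.memA G.cntA
  · intro h3
    exact fl32_lc hσ (by decide) (G.lastR (α - 1) (by omega) (by omega))
  · intro h3
    show 5 ≤ lc _ (if β + 1 = 0 then R 0 else L (β + 1)) (β + 1)
    rw [if_neg (by omega)]
    exact fl32_lc hσ (by decide) (G.firstL (by omega))
  · rw [fl32_cnt hσ]
    exact G.total

end base14

end Pool.Agent.FL
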