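import Pool.Agent.FL.Sect
import Pool.Agent.H62.FL.TDef

/-! MP_8a5d4f_co, project FL, row FL-32, first half: slot systems of the table give the contract -/

set_option autoImplicit false

namespace Pool.Agent.FL

open Set Filter Topology Pool.Agent.H54.Fl Pool.Agent.H75.PolyJ Pool.Agent.H95.Poly

open Classical in
/-- the states of a slot of the table, with the half-planes `d` -/
noncomputable def real (n : ℕ) (v : ℕ → ℝ × ℝ) (S : ℕ → Pool.Agent.H62.FL.St)
    (d : ℕ → ℝ × ℝ) : ℕ → St := fun i =>
  if 0 < tn n v i then (if S i = Pool.Agent.H62.FL.St.off then St.off else St.K) else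
    match S i with
    | Pool.Agent.H62.FL.St.off => St.off
    | Pool.Agent.H62.FL.St.N => St.N
    | Pool.Agent.H62.FL.St.P => St.P
    | Pool.Agent.H62.FL.St.K => St.H (ed n v i)
    | Pool.Agent.H62.FL.St.H => St.H (d i)

/-- the lights of a slot of the table cover the polygon, for some half-planes -/
def Valid (n : ℕ) (v : ℕ → ℝ × ℝ) (S : ℕ → Pool.Agent.H62.FL.St) : Prop :=
  ∃ d : ℕ → ℝ × ℝ, (∀ i < n, tn n v i < 0 → Ok n v i (St.H (d i))) ∧ Cov n v (real n v S d)

section baseg

variable {n : ℕ} {v : ℕ → ℝ × ℝ}

theorem fl32_off (S : ℕ → Pool.Agent.H62.FL.St) (d : ℕ → ℝ × ℝ) (i : ℕ) :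
    real n v S d i ≠ St.off ↔ S i ≠ Pool.Agent.H62.FL.St.off := by
  unfold real
  split_ifs with h1 h2
  · simp [h2]
  · simp [h2]
  · cases h : S i <;> simp

theorem fl32_pos (S : ℕ → Pool.Agent.H62.FL.St) (d : ℕ → ℝ × ℝ) {i : ℕ} (h : 0 < tn n v i) :
    real n v S d i = St.off ∨ real n v S d i = St.K := by
  unfold real
  rw [if_pos h]
  split_ifs
  · left; rfl
  · right; rfl

theorem fl32_N (S : ℕ → Pool.Agent.H62.FL.St) (d : ℕ → ℝ × ℝ) {i : ℕ} (h : tn n v i < 0)
    (hS : S i = Pool.Agent.H62.FL.St.N) : real n v S d i = St.N := by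
  unfold real
  rw [if_neg (not_lt.2 h.le), hS]

theorem fl32_P (S : ℕ → Pool.Agent.H62.FL.St) (d : ℕ → ℝ × ℝ) {i : ℕ} (h : tn n v i < 0)
    (hS : S i = Pool.Agent.H62.FL.St.P) : real n v S d i = St.P := by
  unfold real
  rw [if_neg (not_lt.2 h.le), hS]

theorem fl32_is_off (S : ℕ → Pool.Agent.H62.FL.St) (d : ℕ → ℝ × ℝ) {i : ℕ}
    (hS : S i = Pool.Agent.H62.FL.St.off) : real n v S d i = St.off := by
  by_contra h
  exact (fl32_off S d i).1 h hS

theorem fl32_ok (P : PG n v) (S : ℕ → Pool.Agent.H62.FL.St) {d : ℕ → ℝ × ℝ}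
    (hd : ∀ i < n, tn n v i < 0 → Ok n v i (St.H (d i))) {i : ℕ} (hi : i < n) :
    Ok n v i (real n v S d i) := by
  rcases lt_or_gt_of_ne (tn_ne P hi) with h | h
  · unfold real
    rw [if_neg (not_lt.2 h.le)]
    cases S i with
    | off => trivial
    | N => exact h
    | P => exact h
    | K =>
      refine ⟨?_, h, ?_, ?_⟩
      · intro h0
        have := edge_nondeg P.simple hi
        apply this
        unfold ed at h0
        exact (sub_eq_zero.1 h0).symm
      · unfold cr; linarith [mul_comm (ed n v i).1 (ed n v i).2]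
      · have e : cr (ed n v i) (v i - v (pv n i)) = - tn n v i := by
          simp only [cr, ed, tn, orient, Prod.fst_sub, Prod.snd_sub]; ring
        rw [e]; linarith
    | H => exact hd i hi h
  · rcases fl32_pos S d h with e | e
    · rw [e]; trivial
    · rw [e]; exact h

theorem fl32_cnt (st : Fin 14 → ℕ → Pool.Agent.H62.FL.St) (d : Fin 14 → ℕ → ℝ × ℝ) :
    ∑ s, cnt n (real n v (st s) (d s)) = ∑ i ∈ Finset.range n, Pool.Agent.H62.FL.wt st i := by
  classical
  unfold cnt Pool.Agent.H62.FL.wt
  simp only [Finset.card_filter]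
  rw [Finset.sum_comm]
  apply Finset.sum_congr rfl
  intro i _
  apply Finset.sum_congr rfl
  intro s _
  by_cases h : st s i = Pool.Agent.H62.FL.St.off
  · rw [if_neg (by simp [h, fl32_is_off]), if_neg (by simp [h])]
  · rw [if_pos ((fl32_off _ _ _).2 h), if_pos h]

/-- a slot system of the table for the polygon gives the contract -/
theorem con14_of_good {b c : ℕ} (T : PT n b c v) {st : Fin 14 → ℕ → Pool.Agent.H62.FL.St}
    {R L : ℕ → Finset (Fin 14)} (G : Pool.Agent.H62.FL.Good n b c st R L)
    (hv : ∀ s, Valid n v (st s)) : Con14 n b c v := by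
  classical
  choose d hd hc using hv
  have P := T.pg
  have t0 := T.h0
  have t1 := T.h1
  have t2 := T.h2
  have hn : 0 < n := by omega
  -- the light sets
  have cK : ∀ (A : Finset (Fin 14)) (i : ℕ), (∀ k, st k i = .K → k ∈ A) →
      (Finset.univ.filter fun k => st k i = .K).card ≤ lc (fun s => real n v (st s) (d s)) A i := by
    intro A i hA
    apply Finset.card_le_card
    intro k hk
    have hk' := (Finset.mem_filter.1 hk).2
    rw [Finset.mem_filter]
    exact ⟨hA k hk', (fl32_off _ _ _).2 (by rw [hk']; simp)⟩
  have cS : ∀ (A : Finset (Fin 14)) (i : ℕ) (q : Pool.Agent.H62.FL.St), q ≠ .off →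
      (A.filter fun k => st k i = q).card ≤ lc (fun s => real n v (st s) (d s)) A i := by
    intro A i q hq
    apply Finset.card_le_card
    intro k hk
    have hk' := Finset.mem_filter.1 hk
    rw [Finset.mem_filter]
    exact ⟨hk'.1, (fl32_off _ _ _).2 (by rw [hk'.2]; exact hq)⟩
  -- cardinalities at the right and at the left
  have eR : ∀ i < n, (i < b ∨ c ≤ i) → (R i).card = 6 ∧
      4 ≤ lc (fun s => real n v (st s) (d s)) (R i) i := by
    intro i hi hx
    refine ⟨G.cardR i (by omega), ?_⟩
    by_cases h0 : i = 0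
    · subst h0
      exact le_trans (by norm_num) (G.cntA.trans (cK _ _ G.memA))
    by_cases h1 : i = c
    · subst h1
      exact G.cntC.trans (cK _ _ G.memC)
    · exact (G.cntR i (by omega)).trans (cS _ _ _ (by simp))
  have eL : ∀ i < n, (i < b ∨ c ≤ i) → ((if nx n i = 0 then L n else L (nx n i)).card = 6 ∧
      4 ≤ lc (fun s => real n v (st s) (d s)) (if nx n i = 0 then L n else L (nx n i))
        (nx n i)) := by
    intro i hi hx
    rcases nx_cases hi with ⟨h1, h2⟩ | ⟨h1, h2⟩
    · rw [h2, if_neg (by omega)]
      refine ⟨G.cardL _ (by omega), ?_⟩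
      by_cases h3 : i + 1 = b
      · rw [h3]
        exact G.cntB.trans (cK _ _ G.memB)
      · exact (G.cntL _ (by omega)).trans (cS _ _ _ (by simp))
    · rw [h2, if_pos rfl]
      refine ⟨G.cardL _ (by omega), ?_⟩
      rw [G.apex]
      exact le_trans (by norm_num) (G.cntA.trans (cK _ _ G.memA))
  refine ⟨R, fun k => if k = 0 then L n else L k, fun s => real n v (st s) (d s), ?_, ?_, ?_, ?_,
    ?_, ?_⟩
  · refine ⟨fun s i hi => fl32_ok P _ (hd s) hi, hc, ?_, ?_, ?_, ?_, ?_, ?_, ?_⟩
    · intro i hi hx s hs
      by_cases h0 : i = 0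
      · subst h0
        rcases fl32_pos (st s) (d s) T.c0 with e | e
        · left; exact e
        · right; right; exact e
      by_cases h1 : i = c
      · subst h1
        rcases fl32_pos (st s) (d s) T.c2 with e | e
        · left; exact e
        · right; right; exact e
      · have hr := T.rf i hi h0 (by omega) h1
        rcases G.stR i (by omega) s hs with e | e
        · left; exact fl32_is_off _ _ e
        · right; left; exact fl32_N _ _ hr e
    · intro i hi hx ht s hs
      by_cases h0 : i = 0
      · subst h0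
        rcases G.kA s with e | e
        · exact fl32_is_off _ _ e
        · exact absurd (G.memA s e) hs
      by_cases h1 : i = c
      · subst h1
        rcases G.kC s with e | e
        · exact fl32_is_off _ _ e
        · exact absurd (G.memC s e) hs
      · have hr := T.rf i hi h0 (by omega) h1
        linarith
    · intro i hi hx s hs
      rcases nx_cases hi with ⟨h1, h2⟩ | ⟨h1, h2⟩
      · rw [h2] at hs ⊢
        simp only [if_neg (show ¬ i + 1 = 0 by omega)] at hs
        by_cases h3 : i + 1 = b
        · rw [h3]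
          rcases fl32_pos (st s) (d s) T.c1 with e | e
          · left; exact e
          · right; right; exact e
        · have hr := T.rf (i + 1) (by omega) (by omega) h3 (by omega)
          rcases G.stL (i + 1) (by omega) s hs with e | e
          · left; exact fl32_is_off _ _ e
          · right; left; exact fl32_P _ _ hr e
      · rw [h2]
        rcases fl32_pos (st s) (d s) T.c0 with e | e
        · left; exact e
        · right; right; exact e
    · intro i hi hx ht s hs
      rcases nx_cases hi with ⟨h1, h2⟩ | ⟨h1, h2⟩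
      · rw [h2] at hs ht ⊢
        simp only [if_neg (show ¬ i + 1 = 0 by omega)] at hs
        by_cases h3 : i + 1 = b
        · rw [h3] at hs ⊢
          rcases G.kB s with e | e
          · exact fl32_is_off _ _ e
          · exact absurd (G.memB s e) hs
        · have hr := T.rf (i + 1) (by omega) (by omega) h3 (by omega)
          linarith
      · rw [h2] at hs ⊢
        simp only [if_pos] at hs
        rw [G.apex] at hs
        rcases G.kA s with e | e
        · exact fl32_is_off _ _ e
        · exact absurd (G.memA s e) hs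
    · intro i hi hx
      have h := G.edge i (by omega)
      rcases nx_cases hi with ⟨h1, h2⟩ | ⟨h1, h2⟩
      · rw [h2]
        simp only [if_neg (show ¬ i + 1 = 0 by omega)]
        exact h
      · rw [h2]
        simp only [if_pos]
        rw [h1] at h
        exact h
    · intro i hi hx hx' ht
      have h0 : i ≠ 0 := fun e => by rw [e] at ht; linarith [T.c0]
      have h1 : i ≠ c := fun e => by rw [e] at ht; linarith [T.c2]
      simp only [if_neg h0]
      exact G.disj i (by omega)
    · intro i hi hx hx' ht
      by_cases h0 : i = 0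
      · subst h0
        simp only [if_pos]
        exact G.apex.symm
      by_cases h1 : i = c
      · subst h1
        rcases pv_cases hi with ⟨h2, h3⟩ | ⟨h2, h3⟩
        · rw [h3] at hx'; omega
        · omega
      · have hr := T.rf i hi h0 (by omega) h1
        linarith
  · intro i hi hx
    obtain ⟨a1, a2⟩ := eR i hi hx
    obtain ⟨a3, a4⟩ := eL i hi hx
    exact ⟨a1, a2, a3, a4⟩
  · exact G.cntA.trans (cK _ _ G.memA)
  · intro hb
    exact (G.lastR (b - 1) (by omega) (by omega)).trans (cS _ _ _ (by simp))
  · intro hb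
    simp only [if_neg (show ¬ c + 1 = 0 by omega)]
    exact (G.firstL (by omega)).trans (cS _ _ _ (by simp))
  · rw [fl32_cnt]
    exact G.total

end baseg

end Pool.Agent.FL
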