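import Pool.Agent.FL.Defs

/-! MP_8a5d4f_co, project FL, row FL-26 -/

set_option autoImplicit false

namespace Pool.Agent.FL

open Set Filter Topology Pool.Agent.H54.Fl Pool.Agent.H75.PolyJ Pool.Agent.H95.Poly

section perm14

/-- the label of a slot -/
def fl26_lab (U V B C : Finset (Fin 14)) (s : Fin 14) : Fin 5 :=
  if s ∈ B then 0 else if s ∈ U then 1 else if s ∈ C then 2 else if s ∈ V then 3 else 4

theorem fl26_card {U V B C : Finset (Fin 14)} (hU : U.card = 6) (hV : V.card = 6)
    (hUV : Disjoint U V) (hB : B ⊆ U) (hC : C ⊆ V) (c : Fin 5) :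
    Fintype.card {s // fl26_lab U V B C s = c} =
      if c = 0 then B.card else if c = 1 then 6 - B.card else if c = 2 then C.card else
        if c = 3 then 6 - C.card else 2 := by
  rw [Fintype.card_subtype]
  have hUV' : ∀ s, s ∈ U → s ∉ V := fun s h h' => (Finset.disjoint_left.1 hUV) h h'
  have h0 : (Finset.univ.filter fun s => fl26_lab U V B C s = 0) = B := by
    ext s
    rw [Finset.mem_filter]
    simp only [Finset.mem_univ, true_and, fl26_lab]
    split_ifs <;> simp_all
  have h1 : (Finset.univ.filter fun s => fl26_lab U V B C s = 1) = U \ B := by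
    ext s
    rw [Finset.mem_filter]
    simp only [Finset.mem_univ, true_and, fl26_lab, Finset.mem_sdiff]
    split_ifs <;> simp_all
  have h2 : (Finset.univ.filter fun s => fl26_lab U V B C s = 2) = C := by
    ext s
    rw [Finset.mem_filter]
    simp only [Finset.mem_univ, true_and, fl26_lab]
    have h3 : s ∈ B → s ∉ C := fun h h' => hUV' s (hB h) (hC h')
    have h4 : s ∈ U → s ∉ C := fun h h' => hUV' s h (hC h')
    split_ifs <;> simp_all
  have h3 : (Finset.univ.filter fun s => fl26_lab U V B C s = 3) = V \ C := by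
    ext s
    rw [Finset.mem_filter]
    simp only [Finset.mem_univ, true_and, fl26_lab, Finset.mem_sdiff]
    have h3 : s ∈ B → s ∉ V := fun h h' => hUV' s (hB h) h'
    have h4 := hUV' s
    split_ifs <;> simp_all
  have h4 : (Finset.univ.filter fun s => fl26_lab U V B C s = 4) = (U ∪ V)ᶜ := by
    ext s
    rw [Finset.mem_filter]
    simp only [Finset.mem_univ, true_and, fl26_lab, Finset.mem_compl,
      Finset.mem_union]
    have h3 : s ∈ B → s ∈ U := fun h => hB h
    have h4 : s ∈ C → s ∈ V := fun h => hC h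
    split_ifs <;> simp_all
  fin_cases c
  · show (Finset.univ.filter fun s => fl26_lab U V B C s = 0).card = B.card
    rw [h0]
  · show (Finset.univ.filter fun s => fl26_lab U V B C s = 1).card = 6 - B.card
    rw [h1, Finset.card_sdiff_of_subset hB, hU]
  · show (Finset.univ.filter fun s => fl26_lab U V B C s = 2).card = C.card
    rw [h2]
  · show (Finset.univ.filter fun s => fl26_lab U V B C s = 3).card = 6 - C.card
    rw [h3, Finset.card_sdiff_of_subset hC, hV]
  · show (Finset.univ.filter fun s => fl26_lab U V B C s = 4).card = 2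
    rw [h4, Finset.card_compl, Finset.card_union_of_disjoint hUV, hU, hV]
    simp

/-- the patterns of two 6-sets are equivalent under permutations of the slots, and the lit slots
may be matched -/
theorem perm14 {U V U' V' B C B' C' : Finset (Fin 14)} {k l : ℕ} (hU : U.card = 6)
    (hV : V.card = 6) (hUV : Disjoint U V) (hU' : U'.card = 6) (hV' : V'.card = 6)
    (hUV' : Disjoint U' V') (hB : B ⊆ U) (hC : C ⊆ V) (hB' : B' ⊆ U') (hC' : C' ⊆ V')
    (h1 : k ≤ B.card) (h2 : k ≤ B'.card) (h3 : l ≤ C.card) (h4 : l ≤ C'.card) :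
    ∃ e : Equiv.Perm (Fin 14), (∀ s, s ∈ U ↔ e s ∈ U') ∧ (∀ s, s ∈ V ↔ e s ∈ V') ∧
      k ≤ (B.filter fun s => e s ∈ B').card ∧ l ≤ (C.filter fun s => e s ∈ C').card := by
  obtain ⟨B0, hB0, hB0c⟩ := Finset.exists_subset_card_eq h1
  obtain ⟨B1, hB1, hB1c⟩ := Finset.exists_subset_card_eq h2
  obtain ⟨C0, hC0, hC0c⟩ := Finset.exists_subset_card_eq h3
  obtain ⟨C1, hC1, hC1c⟩ := Finset.exists_subset_card_eq h4
  have hcard : ∀ c, Fintype.card {s // fl26_lab U V B0 C0 s = c} =
      Fintype.card {s // fl26_lab U' V' B1 C1 s = c} := by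
    intro c
    rw [fl26_card hU hV hUV (hB0.trans hB) (hC0.trans hC),
      fl26_card hU' hV' hUV' (hB1.trans hB') (hC1.trans hC'), hB0c, hB1c, hC0c, hC1c]
  let e : Equiv.Perm (Fin 14) := Equiv.ofFiberEquiv (f := fl26_lab U V B0 C0)
    (g := fl26_lab U' V' B1 C1) fun c => Fintype.equivOfCardEq (hcard c)
  have he : ∀ s, fl26_lab U' V' B1 C1 (e s) = fl26_lab U V B0 C0 s := fun s =>
    Equiv.ofFiberEquiv_map _ s
  have hsub : ∀ {U V B C : Finset (Fin 14)} (hUV : Disjoint U V) (hB : B ⊆ U) (hC : C ⊆ V)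
      (s : Fin 14), (s ∈ B ↔ fl26_lab U V B C s = 0) ∧ (s ∈ C ↔ fl26_lab U V B C s = 2) ∧
      (s ∈ U ↔ fl26_lab U V B C s = 0 ∨ fl26_lab U V B C s = 1) ∧
      (s ∈ V ↔ fl26_lab U V B C s = 2 ∨ fl26_lab U V B C s = 3) := by
    intro U V B C hUV hB hC s
    have h3 : s ∈ B → s ∈ U := fun h => hB h
    have h4 : s ∈ C → s ∈ V := fun h => hC h
    have h5 : s ∈ U → s ∉ V := fun h h' => (Finset.disjoint_left.1 hUV) h h'
    simp only [fl26_lab]
    by_cases a1 : s ∈ B
    · have a2 := h3 a1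
      have a3 := h5 a2
      have a4 : s ∉ C := fun h => a3 (h4 h)
      simp [a1, a2, a3, a4]
    · by_cases a2 : s ∈ U
      · have a3 := h5 a2
        have a4 : s ∉ C := fun h => a3 (h4 h)
        simp [a1, a2, a3, a4]
      · by_cases a3 : s ∈ C
        · have a4 := h4 a3
          simp [a1, a2, a3, a4]
        · by_cases a4 : s ∈ V
          · simp [a1, a2, a3, a4]
          · simp [a1, a2, a3, a4]
  have hs := hsub hUV (hB0.trans hB) (hC0.trans hC)
  have hs' := hsub hUV' (hB1.trans hB') (hC1.trans hC')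
  refine ⟨e, fun s => ?_, fun s => ?_, ?_, ?_⟩
  · rw [(hs s).2.2.1, (hs' (e s)).2.2.1, he]
  · rw [(hs s).2.2.2, (hs' (e s)).2.2.2, he]
  · rw [← hB0c]
    apply Finset.card_le_card
    intro s h
    rw [Finset.mem_filter]
    refine ⟨hB0 h, hB1 ?_⟩
    rw [(hs' (e s)).1, he, ← (hs s).1]
    exact h
  · rw [← hC0c]
    apply Finset.card_le_card
    intro s h
    rw [Finset.mem_filter]
    refine ⟨hC0 h, hC1 ?_⟩
    rw [(hs' (e s)).2.1, he, ← (hs s).2.1]
    exact h

theorem fl26_mem {ι : Type} (e : Equiv.Perm ι) (R : Finset ι) (s : ι) :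
    s ∈ R.map e.symm.toEmbedding ↔ e s ∈ R := by
  rw [Finset.mem_map_equiv, Equiv.symm_symm]

/-- permutation of the slots -/
theorem Sys.perm {ι : Type} [DecidableEq ι] {n : ℕ} {v : ℕ → ℝ × ℝ} {X : ℕ → Prop}
    {R L : ℕ → Finset ι} {σ : ι → ℕ → St} (S : Sys ι n v X R L σ) (e : Equiv.Perm ι) :
    Sys ι n v X (fun i => (R i).map e.symm.toEmbedding) (fun i => (L i).map e.symm.toEmbedding)
      (fun s => σ (e s)) where
  ok := fun s i hi => S.ok (e s) i hi
  cov := fun s => S.cov (e s)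
  rin := fun i hi hX s hs => S.rin i hi hX (e s) ((fl26_mem e _ s).1 hs)
  rout := fun i hi hX ht s hs => S.rout i hi hX ht (e s) (fun h => hs ((fl26_mem e _ s).2 h))
  lin := fun i hi hX s hs => S.lin i hi hX (e s) ((fl26_mem e _ s).1 hs)
  lout := fun i hi hX ht s hs => S.lout i hi hX ht (e s) (fun h => hs ((fl26_mem e _ s).2 h))
  de := fun i hi hX => (Finset.disjoint_map _).2 (S.de i hi hX)
  dv := fun i hi hX hX' ht => (Finset.disjoint_map _).2 (S.dv i hi hX hX' ht)
  dk := fun i hi hX hX' ht => by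
    show (R i).map _ = (L i).map _
    rw [S.dk i hi hX hX' ht]

theorem Sys.mono {ι : Type} {n : ℕ} {v : ℕ → ℝ × ℝ} {X Y : ℕ → Prop}
    {R L : ℕ → Finset ι} {σ : ι → ℕ → St} (S : Sys ι n v X R L σ) (h : ∀ i, Y i → X i) :
    Sys ι n v Y R L σ where
  ok := S.ok
  cov := S.cov
  rin := fun i hi hY => S.rin i hi (h i hY)
  rout := fun i hi hY => S.rout i hi (h i hY)
  lin := fun i hi hY => S.lin i hi (h i hY)
  lout := fun i hi hY => S.lout i hi (h i hY)
  de := fun i hi hY => S.de i hi (h i hY)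
  dv := fun i hi hY hY' ht => S.dv i hi (h i hY) (h _ hY') ht
  dk := fun i hi hY hY' ht => S.dk i hi (h i hY) (h _ hY') ht

end perm14

end Pool.Agent.FL
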