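import Pool.Agent.FL.Glue
import Pool.Agent.FL.Perm14
import Pool.Agent.FL.ApIx

/-! MP_8a5d4f_co, project FL, row FL-31 -/

set_option autoImplicit false

namespace Pool.Agent.FL

open Set Filter Topology Pool.Agent.H54.Fl Pool.Agent.H75.PolyJ Pool.Agent.H95.Poly

section conglue

open Classical in
/-- the indicator of a lit vertex -/
noncomputable def fl31_g (x : St) : ℕ := if x ≠ St.off then 1 else 0

theorem fl31_cnt_sum (n : ℕ) (σ : ℕ → St) : cnt n σ = ∑ i ∈ Finset.range n, fl31_g (σ i) := by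
  unfold cnt fl31_g
  rw [Finset.card_filter]

theorem fl31_g_or {x y z : St} (h : x ≠ St.off ↔ y ≠ St.off ∨ z ≠ St.off) :
    fl31_g x + fl31_g y * fl31_g z = fl31_g y + fl31_g z := by
  unfold fl31_g
  by_cases hy : y = St.off <;> by_cases hz : z = St.off <;> by_cases hx : x = St.off <;>
    simp_all

theorem fl31_cnt {i p q : ℕ} {σ σa σc : ℕ → St} (h1 : ∀ m, m < i → σ m = σc m)
    (h2 : σ i ≠ St.off ↔ σa 0 ≠ St.off ∨ σc i ≠ St.off)
    (h3 : ∀ m, m < p → σ (i + 1 + m) = σa (1 + m))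
    (h4 : σ (i + 1 + p) ≠ St.off ↔ σa (1 + p) ≠ St.off ∨ σc (i + 1) ≠ St.off)
    (h5 : ∀ m, m < q → σ (i + 1 + p + 1 + m) = σc (i + 1 + 1 + m)) :
    cnt (i + 1 + p + 1 + q) σ + fl31_g (σa 0) * fl31_g (σc i) +
      fl31_g (σa (1 + p)) * fl31_g (σc (i + 1)) =
      cnt (1 + p + 1) σa + cnt (i + 1 + 1 + q) σc := by
  have e1 := fl31_g_or h2
  have e2 := fl31_g_or h4
  have s1 : ∑ m ∈ Finset.range i, fl31_g (σ m) = ∑ m ∈ Finset.range i, fl31_g (σc m) :=
    Finset.sum_congr rfl (fun m hm => by rw [h1 m (Finset.mem_range.1 hm)])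
  have s3 : ∑ m ∈ Finset.range p, fl31_g (σ (i + 1 + m)) =
      ∑ m ∈ Finset.range p, fl31_g (σa (1 + m)) :=
    Finset.sum_congr rfl (fun m hm => by rw [h3 m (Finset.mem_range.1 hm)])
  have s5 : ∑ m ∈ Finset.range q, fl31_g (σ (i + 1 + p + 1 + m)) =
      ∑ m ∈ Finset.range q, fl31_g (σc (i + 1 + 1 + m)) :=
    Finset.sum_congr rfl (fun m hm => by rw [h5 m (Finset.mem_range.1 hm)])
  have t1 : cnt (i + 1 + p + 1 + q) σ = ∑ m ∈ Finset.range i, fl31_g (σ m) + fl31_g (σ i) +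
      ∑ m ∈ Finset.range p, fl31_g (σ (i + 1 + m)) + fl31_g (σ (i + 1 + p)) +
      ∑ m ∈ Finset.range q, fl31_g (σ (i + 1 + p + 1 + m)) := by
    rw [fl31_cnt_sum, Finset.sum_range_add, Finset.sum_range_succ, Finset.sum_range_add,
      Finset.sum_range_succ]
  have t2 : cnt (1 + p + 1) σa = fl31_g (σa 0) + ∑ m ∈ Finset.range p, fl31_g (σa (1 + m)) +
      fl31_g (σa (1 + p)) := by
    rw [fl31_cnt_sum, Finset.sum_range_succ, Finset.sum_range_add, Finset.sum_range_one]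
  have t3 : cnt (i + 1 + 1 + q) σc = ∑ m ∈ Finset.range i, fl31_g (σc m) + fl31_g (σc i) +
      fl31_g (σc (i + 1)) + ∑ m ∈ Finset.range q, fl31_g (σc (i + 1 + 1 + m)) := by
    rw [fl31_cnt_sum, Finset.sum_range_add, Finset.sum_range_succ, Finset.sum_range_succ]
  rw [t1, t2, t3, s1, s3, s5]
  omega

theorem fl31_cnt' {n i j : ℕ} {σ σa σc : ℕ → St} (hij : i < j) (hj : j < n)
    (h1 : ∀ m, m < i → σ m = σc m)
    (h2 : σ i ≠ St.off ↔ σa 0 ≠ St.off ∨ σc i ≠ St.off)
    (h3 : ∀ m, i < m → m < j → σ m = σa (m - i))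
    (h4 : σ j ≠ St.off ↔ σa (j - i) ≠ St.off ∨ σc (i + 1) ≠ St.off)
    (h5 : ∀ m, j < m → m < n → σ m = σc (m - (j - i) + 1)) :
    cnt n σ + fl31_g (σa 0) * fl31_g (σc i) + fl31_g (σa (j - i)) * fl31_g (σc (i + 1)) =
      cnt (j - i + 1) σa + cnt (n - (j - i) + 1) σc := by
  obtain ⟨p, rfl⟩ : ∃ p, j = i + 1 + p := ⟨j - i - 1, by omega⟩
  obtain ⟨q, rfl⟩ : ∃ q, n = i + 1 + p + 1 + q := ⟨n - (i + 1 + p) - 1, by omega⟩
  have a1 : i + 1 + p - i = 1 + p := by omega
  have a2 : i + 1 + p + 1 + q - (1 + p) + 1 = i + 1 + 1 + q := by omega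
  rw [a1] at h4 h5 ⊢
  rw [a2]
  refine fl31_cnt h1 h2 ?_ h4 ?_
  · intro m hm
    rw [h3 (i + 1 + m) (by omega) (by omega), show i + 1 + m - i = 1 + m by omega]
  · intro m hm
    rw [h5 (i + 1 + p + 1 + m) (by omega) (by omega),
      show i + 1 + p + 1 + m - (1 + p) + 1 = i + 1 + 1 + m by omega]

theorem fl31_sh {ι : Type} [Fintype ι] {f g : ι → St} {S : Finset ι} {k : ℕ}
    (hS : ∀ s ∈ S, f s ≠ St.off ∧ g s ≠ St.off) (hk : k ≤ S.card) :
    k ≤ ∑ s, fl31_g (f s) * fl31_g (g s) := by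
  classical
  calc k ≤ S.card := hk
    _ = ∑ s ∈ S, 1 := by simp
    _ ≤ ∑ s ∈ S, fl31_g (f s) * fl31_g (g s) := by
      refine Finset.sum_le_sum ?_
      intro s hs
      have := hS s hs
      unfold fl31_g
      simp [this.1, this.2]
    _ ≤ ∑ s, fl31_g (f s) * fl31_g (g s) :=
      Finset.sum_le_sum_of_subset (Finset.subset_univ S)

theorem fl31_lc_mono {ι : Type} {σ σ' : ι → ℕ → St} {S : Finset ι} {m m' : ℕ} {k : ℕ}
    (h : k ≤ lc σ S m) (hs : ∀ s ∈ S, σ s m ≠ St.off → σ' s m' ≠ St.off) : k ≤ lc σ' S m' := by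
  classical
  refine le_trans h ?_
  unfold lc
  refine Finset.card_le_card ?_
  intro s hs'
  rw [Finset.mem_filter] at hs' ⊢
  exact ⟨hs'.1, hs s hs'.1 hs'.2⟩

theorem fl31_lc_perm {ι : Type} (e : Equiv.Perm ι) (σ : ι → ℕ → St) (S : Finset ι) (m : ℕ) :
    lc (fun s => σ (e s)) (S.map e.symm.toEmbedding) m = lc σ S m := by
  classical
  unfold lc
  rw [Finset.filter_map, Finset.card_map]
  congr 1
  refine Finset.filter_congr ?_
  intro s _
  simp

/-- the contract with all data -/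
structure Fl31C (n b c : ℕ) (v : ℕ → ℝ × ℝ) (R L : ℕ → Finset (Fin 14)) (σ : Fin 14 → ℕ → St) :
    Prop where
  sys : Sys (Fin 14) n v (fun m => m < b ∨ c ≤ m) R L σ
  rc : ∀ i < n, (i < b ∨ c ≤ i) → (R i).card = 6
  rl : ∀ i < n, (i < b ∨ c ≤ i) → 4 ≤ lc σ (R i) i
  lcd : ∀ i < n, (i < b ∨ c ≤ i) → (L (nx n i)).card = 6
  ll : ∀ i < n, (i < b ∨ c ≤ i) → 4 ≤ lc σ (L (nx n i)) (nx n i)
  r0 : 5 ≤ lc σ (R 0) 0
  rb : 2 ≤ b → 5 ≤ lc σ (R (b - 1)) (b - 1)
  lc1 : c + 2 ≤ n → 5 ≤ lc σ (L (c + 1)) (c + 1)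
  cn : (∑ s, cnt n (σ s)) + (if b = 1 ∨ c + 1 = n then 3 else 0) ≤ 9 * (n - 1)

theorem fl31_of {n b c : ℕ} {v : ℕ → ℝ × ℝ} (h : Con14 n b c v) :
    ∃ R L σ, Fl31C n b c v R L σ := by
  obtain ⟨R, L, σ, h1, h2, h3, h4, h5, h6⟩ := h
  exact ⟨R, L, σ, h1, fun i hi hx => (h2 i hi hx).1, fun i hi hx => (h2 i hi hx).2.1,
    fun i hi hx => (h2 i hi hx).2.2.1, fun i hi hx => (h2 i hi hx).2.2.2, h3, h4, h5, h6⟩

theorem Fl31C.con {n b c : ℕ} {v : ℕ → ℝ × ℝ} {R L : ℕ → Finset (Fin 14)}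
    {σ : Fin 14 → ℕ → St} (C : Fl31C n b c v R L σ) : Con14 n b c v :=
  ⟨R, L, σ, C.sys, fun i hi hx => ⟨C.rc i hi hx, C.rl i hi hx, C.lcd i hi hx, C.ll i hi hx⟩,
    C.r0, C.rb, C.lc1, C.cn⟩

theorem Fl31C.perm {n b c : ℕ} {v : ℕ → ℝ × ℝ} {R L : ℕ → Finset (Fin 14)}
    {σ : Fin 14 → ℕ → St} (C : Fl31C n b c v R L σ) (e : Equiv.Perm (Fin 14)) :
    Fl31C n b c v (fun i => (R i).map e.symm.toEmbedding) (fun i => (L i).map e.symm.toEmbedding)
      (fun s => σ (e s)) where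
  sys := C.sys.perm e
  rc i hi hx := by rw [Finset.card_map]; exact C.rc i hi hx
  rl i hi hx := by rw [fl31_lc_perm]; exact C.rl i hi hx
  lcd i hi hx := by rw [Finset.card_map]; exact C.lcd i hi hx
  ll i hi hx := by rw [fl31_lc_perm]; exact C.ll i hi hx
  r0 := by rw [fl31_lc_perm]; exact C.r0
  rb h := by rw [fl31_lc_perm]; exact C.rb h
  lc1 h := by rw [fl31_lc_perm]; exact C.lc1 h
  cn := by
    have h := Equiv.sum_comp e (fun s => cnt n (σ s))
    rw [h]
    exact C.cn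

theorem fl31_nx {n i : ℕ} (h : i + 1 < n) : nx n i = i + 1 := Nat.mod_eq_of_lt h

theorem fl31_ix {n b c i j ca bc : ℕ} {v : ℕ → ℝ × ℝ} (A : Ap n b c v) (F : FDc n v i j)
    (Aa : Ap (j - i + 1) (b - i) ca (arc v i))
    (Ac : Ap (n - (j - i) + 1) bc (c - (j - i) + 1) (co v i j)) :
    i < bc ∧ (bc = i + 1 ∨ ca = j - i) := by
  have P := A.pg
  have D := F.dg
  have hij := D.lt
  have hjn := D.ltn
  obtain ⟨ib, bj, jc, -, -, hti⟩ := FDc.ix A F
  have hca := Aa.hc
  have hbc : i < bc := by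
    by_contra hh
    rcases Nat.lt_or_ge bc i with h | h
    · have h1 := Ac.cb
      rw [tn_co_lt hjn hij Ac.hb h] at h1
      have h2 := F.ch bc Ac.hb h.le
      linarith
    · have h' : bc = i := by omega
      have h1 := Ac.cb
      rw [h'] at h1
      have h2 := hti (by have := Ac.hb; omega)
      linarith
  refine ⟨hbc, ?_⟩
  by_contra hh
  push Not at hh
  have t1 : tn (n - (j - i) + 1) (co v i j) (i + 1) < 0 :=
    Ac.rb (i + 1) (by omega) (by omega)
  have t2 : tn (j - i + 1) (arc v i) (j - i) < 0 := Aa.rc (j - i) (by omega) (by omega)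
  rw [tn_co_j hjn hij D.nl] at t1
  rw [tn_arc_last hjn hij] at t2
  have hpj : pv n j = j - 1 := by
    rcases pv_cases hjn with h | h
    · exact h.2
    · omega
  have hnj : i ≠ nx n j := by
    rcases nx_cases hjn with h | h
    · omega
    · have := D.nl
      omega
  have hs := see_sector_vx P (i := j) (j := i) hjn (by omega) (by omega)
    (by rw [hpj]; omega) hnj (See.symm D.see)
  rw [hpj] at hs
  have hc : orient (v j) (v (nx n j)) (v i) = orient (v i) (v j) (v (nx n j)) := by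
    unfold orient
    ring
  rw [hc] at hs
  rcases hs with h | h
  · linarith [h.2.1]
  · rcases h.2 with h | h <;> linarith

theorem fl31_glue {n b c i j ca bc : ℕ} {v : ℕ → ℝ × ℝ} (A : Ap n b c v) (F : FDc n v i j)
    (Aa : Ap (j - i + 1) (b - i) ca (arc v i))
    (Ac : Ap (n - (j - i) + 1) bc (c - (j - i) + 1) (co v i j))
    {R1 L1 R2 L2 : ℕ → Finset (Fin 14)} {σ1 σ2 : Fin 14 → ℕ → St}
    (C1 : Fl31C (j - i + 1) (b - i) ca (arc v i) R1 L1 σ1)
    (C2 : Fl31C (n - (j - i) + 1) bc (c - (j - i) + 1) (co v i j) R2 L2 σ2)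
    (e1 : L1 0 = R2 i) (e2 : R1 (j - i) = L2 (i + 1)) {k l : ℕ} {S T : Finset (Fin 14)}
    (hS : ∀ s ∈ S, σ1 s 0 ≠ St.off ∧ σ2 s i ≠ St.off) (hk : k ≤ S.card)
    (hT : ∀ s ∈ T, σ1 s (j - i) ≠ St.off ∧ σ2 s (i + 1) ≠ St.off) (hl : l ≤ T.card)
    (hkl : 9 + (if b = 1 ∨ c + 1 = n then 3 else 0) ≤
      k + l + (if b - i = 1 ∨ ca + 1 = j - i + 1 then 3 else 0) +
      (if bc = 1 ∨ c - (j - i) + 1 + 1 = n - (j - i) + 1 then 3 else 0)) : Con14 n b c v := by
  have P := A.pg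
  have D := F.dg
  have hij := D.lt
  have hjn := D.ltn
  obtain ⟨ib, bj, jc, -, -, -⟩ := FDc.ix A F
  have hbc : i < bc := (fl31_ix A F Aa Ac).1
  have hca := Aa.hc
  have hcn := A.hc
  have hi : 0 < tn n v i ∨ orient (v (pv n i)) (v i) (v j) < 0 ∨
      orient (v j) (v i) (v (i + 1)) < 0 := by
    rcases Nat.eq_zero_or_pos i with h0 | h0
    · left
      rw [h0]
      exact A.c0
    · right
      left
      rcases pv_cases (show i < n by omega) with h | h
      · rw [h.2]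
        rcases F.ri with h' | h'
        · omega
        · exact h'
      · omega
  obtain ⟨σ, G, hσ⟩ := Sys.glue P D hi F.pj C1.sys C2.sys (Or.inr (by omega)) (Or.inl hbc) e1 e2
  have hE1 : ∀ m, m < i → gE i j R1 R2 m = R2 m := by
    intro m hm
    unfold gE
    rw [if_pos hm]
  have hE2 : ∀ m, i ≤ m → m < j → gE i j R1 R2 m = R1 (m - i) := by
    intro m h1 h2
    unfold gE
    rw [if_neg (by omega), if_pos h2]
  have hE3 : ∀ m, j ≤ m → gE i j R1 R2 m = R2 (m - (j - i) + 1) := by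
    intro m h1
    unfold gE
    rw [if_neg (by omega), if_neg (by omega)]
  have hL1 : ∀ m, m ≤ i → gL i j L1 L2 m = L2 m := by
    intro m hm
    unfold gL
    rw [if_pos hm]
  have hL2 : ∀ m, i < m → m ≤ j → gL i j L1 L2 m = L1 (m - i) := by
    intro m h1 h2
    unfold gL
    rw [if_neg (by omega), if_pos h2]
  have hL3 : ∀ m, j < m → gL i j L1 L2 m = L2 (m - (j - i) + 1) := by
    intro m h1
    unfold gL
    rw [if_neg (by omega), if_neg (by omega)]
  have g1 : ∀ s m, m ≤ i → σ2 s m ≠ St.off → σ s m ≠ St.off := by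
    intro s m hm h
    rcases Nat.lt_or_ge m i with h' | h'
    · rw [(hσ s).1 m h']
      exact h
    · have : m = i := by omega
      subst this
      exact (hσ s).2.1.2 (Or.inr h)
  have g2 : ∀ s m, i ≤ m → m ≤ j → σ1 s (m - i) ≠ St.off → σ s m ≠ St.off := by
    intro s m h1 h2 h
    rcases Nat.lt_or_ge m j with h' | h'
    · rcases Nat.lt_or_ge i m with h'' | h''
      · rw [(hσ s).2.2.1 m h'' h']
        exact h
      · have : m = i := by omega
        subst this
        rw [Nat.sub_self] at h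
        exact (hσ s).2.1.2 (Or.inl h)
    · have : m = j := by omega
      subst this
      exact (hσ s).2.2.2.1.2 (Or.inl h)
  have g3 : ∀ s m, j < m → m < n → σ2 s (m - (j - i) + 1) ≠ St.off → σ s m ≠ St.off := by
    intro s m h1 h2 h
    rw [(hσ s).2.2.2.2 m h1 h2]
    exact h
  have X1 : ∀ m, i ≤ m → m < j → m < b ∨ c ≤ m → m - i < b - i ∨ ca ≤ m - i := by
    intro m h1 h2 h3
    left
    omega
  have X2 : ∀ m, m < i → m < bc ∨ c - (j - i) + 1 ≤ m := by
    intro m h1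
    left
    omega
  have X3 : ∀ m, j ≤ m → m < b ∨ c ≤ m → m - (j - i) + 1 < bc ∨
      c - (j - i) + 1 ≤ m - (j - i) + 1 := by
    intro m h1 h2
    right
    omega
  -- the cases of an open edge
  have hR : ∀ m < n, m < b ∨ c ≤ m → (gE i j R1 R2 m).card = 6 ∧
      4 ≤ lc σ (gE i j R1 R2 m) m := by
    intro m hm hx
    rcases Nat.lt_or_ge m i with h1 | h1
    · rw [hE1 m h1]
      exact ⟨C2.rc m (by omega) (X2 m h1), fl31_lc_mono (C2.rl m (by omega) (X2 m h1))
        fun s _ => g1 s m h1.le⟩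
    · rcases Nat.lt_or_ge m j with h2 | h2
      · rw [hE2 m h1 h2]
        exact ⟨C1.rc (m - i) (by omega) (X1 m h1 h2 hx),
          fl31_lc_mono (C1.rl (m - i) (by omega) (X1 m h1 h2 hx)) fun s _ => g2 s m h1 h2.le⟩
      · rw [hE3 m h2]
        have h3 : j < m := by omega
        exact ⟨C2.rc _ (by omega) (X3 m h2 hx),
          fl31_lc_mono (C2.rl _ (by omega) (X3 m h2 hx)) fun s _ => g3 s m h3 hm⟩
  have hL : ∀ m < n, m < b ∨ c ≤ m → (gL i j L1 L2 (nx n m)).card = 6 ∧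
      4 ≤ lc σ (gL i j L1 L2 (nx n m)) (nx n m) := by
    intro m hm hx
    rcases Nat.lt_or_ge m i with h1 | h1
    · have e := fl31_nx (n := n - (j - i) + 1) (i := m) (by omega)
      have h3 := C2.lcd m (by omega) (X2 m h1)
      have h4 := C2.ll m (by omega) (X2 m h1)
      rw [e] at h3 h4
      rw [fl31_nx (by omega), hL1 (m + 1) h1]
      exact ⟨h3, fl31_lc_mono h4 fun s _ => g1 s (m + 1) h1⟩
    · rcases Nat.lt_or_ge m j with h2 | h2
      · have e := fl31_nx (n := j - i + 1) (i := m - i) (by omega)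
        have h3 := C1.lcd (m - i) (by omega) (X1 m h1 h2 hx)
        have h4 := C1.ll (m - i) (by omega) (X1 m h1 h2 hx)
        rw [e, show m - i + 1 = m + 1 - i by omega] at h3 h4
        rw [fl31_nx (by omega), hL2 (m + 1) (by omega) (by omega)]
        exact ⟨h3, fl31_lc_mono h4 fun s _ => g2 s (m + 1) (by omega) (by omega)⟩
      · have h3 := C2.lcd (m - (j - i) + 1) (by omega) (X3 m h2 hx)
        have h4 := C2.ll (m - (j - i) + 1) (by omega) (X3 m h2 hx)
        rcases nx_cases hm with h5 | h5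
        · have e := fl31_nx (n := n - (j - i) + 1) (i := m - (j - i) + 1) (by omega)
          rw [e, show m - (j - i) + 1 + 1 = m + 1 - (j - i) + 1 by omega] at h3 h4
          rw [h5.2, hL3 (m + 1) (by omega)]
          exact ⟨h3, fl31_lc_mono h4 fun s _ => g3 s (m + 1) (by omega) h5.1⟩
        · have e : nx (n - (j - i) + 1) (m - (j - i) + 1) = 0 := by
            rcases nx_cases (show m - (j - i) + 1 < n - (j - i) + 1 by omega) with h6 | h6
            · omega
            · exact h6.2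
          rw [e] at h3 h4
          rw [h5.2, hL1 0 (Nat.zero_le i)]
          exact ⟨h3, fl31_lc_mono h4 fun s _ => g1 s 0 (Nat.zero_le i)⟩
  refine ⟨gE i j R1 R2, gL i j L1 L2, σ, G.mono ?_, ?_, ?_, ?_, ?_, ?_⟩
  · intro m hm
    unfold gE
    by_cases h1 : m < i
    · rw [if_pos h1]
      exact X2 m h1
    · rw [if_neg h1]
      by_cases h2 : m < j
      · rw [if_pos h2]
        exact X1 m (by omega) h2 hm
      · rw [if_neg h2]
        exact X3 m (by omega) hm
  · intro m hm hx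
    exact ⟨(hR m hm hx).1, (hR m hm hx).2, (hL m hm hx).1, (hL m hm hx).2⟩
  · rcases Nat.eq_zero_or_pos i with h0 | h0
    · have h1 := C1.r0
      rw [hE2 0 (by omega) (by omega), h0]
      exact fl31_lc_mono h1 fun s _ h => g2 s 0 (by omega) (by omega) (by rw [h0]; exact h)
    · rw [hE1 0 h0]
      exact fl31_lc_mono C2.r0 fun s _ => g1 s 0 (by omega)
  · intro hb
    rw [hE2 (b - 1) (by omega) (by omega)]
    rcases Nat.eq_or_lt_of_le (show i ≤ b - 1 by omega) with h | h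
    · rw [← h, Nat.sub_self]
      exact fl31_lc_mono C1.r0 fun s _ h' => g2 s i le_rfl (by omega) (by rw [Nat.sub_self]; exact h')
    · have h1 := C1.rb (by omega)
      rw [show b - i - 1 = b - 1 - i by omega] at h1
      exact fl31_lc_mono h1 fun s _ => g2 s (b - 1) (by omega) (by omega)
  · intro hc
    rw [hL3 (c + 1) (by omega)]
    have h1 := C2.lc1 (by omega)
    rw [show c - (j - i) + 1 + 1 = c + 1 - (j - i) + 1 by omega] at h1
    exact fl31_lc_mono h1 fun s _ => g3 s (c + 1) (by omega) (by omega)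
  · have hs : ∑ s, cnt n (σ s) + ∑ s, fl31_g (σ1 s 0) * fl31_g (σ2 s i) +
        ∑ s, fl31_g (σ1 s (j - i)) * fl31_g (σ2 s (i + 1)) =
        ∑ s, cnt (j - i + 1) (σ1 s) + ∑ s, cnt (n - (j - i) + 1) (σ2 s) := by
      rw [← Finset.sum_add_distrib, ← Finset.sum_add_distrib, ← Finset.sum_add_distrib]
      refine Finset.sum_congr rfl ?_
      intro s _
      exact fl31_cnt' (by omega) hjn (hσ s).1 (hσ s).2.1 (hσ s).2.2.1 (hσ s).2.2.2.1
        (hσ s).2.2.2.2
    have k1 := fl31_sh (f := fun s => σ1 s 0) (g := fun s => σ2 s i) hS hk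
    have l1 := fl31_sh (f := fun s => σ1 s (j - i)) (g := fun s => σ2 s (i + 1)) hT hl
    have n1 := C1.cn
    have n2 := C2.cn
    have e3 : j - i + 1 - 1 = j - i := by omega
    have e4 : n - (j - i) + 1 - 1 = n - (j - i) := by omega
    rw [e3] at n1
    rw [e4] at n2
    omega

/-- the contract passes to the whole polygon along a first diagonal -/
theorem Con14.glue {n b c i j ca bc : ℕ} {v : ℕ → ℝ × ℝ} (A : Ap n b c v) (F : FDc n v i j)
    (Aa : Ap (j - i + 1) (b - i) ca (arc v i)) (Ga : Con14 (j - i + 1) (b - i) ca (arc v i))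
    (Ac : Ap (n - (j - i) + 1) bc (c - (j - i) + 1) (co v i j))
    (Gc : Con14 (n - (j - i) + 1) bc (c - (j - i) + 1) (co v i j)) : Con14 n b c v := by
  classical
  have D := F.dg
  have hij := D.lt
  have hjn := D.ltn
  obtain ⟨ib, bj, jc, -, -, -⟩ := FDc.ix A F
  obtain ⟨hbc, hcv⟩ := fl31_ix A F Aa Ac
  have hca := Aa.hc
  have hcn := A.hc
  obtain ⟨R1, L1, σ1, C1⟩ := fl31_of Ga
  obtain ⟨R2, L2, σ2, C2⟩ := fl31_of Gc
  -- the four 6-sets
  have xa0 : (0 < b - i ∨ ca ≤ 0) := Or.inl (by omega)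
  have xaj : (j - i < b - i ∨ ca ≤ j - i) := Or.inr (by omega)
  have xci : (i < bc ∨ c - (j - i) + 1 ≤ i) := Or.inl hbc
  have pa : pv (j - i + 1) 0 = j - i := by
    rcases pv_cases (show 0 < j - i + 1 by omega) with h | h
    · omega
    · rw [h.2, Nat.add_sub_cancel]
  have na : nx (j - i + 1) (j - i) = 0 := by
    rcases nx_cases (show j - i < j - i + 1 by omega) with h | h
    · omega
    · exact h.2
  have nc : nx (n - (j - i) + 1) i = i + 1 := fl31_nx (by omega)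
  have hRL : R1 0 = L1 0 := C1.sys.dk 0 (by omega) xa0 (by rw [pa]; exact xaj) Aa.c0
  have d1 : Disjoint (R1 (j - i)) (L1 0) := by
    have h := C1.sys.de (j - i) (by omega) xaj
    rw [na] at h
    exact h
  have d2 : Disjoint (R2 i) (L2 (i + 1)) := by
    have h := C2.sys.de i (by omega) xci
    rw [nc] at h
    exact h
  have c1 : (L1 0).card = 6 := by
    rw [← hRL]
    exact C1.rc 0 (by omega) xa0
  have c2 : (R1 (j - i)).card = 6 := C1.rc (j - i) (by omega) xaj
  have c3 : (R2 i).card = 6 := C2.rc i (by omega) xci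
  have c4 : (L2 (i + 1)).card = 6 := by
    have h := C2.lcd i (by omega) xci
    rw [nc] at h
    exact h
  have l1 : 5 ≤ ((L1 0).filter fun s => σ1 s 0 ≠ St.off).card := by
    have h := C1.r0
    unfold lc at h
    rw [hRL] at h
    convert h
  have l2 : 4 ≤ ((R1 (j - i)).filter fun s => σ1 s (j - i) ≠ St.off).card := by
    have h := C1.rl (j - i) (by omega) xaj
    unfold lc at h
    convert h
  have l4 : 4 ≤ ((L2 (i + 1)).filter fun s => σ2 s (i + 1) ≠ St.off).card := by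
    have h := C2.ll i (by omega) xci
    rw [nc] at h
    unfold lc at h
    convert h
  -- the number of shared slots at `i`
  obtain ⟨k, hk1, hk2, hk3⟩ : ∃ k, k ≤ 5 ∧
      k ≤ ((R2 i).filter fun s => σ2 s i ≠ St.off).card ∧
      9 + (if b = 1 ∨ c + 1 = n then 3 else 0) ≤
      k + 4 + (if b - i = 1 ∨ ca + 1 = j - i + 1 then 3 else 0) +
      (if bc = 1 ∨ c - (j - i) + 1 + 1 = n - (j - i) + 1 then 3 else 0) := by
    have m4 : 4 ≤ ((R2 i).filter fun s => σ2 s i ≠ St.off).card := by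
      have h := C2.rl i (by omega) xci
      unfold lc at h
      convert h
    have m0 : i = 0 → 5 ≤ ((R2 i).filter fun s => σ2 s i ≠ St.off).card := by
      intro h0
      have h := C2.r0
      unfold lc at h
      rw [h0]
      convert h
    have m5 : bc = i + 1 → 5 ≤ ((R2 i).filter fun s => σ2 s i ≠ St.off).card := by
      intro hb
      rcases Nat.eq_zero_or_pos i with h0 | h0
      · exact m0 h0
      · have h := C2.rb (by omega)
        rw [hb, Nat.add_sub_cancel] at h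
        unfold lc at h
        convert h
    by_cases h5 : 5 ≤ ((R2 i).filter fun s => σ2 s i ≠ St.off).card
    · refine ⟨5, le_rfl, h5, ?_⟩
      split_ifs <;> omega
    · refine ⟨4, by omega, m4, ?_⟩
      have h6 : bc ≠ i + 1 := fun h => h5 (m5 h)
      have h7 : i ≠ 0 := fun h => h5 (m0 h)
      split_ifs <;> omega
  obtain ⟨e, eU, eV, ek, el⟩ := perm14 c1 c2 d1.symm c3 c4 d2 (Finset.filter_subset _ _)
    (Finset.filter_subset _ _) (Finset.filter_subset _ _) (Finset.filter_subset _ _)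
    (hk1.trans l1) hk2 l2 l4
  have e1 : L1 0 = (R2 i).map e.symm.toEmbedding := by
    ext s
    rw [eU, Finset.mem_map_equiv, Equiv.symm_symm]
  have e2 : R1 (j - i) = (L2 (i + 1)).map e.symm.toEmbedding := by
    ext s
    rw [eV, Finset.mem_map_equiv, Equiv.symm_symm]
  refine fl31_glue A F Aa Ac C1 (C2.perm e) e1 e2 ?_ ek ?_ el hk3
  · intro s hs
    simp only [Finset.mem_filter] at hs
    exact ⟨hs.1.2, hs.2.2⟩
  · intro s hs
    simp only [Finset.mem_filter] at hs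
    exact ⟨hs.1.2, hs.2.2⟩

end conglue

end Pool.Agent.FL
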