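import Pool.Agent.FL.Mirror

/-! MP_8a5d4f_co, project FL, row FL-30 -/

set_option autoImplicit false

namespace Pool.Agent.FL

open Set Filter Topology Pool.Agent.H54.Fl Pool.Agent.H75.PolyJ Pool.Agent.H95.Poly

section conmir

/-- the index of the mirror image -/
def fl30_r (n k : ℕ) : ℕ := (n - k) % n

/-- the state of the mirror image -/
def fl30_ms : St → St
  | St.off => St.off
  | St.N => St.P
  | St.P => St.N
  | St.K => St.K
  | St.H d => St.H (d.1, -d.2)

theorem fl30_r_lt {n k : ℕ} (hk : k < n) : fl30_r n k < n := Nat.mod_lt _ (by omega)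

theorem fl30_r_cases {n k : ℕ} (hk : k < n) :
    (k = 0 ∧ fl30_r n k = 0) ∨ (0 < k ∧ fl30_r n k = n - k) := by
  rcases Nat.eq_zero_or_pos k with h | h
  · left
    subst h
    exact ⟨rfl, by simp [fl30_r]⟩
  · right
    exact ⟨h, Nat.mod_eq_of_lt (by omega)⟩

theorem fl30_r_r {n k : ℕ} (hk : k < n) : fl30_r n (fl30_r n k) = k := by
  rcases fl30_r_cases hk with ⟨h1, h2⟩ | ⟨h1, h2⟩ <;>
    rcases fl30_r_cases (fl30_r_lt hk) with ⟨h3, h4⟩ | ⟨h3, h4⟩ <;> omega

theorem fl30_nx {n k : ℕ} (hk : k < n) : nx n (fl30_r n (nx n k)) = fl30_r n k := by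
  have hx : nx n k < n := nx_lt (by omega) k
  rcases fl30_r_cases hk with ⟨h1, h2⟩ | ⟨h1, h2⟩ <;>
    rcases fl30_r_cases hx with ⟨h3, h4⟩ | ⟨h3, h4⟩ <;>
    rcases nx_cases hk with ⟨h5, h6⟩ | ⟨h5, h6⟩ <;>
    rcases nx_cases (fl30_r_lt hx) with ⟨h7, h8⟩ | ⟨h7, h8⟩ <;> omega

theorem fl30_pv {n k : ℕ} (hk : k < n) : pv n (fl30_r n k) = fl30_r n (nx n k) := by
  have hx : nx n k < n := nx_lt (by omega) k
  rw [← fl30_nx hk, pv_nx (fl30_r_lt hx)]

theorem fl30_nx' {n k : ℕ} (hk : k < n) : nx n (fl30_r n k) = fl30_r n (pv n k) := by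
  have hx : pv n k < n := pv_lt (by omega) k
  have h := fl30_nx hx
  rwa [nx_pv hk] at h

theorem fl30_ms_off {t : St} : fl30_ms t = St.off ↔ t = St.off := by
  cases t <;> simp [fl30_ms]

theorem fl30_lc {n : ℕ} (σ : Fin 14 → ℕ → St) (S : Finset (Fin 14)) (k : ℕ) :
    lc (fun s k => fl30_ms (σ s (fl30_r n k))) S k = lc σ S (fl30_r n k) := by
  unfold lc
  congr 1
  ext s
  simp only [Finset.mem_filter, ne_eq, fl30_ms_off]

theorem fl30_cnt {n : ℕ} (σ : ℕ → St) :
    cnt n (fun k => fl30_ms (σ (fl30_r n k))) = cnt n σ := by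
  unfold cnt
  apply Finset.card_bij (fun k _ => fl30_r n k)
  · intro a ha
    simp only [Finset.mem_filter, Finset.mem_range, ne_eq, fl30_ms_off] at ha ⊢
    exact ⟨fl30_r_lt ha.1, ha.2⟩
  · intro a ha b hb h
    simp only [Finset.mem_filter, Finset.mem_range] at ha hb
    have h1 := congrArg (fl30_r n) h
    rwa [fl30_r_r ha.1, fl30_r_r hb.1] at h1
  · intro b hb
    simp only [Finset.mem_filter, Finset.mem_range] at hb
    refine ⟨fl30_r n b, ?_, fl30_r_r hb.1⟩
    simp only [Finset.mem_filter, Finset.mem_range, ne_eq, fl30_ms_off, fl30_r_r hb.1]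
    exact ⟨fl30_r_lt hb.1, hb.2⟩

/-- the contract for the mirror image -/
theorem Con14.mir {n b c : ℕ} {v : ℕ → ℝ × ℝ} (A : Ap n b c v)
    (h : Con14 n (n - c) (n - b) (mir n v)) : Con14 n b c v := by
  obtain ⟨R, L, σ, S, hc, h0, hb, hc', hsum⟩ := h
  have A1 := A.hb
  have A2 := A.hbc
  have A3 := A.hc
  have hn : 0 < n := by omega
  have htn : ∀ k < n, tn n (Pool.Agent.FL.mir n v) (fl30_r n k) = tn n v k := by
    intro k hk
    rw [tn_mir hn (fl30_r_lt hk)]
    exact congrArg (tn n v) (fl30_r_r hk)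
  -- the open edges
  have hX : ∀ j < n, (j < b ∨ c ≤ j) →
      (fl30_r n (nx n j) < n - c ∨ n - b ≤ fl30_r n (nx n j)) := by
    intro j hj hjx
    have hx : nx n j < n := nx_lt hn j
    rcases nx_cases hj with ⟨h5, h6⟩ | ⟨h5, h6⟩ <;>
      rcases fl30_r_cases hx with ⟨h3, h4⟩ | ⟨h3, h4⟩ <;> omega
  have hXp : ∀ j < n, (pv n j < b ∨ c ≤ pv n j) → (fl30_r n j < n - c ∨ n - b ≤ fl30_r n j) := by
    intro j hj hjx
    have h1 := hX (pv n j) (pv_lt hn j) hjx
    rwa [nx_pv hj] at h1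
  refine ⟨fun k => L (fl30_r n k), fun k => R (fl30_r n k),
    fun s k => fl30_ms (σ s (fl30_r n k)), ⟨?_, ?_, ?_, ?_, ?_, ?_, ?_, ?_, ?_⟩, ?_, ?_, ?_, ?_, ?_⟩
  · intro s i hi
    have h1 := S.ok s (fl30_r n i) (fl30_r_lt hi)
    have h2 := htn i hi
    cases hs : σ s (fl30_r n i) with
    | off => trivial
    | N => rw [hs] at h1; simp only [Ok] at h1; simp only [fl30_ms, Ok]; rwa [h2] at h1
    | P => rw [hs] at h1; simp only [Ok] at h1; simp only [fl30_ms, Ok]; rwa [h2] at h1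
    | K => rw [hs] at h1; simp only [Ok] at h1; simp only [fl30_ms, Ok]; rwa [h2] at h1
    | H d =>
      rw [hs] at h1
      simp only [Ok] at h1
      obtain ⟨h3, h4, h5, h6⟩ := h1
      simp only [fl30_ms, Ok]
      have e1 : Pool.Agent.FL.mir n v (fl30_r n i) = mr (v i) :=
        congrArg (fun m => mr (v m)) (fl30_r_r hi)
      have e2 : Pool.Agent.FL.mir n v (nx n (fl30_r n i)) = mr (v (pv n i)) := by
        rw [fl30_nx' hi]
        exact congrArg (fun m => mr (v m)) (fl30_r_r (pv_lt hn i))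
      have e3 : Pool.Agent.FL.mir n v (pv n (fl30_r n i)) = mr (v (nx n i)) := by
        rw [fl30_pv hi]
        exact congrArg (fun m => mr (v m)) (fl30_r_r (nx_lt hn i))
      refine ⟨?_, ?_, ?_, ?_⟩
      · intro h
        apply h3
        have a1 := congrArg Prod.fst h
        have a2 := congrArg Prod.snd h
        simp only [Prod.fst_zero, Prod.snd_zero, neg_eq_zero] at a1 a2
        exact Prod.ext a1 a2
      · rwa [h2] at h4
      · rw [e1, e3] at h6
        simp only [cr, mr, ed, Prod.fst_sub, Prod.snd_sub] at h6 ⊢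
        linarith
      · simp only [ed, e1, e2] at h5
        simp only [cr, mr, Prod.fst_sub, Prod.snd_sub] at h5 ⊢
        linarith
  · intro s
    have h1 := cov_mir A.pg (S.cov s)
    have e : (fun k => fl30_ms (σ s (fl30_r n k))) = (fun k => match σ s ((n - k) % n) with
      | St.off => St.off
      | St.N => St.P
      | St.P => St.N
      | St.K => St.K
      | St.H d => St.H (d.1, -d.2)) := by
      funext k
      simp only [fl30_r]
      cases σ s ((n - k) % n) <;> rfl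
    rw [e]
    exact h1
  · intro j hj hjx s hs
    have h1 := S.lin (fl30_r n (nx n j)) (fl30_r_lt (nx_lt hn j)) (hX j hj hjx) s
      (by rw [fl30_nx hj]; exact hs)
    rw [fl30_nx hj] at h1
    rcases h1 with h1 | h1 | h1 <;> rw [h1] <;> simp [fl30_ms]
  · intro j hj hjx ht s hs
    have h1 := S.lout (fl30_r n (nx n j)) (fl30_r_lt (nx_lt hn j)) (hX j hj hjx)
      (by rw [fl30_nx hj, htn j hj]; exact ht) s (by rw [fl30_nx hj]; exact hs)
    rw [fl30_nx hj] at h1
    rw [h1]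
    rfl
  · intro j hj hjx s hs
    have h1 := S.rin (fl30_r n (nx n j)) (fl30_r_lt (nx_lt hn j)) (hX j hj hjx) s hs
    rcases h1 with h1 | h1 | h1 <;> rw [h1] <;> simp [fl30_ms]
  · intro j hj hjx ht s hs
    have h1 := S.rout (fl30_r n (nx n j)) (fl30_r_lt (nx_lt hn j)) (hX j hj hjx)
      (by rw [htn _ (nx_lt hn j)]; exact ht) s hs
    rw [h1]
    rfl
  · intro j hj hjx
    have h1 := S.de (fl30_r n (nx n j)) (fl30_r_lt (nx_lt hn j)) (hX j hj hjx)
    rw [fl30_nx hj] at h1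
    exact h1.symm
  · intro j hj hjx hjp ht
    have h1 := S.dv (fl30_r n j) (fl30_r_lt hj) (hXp j hj hjp)
      (by rw [fl30_pv hj]; exact hX j hj hjx) (by rw [htn j hj]; exact ht)
    exact h1.symm
  · intro j hj hjx hjp ht
    have h1 := S.dk (fl30_r n j) (fl30_r_lt hj) (hXp j hj hjp)
      (by rw [fl30_pv hj]; exact hX j hj hjx) (by rw [htn j hj]; exact ht)
    exact h1.symm
  · intro j hj hjx
    obtain ⟨h1, h2, h3, h4⟩ := hc (fl30_r n (nx n j)) (fl30_r_lt (nx_lt hn j)) (hX j hj hjx)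
    rw [fl30_nx hj] at h3 h4
    simp only [fl30_lc]
    exact ⟨h3, h4, h1, h2⟩
  · simp only [fl30_lc]
    have e0 : fl30_r n 0 = 0 := by simp [fl30_r]
    rw [e0]
    have h1 := S.dk 0 hn (by omega) (by
      rcases pv_cases hn with ⟨h5, h6⟩ | ⟨h5, h6⟩ <;> omega) (by
      have := htn 0 hn
      rw [e0] at this
      rw [this]
      exact A.c0)
    rw [← h1]
    exact h0
  · intro h2
    simp only [fl30_lc]
    have e1 : fl30_r n (b - 1) = n - b + 1 := by
      rcases fl30_r_cases (n := n) (k := b - 1) (by omega) with ⟨h5, h6⟩ | ⟨h5, h6⟩ <;> omega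
    rw [e1]
    exact hc' (by omega)
  · intro h2
    simp only [fl30_lc]
    have e1 : fl30_r n (c + 1) = n - c - 1 := by
      rcases fl30_r_cases (n := n) (k := c + 1) (by omega) with ⟨h5, h6⟩ | ⟨h5, h6⟩ <;> omega
    rw [e1]
    exact hb (by omega)
  · have e1 : ∀ s, cnt n ((fun s k => fl30_ms (σ s (fl30_r n k))) s) = cnt n (σ s) := fun s =>
      fl30_cnt (σ s)
    rw [Finset.sum_congr rfl fun s _ => e1 s]
    have e2 : (b = 1 ∨ c + 1 = n) ↔ (n - c = 1 ∨ n - b + 1 = n) := by omega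
    rw [if_congr e2 rfl rfl]
    exact hsum

end conmir

end Pool.Agent.FL
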