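import Pool.Agent.H75.PolyJ.Split
import Pool.Agent.H95.Poly.Limit
import Pool.Agent.H95.Poly.Open

/-!
MP_8a5d4f_co, project FL (upper bounds for vertex floodlights): definitions.
-/

set_option autoImplicit false

namespace Pool.Agent.FL

open Set Filter Topology Pool.Agent.H54.Fl Pool.Agent.H75.PolyJ Pool.Agent.H95.Poly

/-- the cross product -/
def cr (a b : ℝ × ℝ) : ℝ := a.1 * b.2 - a.2 * b.1

/-- the turn at the vertex `i`: positive at convex, negative at reflex vertices -/
def tn (n : ℕ) (v : ℕ → ℝ × ℝ) (i : ℕ) : ℝ := orient (v (pv n i)) (v i) (v (nx n i))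

/-- the edge vector from the vertex `i` to the next one -/
def ed (n : ℕ) (v : ℕ → ℝ × ℝ) (i : ℕ) : ℝ × ℝ := v (nx n i) - v i

/-- a counterclockwise simple polygon in general position -/
structure PG (n : ℕ) (v : ℕ → ℝ × ℝ) : Prop where
  simple : IsSimplePolygon n v
  ccw : CCW n v
  gen : Gen n v

/-- the interior of a polygon -/
abbrev inn (n : ℕ) (v : ℕ → ℝ × ℝ) : Set (ℝ × ℝ) := Pool.Agent.H75.PolyJ.inner n v

/-- a point on no line through two vertices -/
def GP (n : ℕ) (v : ℕ → ℝ × ℝ) (p : ℝ × ℝ) : Prop :=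
  ∀ i < n, ∀ j < n, i ≠ j → orient (v i) (v j) p ≠ 0

/-- the open segment from `p` to `q` is inside -/
def See (n : ℕ) (v : ℕ → ℝ × ℝ) (p q : ℝ × ℝ) : Prop :=
  ∀ z ∈ openSegment ℝ p q, z ∈ inn n v

/-- the vertices `i < j` are joined by a diagonal -/
structure Dg (n : ℕ) (v : ℕ → ℝ × ℝ) (i j : ℕ) : Prop where
  lt : i + 2 ≤ j
  ltn : j < n
  nl : ¬ (i = 0 ∧ j + 1 = n)
  see : See n v (v i) (v j)

/-- the vertices `i < j` are joined by an edge or a diagonal -/
def Ed (n : ℕ) (v : ℕ → ℝ × ℝ) (i j : ℕ) : Prop :=
  (j < n ∧ (j = i + 1 ∨ (i = 0 ∧ j + 1 = n))) ∨ Dg n v i j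

/-- the part `i, i + 1, …, j` (with `j - i + 1` vertices) -/
def arc (v : ℕ → ℝ × ℝ) (i : ℕ) : ℕ → ℝ × ℝ := fun k => v (i + k)

/-- the part `0, …, i, j, …, n - 1` (with `n - (j - i) + 1` vertices) -/
def co (v : ℕ → ℝ × ℝ) (i j : ℕ) : ℕ → ℝ × ℝ := fun k => if k ≤ i then v k else v (k + (j - i) - 1)

/-- the index in `v` of the vertex `k` of `co v i j` -/
def cx (i j k : ℕ) : ℕ := if k ≤ i then k else k + (j - i) - 1

/-- the index in `co v i j` of the vertex `m` of `v` (`m ≤ i` or `j ≤ m`) -/
def cy (i j m : ℕ) : ℕ := if m ≤ i then m else m - (j - i) + 1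

/-- the reflection `(x, y) ↦ (-x, y)` -/
def mr (p : ℝ × ℝ) : ℝ × ℝ := (-p.1, p.2)

/-- the mirror image of a polygon, again counterclockwise, `0` stays `0` -/
def mir (n : ℕ) (v : ℕ → ℝ × ℝ) : ℕ → ℝ × ℝ := fun k => mr (v ((n - k) % n))

/-- a pseudo-triangle with the corners `0 < α < β` -/
structure PT (n α β : ℕ) (v : ℕ → ℝ × ℝ) : Prop where
  pg : PG n v
  h0 : 0 < α
  h1 : α < β
  h2 : β < n
  c0 : 0 < tn n v 0
  c1 : 0 < tn n v α
  c2 : 0 < tn n v β
  rf : ∀ i < n, i ≠ 0 → i ≠ α → i ≠ β → tn n v i < 0

/-- the states of a floodlight: off; used only to the right of the line of the previous edge;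
used only to the right of the line of the next edge; at a convex vertex; a half-plane with the
boundary direction `d` (left of `d`) -/
inductive St where
  | off : St
  | N : St
  | P : St
  | K : St
  | H : ℝ × ℝ → St

/-- the points for which a light is used -/
def Use (n : ℕ) (v : ℕ → ℝ × ℝ) (i : ℕ) : St → ℝ × ℝ → Prop
  | St.off, _ => False
  | St.N, p => orient (v (pv n i)) (v i) p < 0
  | St.P, p => orient (v i) (v (nx n i)) p < 0
  | St.K, _ => True
  | St.H d, p => 0 < cr d (p - v i)

/-- admissible states -/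
def Ok (n : ℕ) (v : ℕ → ℝ × ℝ) (i : ℕ) : St → Prop
  | St.off => True
  | St.N => tn n v i < 0
  | St.P => tn n v i < 0
  | St.K => 0 < tn n v i
  | St.H d => d ≠ 0 ∧ tn n v i < 0 ∧ 0 ≤ cr (ed n v i) d ∧ 0 ≤ cr d (v i - v (pv n i))

/-- the states light every generic point -/
def Cov (n : ℕ) (v : ℕ → ℝ × ℝ) (σ : ℕ → St) : Prop :=
  ∀ p ∈ inn n v, GP n v p → ∃ i < n, Use n v i (σ i) p ∧ See n v p (v i)

open Classical in
/-- the number of lights -/
noncomputable def cnt (n : ℕ) (σ : ℕ → St) : ℕ := ((Finset.range n).filter fun i => σ i ≠ St.off).card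

/-- A system of covers with the slots `ι`, open at the edges `X` (the edge `i` goes from `i` to the
next vertex). `R i`: the slots in which the vertex `i` may serve across its next edge, `L i`: the
slots in which it may serve across its previous edge. -/
structure Sys (ι : Type) (n : ℕ) (v : ℕ → ℝ × ℝ) (X : ℕ → Prop) (R L : ℕ → Finset ι)
    (σ : ι → ℕ → St) : Prop where
  ok : ∀ s, ∀ i < n, Ok n v i (σ s i)
  cov : ∀ s, Cov n v (σ s)
  rin : ∀ i < n, X i → ∀ s ∈ R i, σ s i = St.off ∨ σ s i = St.N ∨ σ s i = St.K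
  rout : ∀ i < n, X i → 0 < tn n v i → ∀ s ∉ R i, σ s i = St.off
  lin : ∀ i < n, X i → ∀ s ∈ L (nx n i), σ s (nx n i) = St.off ∨ σ s (nx n i) = St.P ∨
    σ s (nx n i) = St.K
  lout : ∀ i < n, X i → 0 < tn n v (nx n i) → ∀ s ∉ L (nx n i), σ s (nx n i) = St.off
  de : ∀ i < n, X i → Disjoint (R i) (L (nx n i))
  dv : ∀ i < n, X i → X (pv n i) → tn n v i < 0 → Disjoint (R i) (L i)
  dk : ∀ i < n, X i → X (pv n i) → 0 < tn n v i → R i = L i

/-- the edge `i` is on one of the two chains at the vertex `0` -/
def Op (n : ℕ) (v : ℕ → ℝ × ℝ) (i : ℕ) : Prop :=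
  (∀ m, 0 < m → m ≤ i → tn n v m < 0) ∨ (∀ m, i < m → m < n → tn n v m < 0)

open Classical in
/-- the number of convex vertices -/
noncomputable def kc (n : ℕ) (v : ℕ → ℝ × ℝ) : ℕ := ((Finset.range n).filter fun i => 0 < tn n v i).card

/-- a vector as a complex number -/
def tC (p : ℝ × ℝ) : ℂ := ⟨p.1, p.2⟩

/-- the exterior angle at the vertex `i` -/
noncomputable def tau (n : ℕ) (v : ℕ → ℝ × ℝ) (i : ℕ) : ℝ :=
  Complex.arg (tC (v (nx n i) - v i) / tC (v i - v (pv n i)))

/-- a core triangle `i < j < k` of a pseudo-triangle: one vertex inside every chain -/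
structure Core (n α β i j k : ℕ) (v : ℕ → ℝ × ℝ) : Prop where
  pt : PT n α β v
  i0 : 0 < i
  i1 : i < α
  j0 : α < j
  j1 : j < β
  k0 : β < k
  k1 : k < n
  dij : Dg n v i j
  djk : Dg n v j k
  dik : Dg n v i k

/-- the covers `S` of the three corners -/
def sS0 (α β : ℕ) : ℕ → St := fun m =>
  if m = 0 then St.K else if m < α then St.N else if m ≤ β then St.off else St.P

def sS1 (α β : ℕ) : ℕ → St := fun m =>
  if m = α then St.K else if m = 0 then St.off else if m < α then St.P else
    if m < β then St.N else St.off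

def sS2 (α β : ℕ) : ℕ → St := fun m =>
  if m = β then St.K else if m ≤ α then St.off else if m < β then St.P else St.N

/-- the covers `E` of the three corners for the core vertices `i0, j0, k0` -/
def sE0 (α β j0 k0 : ℕ) (y : St) : ℕ → St := fun m =>
  if m = 0 then St.K else if m < α then St.N else if m = α then St.off else
    if m < β then (if m < j0 then St.off else if m = j0 then y else St.N) else
      if m < k0 then St.off else St.P

def sE1 (α β k0 i0 : ℕ) (z : St) : ℕ → St := fun m =>
  if m = α then St.K else if m < i0 then St.off else if m < α then St.P else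
    if m < β then St.N else if m < k0 then St.off else if m = k0 then z else St.N

def sE2 (α β i0 j0 : ℕ) (x : St) : ℕ → St := fun m =>
  if m = β then St.K else if m < i0 then St.off else
    if m < α then (if m = i0 then x else St.N) else if m < j0 then St.off else
      if m < β then St.P else St.N

/-- the mirror images of the covers `E` -/
def sF0 (α β i0 j0 : ℕ) (y : St) : ℕ → St := fun m =>
  if m = 0 then St.K else if m ≤ i0 then St.N else if m ≤ α then St.off else
    if m < j0 then St.P else if m = j0 then y else if m ≤ β then St.off else St.P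

def sF1 (α β j0 k0 : ℕ) (z : St) : ℕ → St := fun m =>
  if m = α then St.K else if m = 0 then St.off else if m < α then St.P else
    if m ≤ j0 then St.N else if m ≤ β then St.off else if m < k0 then St.P else
      if m = k0 then z else St.off

def sF2 (α β k0 i0 : ℕ) (x : St) : ℕ → St := fun m =>
  if m = β then St.K else if m = 0 then St.off else if m < i0 then St.P else
    if m = i0 then x else if m ≤ α then St.off else if m < β then St.P else
      if m ≤ k0 then St.N else St.off

/-- the covers `D` -/
def sDF (α β i0 j0 k0 : ℕ) (x y z : St) : ℕ → St := fun m =>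
  if m < α then (if m < i0 then St.off else if m = i0 then x else St.N) else
    if m < β then (if m < j0 then St.off else if m = j0 then y else St.N) else
      if m < k0 then St.off else if m = k0 then z else St.N

def sDE (α β i0 j0 k0 : ℕ) (x y z : St) : ℕ → St := fun m =>
  if m = 0 then St.off else if m < i0 then St.P else if m = i0 then x else
    if m ≤ α then St.off else if m < j0 then St.P else if m = j0 then y else
      if m ≤ β then St.off else if m < k0 then St.P else if m = k0 then z else St.off

/-- the covers `D` of a corner `0` which sees the vertex `j0` of the opposite chain -/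
def sK1 (α β j0 : ℕ) (y : St) : ℕ → St := fun m =>
  if m = 0 then St.K else if m < α then St.N else if m < j0 then St.off else if m = j0 then y else
    if m < β then St.N else St.off

def sK2 (α β j0 : ℕ) (y : St) : ℕ → St := fun m =>
  if m = 0 then St.K else if m ≤ α then St.off else if m < j0 then St.P else
    if m = j0 then y else if m ≤ β then St.off else St.P

/-- glued data: open edges and right patterns -/
def gE {γ : Type} (i j : ℕ) (a c : ℕ → γ) : ℕ → γ := fun m =>
  if m < i then c m else if m < j then a (m - i) else c (m - (j - i) + 1)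

/-- glued data: left patterns -/
def gL {γ : Type} (i j : ℕ) (a c : ℕ → γ) : ℕ → γ := fun m =>
  if m ≤ i then c m else if m ≤ j then a (m - i) else c (m - (j - i) + 1)

/-- a first diagonal, seen from the convex vertex `0` -/
structure FDc (n : ℕ) (v : ℕ → ℝ × ℝ) (i j : ℕ) : Prop where
  dg : Dg n v i j
  ch : ∀ m, 0 < m → m ≤ i → tn n v m < 0
  ri : i = 0 ∨ orient (v (i - 1)) (v i) (v j) < 0
  pj : 0 < tn n v j ∨ orient (v (j - 1)) (v j) (v i) < 0 ∨ orient (v i) (v j) (v (nx n j)) < 0

/-- the covers `D` of the corner `α` which sees the vertex `k0` of the opposite chain -/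
def sK1b (α β k0 : ℕ) (z : St) : ℕ → St := fun m =>
  if m = α then St.K else if m < α then St.off else if m < β then St.N else
    if m < k0 then St.off else if m = k0 then z else St.N

def sK2b (α β k0 : ℕ) (z : St) : ℕ → St := fun m =>
  if m = α then St.K else if m = 0 then St.off else if m < α then St.P else
    if m ≤ β then St.off else if m < k0 then St.P else if m = k0 then z else St.off

/-- the covers `D` of the corner `β` which sees the vertex `i0` of the opposite chain -/
def sK1c (α β i0 : ℕ) (x : St) : ℕ → St := fun m =>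
  if m = β then St.K else if m < i0 then St.off else if m = i0 then x else
    if m < α then St.N else if m < β then St.off else St.N

def sK2c (α β i0 : ℕ) (x : St) : ℕ → St := fun m =>
  if m = β then St.K else if m = 0 then St.off else if m < i0 then St.P else
    if m = i0 then x else if m ≤ α then St.off else if m < β then St.P else St.off

/-- the trades: the corner `0` instead of the first vertex, or instead of the last vertex -/
def sT1 (α β : ℕ) : ℕ → St := fun m =>
  if m = 0 then St.K else if m = α then St.K else if m = 1 then St.off else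
    if m < α then St.P else if m < β then St.N else St.off

def sT2 (n α β : ℕ) : ℕ → St := fun m =>
  if m = 0 then St.K else if m = β then St.K else if m + 1 = n then St.off else
    if m ≤ α then St.off else if m < β then St.P else St.N

/-- the apex `0`, the first convex vertex `b` after it and the last convex vertex `c` -/
structure Ap (n b c : ℕ) (v : ℕ → ℝ × ℝ) : Prop where
  pg : PG n v
  hb : 0 < b
  hbc : b < c
  hc : c < n
  c0 : 0 < tn n v 0
  cb : 0 < tn n v b
  cc : 0 < tn n v c
  rb : ∀ m, 0 < m → m < b → tn n v m < 0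
  rc : ∀ m, c < m → m < n → tn n v m < 0

open Classical in
/-- the number of slots of `S` in which the vertex `i` is lit -/
noncomputable def lc {ι : Type} (σ : ι → ℕ → St) (S : Finset ι) (i : ℕ) : ℕ :=
  (S.filter fun s => σ s i ≠ St.off).card

/-- the contract for 14 slots (note 4555 of helper62) -/
def Con14 (n b c : ℕ) (v : ℕ → ℝ × ℝ) : Prop :=
  ∃ (R L : ℕ → Finset (Fin 14)) (σ : Fin 14 → ℕ → St),
    Sys (Fin 14) n v (fun m => m < b ∨ c ≤ m) R L σ ∧
    (∀ i < n, (i < b ∨ c ≤ i) → (R i).card = 6 ∧ 4 ≤ lc σ (R i) i ∧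
      (L (nx n i)).card = 6 ∧ 4 ≤ lc σ (L (nx n i)) (nx n i)) ∧
    5 ≤ lc σ (R 0) 0 ∧ (2 ≤ b → 5 ≤ lc σ (R (b - 1)) (b - 1)) ∧
    (c + 2 ≤ n → 5 ≤ lc σ (L (c + 1)) (c + 1)) ∧
    (∑ s, cnt n (σ s)) + (if b = 1 ∨ c + 1 = n then 3 else 0) ≤ 9 * (n - 1)

end Pool.Agent.FL
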