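import Pool.Agent.FL.Sect
import Pool.Agent.H81.FL.Ear

/-! MP_8a5d4f_co, project FL, row FL-7 -/

set_option autoImplicit false

namespace Pool.Agent.FL

open Set Filter Topology Pool.Agent.H54.Fl Pool.Agent.H75.PolyJ Pool.Agent.H95.Poly

section diag

variable {n : ℕ} {v : ℕ → ℝ × ℝ}

/-- the region is to the right of every vertical line to the left of the vertices -/
theorem fl7_left (hn : 0 < n) {m : ℝ} (hm : ∀ k < n, m ≤ (v k).1) {p : ℝ × ℝ} (hp : p.1 < m) :
    p ∉ region n v := by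
  intro h
  have hconv : Convex ℝ {q : ℝ × ℝ | q.1 < m} := by
    intro a ha b hb s t hs ht hst
    have ha' : a.1 < m := ha
    have hb' : b.1 < m := hb
    show s * a.1 + t * b.1 < m
    rcases hs.eq_or_lt with h1 | h1
    · have : t = 1 := by linarith
      subst h1 this
      linarith
    · have h2 : s * m + t * m = m := by rw [← add_mul, hst, one_mul]
      have h3 := mul_lt_mul_of_pos_left ha' h1
      have h4 := mul_le_mul_of_nonneg_left hb'.le ht
      linarith
  have hconn : IsConnected {q : ℝ × ℝ | q.1 < m} := ⟨⟨p, hp⟩, hconv.isPreconnected⟩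
  have hdis : Disjoint {q : ℝ × ℝ | q.1 < m} (curve n v) := by
    rw [Set.disjoint_left]
    rintro q hq ⟨k, hk, hqk⟩
    obtain ⟨s, t, hs, ht, hst, rfl⟩ := hqk
    have h1 := hm k hk
    have h2 := hm (nx n k) (nx_lt hn k)
    have hq' : s * (v k).1 + t * (v (nx n k)).1 < m := hq
    have h3 : s * m + t * m = m := by rw [← add_mul, hst, one_mul]
    have h4 := mul_le_mul_of_nonneg_left h1 hs
    have h5 := mul_le_mul_of_nonneg_left h2 ht
    linarith
  have hb := h _ hconn hp hdis
  obtain ⟨C, hC⟩ := isBounded_iff_forall_norm_le.1 hb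
  have h1 := hC (p.1 - |p.1| - |C| - 1, p.2) (by
    show p.1 - |p.1| - |C| - 1 < m
    have := abs_nonneg p.1
    have := abs_nonneg C
    linarith)
  have h2 : |p.1 - |p.1| - |C| - 1| ≤ C := (norm_fst_le (p.1 - |p.1| - |C| - 1, p.2)).trans h1
  have h3 := neg_abs_le (p.1 - |p.1| - |C| - 1)
  have h4 := le_abs_self p.1
  have h5 := le_abs_self C
  linarith

theorem exists_convex (P : PG n v) : ∃ i < n, 0 < tn n v i := by
  have hn := pos P.simple
  obtain ⟨i, hi, hmin⟩ := Finset.exists_min_image (Finset.range n) (fun k => (v k).1)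
    ⟨0, Finset.mem_range.2 hn⟩
  rw [Finset.mem_range] at hi
  have hmin' : ∀ k < n, (v i).1 ≤ (v k).1 := fun k hk => hmin k (Finset.mem_range.2 hk)
  refine ⟨i, hi, ?_⟩
  by_contra hcon
  have hneg : tn n v i < 0 := lt_of_le_of_ne (not_lt.1 hcon) (tn_ne P hi)
  have hu := hmin' _ (pv_lt hn i)
  have hw := hmin' _ (nx_lt hn i)
  obtain ⟨s, hs⟩ : ∃ s : ℝ, 0 < orient (v (pv n i)) (v i) (v i + ((-1 : ℝ), s)) ∨
      0 < orient (v i) (v (nx n i)) (v i + ((-1 : ℝ), s)) := by
    rcases hw.lt_or_eq with h1 | h1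
    · have h2 : 0 < (v (nx n i)).1 - (v i).1 := by linarith
      refine ⟨(1 - ((v (nx n i)).2 - (v i).2)) / ((v (nx n i)).1 - (v i).1), Or.inr ?_⟩
      have h3 : orient (v i) (v (nx n i)) (v i + ((-1 : ℝ),
          (1 - ((v (nx n i)).2 - (v i).2)) / ((v (nx n i)).1 - (v i).1))) = 1 := by
        unfold orient
        simp only [Prod.fst_add, Prod.snd_add]
        field_simp
        ring
      rw [h3]
      exact one_pos
    · rcases hu.lt_or_eq with h2 | h2
      · have h3 : (v i).1 - (v (pv n i)).1 < 0 := by linarith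
        have h3' := h3.ne
        refine ⟨(1 - ((v i).2 - (v (pv n i)).2)) / ((v i).1 - (v (pv n i)).1), Or.inl ?_⟩
        have h4 : orient (v (pv n i)) (v i) (v i + ((-1 : ℝ),
            (1 - ((v i).2 - (v (pv n i)).2)) / ((v i).1 - (v (pv n i)).1))) = 1 := by
          unfold orient
          simp only [Prod.fst_add, Prod.snd_add]
          field_simp
          ring
        rw [h4]
        exact one_pos
      · exfalso
        unfold tn orient at hneg
        rw [← h1, ← h2] at hneg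
        simp at hneg
  have hst := start_in P hi (p := v i + ((-1 : ℝ), s)) (Or.inr ⟨hneg, hs⟩)
  obtain ⟨t, ht, ht0⟩ := (hst.and self_mem_nhdsWithin).exists
  have ht0' : 0 < t := ht0
  refine fl7_left hn hmin' (p := v i + t • (v i + ((-1 : ℝ), s) - v i)) ?_
    (inner_subset_region P.simple ht)
  have h5 : (v i + t • (v i + ((-1 : ℝ), s) - v i)).1 = (v i).1 - t := by
    simp
    ring
  rw [h5]
  linarith

/-- two vertices which see each other and are not adjacent give a diagonal -/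
theorem fl7_dg {a b : ℕ} (ha : a < n) (hb : b < n) (hab : a ≠ b) (h1 : b ≠ nx n a)
    (h2 : b ≠ pv n a) (hs : See n v (v a) (v b)) : ∃ i j, Dg n v i j := by
  have hs' : See n v (v b) (v a) := by
    intro z hz
    rw [openSegment_symm] at hz
    exact hs z hz
  rcases nx_cases ha with ⟨c1, c2⟩ | ⟨c1, c2⟩ <;> rcases pv_cases ha with ⟨d1, d2⟩ | ⟨d1, d2⟩ <;>
    rcases lt_or_gt_of_ne hab with hlt | hlt
  all_goals first
    | exact ⟨a, b, by omega, by omega, by omega, hs⟩
    | exact ⟨b, a, by omega, by omega, by omega, hs'⟩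

theorem exists_diag (P : PG n v) (hn : 4 ≤ n) : ∃ i j, Dg n v i j := by
  obtain ⟨j, hj, hD⟩ := exists_convex P
  have hn0 := pos P.simple
  rcases Pool.Agent.H81.FL.ear P.simple P.ccw P.gen hn hj hD with h | ⟨z, hz, z1, z2, z3, h, -⟩
  · refine fl7_dg (pv_lt hn0 j) (nx_lt hn0 j) ?_ ?_ ?_ h
    · rcases pv_cases hj with ⟨a1, a2⟩ | ⟨a1, a2⟩ <;>
        rcases nx_cases hj with ⟨b1, b2⟩ | ⟨b1, b2⟩ <;> omega
    · rw [nx_pv hj]
      exact nx_ne P.simple hj
    · have hp := pv_lt hn0 j
      rcases pv_cases hj with ⟨a1, a2⟩ | ⟨a1, a2⟩ <;>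
        rcases nx_cases hj with ⟨b1, b2⟩ | ⟨b1, b2⟩ <;>
        rcases pv_cases hp with ⟨c1, c2⟩ | ⟨c1, c2⟩ <;> omega
  · exact fl7_dg hj hz (Ne.symm z1) z3 z2 h

end diag

end Pool.Agent.FL
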