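import Pool.Agent.FL.Turn
import Pool.Agent.FL.SplitIJ

/-! MP_8a5d4f_co, project FL, row FL-14 -/

set_option autoImplicit false

namespace Pool.Agent.FL

open Set Filter Topology Pool.Agent.H54.Fl Pool.Agent.H75.PolyJ Pool.Agent.H95.Poly

section ex

variable {n : ℕ} {v : ℕ → ℝ × ℝ} {α β : ℕ}

/-- the curve of `co`: the diagonal and edges of the polygon -/
theorem fl14_curve_co {j k : ℕ} (hjk : j < k) (hk : k < n) {z : ℝ × ℝ}
    (hz : z ∈ curve (n - (k - j) + 1) (co v j k)) :
    z ∈ segment ℝ (v j) (v k) ∨ ∃ l < n, (l < j ∨ k ≤ l) ∧ z ∈ edge n v l := by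
  obtain ⟨l, hl, hz⟩ := hz
  unfold edge at hz
  rcases lt_trichotomy l j with h | h | h
  · right
    refine ⟨l, by omega, Or.inl h, ?_⟩
    unfold edge
    rw [Nat.mod_eq_of_lt (by omega : l + 1 < n - (k - j) + 1)] at hz
    rw [Nat.mod_eq_of_lt (by omega : l + 1 < n)]
    simpa [co, show l ≤ j by omega, show l + 1 ≤ j by omega] using hz
  · left
    subst h
    rw [Nat.mod_eq_of_lt (by omega)] at hz
    simpa [co, show ¬ (l + 1 ≤ l) by omega, show l + 1 + (k - l) - 1 = k by omega] using hz
  · right
    refine ⟨l + (k - j) - 1, by omega, Or.inr (by omega), ?_⟩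
    unfold edge
    by_cases h2 : l + 1 < n - (k - j) + 1
    · rw [Nat.mod_eq_of_lt h2] at hz
      rw [Nat.mod_eq_of_lt (by omega : l + (k - j) - 1 + 1 < n)]
      have e : l + 1 + (k - j) - 1 = l + (k - j) - 1 + 1 := by omega
      simpa [co, show ¬ l ≤ j by omega, show ¬ l + 1 ≤ j by omega, e] using hz
    · have e : l + 1 = n - (k - j) + 1 := by omega
      have e2 : l + (k - j) - 1 + 1 = n := by omega
      rw [e, Nat.mod_self] at hz
      rw [e2, Nat.mod_self]
      simpa [co, show ¬ l ≤ j by omega] using hz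

/-- the part cut off around the corner `β` is a pseudo-triangle -/
theorem fl14_pt (T : PT n α β v) {j k : ℕ} (hj : α ≤ j) (hj2 : j < β) (hk : β < k)
    (D : Dg n v j k) : PT (k - j + 1) (β - j) (k - j) (arc v j) := by
  have hkn := D.ltn
  have hP := D.arc_pg T.pg
  have hsub : ∀ i < k - j + 1, i ≠ 0 → i ≠ β - j → i ≠ k - j →
      tn (k - j + 1) (arc v j) i < 0 := by
    intro i hi h0 h1 h2
    have e := tn_arc_mid (v := v) (i := j) (j := k) hkn (m := i + j) (by omega) (by omega)
    rw [Nat.add_sub_cancel] at e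
    rw [e]
    exact T.rf (i + j) (by omega) (by omega) (by omega) (by omega)
  have key : ∀ a, (a = 0 ∨ a = k - j) → 0 < tn (k - j + 1) (arc v j) a := by
    intro a ha
    by_contra hneg
    have h3 := three_le_kc hP
    unfold kc at h3
    classical
    have h4 : ((Finset.range (k - j + 1)).filter
        fun i => 0 < tn (k - j + 1) (arc v j) i) ⊆ ({0, β - j, k - j} : Finset ℕ).erase a := by
      intro i hi
      rw [Finset.mem_filter, Finset.mem_range] at hi
      rw [Finset.mem_erase]
      refine ⟨fun e => hneg (e ▸ hi.2), ?_⟩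
      by_contra h
      simp only [Finset.mem_insert, Finset.mem_singleton, not_or] at h
      exact absurd hi.2 (not_lt.2 (hsub i hi.1 h.1 h.2.1 h.2.2).le)
    have h5 : (({0, β - j, k - j} : Finset ℕ).erase a).card ≤ 2 := by
      rw [Finset.card_erase_of_mem (by rcases ha with rfl | rfl <;> simp)]
      have := Finset.card_le_three (a := 0) (b := β - j) (c := k - j)
      omega
    have h6 := Finset.card_le_card h4
    have h7 : ((Finset.range (k - j + 1)).filter
        fun i => 0 < tn (k - j + 1) (arc v j) i).card ≤ 2 := h6.trans h5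
    have h8 : 3 ≤ ((Finset.range (k - j + 1)).filter
        fun i => 0 < tn (k - j + 1) (arc v j) i).card := by
      convert h3
    omega
  refine ⟨hP, by omega, by omega, by omega, key 0 (Or.inl rfl), ?_, key _ (Or.inr rfl), hsub⟩
  rw [tn_arc_mid hkn hj2 hk]
  exact T.c2

theorem fl14_id (p a b c x y : ℝ × ℝ) :
    (orient x y b - orient x y p) * orient a b c =
      orient b c p * cr (b - a) (x - y) - orient a b p * cr (c - b) (x - y) := by
  unfold orient cr
  simp only [Prod.fst_sub, Prod.snd_sub]
  ring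

/-- beyond the chord `j k` no vertex of the last chain is used from this side -/
theorem PT.ex (T : PT n α β v) {j k : ℕ} (hj : α ≤ j) (hj2 : j < β) (hk : β < k) (D : Dg n v j k)
    {p : ℝ × ℝ} (hp : p ∈ inn n v) (hg : GP n v p) (hq : p ∉ region (k - j + 1) (arc v j))
    {m : ℕ} (hm : β < m) (hm2 : m < k) (hs : See n v p (v m)) :
    0 < orient (v m) (v (nx n m)) p := by
  have P := T.pg
  have hkn := D.ltn
  have hmn : m < n := by omega
  have hnx : nx n m = m + 1 := Nat.mod_eq_of_lt (by omega)
  have hpv : pv n m = m - 1 := by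
    rcases pv_cases hmn with ⟨_, h⟩ | ⟨h, _⟩
    · exact h
    · omega
  have hpm : orient (v m) (v (nx n m)) p ≠ 0 := by
    rw [hnx]
    exact hg m hmn (m + 1) (by omega) (by omega)
  by_contra hneg
  have hneg' : orient (v m) (v (nx n m)) p < 0 := lt_of_le_of_ne (not_lt.1 hneg) hpm
  have htm : tn n v m < 0 := T.rf m hmn (by omega) (by have := T.h1; omega) (by omega)
  have h1 : 0 < orient (v (pv n m)) (v m) p := by
    rcases see_sector_gp P hmn hg hs.symm with ⟨h, _⟩ | ⟨_, h | h⟩
    · linarith
    · exact h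
    · exact absurd h hneg
  -- the turning angles of the part
  have Q := fl14_pt T hj hj2 hk D
  have q1 := Q.t2 (i := m - 1 - j) (j := k - j)
    (Or.inr (Or.inl ⟨by omega, by omega, le_rfl, by omega⟩))
  have q2 := Q.t2 (i := m - j) (j := k - j)
    (Or.inr (Or.inl ⟨by omega, by omega, le_rfl, by omega⟩))
  have e1 : ed (k - j + 1) (arc v j) (m - 1 - j) = v m - v (m - 1) := by
    unfold ed arc nx
    rw [Nat.mod_eq_of_lt (by omega), show j + (m - 1 - j + 1) = m by omega,
      show j + (m - 1 - j) = m - 1 by omega]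
  have e2 : ed (k - j + 1) (arc v j) (m - j) = v (m + 1) - v m := by
    unfold ed arc nx
    rw [Nat.mod_eq_of_lt (by omega), show j + (m - j + 1) = m + 1 by omega,
      show j + (m - j) = m by omega]
  have e3 : ed (k - j + 1) (arc v j) (k - j) = v j - v k := by
    unfold ed arc nx
    rw [Nat.mod_self, add_zero, show j + (k - j) = k by omega]
  rw [e1, e3] at q1
  rw [e2, e3] at q2
  rw [hnx] at hneg'
  rw [hpv] at h1
  unfold tn at htm
  rw [hpv, hnx] at htm
  have hid := fl14_id p (v (m - 1)) (v m) (v (m + 1)) (v j) (v k)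
  have hlt : orient (v j) (v k) p < orient (v j) (v k) (v m) := by
    by_contra hge
    have a1 : 0 ≤ (orient (v j) (v k) (v m) - orient (v j) (v k) p) *
        orient (v (m - 1)) (v m) (v (m + 1)) :=
      mul_nonneg_of_nonpos_of_nonpos (by linarith) htm.le
    have a2 := mul_neg_of_neg_of_pos hneg' q1
    have a3 := mul_pos h1 q2
    linarith
  -- the segment from `p` to the vertex crosses the diagonal
  have Pc := D.co_pg P
  have hpc : p ∈ inn (n - (k - j) + 1) (co v j k) := by
    rcases D.inner_or_gp P hp hg with h | h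
    · exact absurd (inner_subset_region (D.arc_pg P).simple h) hq
    · exact h
  have hvc : v m ∈ curve n v := ⟨m, hmn, left_mem_segment ℝ _ _⟩
  have hvm : v m ∉ region (n - (k - j) + 1) (co v j k) := by
    intro h
    rw [region_eq Pc.simple] at h
    rcases h with h | h
    · rcases fl14_curve_co (by omega) hkn h with h | ⟨l, hl, hl2, h⟩
      · exact P.gen j (by omega) k hkn m hmn (by omega) (by omega) (by omega) (orient_of_mem h)
      · rcases vertex_mem_edge P.simple hmn hl h with h | h
        · omega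
        · rw [hpv] at h
          omega
    · exact (D.inner_co P h).1 hvc
  obtain ⟨z, hz1, hz2⟩ : ∃ z ∈ openSegment ℝ p (v m), z ∈ curve (n - (k - j) + 1) (co v j k) := by
    by_contra hne
    push Not at hne
    exact hvm (see_region Pc (see_of_inner Pc hpc hne) (right_mem_segment ℝ _ _))
  have hmem : ∀ y ∈ inn n v, y ∈ curve (n - (k - j) + 1) (co v j k) →
      y ∈ segment ℝ (v j) (v k) := by
    intro y hy hyc
    rcases fl14_curve_co (by omega) hkn hyc with h | ⟨l, hl, _, h⟩
    · exact h
    · exact absurd ⟨l, hl, h⟩ hy.1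
  have hzi := hs z hz1
  have hzs := hmem z hzi hz2
  have hz0 := orient_of_mem hzs
  have hp0 : orient (v j) (v k) p ≠ 0 := hg j (by omega) k hkn (by omega)
  have hzo : z ∈ openSegment ℝ (v j) (v k) := by
    refine mem_openSegment_of_ne_left_right ?_ ?_ hzs
    · intro e
      exact hzi.1 (e ▸ ⟨j, by omega, left_mem_segment ℝ _ _⟩)
    · intro e
      exact hzi.1 (e ▸ ⟨k, hkn, left_mem_segment ℝ _ _⟩)
  have hpz : p ≠ z := by
    rintro rfl
    exact hp0 hz0
  have hsee : See (n - (k - j) + 1) (co v j k) p z := by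
    refine see_of_inner Pc hpc fun y hy hyc => ?_
    have hyi : y ∈ inn n v := by
      apply hs
      obtain ⟨a, b, ha, hb, hab, rfl⟩ := hz1
      obtain ⟨c, d, hc, hd, hcd, rfl⟩ := hy
      refine ⟨c + d * a, d * b, by positivity, by positivity, by nlinarith, ?_⟩
      rw [smul_add, smul_smul, smul_smul, add_smul, add_assoc]
    have hy0 := orient_of_mem (hmem y hyi hyc)
    obtain ⟨c, d, hc, hd, hcd, rfl⟩ := hy
    rw [orient_comb _ _ _ _ hcd, hz0, mul_zero, add_zero] at hy0
    exact (mul_ne_zero hc.ne' hp0) hy0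
  have hjn : nx (n - (k - j) + 1) j = j + 1 := Nat.mod_eq_of_lt (by omega)
  have c1 : co v j k j = v j := by simp [co]
  have c2 : co v j k (j + 1) = v k := by
    simp [co, show j + 1 + (k - j) - 1 = k by omega]
  have hl := left_of_hit Pc (k := j) (by omega) (p := p) (x := z) (by rw [hjn, c1, c2]; exact hzo)
    hpz hsee
  rw [hjn, c1, c2] at hl
  have hpp : 0 < orient (v j) (v k) p := lt_of_le_of_ne hl hp0.symm
  obtain ⟨a, b, ha, hb, hab, rfl⟩ := hz1
  rw [orient_comb _ _ _ _ hab] at hz0
  have := mul_pos ha hpp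
  have := mul_pos hb (hpp.trans hlt)
  linarith

end ex

end Pool.Agent.FL
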