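import Pool.Agent.FL.Half
import Pool.Agent.FL.Ex
import Pool.Agent.FL.Parts
import Pool.Agent.FL.Gv

/-! MP_8a5d4f_co, project FL, row FL-18 -/

set_option autoImplicit false

namespace Pool.Agent.FL

open Set Filter Topology Pool.Agent.H54.Fl Pool.Agent.H75.PolyJ Pool.Agent.H95.Poly

section ecov

variable {n : ℕ} {v : ℕ → ℝ × ℝ} {α β i j k : ℕ}

theorem Core.cE0 (C : Core n α β i j k v) : Cov n v (sE0 α β j k (St.H (ed n v j))) := by
  have T := C.pt
  have h0 := T.h0
  have h1 := T.h1
  have h2 := T.h2
  have i0 := C.i0
  have i1 := C.i1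
  have j0 := C.j0
  have j1 := C.j1
  have k0 := C.k0
  have k1 := C.k1
  intro p hp hg
  by_cases hq : p ∈ inn (k - j + 1) (arc v j)
  · -- inside the arm around the corner `β`
    rcases (T.half2 j0.le j1 k0 C.djk hq hg).1 with ⟨hs, ho⟩ | ⟨m, hm1, hm2, hs, ho⟩
    · refine ⟨j, by omega, ?_, hs⟩
      have e1 : sE0 α β j k (St.H (ed n v j)) j = St.H (ed n v j) := by
        unfold sE0
        rw [if_neg (by omega), if_neg (by omega), if_neg (by omega), if_pos (by omega),
          if_neg (by omega), if_pos rfl]
      rw [e1]
      have e2 : nx n j = j + 1 := by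
        unfold nx
        exact Nat.mod_eq_of_lt (by omega)
      show 0 < cr (ed n v j) (p - v j)
      unfold ed cr
      rw [e2]
      unfold orient at ho
      simp only [Prod.fst_sub, Prod.snd_sub]
      linarith
    · refine ⟨m, by omega, ?_, hs⟩
      have e1 : sE0 α β j k (St.H (ed n v j)) m = St.N := by
        unfold sE0
        rw [if_neg (by omega), if_neg (by omega), if_neg (by omega), if_pos (by omega),
          if_neg (by omega), if_neg (by omega)]
      rw [e1]
      have e2 : pv n m = m - 1 := by
        unfold pv
        rw [show m + (n - 1) = (m - 1) + n by omega, Nat.add_mod_right]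
        exact Nat.mod_eq_of_lt (by omega)
      show orient (v (pv n m)) (v m) p < 0
      rw [e2]
      exact ho
  · -- outside: the cover `S`
    have hq' : p ∉ region (k - j + 1) (arc v j) := by
      rcases C.djk.inner_or_gp T.pg hp hg with h | h
      · exact absurd h hq
      · exact C.djk.disj2 T.pg h
    obtain ⟨m, hm, hu, hs⟩ := T.cS0 p hp hg
    refine ⟨m, hm, ?_, hs⟩
    by_cases c0 : m = 0
    · have e : sE0 α β j k (St.H (ed n v j)) m = sS0 α β m := by
        unfold sE0 sS0
        rw [if_pos c0, if_pos c0]
      rw [e]; exact hu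
    by_cases c1 : m < α
    · have e : sE0 α β j k (St.H (ed n v j)) m = sS0 α β m := by
        unfold sE0 sS0
        rw [if_neg c0, if_neg c0, if_pos c1, if_pos c1]
      rw [e]; exact hu
    by_cases c2 : m ≤ β
    · have e : sS0 α β m = St.off := by
        unfold sS0
        rw [if_neg c0, if_neg c1, if_pos c2]
      rw [e] at hu
      exact hu.elim
    have e : sS0 α β m = St.P := by
      unfold sS0
      rw [if_neg c0, if_neg c1, if_neg c2]
    rw [e] at hu
    by_cases c3 : m < k
    · have ho := T.ex j0.le j1 k0 C.djk hp hg hq' (by omega) c3 hs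
      have hu' : orient (v m) (v (nx n m)) p < 0 := hu
      exact absurd hu' (by linarith)
    · have e1 : sE0 α β j k (St.H (ed n v j)) m = St.P := by
        unfold sE0
        rw [if_neg (by omega), if_neg (by omega), if_neg (by omega), if_neg (by omega),
          if_neg (by omega)]
      rw [e1]
      exact hu

end ecov

end Pool.Agent.FL
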