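import Pool.Agent.FL.Ecov
import Pool.Agent.FL.Shift
import Pool.Agent.FL.Mirror

/-! MP_8a5d4f_co, project FL, row FL-19 -/

set_option autoImplicit false

namespace Pool.Agent.FL

open Set Filter Topology Pool.Agent.H54.Fl Pool.Agent.H75.PolyJ Pool.Agent.H95.Poly

section ecov2

variable {n : ℕ} {v : ℕ → ℝ × ℝ} {α β i j k : ℕ}

lemma fl19_congr {σ τ : ℕ → St} (h : Cov n v σ) (e : ∀ m < n, σ m = τ m) : Cov n v τ := by
  intro p hp hg
  obtain ⟨i, hi, h1, h2⟩ := h p hp hg
  exact ⟨i, hi, by rw [← e i hi]; exact h1, h2⟩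

lemma fl19_idx {m α : ℕ} (hm : m < n) (hα : α < n) :
    (α ≤ m ∧ (m + (n - α)) % n = m - α) ∨ (m < α ∧ (m + (n - α)) % n = m + n - α) := by
  rcases Nat.lt_or_ge m α with h | h
  · right
    refine ⟨h, ?_⟩
    rw [Nat.mod_eq_of_lt (by omega)]
    omega
  · left
    refine ⟨h, ?_⟩
    have e : m + (n - α) = (m - α) + n := by omega
    rw [e, Nat.add_mod_right, Nat.mod_eq_of_lt (by omega)]

lemma fl19_ed (hα : α < n) {m : ℕ} (hm : m < n) : ed n (sh n v α) m = ed n v ((α + m) % n) := by
  unfold ed sh nx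
  rw [Nat.add_mod_mod, Nat.mod_add_mod, Nat.add_assoc]

theorem Core.cE1 (C : Core n α β i j k v) : Cov n v (sE1 α β k i (St.H (ed n v k))) := by
  have h1 := C.i0
  have h2 := C.i1
  have h3 := C.j0
  have h4 := C.j1
  have h5 := C.k0
  have h6 := C.k1
  have e1 : ed n (sh n v α) (k - α) = ed n v k := by
    rw [fl19_ed (by omega) (by omega)]
    congr 1
    have : α + (k - α) = k := by omega
    rw [this, Nat.mod_eq_of_lt h6]
  have h := cov_sh C.pt.pg (show α ≤ n by omega) C.sh1.cE0
  rw [e1] at h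
  refine fl19_congr h fun m hm => ?_
  rcases fl19_idx hm (show α < n by omega) with ⟨h7, h8⟩ | ⟨h7, h8⟩
  · simp only [h8, sE0, sE1]
    split_ifs <;> first | rfl | omega
  · simp only [h8, sE0, sE1]
    split_ifs <;> first | rfl | omega

theorem Core.cE2 (C : Core n α β i j k v) : Cov n v (sE2 α β i j (St.H (ed n v i))) := by
  have h1 := C.i0
  have h2 := C.i1
  have h3 := C.j0
  have h4 := C.j1
  have h5 := C.k0
  have h6 := C.k1
  have e1 : ed n (sh n v α) (i + n - α) = ed n v i := by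
    rw [fl19_ed (by omega) (by omega)]
    congr 1
    have : α + (i + n - α) = i + n := by omega
    rw [this, Nat.add_mod_right, Nat.mod_eq_of_lt (by omega)]
  have h := cov_sh C.pt.pg (show α ≤ n by omega) C.sh1.cE1
  rw [e1] at h
  refine fl19_congr h fun m hm => ?_
  rcases fl19_idx hm (show α < n by omega) with ⟨h7, h8⟩ | ⟨h7, h8⟩
  · simp only [h8, sE2, sE1]
    split_ifs <;> first | rfl | omega
  · simp only [h8, sE2, sE1]
    split_ifs <;> first | rfl | omega

lemma fl19_mir {m : ℕ} (hm : m < n) : (m = 0 ∧ (n - m) % n = 0) ∨ (0 < m ∧ (n - m) % n = n - m) := by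
  rcases Nat.eq_zero_or_pos m with h | h
  · left
    subst h
    exact ⟨rfl, by rw [Nat.sub_zero, Nat.mod_self]⟩
  · right
    exact ⟨h, Nat.mod_eq_of_lt (by omega)⟩

/-- the edge vectors of the mirror image -/
lemma fl19_edm {m : ℕ} (hm : 0 < m) (hm2 : m < n) :
    (((ed n (mir n v) (n - m)).1, -(ed n (mir n v) (n - m)).2) : ℝ × ℝ) = v m - v (m - 1) := by
  have e1 : (n - (n - m)) % n = m := by
    have : n - (n - m) = m := by omega
    rw [this, Nat.mod_eq_of_lt hm2]
  have e2 : (n - nx n (n - m)) % n = m - 1 := by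
    unfold nx
    rcases Nat.lt_or_ge 1 m with h | h
    · rw [Nat.mod_eq_of_lt (show n - m + 1 < n by omega)]
      have : n - (n - m + 1) = m - 1 := by omega
      rw [this, Nat.mod_eq_of_lt (by omega)]
    · have h1 : m = 1 := by omega
      subst h1
      have : n - 1 + 1 = n := by omega
      rw [this, Nat.mod_self, Nat.sub_zero, Nat.mod_self]
  unfold ed mir
  rw [e1, e2]
  unfold mr
  ext <;> simp <;> ring

/-- the mirrored state -/
def fl19_mst : St → St
  | St.off => St.off
  | St.N => St.P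
  | St.P => St.N
  | St.K => St.K
  | St.H d => St.H (d.1, -d.2)

lemma fl19_cov (P : PG n v) {σ τ : ℕ → St} (h : Cov n (mir n v) σ)
    (e : ∀ m < n, fl19_mst (σ ((n - m) % n)) = τ m) : Cov n v τ := by
  refine fl19_congr (cov_mir P h) fun m hm => ?_
  rw [← e m hm]
  generalize σ ((n - m) % n) = s
  cases s <;> rfl

theorem Core.cF0 (C : Core n α β i j k v) :
    Cov n v (sF0 α β i j (St.H (v j - v (j - 1)))) := by
  have h1 := C.i0
  have h2 := C.i1
  have h3 := C.j0
  have h4 := C.j1
  have h5 := C.k0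
  have h6 := C.k1
  have h := C.mir.cE0
  refine fl19_cov C.pt.pg h fun m hm => ?_
  have e1 := fl19_edm (v := v) (show 0 < j by omega) (show j < n by omega)
  rcases fl19_mir hm with ⟨h7, h8⟩ | ⟨h7, h8⟩
  · simp only [h8, sE0, sF0]
    split_ifs <;> first | rfl | omega
  · simp only [h8, sE0, sF0]
    split_ifs <;> first | rfl | omega | (rw [← e1]; rfl)

theorem Core.cF1 (C : Core n α β i j k v) :
    Cov n v (sF1 α β j k (St.H (v k - v (k - 1)))) := by
  have h1 := C.i0
  have h2 := C.i1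
  have h3 := C.j0
  have h4 := C.j1
  have h5 := C.k0
  have h6 := C.k1
  have h := C.mir.cE2
  refine fl19_cov C.pt.pg h fun m hm => ?_
  have e1 := fl19_edm (v := v) (show 0 < k by omega) (show k < n by omega)
  rcases fl19_mir hm with ⟨h7, h8⟩ | ⟨h7, h8⟩
  · simp only [h8, sE2, sF1]
    split_ifs <;> first | rfl | omega
  · simp only [h8, sE2, sF1]
    split_ifs <;> first | rfl | omega | (rw [← e1]; rfl)

theorem Core.cF2 (C : Core n α β i j k v) :
    Cov n v (sF2 α β k i (St.H (v i - v (i - 1)))) := by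
  have h1 := C.i0
  have h2 := C.i1
  have h3 := C.j0
  have h4 := C.j1
  have h5 := C.k0
  have h6 := C.k1
  have h := C.mir.cE1
  refine fl19_cov C.pt.pg h fun m hm => ?_
  have e1 := fl19_edm (v := v) (show 0 < i by omega) (show i < n by omega)
  rcases fl19_mir hm with ⟨h7, h8⟩ | ⟨h7, h8⟩
  · simp only [h8, sE1, sF2]
    split_ifs <;> first | rfl | omega
  · simp only [h8, sE1, sF2]
    split_ifs <;> first | rfl | omega | (rw [← e1]; rfl)

end ecov2

end Pool.Agent.FL
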