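import Pool.Agent.FL.Sect

/-! MP_8a5d4f_co, project FL, row FL-2 -/

set_option autoImplicit false

namespace Pool.Agent.FL

open Set Filter Topology Pool.Agent.H54.Fl Pool.Agent.H75.PolyJ Pool.Agent.H95.Poly

section hit

variable {n : ℕ} {v : ℕ → ℝ × ℝ}

/-- the first point of the curve on a ray -/
lemma fl2_first {a d : ℝ × ℝ} {e t1 : ℝ} (h1 : e ≤ t1) (hc : a + t1 • d ∈ curve n v) :
    ∃ t0, e ≤ t0 ∧ t0 ≤ t1 ∧ a + t0 • d ∈ curve n v ∧
      ∀ s, e ≤ s → s < t0 → a + s • d ∉ curve n v := by
  have hcl : IsClosed {t : ℝ | a + t • d ∈ curve n v} :=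
    (isClosed_curve n v).preimage (by fun_prop)
  have hK : IsCompact (Icc e t1 ∩ {t : ℝ | a + t • d ∈ curve n v}) :=
    isCompact_Icc.inter_right hcl
  obtain ⟨t0, ht0, hmin⟩ := hK.exists_isLeast ⟨t1, ⟨h1, le_rfl⟩, hc⟩
  refine ⟨t0, ht0.1.1, ht0.1.2, ht0.2, ?_⟩
  intro s hs hst hsc
  have := hmin ⟨⟨hs, hst.le.trans ht0.1.2⟩, hsc⟩
  exact absurd hst (not_lt.2 this)

lemma fl2_open_param {a b z : ℝ × ℝ} (hz : z ∈ openSegment ℝ a b) :
    ∃ t : ℝ, 0 < t ∧ t < 1 ∧ z = a + t • (b - a) := by
  obtain ⟨s, t, hs, ht, hst, rfl⟩ := hz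
  refine ⟨t, ht, by linarith, ?_⟩
  have e : s = 1 - t := by linarith
  rw [e]
  ext <;> simp <;> ring

lemma fl2_param_open {a b : ℝ × ℝ} {t : ℝ} (h0 : 0 < t) (h1 : t < 1) :
    a + t • (b - a) ∈ openSegment ℝ a b :=
  ⟨1 - t, t, by linarith, h0, by ring, by ext <;> simp <;> ring⟩

lemma fl2_open_of_edge {a b x : ℝ × ℝ} (hx : x ∈ segment ℝ a b) (h1 : x ≠ a) (h2 : x ≠ b) :
    x ∈ openSegment ℝ a b := mem_openSegment_of_ne_left_right h1.symm h2.symm hx

/-- a generic inner point sees the vertex `i`, or the way to it is blocked by an edge -/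
theorem hit_or_see (P : PG n v) {p : ℝ × ℝ} (hp : p ∈ inn n v) (hg : GP n v p) {i : ℕ}
    (hi : i < n) : See n v p (v i) ∨ ∃ k < n, ∃ x, x ∈ openSegment ℝ (v k) (v (nx n k)) ∧
      x ∈ openSegment ℝ p (v i) ∧ See n v p x ∧ 0 < orient (v k) (v (nx n k)) p ∧
      orient (v k) (v (nx n k)) (v i) < 0 := by
  have hic : p + (1 : ℝ) • (v i - p) ∈ curve n v := by
    rw [one_smul, add_sub_cancel]
    exact ⟨i, hi, left_mem_segment ℝ _ _⟩
  obtain ⟨t0, h0, h1, hx, hfree⟩ := fl2_first zero_le_one hic
  have hpc : p ∉ curve n v := hp.1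
  have h0' : 0 < t0 := by
    rcases eq_or_lt_of_le h0 with h | h
    · rw [← h, zero_smul, add_zero] at hx
      exact absurd hx hpc
    · exact h
  rcases eq_or_lt_of_le h1 with h1 | h1
  · left
    apply see_of_inner P hp
    intro z hz
    obtain ⟨t, ht0, ht1, rfl⟩ := fl2_open_param hz
    exact hfree t ht0.le (by rw [h1]; exact ht1)
  · right
    obtain ⟨k, hk, hxk⟩ := hx
    set x := p + t0 • (v i - p) with hxdef
    have hpv : p ≠ v i := by
      rintro rfl
      exact hpc ⟨i, hi, left_mem_segment ℝ _ _⟩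
    -- the point `x` is not a vertex
    have hnv : ∀ j < n, x ≠ v j := by
      intro j hj hxj
      by_cases hji : j = i
      · subst hji
        apply hpv
        have e : (1 - t0) • p = (1 - t0) • v j := by
          have : x = v j := hxj
          rw [hxdef] at this
          have e1 : (1 - t0) • p = p + t0 • (v j - p) - t0 • v j := by
            ext <;> simp <;> ring
          rw [e1, this]
          ext <;> simp <;> ring
        exact smul_right_injective _ (by linarith : (1 - t0 : ℝ) ≠ 0) e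
      · apply hg j hj i hi hji
        rw [← hxj, hxdef]
        unfold orient
        simp only [Prod.fst_add, Prod.smul_fst, Prod.snd_add, Prod.smul_snd, smul_eq_mul,
          Prod.fst_sub, Prod.snd_sub]
        ring
    have hn := pos P.simple
    have hxo : x ∈ openSegment ℝ (v k) (v (nx n k)) :=
      fl2_open_of_edge hxk (hnv k hk) (hnv _ (nx_lt hn k))
    have hs : See n v p x := by
      apply see_of_inner P hp
      intro z hz
      obtain ⟨t, ht0, ht1, rfl⟩ := fl2_open_param hz
      have e : p + t • (x - p) = p + (t * t0) • (v i - p) := by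
        rw [hxdef, add_sub_cancel_left, smul_smul]
      rw [e]
      exact hfree _ (by positivity) (by nlinarith)
    have hpx : p ≠ x := by
      intro h
      apply hpc
      rw [h]
      exact ⟨k, hk, hxk⟩
    have hge := left_of_hit P hk hxo hpx hs
    have hgt : 0 < orient (v k) (v (nx n k)) p :=
      lt_of_le_of_ne hge (hg k hk _ (nx_lt hn k) (nx_ne P.simple hk).symm).symm
    refine ⟨k, hk, x, hxo, fl2_param_open h0' h1, hs, hgt, ?_⟩
    have hx0 : orient (v k) (v (nx n k)) x = 0 := orient_of_mem hxk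
    have e : orient (v k) (v (nx n k)) x = (1 - t0) * orient (v k) (v (nx n k)) p +
        t0 * orient (v k) (v (nx n k)) (v i) := by
      rw [hxdef]
      unfold orient
      simp only [Prod.fst_add, Prod.smul_fst, Prod.snd_add, Prod.smul_snd, smul_eq_mul,
        Prod.fst_sub, Prod.snd_sub]
      ring
    rw [hx0] at e
    have h3 : 0 < (1 - t0) * orient (v k) (v (nx n k)) p := mul_pos (by linarith) hgt
    by_contra h4
    push Not at h4
    have := mul_nonneg h0'.le h4
    linarith

/-- from every vertex one sees an inner point of an edge, in an arbitrary direction of the open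
interior angle which avoids the vertices -/
theorem hit_ray (P : PG n v) {i : ℕ} (hi : i < n) {d : ℝ × ℝ}
    (h : (0 < tn n v i ∧ 0 < orient (v (pv n i)) (v i) (v i + d) ∧
        0 < orient (v i) (v (nx n i)) (v i + d)) ∨
      (tn n v i < 0 ∧ (0 < orient (v (pv n i)) (v i) (v i + d) ∨
        0 < orient (v i) (v (nx n i)) (v i + d))))
    (hd : ∀ j < n, j ≠ i → cr d (v j - v i) ≠ 0) :
    ∃ k < n, ∃ (x : ℝ × ℝ) (t : ℝ), 0 < t ∧ x = v i + t • d ∧
      x ∈ openSegment ℝ (v k) (v (nx n k)) ∧
      See n v (v i) x ∧ 0 < orient (v k) (v (nx n k)) (v i) ∧ k ≠ i ∧ nx n k ≠ i := by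
  have hn := pos P.simple
  have hd0 : d ≠ 0 := by
    rintro rfl
    rw [add_zero, orient_self_right, orient_self_left] at h
    simp at h
  have hstart := start_in P hi h
  rw [add_sub_cancel_left] at hstart
  obtain ⟨e, he0, he⟩ := (mem_nhdsGT_iff_exists_Ioo_subset).1 hstart
  have he0 : 0 < e := he0
  have hin : ∀ s, 0 < s → s < e → v i + s • d ∈ inn n v := fun s h1 h2 => he ⟨h1, h2⟩
  -- the ray leaves the region
  obtain ⟨t1, ht1, hout⟩ : ∃ t1, e / 2 ≤ t1 ∧ v i + t1 • d ∈ curve n v := by
    by_contra hcon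
    push Not at hcon
    have hS : IsPreconnected ((fun t : ℝ => v i + t • d) '' Ici (e / 2)) :=
      isPreconnected_Ici.image _ (by fun_prop)
    have hdis : Disjoint ((fun t : ℝ => v i + t • d) '' Ici (e / 2)) (curve n v) := by
      rw [Set.disjoint_left]
      rintro q ⟨t, ht, rfl⟩
      exact hcon t ht
    have hsub := subset_inner P.simple hS hdis ⟨e / 2, self_mem_Ici, rfl⟩
      (inner_subset_region P.simple (hin (e / 2) (by linarith) (by linarith)))
    have hbd : Bornology.IsBounded ((fun t : ℝ => v i + t • d) '' Ici (e / 2)) :=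
      (isCompact_region P.simple).isBounded.subset (hsub.trans (inner_subset_region P.simple))
    rw [isBounded_iff_forall_norm_le] at hbd
    obtain ⟨C, hC⟩ := hbd
    have hdn : 0 < ‖d‖ := norm_pos_iff.2 hd0
    set t : ℝ := max (e / 2) ((C + ‖v i‖ + 1) / ‖d‖) with ht
    have h1 := hC _ ⟨t, mem_Ici.2 (le_max_left _ _), rfl⟩
    have h2 : t * ‖d‖ ≤ C + ‖v i‖ := by
      have h3 : t • d = (v i + t • d) - v i := by abel
      have h4 : ‖t • d‖ ≤ C + ‖v i‖ := by
        rw [h3]
        exact (norm_sub_le _ _).trans (add_le_add_left h1 _)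
      rw [norm_smul, Real.norm_eq_abs, abs_of_pos (lt_of_lt_of_le (by linarith) (le_max_left _ _))]
        at h4
      exact h4
    have h5 : (C + ‖v i‖ + 1) / ‖d‖ ≤ t := le_max_right _ _
    rw [div_le_iff₀ hdn] at h5
    linarith
  obtain ⟨t0, h0, -, hx, hfree⟩ := fl2_first ht1 hout
  have ht0 : 0 < t0 := by linarith
  obtain ⟨k, hk, hxk⟩ := hx
  set x := v i + t0 • d with hxdef
  have hcr : ∀ j < n, j ≠ i → ∀ c : ℝ, v j - v i ≠ c • d := by
    intro j hj hji c hc
    apply hd j hj hji
    rw [hc]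
    unfold cr
    simp only [Prod.smul_fst, Prod.smul_snd, smul_eq_mul]
    ring
  have hnv : ∀ j < n, x ≠ v j := by
    intro j hj hxj
    by_cases hji : j = i
    · subst hji
      have : t0 • d = 0 := by
        have e1 : t0 • d = x - v j := by rw [hxdef]; abel
        rw [e1, hxj, sub_self]
      rcases smul_eq_zero.1 this with h | h
      · exact ht0.ne' h
      · exact hd0 h
    · apply hcr j hj hji t0
      rw [← hxj, hxdef]
      abel
  have hxo : x ∈ openSegment ℝ (v k) (v (nx n k)) :=
    fl2_open_of_edge hxk (hnv k hk) (hnv _ (nx_lt hn k))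
  have hnc : ∀ z ∈ openSegment ℝ (v i) x, z ∉ curve n v := by
    intro z hz
    obtain ⟨t, ht0', ht1', rfl⟩ := fl2_open_param hz
    have e1 : v i + t • (x - v i) = v i + (t * t0) • d := by
      rw [hxdef, add_sub_cancel_left, smul_smul]
    rw [e1]
    have hpos : 0 < t * t0 := by positivity
    by_cases h2 : e / 2 ≤ t * t0
    · exact hfree _ h2 (by nlinarith)
    · push Not at h2
      exact (hin _ hpos (by linarith)).1
  have hs : See n v (v i) x := by
    apply see_of P hnc
    have hm : 0 < min (1 / 2) (e / (2 * t0)) := lt_min (by norm_num) (by positivity)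
    refine ⟨v i + (min (1 / 2) (e / (2 * t0)) : ℝ) • (x - v i),
      fl2_param_open hm ((min_le_left _ _).trans_lt (by norm_num)), ?_⟩
    have e1 : v i + (min (1 / 2) (e / (2 * t0)) : ℝ) • (x - v i) =
        v i + (min (1 / 2) (e / (2 * t0)) * t0) • d := by
      rw [hxdef, add_sub_cancel_left, smul_smul]
    rw [e1]
    have h1 : min (1 / 2) (e / (2 * t0)) * t0 ≤ e / (2 * t0) * t0 :=
      mul_le_mul_of_nonneg_right (min_le_right _ _) ht0.le
    have h2 : e / (2 * t0) * t0 = e / 2 := by field_simp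
    exact inner_subset_region P.simple (hin _ (by positivity) (by linarith))
  have hki : k ≠ i := by
    rintro rfl
    obtain ⟨t, ht0', ht1', hxt⟩ := fl2_open_param hxo
    apply hcr (nx n k) (nx_lt hn k) (nx_ne P.simple hk) (t0 / t)
    have e1 : t • (v (nx n k) - v k) = t0 • d := by
      have : x - v k = t0 • d := by rw [hxdef]; abel
      rw [← this, hxt]; abel
    rw [div_eq_inv_mul, mul_smul, ← e1, smul_smul, inv_mul_cancel₀ ht0'.ne', one_smul]
  have hnki : nx n k ≠ i := by
    intro h2
    rw [h2, openSegment_symm] at hxo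
    obtain ⟨t, ht0', ht1', hxt⟩ := fl2_open_param hxo
    apply hcr k hk hki (t0 / t)
    have e1 : t • (v k - v i) = t0 • d := by
      have : x - v i = t0 • d := by rw [hxdef]; abel
      rw [← this, hxt]; abel
    rw [div_eq_inv_mul, mul_smul, ← e1, smul_smul, inv_mul_cancel₀ ht0'.ne', one_smul]
  have hge := left_of_hit P hk hxo (hnv i hi).symm hs
  have hne : orient (v k) (v (nx n k)) (v i) ≠ 0 :=
    P.gen k hk _ (nx_lt hn k) i hi (nx_ne P.simple hk).symm hki hnki
  exact ⟨k, hk, x, t0, ht0, rfl, hxo, hs, lt_of_le_of_ne hge hne.symm, hki, hnki⟩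

end hit

end Pool.Agent.FL
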