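import Pool.Agent.FL.SplitIJ

/-! MP_8a5d4f_co, project FL, row FL-27 -/

set_option autoImplicit false

namespace Pool.Agent.FL

open Set Filter Topology Pool.Agent.H54.Fl Pool.Agent.H75.PolyJ Pool.Agent.H95.Poly

section rotix

theorem fl27_param {a x y : ℝ × ℝ} (h : x ∈ openSegment ℝ a y) :
    ∃ c : ℝ, 0 < c ∧ x - a = c • (y - x) := by
  obtain ⟨s, t, hs, ht, hst, rfl⟩ := h
  refine ⟨t / s, div_pos ht hs, ?_⟩
  have h1 : s = 1 - t := by linarith
  have h2 : (1 - t) ≠ 0 := by rw [← h1]; exact hs.ne'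
  subst h1
  ext
  · simp only [Prod.fst_sub, Prod.fst_add, Prod.smul_fst, smul_eq_mul]
    field_simp
    ring
  · simp only [Prod.snd_sub, Prod.snd_add, Prod.smul_snd, smul_eq_mul]
    field_simp
    ring

/-- beyond the end of a segment -/
theorem fl27_beyond {a x y z : ℝ × ℝ} (hxy : x ≠ y) (h : x ∈ openSegment ℝ a y)
    (hz : ∃ t : ℝ, 0 < t ∧ z = x + t • (y - x)) : z ∉ segment ℝ a x := by
  obtain ⟨c, hc, hc'⟩ := fl27_param h
  obtain ⟨t, ht, rfl⟩ := hz
  rintro ⟨r, s, hr, hs, hrs, he⟩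
  have ha : a = x - c • (y - x) := by rw [← hc']; abel
  have h1 : s = 1 - r := by linarith
  subst h1
  rw [ha] at he
  have h2 : (t + r * c) • (y - x) = 0 := by
    have h3 : r • (x - c • (y - x)) + (1 - r) • x = x - (r * c) • (y - x) := by
      rw [smul_sub, smul_smul, sub_smul, one_smul]
      abel
    rw [h3] at he
    have h4 : (t + r * c) • (y - x) = (x + t • (y - x)) - (x - (r * c) • (y - x)) := by
      rw [add_smul]
      abel
    rw [h4, ← he, sub_self]
  rcases smul_eq_zero.mp h2 with h3 | h3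
  · have : 0 ≤ r * c := mul_nonneg hr hc.le
    linarith
  · exact hxy (sub_eq_zero.mp h3).symm

theorem fl27_core {n m c i u k : ℕ} {v w : ℕ → ℝ × ℝ} (P : PG n v) (Q : PG m w) (hc : c < m)
    (hk : k < n) (hw : w c = v u) (hwn : w (nx m c) = v (nx n u)) (ht : tn m w c < 0)
    (hn : orient (v i) (v u) (v (nx n u)) < 0) {y : ℝ × ℝ}
    (hy : y ∈ openSegment ℝ (v k) (v (nx n k))) (huy : v u ∈ openSegment ℝ (v i) y)
    (hs2 : See n v (v u) y) (hsub : inn m w ⊆ inn n v)
    (hcur : ∀ p ∈ curve m w, (∃ t < n, t ≠ k ∧ p ∈ edge n v t) ∨ p ∈ segment ℝ (v i) (v u)) :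
    False := by
  obtain ⟨c', hc', hcc⟩ := fl27_param huy
  have hyu : v u ≠ y := by
    intro h
    rw [h, sub_self, smul_zero, sub_eq_zero] at hcc
    rw [h, ← hcc, orient_degen] at hn
    exact lt_irrefl 0 hn
  have hor : 0 < orient (w c) (w (nx m c)) y := by
    rw [hw, hwn]
    have h1 : orient (v i) (v u) (v (nx n u)) =
        -(c' * orient (v u) (v (nx n u)) y) := by
      have h2 : (v u).1 - (v i).1 = c' * (y.1 - (v u).1) := congrArg Prod.fst hcc
      have h3 : (v u).2 - (v i).2 = c' * (y.2 - (v u).2) := congrArg Prod.snd hcc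
      have h4 : (v i).1 = (v u).1 - c' * (y.1 - (v u).1) := by linarith
      have h5 : (v i).2 = (v u).2 - c' * (y.2 - (v u).2) := by linarith
      unfold orient
      rw [h4, h5]
      ring
    rw [h1] at hn
    have h2 : 0 < c' * orient (v u) (v (nx n u)) y := by linarith
    exact (mul_pos_iff_of_pos_left hc').mp h2
  have hst := start_in Q hc (Or.inr ⟨ht, Or.inr hor⟩)
  -- a point of the open segment in the part
  have hlt : ∀ᶠ t : ℝ in 𝓝[>] 0, t < 1 :=
    (eventually_lt_nhds (show (0 : ℝ) < 1 by norm_num)).filter_mono nhdsWithin_le_nhds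
  obtain ⟨t, ⟨h1, h2⟩, h3⟩ := ((hst.and hlt).and self_mem_nhdsWithin).exists
  have h3' : 0 < t := h3
  rw [hw] at h1
  have hmem : v u + t • (y - v u) ∈ openSegment ℝ (v u) y := by
    refine ⟨1 - t, t, by linarith, h3', by ring, ?_⟩
    rw [sub_smul, one_smul, smul_sub]
    abel
  have hnseg : ∀ z ∈ openSegment ℝ (v u) y, z ∉ segment ℝ (v i) (v u) := by
    rintro z ⟨a, b, ha, hb, hab, rfl⟩
    refine fl27_beyond hyu huy ⟨b, hb, ?_⟩
    have h4 : a = 1 - b := by linarith
    rw [h4, sub_smul, one_smul, smul_sub]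
    abel
  have hS : openSegment ℝ (v u) y ⊆ Pool.Agent.H75.PolyJ.inner m w := by
    refine subset_inner Q.simple (convex_openSegment _ _).isPreconnected ?_ hmem
      (inner_subset_region Q.simple h1)
    rw [Set.disjoint_left]
    intro z hz hz'
    rcases hcur z hz' with ⟨t, ht1, -, ht3⟩ | h4
    · exact (hs2 z hz).1 ⟨t, ht1, ht3⟩
    · exact hnseg z hz h4
  have hyr : y ∈ region m w := by
    rw [← closure_inner Q.simple]
    exact closure_mono hS (segment_subset_closure_openSegment (right_mem_segment ℝ _ _))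
  have hye : y ∈ edge n v k := openSegment_subset_segment ℝ _ _ hy
  rw [region_eq Q.simple] at hyr
  rcases hyr with h4 | h4
  · rcases hcur y h4 with ⟨t, ht1, ht2, ht3⟩ | h5
    · have hne : v k ≠ v (nx n k) := edge_nondeg P.simple hk
      have hyk : y ≠ v k := by
        rintro rfl
        rw [left_mem_openSegment_iff] at hy
        exact hne hy
      have hyk' : y ≠ v (nx n k) := by
        rintro rfl
        rw [right_mem_openSegment_iff] at hy
        exact hne hy
      rcases edge_inter P.simple ht1 hk ht2 ht3 hye with ⟨-, h6⟩ | ⟨h5, h6⟩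
      · exact hyk h6
      · exact hyk' (by rw [h5]; exact h6)
    · exact fl27_beyond hyu huy ⟨1, one_pos, by rw [one_smul]; abel⟩ h5
  · exact (hsub h4).1 ⟨k, hk, hye⟩

theorem fl27_curve_arc {n a b : ℕ} {v : ℕ → ℝ × ℝ} (hb : b < n) (hab : a < b) {p : ℝ × ℝ}
    (hp : p ∈ curve (b - a + 1) (arc v a)) :
    (∃ t < n, (a ≤ t ∧ t < b) ∧ p ∈ edge n v t) ∨ p ∈ segment ℝ (v b) (v a) := by
  obtain ⟨s, hs, hp⟩ := hp
  unfold edge arc at hp
  rcases Nat.lt_or_ge s (b - a) with h1 | h1
  · left
    refine ⟨a + s, by omega, ⟨by omega, by omega⟩, ?_⟩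
    unfold edge
    rw [Nat.mod_eq_of_lt (by omega)] at hp ⊢
    exact hp
  · right
    have h2 : s = b - a := by omega
    subst h2
    rw [Nat.mod_self, Nat.add_zero] at hp
    have h3 : a + (b - a) = b := by omega
    rwa [h3] at hp

theorem fl27_curve_co {n a b : ℕ} {v : ℕ → ℝ × ℝ} (hb : b < n) (hab : a < b) {p : ℝ × ℝ}
    (hp : p ∈ curve (n - (b - a) + 1) (co v a b)) :
    (∃ t < n, (t < a ∨ b ≤ t) ∧ p ∈ edge n v t) ∨ p ∈ segment ℝ (v a) (v b) := by
  obtain ⟨s, hs, hp⟩ := hp
  unfold edge co at hp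
  rcases Nat.lt_trichotomy s a with h1 | h1 | h1
  · left
    refine ⟨s, by omega, Or.inl h1, ?_⟩
    unfold edge
    rw [Nat.mod_eq_of_lt (by omega), if_pos h1.le, if_pos (by omega)] at hp
    rw [Nat.mod_eq_of_lt (by omega)]
    exact hp
  · right
    subst h1
    rw [Nat.mod_eq_of_lt (by omega), if_pos le_rfl, if_neg (by omega)] at hp
    have h3 : s + 1 + (b - s) - 1 = b := by omega
    rwa [h3] at hp
  · left
    refine ⟨s + (b - a) - 1, by omega, Or.inr (by omega), ?_⟩
    unfold edge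
    rw [if_neg (by omega)] at hp
    rcases Nat.lt_or_ge (s + 1) (n - (b - a) + 1) with h2 | h2
    · rw [Nat.mod_eq_of_lt h2, if_neg (by omega)] at hp
      rw [Nat.mod_eq_of_lt (by omega)]
      have h3 : s + (b - a) - 1 + 1 = s + 1 + (b - a) - 1 := by omega
      rw [h3]
      exact hp
    · have h3 : s + 1 = n - (b - a) + 1 := by omega
      rw [h3, Nat.mod_self, if_pos (Nat.zero_le _)] at hp
      have h4 : s + (b - a) - 1 + 1 = n := by omega
      rw [h4, Nat.mod_self]
      exact hp

/-- the blocking vertex lies between `i` and `k` -/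
theorem rot_ix {n : ℕ} {v : ℕ → ℝ × ℝ} (P : PG n v) {i k u : ℕ} (hik : i < k) (hk : k < n)
    (hki : nx n k ≠ i) (hu : u < n) (h1 : u ≠ i) (h2 : u ≠ k) (h3 : u ≠ nx n k) {y : ℝ × ℝ}
    (hy : y ∈ openSegment ℝ (v k) (v (nx n k))) (huy : v u ∈ openSegment ℝ (v i) y)
    (hs1 : See n v (v i) (v u) ∨ u = i + 1) (hs2 : See n v (v u) y)
    (hp : pv n u = i ∨ orient (v i) (v u) (v (pv n u)) < 0)
    (hn : orient (v i) (v u) (v (nx n u)) < 0) : i < u ∧ u < k := by
  have hni : nx n u ≠ i := by
    intro h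
    rw [h, orient_self_left] at hn
    exact lt_irrefl 0 hn
  by_contra hcon
  have hcase : u < i ∨ k < u := by omega
  rcases hcase with hui | hku
  · -- the vertex before `i`
    have hs : See n v (v u) (v i) := by
      rcases hs1 with h | h
      · exact h.symm
      · omega
    have hnu : nx n u = u + 1 := by
      rcases nx_cases hu with ⟨_, h⟩ | ⟨_, _⟩
      · exact h
      · omega
    have D : Dg n v u i := ⟨by omega, by omega, by omega, hs⟩
    have Q := D.arc_pg P
    have hm : nx (i - u + 1) 0 = 1 := by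
      unfold nx
      rw [Nat.mod_eq_of_lt (by omega)]
    refine fl27_core (m := i - u + 1) (w := arc v u) (c := 0) (i := i) (u := u) (k := k) P Q
      (by omega) hk rfl ?_ ?_ hn hy huy hs2 (D.inner_arc P) ?_
    · rw [hm, hnu]
      rfl
    · rw [tn_arc_0 (by omega) (by omega)]
      rw [hnu] at hn
      exact hn
    · intro p hp
      rcases fl27_curve_arc (n := n) (by omega) hui hp with ⟨t, h4, h5, h6⟩ | h4
      · exact Or.inl ⟨t, h4, by omega, h6⟩
      · exact Or.inr h4
  · have hs : See n v (v i) (v u) := by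
      rcases hs1 with h | h
      · exact h
      · omega
    have hnl : ¬ (i = 0 ∧ u + 1 = n) := by
      rintro ⟨h4, h5⟩
      apply hni
      unfold nx
      rw [h5, Nat.mod_self, h4]
    have D : Dg n v i u := ⟨by omega, hu, hnl, hs⟩
    have Q := D.co_pg P
    refine fl27_core (m := n - (u - i) + 1) (w := co v i u) (c := i + 1) (i := i) (u := u) (k := k)
      P Q (by omega) hk ?_ ?_ ?_ hn hy huy hs2 (D.inner_co P) ?_
    · unfold co
      rw [if_neg (by omega)]
      congr 1
      omega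
    · unfold nx co
      rcases Nat.lt_or_ge (u + 1) n with h4 | h4
      · rw [Nat.mod_eq_of_lt (by omega), Nat.mod_eq_of_lt h4, if_neg (by omega)]
        congr 1
        omega
      · have h5 : u + 1 = n := by omega
        have h6 : i + 1 + 1 = n - (u - i) + 1 := by omega
        rw [h5, Nat.mod_self, h6, Nat.mod_self, if_pos (Nat.zero_le _)]
    · rw [tn_co_j hu (by omega) hnl]
      exact hn
    · intro p hp
      rcases fl27_curve_co (n := n) hu (by omega) hp with ⟨t, h4, h5, h6⟩ | h4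
      · exact Or.inl ⟨t, h4, by omega, h6⟩
      · exact Or.inr h4

end rotix

end Pool.Agent.FL
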