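import Pool.Agent.FL.Rot
import Pool.Agent.FL.Mirror
import Pool.Agent.FL.Hit
import Pool.Agent.FL.RotIx

/-! MP_8a5d4f_co, project FL, row FL-28 -/

set_option autoImplicit false

namespace Pool.Agent.FL

open Set Filter Topology Pool.Agent.H54.Fl Pool.Agent.H75.PolyJ Pool.Agent.H95.Poly

section fd

/-- a point strictly between the beginning of a segment and a point of the segment -/
private lemma fl28_open {a b x y : ℝ × ℝ} (hx : x ∈ segment ℝ a b) (hxa : x ≠ a)
    (hy : y ∈ openSegment ℝ a x) : y ∈ openSegment ℝ a b := by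
  obtain ⟨s, t, hs, ht, hst, rfl⟩ := hx
  obtain ⟨s', t', hs', ht', hst', rfl⟩ := hy
  have ht0 : 0 < t := by
    rcases eq_or_lt_of_le ht with h | h
    · exfalso
      apply hxa
      subst h
      have : s = 1 := by linarith
      rw [this, one_smul, zero_smul, add_zero]
    · exact h
  refine ⟨s' + t' * s, t' * t, ?_, ?_, ?_, ?_⟩
  · have := mul_nonneg ht'.le hs
    linarith
  · exact mul_pos ht' ht0
  · have h1 : t' * s + t' * t = t' := by rw [← mul_add, hst, mul_one]
    linarith
  · rw [smul_add, smul_smul, smul_smul, add_smul, add_assoc]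

private lemma fl28_ne {a b y : ℝ × ℝ} (hab : b ≠ a) (hy : y ∈ openSegment ℝ a b) : y ≠ a := by
  obtain ⟨s, t, hs, ht, hst, rfl⟩ := hy
  intro h
  apply hab
  have h1 : s = 1 - t := by linarith
  subst h1
  have h2 : t • (b - a) = 0 := by
    have h3 : (1 - t) • a + t • b - a = 0 := by rw [h, sub_self]
    rw [← h3, sub_smul, one_smul, smul_sub]
    abel
  rcases smul_eq_zero.1 h2 with h4 | h4
  · exact absurd h4 ht.ne'
  · exact sub_eq_zero.1 h4

private lemma fl28_sub {a b x : ℝ × ℝ} (h : x ∈ openSegment ℝ a b) : x ∈ segment ℝ a b :=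
  openSegment_subset_segment ℝ a b h

theorem fd_run {n : ℕ} {v : ℕ → ℝ × ℝ} (P : PG n v) {i k : ℕ} {x : ℝ × ℝ} (hk : k < n)
    (hki : nx n k ≠ i)
    (hch : ∀ m, 0 < m → m ≤ i → tn n v m < 0)
    (hx : x ∈ segment ℝ (v k) (v (nx n k))) (hxk : x ≠ v k)
    (hl : 0 < orient (v k) (v (nx n k)) (v i)) (hs : See n v (v i) x)
    (hz : i = 0 ∨ orient (v (i - 1)) (v i) x ≤ 0)
    (hc : ∃ z1 z2, i < z1 ∧ z1 < z2 ∧ z2 ≤ k ∧ 0 < tn n v z1 ∧ 0 < tn n v z2) :
    ∃ i' j', FDc n v i' j' := by
  have hn : 0 < n := pos P.simple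
  induction hd : k - i using Nat.strong_induction_on generalizing i k x with
  | _ N ih =>
  obtain ⟨z1, z2, hz1, hz12, hz2, ht1, ht2⟩ := hc
  have hik : i + 2 ≤ k := by omega
  have hin : i < n := by omega
  have hnxi : nx n i = i + 1 := Nat.mod_eq_of_lt (by omega)
  obtain ⟨u, hu, y, hui, hy, hyx, huy, hor, hsee, hzone, hcase⟩ :=
    rotate P hin hk hx hxk hl hs
  have hri : i = 0 ∨ orient (v (i - 1)) (v i) (v u) < 0 := by
    rcases Nat.eq_zero_or_pos i with h | h
    · exact Or.inl h
    · right
      have hpv : pv n i = i - 1 := by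
        rcases pv_cases hin with ⟨-, h1⟩ | ⟨h1, -⟩
        · exact h1
        · omega
      rw [hpv] at hzone
      refine hzone (hch i h le_rfl) ?_
      rcases hz with h1 | h1
      · omega
      · exact h1
  rcases hcase with ⟨rfl, rfl⟩ | ⟨huk, hunk, huo, hyo, hs2, hpu, hnu⟩
  · -- the beginning of the edge
    have hsk : See n v (v i) (v u) := by
      rcases hsee with h | h
      · exact h
      · omega
    have hnl : ¬ (i = 0 ∧ u + 1 = n) := by
      rintro ⟨h1, h2⟩
      apply hki
      rcases nx_cases hk with ⟨h3, -⟩ | ⟨-, h3⟩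
      · omega
      · omega
    have hDg : Dg n v i u := ⟨hik, hk, hnl, hsk⟩
    rcases lt_or_gt_of_ne (tn_ne P hk) with ht | ht
    · rcases lt_or_gt_of_ne (P.gen (u - 1) (by omega) u hk i hin (by omega) (by omega) (by omega))
        with ho | ho
      · exact ⟨i, u, hDg, hch, hri, Or.inr (Or.inl ho)⟩
      · have hnx : nx n (u - 1) = u := by
          have : nx n (u - 1) = u - 1 + 1 := Nat.mod_eq_of_lt (by omega)
          omega
        refine ih (u - 1 - i) (by omega) (i := i) (k := u - 1) (x := v u) (by omega) (by omega) hch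
          ?_ ?_ ?_ hsk ?_ ?_ rfl
        · rw [hnx]; exact right_mem_segment ℝ _ _
        · intro h
          have := vertex_inj P.simple hk (by omega) h
          omega
        · rw [hnx]; exact ho
        · rcases hri with h | h
          · exact Or.inl h
          · exact Or.inr h.le
        · refine ⟨z1, z2, hz1, hz12, ?_, ht1, ht2⟩
          have : z2 ≠ u := by
            rintro rfl
            exact absurd ht2 (not_lt.2 ht.le)
          omega
    · exact ⟨i, u, hDg, hch, hri, Or.inl ht⟩
  · -- a vertex between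
    have hyk : y ∈ openSegment ℝ (v k) (v (nx n k)) := fl28_open hx hxk hyo
    have hlt : i < u ∧ u < k :=
      rot_ix P (by omega) hk hki hu hui huk hunk hyk huo (by rw [hnxi] at hsee; exact hsee)
        hs2 hpu hnu
    rcases Nat.lt_or_ge (i + 1) u with h2 | h2
    · have hsu : See n v (v i) (v u) := by
        rcases hsee with h | h
        · exact h
        · omega
      exact ⟨i, u, ⟨by omega, hu, by omega, hsu⟩, hch, hri, Or.inr (Or.inr hnu)⟩
    · have hui1 : u = i + 1 := by omega
      subst hui1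
      have htn : tn n v (i + 1) < 0 := by
        have hpv : pv n (i + 1) = i := by
          rcases pv_cases hu with ⟨-, h1⟩ | ⟨h1, -⟩
          · omega
          · omega
        unfold tn
        rw [hpv]
        exact hnu
      refine ih (k - (i + 1)) (by omega) (i := i + 1) (k := k) (x := y) hk (Ne.symm hunk) ?_
        (fl28_sub hyk) (fl28_ne hxk hyo) ?_ hs2 ?_ ?_ rfl
      · intro m hm0 hm
        rcases Nat.lt_or_ge i m with h | h
        · have : m = i + 1 := by omega
          rw [this]; exact htn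
        · exact hch m hm0 h
      · obtain ⟨s, t, hs0, ht0, hst, he⟩ := huo
        rw [← he, orient_comb _ _ _ _ hst, orient_of_mem (fl28_sub hyk), mul_zero, add_zero]
        exact mul_pos hs0 hl
      · right
        have h3 : i + 1 - 1 = i := by omega
        rw [h3]
        have h4 : orient (v i) y (v (i + 1)) = 0 := orient_of_mem (fl28_sub huo)
        have h5 : orient (v i) (v (i + 1)) y = - orient (v i) y (v (i + 1)) := by
          unfold orient; ring
        rw [h5, h4, neg_zero]
      · refine ⟨z1, z2, ?_, hz12, hz2, ht1, ht2⟩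
        have : z1 ≠ i + 1 := by
          rintro rfl
          exact absurd ht1 (not_lt.2 htn.le)
        omega

/-- three convex vertices besides `0` -/
private lemma fl28_three {n : ℕ} {v : ℕ → ℝ × ℝ} (hk : 4 ≤ kc n v) :
    ∃ z1 z2 z3, 0 < z1 ∧ z1 < z2 ∧ z2 < z3 ∧ z3 < n ∧ 0 < tn n v z1 ∧ 0 < tn n v z2 ∧
      0 < tn n v z3 := by
  classical
  unfold kc at hk
  set S : Finset ℕ := (Finset.range n).filter fun i => 0 < tn n v i with hS
  have hcard : 3 ≤ (S.erase 0).card := by
    have := Finset.pred_card_le_card_erase (s := S) (a := 0)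
    have h4 : 4 ≤ S.card := by rw [hS]; convert hk
    omega
  have hmem : ∀ z ∈ S.erase 0, 0 < z ∧ z < n ∧ 0 < tn n v z := by
    intro z hz
    rw [Finset.mem_erase, hS, Finset.mem_filter, Finset.mem_range] at hz
    exact ⟨Nat.pos_of_ne_zero hz.1, hz.2.1, hz.2.2⟩
  set T := S.erase 0 with hT
  have hTn : T.Nonempty := Finset.card_pos.1 (by omega)
  set a := T.min' hTn with ha
  have hcard2 : 2 ≤ (T.erase a).card := by
    rw [Finset.card_erase_of_mem (T.min'_mem hTn)]; omega
  have hUn : (T.erase a).Nonempty := Finset.card_pos.1 (by omega)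
  set b := (T.erase a).min' hUn with hb
  have hbm : b ∈ T.erase a := (T.erase a).min'_mem hUn
  have hcard3 : 1 ≤ ((T.erase a).erase b).card := by
    rw [Finset.card_erase_of_mem hbm]; omega
  obtain ⟨c, hc⟩ : ((T.erase a).erase b).Nonempty := Finset.card_pos.1 (by omega)
  have hc1 := Finset.mem_erase.1 hc
  have hc2 := Finset.mem_erase.1 hc1.2
  have hb2 := Finset.mem_erase.1 hbm
  have hab : a < b := lt_of_le_of_ne (T.min'_le b hb2.2) (Ne.symm hb2.1)
  have hbc : b < c := lt_of_le_of_ne ((T.erase a).min'_le c hc1.2) (Ne.symm hc1.1)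
  have h1 := hmem a (T.min'_mem hTn)
  have h2 := hmem b hb2.2
  have h3 := hmem c hc2.2
  exact ⟨a, b, c, h1.1, hab, hbc, h3.2.1, h1.2.2, h2.2.2, h3.2.2⟩

/-- a direction in the angle at `0` which avoids the vertices -/
private lemma fl28_dir {n : ℕ} {v : ℕ → ℝ × ℝ} (P : PG n v) (h0 : 0 < tn n v 0) :
    ∃ d : ℝ × ℝ, 0 < orient (v (pv n 0)) (v 0) (v 0 + d) ∧
      0 < orient (v 0) (v (nx n 0)) (v 0 + d) ∧ ∀ j < n, j ≠ 0 → cr d (v j - v 0) ≠ 0 := by
  classical
  have hn3 : 3 ≤ n := P.simple.three_le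
  set w1 : ℝ × ℝ := v (nx n 0) - v 0 with hw1
  set w2 : ℝ × ℝ := v (pv n 0) - v 0 with hw2
  have hc : 0 < cr w1 w2 := by
    have : cr w1 w2 = tn n v 0 := by
      unfold cr tn orient
      rw [hw1, hw2]
      simp only [Prod.fst_sub, Prod.snd_sub]
      ring
    rw [this]; exact h0
  obtain ⟨t, ht0, ht⟩ := (Set.Ioi_infinite (0 : ℝ)).exists_notMem_finset
    ((Finset.range n).image fun j => - cr w1 (v j - v 0) / cr w2 (v j - v 0))
  have ht0' : 0 < t := ht0
  refine ⟨w1 + t • w2, ?_, ?_, ?_⟩
  · have : orient (v (pv n 0)) (v 0) (v 0 + (w1 + t • w2)) = cr w1 w2 := by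
      unfold cr orient
      rw [hw1, hw2]
      simp only [Prod.fst_sub, Prod.snd_sub, Prod.fst_add, Prod.snd_add, Prod.smul_fst,
        Prod.smul_snd, smul_eq_mul]
      ring
    rw [this]; exact hc
  · have : orient (v 0) (v (nx n 0)) (v 0 + (w1 + t • w2)) = t * cr w1 w2 := by
      unfold cr orient
      rw [hw1, hw2]
      simp only [Prod.fst_sub, Prod.snd_sub, Prod.fst_add, Prod.snd_add, Prod.smul_fst,
        Prod.smul_snd, smul_eq_mul]
      ring
    rw [this]; exact mul_pos ht0' hc
  · intro j hj hj0 he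
    have he2 : cr w1 (v j - v 0) + t * cr w2 (v j - v 0) = 0 := by
      rw [← he]
      unfold cr
      simp only [Prod.fst_add, Prod.snd_add, Prod.smul_fst, Prod.smul_snd, smul_eq_mul]
      ring
    by_cases h2 : cr w2 (v j - v 0) = 0
    · have hp : pv n 0 < n := pv_lt (by omega) 0
      have hp0 : pv n 0 ≠ 0 := by
        rcases pv_cases (n := n) (i := 0) (by omega) with ⟨h, -⟩ | ⟨-, h⟩
        · omega
        · omega
      have hjp : j = pv n 0 := by
        by_contra hne
        apply P.gen 0 (by omega) (pv n 0) hp j hj (Ne.symm hp0) (Ne.symm hj0) (Ne.symm hne)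
        rw [← h2]
        unfold cr orient
        rw [hw2]
        simp only [Prod.fst_sub, Prod.snd_sub]
      rw [h2, mul_zero, add_zero, hjp] at he2
      exact hc.ne' he2
    · apply ht
      rw [Finset.mem_image]
      refine ⟨j, Finset.mem_range.2 hj, ?_⟩
      rw [div_eq_iff h2]
      linarith

theorem first_diag {n : ℕ} {v : ℕ → ℝ × ℝ} (P : PG n v) (h0 : 0 < tn n v 0) (hk : 4 ≤ kc n v) :
    (∃ i j, FDc n v i j) ∨ (∃ i j, FDc n (mir n v) i j) := by
  have hn3 : 3 ≤ n := P.simple.three_le
  have hn : 0 < n := by omega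
  obtain ⟨z1, z2, z3, hz0, hz12, hz23, hz3, ht1, ht2, ht3⟩ := fl28_three hk
  obtain ⟨d, hd1, hd2, hd3⟩ := fl28_dir P h0
  obtain ⟨k, hkn, x, t, ht, hxt, hx, hs, hl, hk0, hnk0⟩ :=
    hit_ray P hn (Or.inl ⟨h0, hd1, hd2⟩) hd3
  have hne : v (nx n k) ≠ v k := (edge_nondeg P.simple hkn).symm
  have hk1 : k + 1 < n ∧ nx n k = k + 1 := by
    rcases nx_cases hkn with h | ⟨-, h⟩
    · exact h
    · exact absurd h hnk0
  rcases Nat.lt_or_ge k z2 with hkz | hkz
  · right
    have hw0 : mir n v 0 = mr (v 0) := by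
      unfold mir
      rw [Nat.sub_zero, Nat.mod_self]
    have hwk : mir n v (n - k - 1) = mr (v (k + 1)) := by
      unfold mir
      have : (n - (n - k - 1)) % n = k + 1 := by
        rw [show n - (n - k - 1) = k + 1 by omega]
        exact Nat.mod_eq_of_lt hk1.1
      rw [this]
    have hnx : nx n (n - k - 1) = n - k := by
      have : nx n (n - k - 1) = n - k - 1 + 1 := Nat.mod_eq_of_lt (by omega)
      omega
    have hwk1 : mir n v (n - k) = mr (v k) := by
      unfold mir
      have : (n - (n - k)) % n = k := by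
        rw [show n - (n - k) = k by omega]
        exact Nat.mod_eq_of_lt hkn
      rw [this]
    rw [hk1.2] at hx hl hne
    refine fd_run P.mir (i := 0) (k := n - k - 1) (x := mr x) (by omega) ?_ ?_ ?_ ?_ ?_ ?_
      (Or.inl rfl) ?_
    · rw [hnx]; omega
    · intro m hm1 hm2; omega
    · rw [hnx, hwk, hwk1]
      obtain ⟨a, b, ha, hb, hab, rfl⟩ := fl28_sub hx
      refine ⟨b, a, hb, ha, by linarith, ?_⟩
      unfold mr
      ext
      · simp only [Prod.fst_add, Prod.smul_fst, smul_eq_mul]
        ring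
      · simp only [Prod.snd_add, Prod.smul_snd, smul_eq_mul]
        ring
    · rw [hwk]
      intro h
      have h1 : x = v (k + 1) := by
        rw [← mr_mr x, h, mr_mr]
      rw [openSegment_symm] at hx
      exact fl28_ne (Ne.symm hne) hx h1
    · rw [hnx, hwk, hwk1, hw0, orient_mr]
      have : orient (v (k + 1)) (v k) (v 0) = - orient (v k) (v (k + 1)) (v 0) :=
        orient_swap _ _ _
      rw [this, neg_neg]
      exact hl
    · rw [hw0]
      exact (see_mir P).2 hs
    · refine ⟨n - z3, n - z2, by omega, by omega, by omega, ?_, ?_⟩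
      · rw [tn_mir hn (by omega)]
        have : (n - (n - z3)) % n = z3 := by
          rw [show n - (n - z3) = z3 by omega]
          exact Nat.mod_eq_of_lt hz3
        rw [this]; exact ht3
      · rw [tn_mir hn (by omega)]
        have : (n - (n - z2)) % n = z2 := by
          rw [show n - (n - z2) = z2 by omega]
          exact Nat.mod_eq_of_lt (by omega)
        rw [this]; exact ht2
  · left
    refine fd_run P (i := 0) (k := k) (x := x) hkn hnk0 ?_ (fl28_sub hx) (fl28_ne hne hx) hl hs
      (Or.inl rfl) ⟨z1, z2, hz0, hz12, hkz, ht1, ht2⟩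
    intro m hm1 hm2
    omega

end fd

end Pool.Agent.FL
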