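import Pool.Agent.FL.Sect

/-! MP_8a5d4f_co, project FL, row FL-34 -/

set_option autoImplicit false

namespace Pool.Agent.FL

open Set Filter Topology Pool.Agent.H54.Fl Pool.Agent.H75.PolyJ Pool.Agent.H95.Poly

section fin

/-- the boundary direction of the floodlight with a given state -/
def fl34_dir (n : ℕ) (v : ℕ → ℝ × ℝ) (i : ℕ) : St → ℝ × ℝ
  | St.off => (1, 0)
  | St.N => ed n v i
  | St.P => v i - v (pv n i)
  | St.K => ed n v i
  | St.H d => d

/-- the left normal of a direction -/
def fl34_nrm (d : ℝ × ℝ) : ℝ × ℝ := (-d.2, d.1)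

theorem fl34_nrm_ne {d : ℝ × ℝ} (h : d ≠ 0) : fl34_nrm d ≠ 0 := by
  intro h0
  apply h
  have h1 := congrArg Prod.fst h0
  have h2 := congrArg Prod.snd h0
  simp only [fl34_nrm, Prod.fst_zero, Prod.snd_zero] at h1 h2
  exact Prod.ext h2 (neg_eq_zero.1 h1)

theorem fl34_dense_line {a b : ℝ × ℝ} (hab : a ≠ b) : Dense {p : ℝ × ℝ | orient a b p ≠ 0} := by
  intro x
  by_cases hx : orient a b x < 0
  · exact subset_closure (show orient a b x ≠ 0 from hx.ne)
  · rw [mem_closure_iff_frequently]
    apply frequently_ray (d := nrm a b)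
    intro t ht
    have h1 := orient_nrm a b x t
    have h2 := dot_pos hab
    have h3 := mul_pos ht h2
    rw [not_lt] at hx
    show orient a b (x + t • nrm a b) ≠ 0
    rw [h1]
    nlinarith

theorem fl34_dense {n : ℕ} {v : ℕ → ℝ × ℝ} (P : PG n v) : Dense {p : ℝ × ℝ | GP n v p} := by
  have h1 : {p : ℝ × ℝ | GP n v p} = ⋂ x : {x : ℕ × ℕ // x.1 < n ∧ x.2 < n ∧ x.1 ≠ x.2},
      {p : ℝ × ℝ | orient (v x.1.1) (v x.1.2) p ≠ 0} := by
    ext p
    rw [mem_iInter]
    constructor
    · rintro h ⟨⟨i, j⟩, hi, hj, hij⟩
      exact h i hi j hj hij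
    · intro h i hi j hj hij
      exact h ⟨(i, j), hi, hj, hij⟩
  rw [h1]
  refine dense_iInter_of_isOpen (fun x => ?_) (fun x => ?_)
  · exact isOpen_ne_fun (continuous_orient _ _) continuous_const
  · refine fl34_dense_line fun he => x.2.2.2 ?_
    exact vertex_inj P.simple x.2.1 x.2.2.1 he

/-- a cover by states gives floodlights -/
theorem Cov.canLight {n : ℕ} {v : ℕ → ℝ × ℝ} (P : PG n v) {σ : ℕ → St} (h : Cov n v σ)
    (hok : ∀ i < n, Ok n v i (σ i)) : CanLight n v (cnt n σ) := by
  classical
  have hs := P.simple
  refine ⟨(Finset.range n).filter fun i => σ i ≠ St.off,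
    fun i => fl34_nrm (fl34_dir n v i (σ i)), ?_, ?_, ?_⟩
  · intro i hi
    rw [Finset.mem_filter, Finset.mem_range] at hi
    obtain ⟨hin, hoff⟩ := hi
    have hne : ed n v i ≠ 0 := fun h0 => edge_nondeg hs hin (sub_eq_zero.1 h0).symm
    have hpn : pv n i < n := pv_lt (pos hs) i
    have hne' : v i - v (pv n i) ≠ 0 := by
      intro h0
      have h1 := edge_nondeg hs hpn
      rw [nx_pv hin] at h1
      exact h1 (sub_eq_zero.1 h0).symm
    have ho := hok i hin
    have hd : fl34_dir n v i (σ i) ≠ 0 := by
      cases hσ : σ i with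
      | off => exact absurd hσ hoff
      | N => exact hne
      | P => exact hne'
      | K => exact hne
      | H d =>
        rw [hσ] at ho
        exact ho.1
    refine ⟨hin, fl34_nrm_ne hd, ?_⟩
    rw [inwardFacing_iff hs P.ccw hin (fl34_nrm_ne hd)]
    cases hσ : σ i with
    | off => exact absurd hσ hoff
    | N =>
      rw [hσ] at ho
      have ho' : tn n v i < 0 := ho
      right
      refine ⟨ho', ?_, ?_⟩
      · simp only [fl34_nrm, fl34_dir, ed, Prod.fst_sub, Prod.snd_sub]
        nlinarith
      · simp only [fl34_nrm, fl34_dir, ed, Prod.fst_sub, Prod.snd_sub]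
        unfold tn orient at ho'
        nlinarith
    | P =>
      rw [hσ] at ho
      have ho' : tn n v i < 0 := ho
      right
      refine ⟨ho', ?_, ?_⟩
      · simp only [fl34_nrm, fl34_dir, Prod.fst_sub, Prod.snd_sub]
        unfold tn orient at ho'
        nlinarith
      · simp only [fl34_nrm, fl34_dir, Prod.fst_sub, Prod.snd_sub]
        nlinarith
    | K =>
      rw [hσ] at ho
      have ho' : 0 < tn n v i := ho
      left
      refine ⟨ho', ?_, ?_⟩
      · simp only [fl34_nrm, fl34_dir, ed, Prod.fst_sub, Prod.snd_sub]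
        nlinarith
      · simp only [fl34_nrm, fl34_dir, ed, Prod.fst_sub, Prod.snd_sub]
        unfold tn orient at ho'
        nlinarith
    | H d =>
      rw [hσ] at ho
      obtain ⟨-, ho', h1, h2⟩ := ho
      right
      refine ⟨ho', ?_, ?_⟩
      · simp only [fl34_nrm, fl34_dir]
        simp only [cr, ed, Prod.fst_sub, Prod.snd_sub] at h1
        nlinarith
      · simp only [fl34_nrm, fl34_dir]
        simp only [cr, Prod.fst_sub, Prod.snd_sub] at h2
        nlinarith
  · refine illuminates_of_dense (region_eq hs) ?_ (fl34_dense P) ?_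
    · have h1 := closure_inner hs
      intro x hx
      have h2 := curve_subset_region hs hx
      rw [← h1] at h2
      exact h2
    · intro q hq hg
      obtain ⟨i, hin, hu, hsee⟩ := h q hq hg
      have hoff : σ i ≠ St.off := by
        intro h0
        rw [h0] at hu
        exact hu
      refine ⟨i, Finset.mem_filter.2 ⟨Finset.mem_range.2 hin, hoff⟩, ?_,
        see_region P hsee.symm⟩
      have hsec := see_sector_gp P hin hg hsee.symm
      have ho := hok i hin
      rw [mem_halfPlane]
      cases hσ : σ i with
      | off => exact absurd hσ hoff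
      | N =>
        rw [hσ] at ho hu
        have ho' : tn n v i < 0 := ho
        have hu' : orient (v (pv n i)) (v i) q < 0 := hu
        have h1 : 0 < orient (v i) (v (nx n i)) q := by
          rcases hsec with h | h
          · exact absurd ho' (not_lt.2 h.1.le)
          · rcases h.2 with h | h
            · exact absurd hu' (not_lt.2 h.le)
            · exact h
        simp only [fl34_nrm, fl34_dir, ed, Prod.fst_sub, Prod.snd_sub]
        unfold orient at h1
        nlinarith
      | P =>
        rw [hσ] at ho hu
        have ho' : tn n v i < 0 := ho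
        have hu' : orient (v i) (v (nx n i)) q < 0 := hu
        have h1 : 0 < orient (v (pv n i)) (v i) q := by
          rcases hsec with h | h
          · exact absurd ho' (not_lt.2 h.1.le)
          · rcases h.2 with h | h
            · exact h
            · exact absurd hu' (not_lt.2 h.le)
        simp only [fl34_nrm, fl34_dir, Prod.fst_sub, Prod.snd_sub]
        unfold orient at h1
        nlinarith
      | K =>
        rw [hσ] at ho
        have ho' : 0 < tn n v i := ho
        have h1 : 0 < orient (v i) (v (nx n i)) q := by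
          rcases hsec with h | h
          · exact h.2.2
          · exact absurd ho' (not_lt.2 h.1.le)
        simp only [fl34_nrm, fl34_dir, ed, Prod.fst_sub, Prod.snd_sub]
        unfold orient at h1
        nlinarith
      | H d =>
        rw [hσ] at hu
        have hu' : 0 < cr d (q - v i) := hu
        simp only [fl34_nrm, fl34_dir]
        simp only [cr, Prod.fst_sub, Prod.snd_sub] at hu'
        nlinarith
  · unfold cnt
    exact le_of_eq (by congr)

end fin

end Pool.Agent.FL
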