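import Pool.Agent.FL.SplitIJ
import Pool.Agent.FL.Gv

/-! MP_8a5d4f_co, project FL, row FL-25 -/

set_option autoImplicit false

namespace Pool.Agent.FL

open Set Filter Topology Pool.Agent.H54.Fl Pool.Agent.H75.PolyJ Pool.Agent.H95.Poly

section vertex

/-- the use of a light at `x` between the neighbours `q` (previous) and `u` (next) -/
def fl25_use (q x u : ℝ × ℝ) : St → ℝ × ℝ → Prop
  | St.off, _ => False
  | St.N, p => orient q x p < 0
  | St.P, p => orient x u p < 0
  | St.K, _ => True
  | St.H d, p => 0 < cr d (p - x)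

/-- admissible states at `x` between the neighbours `q` (previous) and `u` (next) -/
def fl25_ok (q x u : ℝ × ℝ) : St → Prop
  | St.off => True
  | St.N => orient q x u < 0
  | St.P => orient q x u < 0
  | St.K => 0 < orient q x u
  | St.H d => d ≠ 0 ∧ orient q x u < 0 ∧ 0 ≤ cr (u - x) d ∧ 0 ≤ cr d (x - q)

/-- the strict interior angle at `x` -/
def fl25_sec (q x u p : ℝ × ℝ) : Prop :=
  (0 < orient q x u ∧ 0 < orient q x p ∧ 0 < orient x u p) ∨
    (orient q x u < 0 ∧ (0 < orient q x p ∨ 0 < orient x u p))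

theorem fl25_use_iff {n : ℕ} {v : ℕ → ℝ × ℝ} {i : ℕ} {st : St} {p : ℝ × ℝ} :
    Use n v i st p ↔ fl25_use (v (pv n i)) (v i) (v (nx n i)) st p := by
  cases st <;> exact Iff.rfl

theorem fl25_ok_iff {n : ℕ} {v : ℕ → ℝ × ℝ} {i : ℕ} {st : St} :
    Ok n v i st ↔ fl25_ok (v (pv n i)) (v i) (v (nx n i)) st := by
  cases st <;> exact Iff.rfl

open Classical in
/-- the merged state: `t` the turn at the vertex, `t1` the turn in the part `1` (with the previous
edge), `s1`, `s2` the states in the parts -/
noncomputable def fl25_mg (t t1 : ℝ) (s1 s2 : St) : St :=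
  if 0 < t then (if s1 = St.off ∧ s2 = St.off then St.off else St.K) else
    if t1 < 0 then (if s2 = St.off then s1 else St.N) else (if s1 = St.off then s2 else St.P)

theorem fl25_mg_ne {t t1 : ℝ} {s1 s2 : St} :
    fl25_mg t t1 s1 s2 ≠ St.off ↔ s1 ≠ St.off ∨ s2 ≠ St.off := by
  unfold fl25_mg
  by_cases h1 : s1 = St.off <;> by_cases h2 : s2 = St.off <;> by_cases h3 : 0 < t <;>
    by_cases h4 : t1 < 0 <;> simp [h1, h2, h3, h4]

/-- the three possibilities for the turns at a vertex of a pointed diagonal -/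
def fl25_tri (q x w u : ℝ × ℝ) : Prop :=
  (0 < orient q x u ∧ 0 < orient q x w ∧ 0 < orient w x u) ∨
    (orient q x u < 0 ∧ orient q x w < 0 ∧ 0 < orient w x u) ∨
    (orient q x u < 0 ∧ 0 < orient q x w ∧ orient w x u < 0)

variable {q x w u p : ℝ × ℝ} {s1 s2 : St}

/-- compatibility of the states of the two parts -/
structure fl25_comp (q x w u : ℝ × ℝ) (s1 s2 : St) : Prop where
  ok1 : fl25_ok q x w s1
  ok2 : fl25_ok w x u s2
  c1 : s2 ≠ St.off → orient q x w < 0 → s1 = St.off ∨ s1 = St.N
  c2 : s1 ≠ St.off → orient w x u < 0 → s2 = St.off ∨ s2 = St.P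

theorem fl25_ok_mg (T : fl25_tri q x w u) (C : fl25_comp q x w u s1 s2) :
    fl25_ok q x u (fl25_mg (orient q x u) (orient q x w) s1 s2) := by
  unfold fl25_mg
  rcases T with ⟨a, b, c⟩ | ⟨a, b, c⟩ | ⟨a, b, c⟩
  · rw [if_pos a]
    split_ifs
    · trivial
    · exact a
  · rw [if_neg (not_lt.2 a.le), if_pos b]
    split_ifs with h
    · have h1 := C.ok1
      cases s1 with
      | off => trivial
      | N => exact a
      | P => exact a
      | K => exact absurd h1 (not_lt.2 b.le)
      | H d => exact ⟨h1.1, a, gv3' b c a h1.2.2.1 h1.2.2.2, h1.2.2.2⟩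
    · exact a
  · rw [if_neg (not_lt.2 a.le), if_neg (not_lt.2 b.le)]
    split_ifs with h
    · have h1 := C.ok2
      cases s2 with
      | off => trivial
      | N => exact a
      | P => exact a
      | K => exact absurd h1 (not_lt.2 c.le)
      | H d => exact ⟨h1.1, a, h1.2.2.1, gv3 c b a h1.2.2.1 h1.2.2.2⟩
    · exact a

theorem fl25_use1 (T : fl25_tri q x w u) (C : fl25_comp q x w u s1 s2)
    (hs : fl25_sec q x w p) (hu : fl25_use q x w s1 p) :
    fl25_use q x u (fl25_mg (orient q x u) (orient q x w) s1 s2) p := by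
  have hne : s1 ≠ St.off := by
    rintro rfl
    exact hu
  unfold fl25_mg
  rcases T with ⟨a, b, c⟩ | ⟨a, b, c⟩ | ⟨a, b, c⟩
  · rw [if_pos a, if_neg (fun h => hne h.1)]
    trivial
  · rw [if_neg (not_lt.2 a.le), if_pos b]
    split_ifs with h
    · have h1 := C.ok1
      cases s1 with
      | off => exact hu
      | N => exact hu
      | P =>
        have h2 : orient x w p < 0 := hu
        have h3 : 0 < orient q x p := by
          rcases hs with ⟨h4, -, -⟩ | ⟨-, h4 | h4⟩
          · exact absurd h4 (not_lt.2 b.le)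
          · exact h4
          · exact absurd h4 (not_lt.2 h2.le)
        exact gv1' b c a h2 h3
      | K => exact absurd h1 (not_lt.2 b.le)
      | H d => exact hu
    · rcases C.c1 h b with h1 | h1
      · exact absurd h1 hne
      · rw [h1] at hu
        exact hu
  · rw [if_neg (not_lt.2 a.le), if_neg (not_lt.2 b.le), if_neg hne]
    rcases hs with ⟨-, h4, h5⟩ | ⟨h4, -⟩
    · exact gv2 c b a h4 h5
    · exact absurd h4 (not_lt.2 b.le)

theorem fl25_use2 (T : fl25_tri q x w u) (C : fl25_comp q x w u s1 s2)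
    (hs : fl25_sec w x u p) (hu : fl25_use w x u s2 p) :
    fl25_use q x u (fl25_mg (orient q x u) (orient q x w) s1 s2) p := by
  have hne : s2 ≠ St.off := by
    rintro rfl
    exact hu
  unfold fl25_mg
  rcases T with ⟨a, b, c⟩ | ⟨a, b, c⟩ | ⟨a, b, c⟩
  · rw [if_pos a, if_neg (fun h => hne h.2)]
    trivial
  · rw [if_neg (not_lt.2 a.le), if_pos b, if_neg hne]
    rcases hs with ⟨-, h4, h5⟩ | ⟨h4, -⟩
    · exact gv2' b c a h5 h4
    · exact absurd h4 (not_lt.2 c.le)
  · rw [if_neg (not_lt.2 a.le), if_neg (not_lt.2 b.le)]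
    split_ifs with h
    · have h1 := C.ok2
      cases s2 with
      | off => exact hu
      | N =>
        have h2 : orient w x p < 0 := hu
        have h3 : 0 < orient x u p := by
          rcases hs with ⟨h4, -, -⟩ | ⟨-, h4 | h4⟩
          · exact absurd h4 (not_lt.2 c.le)
          · exact absurd h4 (not_lt.2 h2.le)
          · exact h4
        exact gv1 c b a h2 h3
      | P => exact hu
      | K => exact absurd h1 (not_lt.2 c.le)
      | H d => exact hu
    · rcases C.c2 h c with h1 | h1
      · exact absurd h1 hne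
      · rw [h1] at hu
        exact hu

/-- The data at a vertex of the diagonal, for all slots: the states `s1`, `s2` in the parts, the
sets `R1` (diagonal, part `1`) and `L2` (diagonal, part `2`) are equal. -/
structure fl25_vx {ι : Type} (q x w u : ℝ × ℝ) (s1 s2 : ι → St) (R1 : Finset ι) : Prop where
  tri : fl25_tri q x w u
  ok1 : ∀ s, fl25_ok q x w (s1 s)
  ok2 : ∀ s, fl25_ok w x u (s2 s)
  r1in : ∀ s ∈ R1, s1 s = St.off ∨ s1 s = St.N ∨ s1 s = St.K
  r1out : 0 < orient q x w → ∀ s ∉ R1, s1 s = St.off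
  l2in : ∀ s ∈ R1, s2 s = St.off ∨ s2 s = St.P ∨ s2 s = St.K
  l2out : 0 < orient w x u → ∀ s ∉ R1, s2 s = St.off

theorem fl25_not_K {q x u : ℝ × ℝ} (h : fl25_ok q x u St.K) (h' : orient q x u < 0) : False :=
  absurd h (not_lt.2 h'.le)

theorem fl25_vx.comp {ι : Type} {s1 s2 : ι → St} {R1 : Finset ι}
    (V : fl25_vx q x w u s1 s2 R1) (s : ι) : fl25_comp q x w u (s1 s) (s2 s) := by
  refine ⟨V.ok1 s, V.ok2 s, ?_, ?_⟩
  · intro h h'
    have h2 : 0 < orient w x u := by
      rcases V.tri with ⟨a, b, c⟩ | ⟨a, b, c⟩ | ⟨a, b, c⟩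
      · exact c
      · exact c
      · exact absurd b (not_lt.2 h'.le)
    have hs : s ∈ R1 := by
      by_contra hs
      exact h (V.l2out h2 s hs)
    rcases V.r1in s hs with h3 | h3 | h3
    · exact Or.inl h3
    · exact Or.inr h3
    · exact (fl25_not_K (h3 ▸ V.ok1 s) h').elim
  · intro h h'
    have h2 : 0 < orient q x w := by
      rcases V.tri with ⟨a, b, c⟩ | ⟨a, b, c⟩ | ⟨a, b, c⟩
      · exact b
      · exact absurd c (not_lt.2 h'.le)
      · exact b
    have hs : s ∈ R1 := by
      by_contra hs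
      exact h (V.r1out h2 s hs)
    rcases V.l2in s hs with h3 | h3 | h3
    · exact Or.inl h3
    · exact Or.inr h3
    · exact (fl25_not_K (h3 ▸ V.ok2 s) h').elim

/-- an open edge before the vertex, in the part `1` -/
structure fl25_lf {ι : Type} (q x w : ℝ × ℝ) (s1 : ι → St) (R1 L1 : Finset ι) : Prop where
  l1in : ∀ s ∈ L1, s1 s = St.off ∨ s1 s = St.P ∨ s1 s = St.K
  dv : orient q x w < 0 → Disjoint R1 L1
  dk : 0 < orient q x w → R1 = L1

/-- an open edge after the vertex, in the part `2` -/
structure fl25_rt {ι : Type} (w x u : ℝ × ℝ) (s2 : ι → St) (R2 L2 : Finset ι) : Prop where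
  r2in : ∀ s ∈ R2, s2 s = St.off ∨ s2 s = St.N ∨ s2 s = St.K
  dv : orient w x u < 0 → Disjoint R2 L2
  dk : 0 < orient w x u → R2 = L2

theorem fl25_lin {ι : Type} {s1 s2 : ι → St} {R1 L1 : Finset ι}
    (V : fl25_vx q x w u s1 s2 R1) (F : fl25_lf q x w s1 R1 L1) :
    (∀ s ∈ L1, fl25_mg (orient q x u) (orient q x w) (s1 s) (s2 s) = St.off ∨
      fl25_mg (orient q x u) (orient q x w) (s1 s) (s2 s) = St.P ∨
      fl25_mg (orient q x u) (orient q x w) (s1 s) (s2 s) = St.K) ∧
    (0 < orient q x u → ∀ s ∉ L1, fl25_mg (orient q x u) (orient q x w) (s1 s) (s2 s) = St.off) := by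
  constructor
  · intro s hs
    unfold fl25_mg
    rcases V.tri with ⟨a, b, c⟩ | ⟨a, b, c⟩ | ⟨a, b, c⟩
    · rw [if_pos a]
      split_ifs
      · exact Or.inl rfl
      · exact Or.inr (Or.inr rfl)
    · rw [if_neg (not_lt.2 a.le), if_pos b]
      split_ifs with h
      · exact F.l1in s hs
      · exfalso
        have h2 : s ∈ R1 := by
          by_contra h2
          exact h (V.l2out c s h2)
        exact Finset.disjoint_left.1 (F.dv b) h2 hs
    · rw [if_neg (not_lt.2 a.le), if_neg (not_lt.2 b.le)]
      split_ifs with h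
      · rw [← F.dk b] at hs
        exact V.l2in s hs
      · exact Or.inr (Or.inl rfl)
  · intro h s hs
    unfold fl25_mg
    rcases V.tri with ⟨a, b, c⟩ | ⟨a, b, c⟩ | ⟨a, b, c⟩
    · rw [← F.dk b] at hs
      rw [if_pos a, if_pos ⟨V.r1out b s hs, V.l2out c s hs⟩]
    · exact absurd h (not_lt.2 a.le)
    · exact absurd h (not_lt.2 a.le)

theorem fl25_rin {ι : Type} {s1 s2 : ι → St} {R1 R2 : Finset ι}
    (V : fl25_vx q x w u s1 s2 R1) (F : fl25_rt w x u s2 R2 R1) :
    (∀ s ∈ R2, fl25_mg (orient q x u) (orient q x w) (s1 s) (s2 s) = St.off ∨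
      fl25_mg (orient q x u) (orient q x w) (s1 s) (s2 s) = St.N ∨
      fl25_mg (orient q x u) (orient q x w) (s1 s) (s2 s) = St.K) ∧
    (0 < orient q x u → ∀ s ∉ R2, fl25_mg (orient q x u) (orient q x w) (s1 s) (s2 s) = St.off) := by
  constructor
  · intro s hs
    unfold fl25_mg
    rcases V.tri with ⟨a, b, c⟩ | ⟨a, b, c⟩ | ⟨a, b, c⟩
    · rw [if_pos a]
      split_ifs
      · exact Or.inl rfl
      · exact Or.inr (Or.inr rfl)
    · rw [if_neg (not_lt.2 a.le), if_pos b]
      split_ifs with h
      · rw [F.dk c] at hs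
        exact V.r1in s hs
      · exact Or.inr (Or.inl rfl)
    · rw [if_neg (not_lt.2 a.le), if_neg (not_lt.2 b.le)]
      split_ifs with h
      · exact F.r2in s hs
      · exfalso
        have h2 : s ∈ R1 := by
          by_contra h2
          exact h (V.r1out b s h2)
        exact Finset.disjoint_left.1 (F.dv c) hs h2
  · intro h s hs
    unfold fl25_mg
    rcases V.tri with ⟨a, b, c⟩ | ⟨a, b, c⟩ | ⟨a, b, c⟩
    · rw [F.dk c] at hs
      rw [if_pos a, if_pos ⟨V.r1out b s hs, V.l2out c s hs⟩]
    · exact absurd h (not_lt.2 a.le)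
    · exact absurd h (not_lt.2 a.le)

theorem fl25_dvk {ι : Type} {s1 s2 : ι → St} {R1 L1 R2 : Finset ι}
    (V : fl25_vx q x w u s1 s2 R1) (F : fl25_lf q x w s1 R1 L1) (G : fl25_rt w x u s2 R2 R1) :
    (orient q x u < 0 → Disjoint R2 L1) ∧ (0 < orient q x u → R2 = L1) := by
  rcases V.tri with ⟨a, b, c⟩ | ⟨a, b, c⟩ | ⟨a, b, c⟩
  · refine ⟨fun h => absurd h (not_lt.2 a.le), fun _ => ?_⟩
    rw [G.dk c, F.dk b]
  · refine ⟨fun _ => ?_, fun h => absurd h (not_lt.2 a.le)⟩
    rw [G.dk c]; exact F.dv b
  · refine ⟨fun _ => ?_, fun h => absurd h (not_lt.2 a.le)⟩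
    rw [← F.dk b]; exact G.dv c

end vertex

section index

theorem fl25_nx {n k : ℕ} (h : k + 1 < n) : nx n k = k + 1 := by
  unfold nx; rw [Nat.mod_eq_of_lt h]

theorem fl25_nx0 {n k : ℕ} (h : k + 1 = n) : nx n k = 0 := by
  unfold nx; rw [h, Nat.mod_self]

theorem fl25_pv {n k : ℕ} (h : 0 < k) (h' : k < n) : pv n k = k - 1 := by
  unfold pv
  rw [show k + (n - 1) = k - 1 + n by omega, Nat.add_mod_right, Nat.mod_eq_of_lt (by omega)]

theorem fl25_pv0 {n : ℕ} (h : 0 < n) : pv n 0 = n - 1 := by
  unfold pv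
  rw [Nat.zero_add, Nat.mod_eq_of_lt (by omega)]

theorem fl25_nx_pv {n k : ℕ} (h : k < n) : nx n (pv n k) = k := by
  rcases Nat.eq_zero_or_pos k with h0 | h0
  · subst h0
    rw [fl25_pv0 h, fl25_nx0 (by omega)]
  · rw [fl25_pv h0 h, fl25_nx (by omega)]
    omega

variable {n : ℕ} {v : ℕ → ℝ × ℝ} {i j : ℕ}

theorem fl25_co1 (hj : j < n) (hij : i + 2 ≤ j) {m : ℕ} (hm : m ≤ i) :
    co v i j (pv (n - (j - i) + 1) m) = v (pv n m) ∧ co v i j m = v m := by
  refine ⟨?_, fl5_co_le hm⟩
  rcases Nat.eq_zero_or_pos m with h0 | h0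
  · subst h0
    rw [fl25_pv0 (by omega), fl25_pv0 (by omega), fl5_co_gt (by omega)]
    congr 1; omega
  · rw [fl25_pv h0 (by omega), fl25_pv h0 (by omega), fl5_co_le (by omega)]

theorem fl25_co2 (hj : j < n) (hij : i + 2 ≤ j) {m : ℕ} (hm : m < i) :
    co v i j (nx (n - (j - i) + 1) m) = v (nx n m) := by
  rw [fl25_nx (by omega), fl25_nx (by omega), fl5_co_le (by omega)]

theorem fl25_co3 (hij : i + 2 ≤ j) {m : ℕ} (hm : j ≤ m) :
    co v i j (m - (j - i) + 1) = v m := by
  rw [fl5_co_gt (by omega)]
  congr 1; omega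

theorem fl25_co4 (hij : i + 2 ≤ j) {m : ℕ} (hm : j ≤ m) (hmn : m < n) :
    co v i j (nx (n - (j - i) + 1) (m - (j - i) + 1)) = v (nx n m) := by
  rcases Nat.lt_or_ge (m + 1) n with h | h
  · rw [fl25_nx (by omega), fl25_nx h, fl5_co_gt (by omega)]
    congr 1; omega
  · rw [fl25_nx0 (by omega), fl25_nx0 (by omega), fl5_co_le (by omega)]

theorem fl25_co5 (hij : i + 2 ≤ j) {m : ℕ} (hm : j < m) (hmn : m < n) :
    co v i j (pv (n - (j - i) + 1) (m - (j - i) + 1)) = v (pv n m) := by
  rw [fl25_pv (by omega) (by omega), fl25_pv (by omega) hmn, fl5_co_gt (by omega)]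
  congr 1; omega

theorem fl25_arc1 {m : ℕ} (hm : i ≤ m) : arc v i (m - i) = v m := by
  unfold arc; congr 1; omega

theorem fl25_arc2 {m : ℕ} (hj : j < n) (hm : i < m) (hmj : m ≤ j) :
    arc v i (pv (j - i + 1) (m - i)) = v (pv n m) := by
  rw [fl25_pv (by omega) (by omega), fl25_pv (by omega) (by omega)]
  unfold arc; congr 1; omega

theorem fl25_arc3 {m : ℕ} (hj : j < n) (hm : i ≤ m) (hmj : m < j) :
    arc v i (nx (j - i + 1) (m - i)) = v (nx n m) := by
  rw [fl25_nx (by omega), fl25_nx (by omega)]
  unfold arc; congr 1; omega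

theorem fl25_see_arc (P : PG n v) (D : Dg n v i j) {p q : ℝ × ℝ}
    (h : See (j - i + 1) (arc v i) p q) : See n v p q := fun z hz => D.inner_arc P (h z hz)

theorem fl25_see_co (P : PG n v) (D : Dg n v i j) {p q : ℝ × ℝ}
    (h : See (n - (j - i) + 1) (co v i j) p q) : See n v p q := fun z hz => D.inner_co P (h z hz)

theorem fl25_sec_of {p : ℝ × ℝ} (P : PG n v) {m : ℕ} (hm : m < n) (hg : GP n v p)
    (hs : See n v p (v m)) : fl25_sec (v (pv n m)) (v m) (v (nx n m)) p :=
  see_sector_gp P hm hg hs.symm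

theorem fl25_triI (P : PG n v) (D : Dg n v i j)
    (hi : 0 < tn n v i ∨ orient (v (pv n i)) (v i) (v j) < 0 ∨
      orient (v j) (v i) (v (i + 1)) < 0) :
    fl25_tri (v (pv n i)) (v i) (v j) (v (i + 1)) := by
  have h1 := D.lt
  have h2 := D.ltn
  have h3 := D.nl
  have en : nx n i = i + 1 := fl25_nx (by omega)
  have hp : j ≠ pv n i := by
    rcases Nat.eq_zero_or_pos i with h0 | h0
    · subst h0
      rw [fl25_pv0 (by omega)]; omega
    · rw [fl25_pv h0 (by omega)]; omega
  have hs := see_sector_vx P (show i < n by omega) h2 (by omega) hp (by rw [en]; omega) D.see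
  rw [en] at hs
  have ec : orient (v i) (v (i + 1)) (v j) = orient (v j) (v i) (v (i + 1)) := by
    unfold orient; ring
  rw [ec] at hs
  have et : tn n v i = orient (v (pv n i)) (v i) (v (i + 1)) := by
    unfold tn; rw [en]
  rw [et] at hs hi
  rcases hs with ⟨a, b, c⟩ | ⟨a, b⟩
  · exact Or.inl ⟨a, b, c⟩
  · rcases hi with h | h | h
    · exact absurd h (not_lt.2 a.le)
    · rcases b with b | b
      · exact absurd b (not_lt.2 h.le)
      · exact Or.inr (Or.inl ⟨a, h, b⟩)
    · rcases b with b | b
      · exact Or.inr (Or.inr ⟨a, b, h⟩)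
      · exact absurd b (not_lt.2 h.le)

theorem fl25_triJ (P : PG n v) (D : Dg n v i j)
    (hj : 0 < tn n v j ∨ orient (v (j - 1)) (v j) (v i) < 0 ∨
      orient (v i) (v j) (v (nx n j)) < 0) :
    fl25_tri (v (j - 1)) (v j) (v i) (v (nx n j)) := by
  have h1 := D.lt
  have h2 := D.ltn
  have h3 := D.nl
  have ep : pv n j = j - 1 := fl25_pv (by omega) h2
  have hp : i ≠ nx n j := by
    rcases Nat.lt_or_ge (j + 1) n with h0 | h0
    · rw [fl25_nx h0]; omega
    · rw [fl25_nx0 (by omega)]; omega
  have hs := see_sector_vx P h2 (show i < n by omega) (by omega) (by rw [ep]; omega) hp D.see.symm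
  rw [ep] at hs
  have ec : orient (v j) (v (nx n j)) (v i) = orient (v i) (v j) (v (nx n j)) := by
    unfold orient; ring
  rw [ec] at hs
  have et : tn n v j = orient (v (j - 1)) (v j) (v (nx n j)) := by
    unfold tn; rw [ep]
  rw [et] at hs hj
  rcases hs with ⟨a, b, c⟩ | ⟨a, b⟩
  · exact Or.inl ⟨a, b, c⟩
  · rcases hj with h | h | h
    · exact absurd h (not_lt.2 a.le)
    · rcases b with b | b
      · exact absurd b (not_lt.2 h.le)
      · exact Or.inr (Or.inl ⟨a, h, b⟩)
    · rcases b with b | b
      · exact Or.inr (Or.inr ⟨a, b, h⟩)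
      · exact absurd b (not_lt.2 h.le)

end index

section glue

/-- the glueing of two systems along a diagonal -/
theorem Sys.glue {ι : Type} [Fintype ι] [DecidableEq ι] {n : ℕ} {v : ℕ → ℝ × ℝ} {i j : ℕ}
    (P : PG n v) (D : Dg n v i j)
    (hi : 0 < tn n v i ∨ orient (v (pv n i)) (v i) (v j) < 0 ∨
      orient (v j) (v i) (v (i + 1)) < 0)
    (hj : 0 < tn n v j ∨ orient (v (j - 1)) (v j) (v i) < 0 ∨
      orient (v i) (v j) (v (nx n j)) < 0)
    {Xa : ℕ → Prop} {Ra La : ℕ → Finset ι} {σa : ι → ℕ → St}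
    (A : Sys ι (j - i + 1) (arc v i) Xa Ra La σa)
    {Xc : ℕ → Prop} {Rc Lc : ℕ → Finset ι} {σc : ι → ℕ → St}
    (C : Sys ι (n - (j - i) + 1) (co v i j) Xc Rc Lc σc)
    (ha : Xa (j - i)) (hc : Xc i) (e1 : La 0 = Rc i) (e2 : Ra (j - i) = Lc (i + 1)) :
    ∃ σ : ι → ℕ → St, Sys ι n v (gE i j Xa Xc) (gE i j Ra Rc) (gL i j La Lc) σ ∧
      ∀ s, (∀ m, m < i → σ s m = σc s m) ∧
        (σ s i ≠ St.off ↔ σa s 0 ≠ St.off ∨ σc s i ≠ St.off) ∧
        (∀ m, i < m → m < j → σ s m = σa s (m - i)) ∧
        (σ s j ≠ St.off ↔ σa s (j - i) ≠ St.off ∨ σc s (i + 1) ≠ St.off) ∧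
        (∀ m, j < m → m < n → σ s m = σc s (m - (j - i) + 1)) := by
  classical
  have h1 := D.lt
  have h2 := D.ltn
  have h3 := D.nl
  have Pa := D.arc_pg P
  have Pc := D.co_pg P
  have T1 := fl25_triI P D hi
  have T2 := fl25_triJ P D hj
  have en : nx n i = i + 1 := fl25_nx (by omega)
  have ep : pv n j = j - 1 := fl25_pv (by omega) h2
  have eti : tn n v i = orient (v (pv n i)) (v i) (v (i + 1)) := by unfold tn; rw [en]
  have etj : tn n v j = orient (v (j - 1)) (v j) (v (nx n j)) := by unfold tn; rw [ep]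
  have a0 := tn_arc_0 (v := v) h2 h1
  have al := tn_arc_last (v := v) h2 h1
  have ci := tn_co_i (v := v) h2 h1 h3
  have cj := tn_co_j (v := v) h2 h1 h3
  -- values at the diagonal
  have va0 : arc v i 0 = v i := rfl
  have val : arc v i (j - i) = v j := fl25_arc1 (by omega)
  have vci : co v i j i = v i := fl5_co_le le_rfl
  have vcj : co v i j (i + 1) = v j := by
    have := fl25_co3 (v := v) h1 (le_refl j)
    rwa [show j - (j - i) + 1 = i + 1 by omega] at this
  have na1 : nx (j - i + 1) (j - i) = 0 := fl25_nx0 rfl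
  have na2 : pv (j - i + 1) 0 = j - i := by rw [fl25_pv0 (by omega)]; omega
  have na3 : nx (j - i + 1) 0 = 1 := fl25_nx (by omega)
  have na4 : pv (j - i + 1) (j - i) = j - i - 1 := fl25_pv (by omega) (by omega)
  have nc1 : nx (n - (j - i) + 1) i = i + 1 := fl25_nx (by omega)
  have nc2 : pv (n - (j - i) + 1) (i + 1) = i := by
    rw [fl25_pv (by omega) (by omega)]; omega
  -- the states
  set MI : ι → St := fun s => fl25_mg (orient (v (pv n i)) (v i) (v (i + 1)))
    (orient (v (pv n i)) (v i) (v j)) (σc s i) (σa s 0) with hMI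
  set MJ : ι → St := fun s => fl25_mg (orient (v (j - 1)) (v j) (v (nx n j)))
    (orient (v (j - 1)) (v j) (v i)) (σa s (j - i)) (σc s (i + 1)) with hMJ
  set σ : ι → ℕ → St := fun s m => if m < i then σc s m else if m = i then MI s else
    if m < j then σa s (m - i) else if m = j then MJ s else σc s (m - (j - i) + 1) with hσ
  have s1 : ∀ s m, m < i → σ s m = σc s m := by
    intro s m h; simp only [hσ]; rw [if_pos h]
  have s2 : ∀ s, σ s i = MI s := by
    intro s; simp only [hσ]; rw [if_neg (lt_irrefl i), if_pos trivial]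
  have s3 : ∀ s m, i < m → m < j → σ s m = σa s (m - i) := by
    intro s m h h'; simp only [hσ]
    rw [if_neg (by omega), if_neg (by omega), if_pos h']
  have s4 : ∀ s, σ s j = MJ s := by
    intro s; simp only [hσ]
    rw [if_neg (by omega), if_neg (by omega), if_neg (by omega), if_pos trivial]
  have s5 : ∀ s m, j < m → σ s m = σc s (m - (j - i) + 1) := by
    intro s m h; simp only [hσ]
    rw [if_neg (by omega), if_neg (by omega), if_neg (by omega), if_neg (by omega)]
  -- values of the glued data
  have x1 : ∀ {γ : Type} (a c : ℕ → γ) (m : ℕ), m < i → gE i j a c m = c m := by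
    intro γ a c m h; unfold gE; rw [if_pos h]
  have x2 : ∀ {γ : Type} (a c : ℕ → γ) (m : ℕ), i ≤ m → m < j → gE i j a c m = a (m - i) := by
    intro γ a c m h h'; unfold gE; rw [if_neg (by omega), if_pos h']
  have x3 : ∀ {γ : Type} (a c : ℕ → γ) (m : ℕ), j ≤ m → gE i j a c m = c (m - (j - i) + 1) := by
    intro γ a c m h; unfold gE; rw [if_neg (by omega), if_neg (by omega)]
  have y1 : ∀ {γ : Type} (a c : ℕ → γ) (m : ℕ), m ≤ i → gL i j a c m = c m := by
    intro γ a c m h; unfold gL; rw [if_pos h]
  have y2 : ∀ {γ : Type} (a c : ℕ → γ) (m : ℕ), i < m → m ≤ j → gL i j a c m = a (m - i) := by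
    intro γ a c m h h'; unfold gL; rw [if_neg (by omega), if_pos h']
  have y3 : ∀ {γ : Type} (a c : ℕ → γ) (m : ℕ), j < m → gL i j a c m = c (m - (j - i) + 1) := by
    intro γ a c m h; unfold gL; rw [if_neg (by omega), if_neg (by omega)]
  -- the vertex i
  have VI : fl25_vx (v (pv n i)) (v i) (v j) (v (i + 1)) (fun s => σc s i) (fun s => σa s 0)
      (Rc i) := by
    refine ⟨T1, ?_, ?_, ?_, ?_, ?_, ?_⟩
    · intro s
      have := fl25_ok_iff.1 (C.ok s i (by omega))
      rw [nc1, vcj, vci, (fl25_co1 h2 h1 (le_refl i)).1] at this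
      exact this
    · intro s
      have := fl25_ok_iff.1 (A.ok s 0 (by omega))
      rw [na2, na3, val] at this
      exact this
    · exact C.rin i (by omega) hc
    · intro h s hs
      exact C.rout i (by omega) hc (by rw [ci]; exact h) s hs
    · intro s hs
      have := A.lin (j - i) (by omega) ha s
      rw [na1] at this
      exact this (by rw [e1]; exact hs)
    · intro h s hs
      have := A.lout (j - i) (by omega) ha
      rw [na1, a0] at this
      exact this h s (by rw [e1]; exact hs)
  -- the vertex j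
  have VJ : fl25_vx (v (j - 1)) (v j) (v i) (v (nx n j)) (fun s => σa s (j - i))
      (fun s => σc s (i + 1)) (Ra (j - i)) := by
    refine ⟨T2, ?_, ?_, ?_, ?_, ?_, ?_⟩
    · intro s
      have := fl25_ok_iff.1 (A.ok s (j - i) (by omega))
      rw [na1, val, fl25_arc2 h2 (by omega) le_rfl, ep] at this
      exact this
    · intro s
      have := fl25_ok_iff.1 (C.ok s (i + 1) (by omega))
      have e := fl25_co4 (v := v) h1 (le_refl j) h2
      rw [show j - (j - i) + 1 = i + 1 by omega] at e
      rw [nc2, vcj, vci, e] at this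
      exact this
    · exact A.rin (j - i) (by omega) ha
    · intro h s hs
      exact A.rout (j - i) (by omega) ha (by rw [al]; exact h) s hs
    · intro s hs
      have := C.lin i (by omega) hc s
      rw [nc1] at this
      exact this (by rw [← e2]; exact hs)
    · intro h s hs
      have := C.lout i (by omega) hc
      rw [nc1, cj] at this
      exact this h s (by rw [← e2]; exact hs)
  -- open edges at the vertices i and j
  have FI : Xc (pv (n - (j - i) + 1) i) →
      fl25_lf (v (pv n i)) (v i) (v j) (fun s => σc s i) (Rc i) (Lc i) := by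
    intro hx
    have hlt : pv (n - (j - i) + 1) i < n - (j - i) + 1 := pv_lt (by omega) i
    refine ⟨?_, ?_, ?_⟩
    · have := C.lin _ hlt hx
      rw [fl25_nx_pv (by omega)] at this
      exact this
    · intro h; exact C.dv i (by omega) hc hx (by rw [ci]; exact h)
    · intro h; exact C.dk i (by omega) hc hx (by rw [ci]; exact h)
  have GI : Xa 0 → fl25_rt (v j) (v i) (v (i + 1)) (fun s => σa s 0) (Ra 0) (Rc i) := by
    intro hx
    refine ⟨A.rin 0 (by omega) hx, ?_, ?_⟩
    · intro h
      rw [← e1]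
      exact A.dv 0 (by omega) hx (by rw [na2]; exact ha) (by rw [a0]; exact h)
    · intro h
      rw [← e1]
      exact A.dk 0 (by omega) hx (by rw [na2]; exact ha) (by rw [a0]; exact h)
  have FJ : Xa (j - i - 1) → fl25_lf (v (j - 1)) (v j) (v i) (fun s => σa s (j - i))
      (Ra (j - i)) (La (j - i)) := by
    intro hx
    refine ⟨?_, ?_, ?_⟩
    · have := A.lin (j - i - 1) (by omega) hx
      rw [fl25_nx (by omega), show j - i - 1 + 1 = j - i by omega] at this
      exact this
    · intro h
      exact A.dv (j - i) (by omega) ha (by rw [na4]; exact hx) (by rw [al]; exact h)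
    · intro h
      exact A.dk (j - i) (by omega) ha (by rw [na4]; exact hx) (by rw [al]; exact h)
  have GJ : Xc (i + 1) → fl25_rt (v i) (v j) (v (nx n j)) (fun s => σc s (i + 1))
      (Rc (i + 1)) (Ra (j - i)) := by
    intro hx
    refine ⟨C.rin (i + 1) (by omega) hx, ?_, ?_⟩
    · intro h
      rw [e2]
      exact C.dv (i + 1) (by omega) hx (by rw [nc2]; exact hc) (by rw [cj]; exact h)
    · intro h
      rw [e2]
      exact C.dk (i + 1) (by omega) hx (by rw [nc2]; exact hc) (by rw [cj]; exact h)
  -- the turns in the parts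
  have tlt : ∀ m, m < i → tn (n - (j - i) + 1) (co v i j) m = tn n v m := by
    intro m hm
    unfold tn
    rw [(fl25_co1 h2 h1 hm.le).1, (fl25_co1 (v := v) h2 h1 hm.le).2, fl25_co2 h2 h1 hm]
  refine ⟨σ, ?_, ?_⟩
  swap
  · intro s
    refine ⟨fun m hm => s1 s m hm, ?_, fun m h h' => s3 s m h h', ?_, fun m h _ => s5 s m h⟩
    · rw [s2]
      simp only [hMI]
      rw [fl25_mg_ne, or_comm]
    · rw [s4]
      simp only [hMJ]
      rw [fl25_mg_ne]
  constructor
  · -- ok
    intro s m hm
    rcases lt_trichotomy m i with h | h | h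
    · rw [s1 s m h, fl25_ok_iff]
      have := fl25_ok_iff.1 (C.ok s m (by omega))
      rw [(fl25_co1 h2 h1 h.le).1, (fl25_co1 (v := v) h2 h1 h.le).2, fl25_co2 h2 h1 h] at this
      exact this
    · subst h
      rw [s2 s, fl25_ok_iff, en]
      exact fl25_ok_mg T1 (VI.comp s)
    · rcases lt_trichotomy m j with h' | h' | h'
      · rw [s3 s m h h', fl25_ok_iff]
        have := fl25_ok_iff.1 (A.ok s (m - i) (by omega))
        rw [fl25_arc2 h2 h h'.le, fl25_arc1 h.le, fl25_arc3 h2 h.le h'] at this
        exact this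
      · subst h'
        rw [s4 s, fl25_ok_iff, ep]
        exact fl25_ok_mg T2 (VJ.comp s)
      · rw [s5 s m h', fl25_ok_iff]
        have := fl25_ok_iff.1 (C.ok s (m - (j - i) + 1) (by omega))
        rw [fl25_co5 h1 h' hm, fl25_co3 h1 h'.le, fl25_co4 h1 h'.le hm] at this
        exact this
  · -- cov
    intro s p hp hg
    rcases D.inner_or_gp P hp hg with hp' | hp'
    · obtain ⟨k, hk, hu, hse⟩ := A.cov s p hp' (gp_arc h2 (by omega) hg)
      have hsec := fl25_sec_of Pa hk (gp_arc h2 (by omega) hg) hse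
      rw [fl25_use_iff] at hu
      have hsee := fl25_see_arc P D hse
      rcases Nat.eq_zero_or_pos k with h0 | h0
      · subst h0
        rw [na2, na3, val] at hu hsec
        refine ⟨i, by omega, ?_, hsee⟩
        rw [s2 s, fl25_use_iff, en]
        exact fl25_use2 T1 (VI.comp s) hsec hu
      · rcases Nat.lt_or_ge k (j - i) with h4 | h4
        · refine ⟨i + k, by omega, ?_, hsee⟩
          have ek : k = i + k - i := by omega
          rw [s3 s (i + k) (by omega) (by omega), fl25_use_iff]
          rw [ek, fl25_arc2 h2 (by omega) (by omega), fl25_arc1 (by omega),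
            fl25_arc3 h2 (by omega) (by omega)] at hu
          exact hu
        · have ek : k = j - i := by omega
          subst ek
          rw [na1, val, fl25_arc2 h2 (by omega) le_rfl, ep] at hu hsec
          rw [val] at hsee
          refine ⟨j, h2, ?_, hsee⟩
          rw [s4 s, fl25_use_iff, ep]
          exact fl25_use1 T2 (VJ.comp s) hsec hu
    · obtain ⟨k, hk, hu, hse⟩ := C.cov s p hp' (gp_co h2 (by omega) hg)
      have hsec := fl25_sec_of Pc hk (gp_co h2 (by omega) hg) hse
      rw [fl25_use_iff] at hu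
      have hsee := fl25_see_co P D hse
      rcases lt_trichotomy k i with h0 | h0 | h0
      · refine ⟨k, by omega, ?_, ?_⟩
        · rw [s1 s k h0, fl25_use_iff]
          rw [(fl25_co1 h2 h1 h0.le).1, (fl25_co1 (v := v) h2 h1 h0.le).2,
            fl25_co2 h2 h1 h0] at hu
          exact hu
        · rw [(fl25_co1 (v := v) h2 h1 h0.le).2] at hsee
          exact hsee
      · subst h0
        rw [nc1, vcj, vci, (fl25_co1 h2 h1 (le_refl k)).1] at hu hsec
        rw [vci] at hsee
        refine ⟨k, by omega, ?_, hsee⟩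
        rw [s2 s, fl25_use_iff, en]
        exact fl25_use1 T1 (VI.comp s) hsec hu
      · rcases Nat.lt_or_ge (i + 1) k with h4 | h4
        · obtain ⟨m, hm1, hm2, ek⟩ : ∃ m, j < m ∧ m < n ∧ k = m - (j - i) + 1 :=
            ⟨k + (j - i) - 1, by omega, by omega, by omega⟩
          subst ek
          rw [fl25_co5 h1 hm1 hm2, fl25_co3 h1 hm1.le, fl25_co4 h1 hm1.le hm2] at hu
          rw [fl25_co3 h1 hm1.le] at hsee
          refine ⟨m, hm2, ?_, hsee⟩
          rw [s5 s m hm1, fl25_use_iff]
          exact hu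
        · have ek : k = i + 1 := by omega
          subst ek
          have e := fl25_co4 (v := v) h1 (le_refl j) h2
          rw [show j - (j - i) + 1 = i + 1 by omega] at e
          rw [nc2, vcj, vci, e] at hu hsec
          rw [vcj] at hsee
          refine ⟨j, h2, ?_, hsee⟩
          rw [s4 s, fl25_use_iff, ep]
          exact fl25_use2 T2 (VJ.comp s) hsec hu
  · -- rin
    intro m hm hX s hs
    rcases lt_trichotomy m i with h | h | h
    · rw [x1 _ _ m h] at hX hs
      rw [s1 s m h]
      exact C.rin m (by omega) hX s hs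
    · subst h
      rw [x2 _ _ m le_rfl (by omega), Nat.sub_self] at hX hs
      rw [s2 s]
      exact (fl25_rin VI (GI hX)).1 s hs
    · rcases lt_trichotomy m j with h' | h' | h'
      · rw [x2 _ _ m h.le h'] at hX hs
        rw [s3 s m h h']
        exact A.rin (m - i) (by omega) hX s hs
      · subst h'
        rw [x3 _ _ m le_rfl, show m - (m - i) + 1 = i + 1 by omega] at hX hs
        rw [s4 s]
        exact (fl25_rin VJ (GJ hX)).1 s hs
      · rw [x3 _ _ m h'.le] at hX hs
        rw [s5 s m h']
        exact C.rin _ (by omega) hX s hs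
  · -- rout
    intro m hm hX ht s hs
    rcases lt_trichotomy m i with h | h | h
    · rw [x1 _ _ m h] at hX hs
      rw [s1 s m h]
      exact C.rout m (by omega) hX (by rw [tlt m h]; exact ht) s hs
    · subst h
      rw [x2 _ _ m le_rfl (by omega), Nat.sub_self] at hX hs
      rw [s2 s]
      exact (fl25_rin VI (GI hX)).2 (by rw [← eti]; exact ht) s hs
    · rcases lt_trichotomy m j with h' | h' | h'
      · rw [x2 _ _ m h.le h'] at hX hs
        rw [s3 s m h h']
        exact A.rout (m - i) (by omega) hX (by rw [tn_arc_mid h2 h h']; exact ht) s hs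
      · subst h'
        rw [x3 _ _ m le_rfl, show m - (m - i) + 1 = i + 1 by omega] at hX hs
        rw [s4 s]
        exact (fl25_rin VJ (GJ hX)).2 (by rw [← etj]; exact ht) s hs
      · rw [x3 _ _ m h'.le] at hX hs
        rw [s5 s m h']
        exact C.rout _ (by omega) hX (by rw [tn_co_gt h2 h1 h' hm]; exact ht) s hs
  · -- lin
    intro m hm hX s hs
    rcases Nat.lt_or_ge m i with h | h
    · -- edges before the diagonal
      rw [x1 _ _ m h] at hX
      rw [fl25_nx (show m + 1 < n by omega)] at hs ⊢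
      rw [y1 _ _ (m + 1) (by omega)] at hs
      rcases Nat.lt_or_ge (m + 1) i with h' | h'
      · rw [s1 s (m + 1) h']
        have := C.lin m (by omega) hX
        rw [fl25_nx (by omega)] at this
        exact this s hs
      · have e : m + 1 = i := by omega
        rw [e] at hs ⊢
        rw [s2 s]
        refine (fl25_lin VI (FI ?_)).1 s hs
        rw [fl25_pv (by omega) (by omega), show i - 1 = m by omega]
        exact hX
    · rcases Nat.lt_or_ge m j with h' | h'
      · rw [x2 _ _ m h h'] at hX
        rw [fl25_nx (show m + 1 < n by omega)] at hs ⊢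
        rw [y2 _ _ (m + 1) (by omega) (by omega)] at hs
        rcases Nat.lt_or_ge (m + 1) j with h'' | h''
        · rw [s3 s (m + 1) (by omega) h'']
          have := A.lin (m - i) (by omega) hX
          rw [fl25_nx (by omega), show m - i + 1 = m + 1 - i by omega] at this
          exact this s hs
        · have e : m + 1 = j := by omega
          rw [e] at hs ⊢
          rw [s4 s]
          refine (fl25_lin VJ (FJ ?_)).1 s hs
          rw [show j - i - 1 = m - i by omega]
          exact hX
      · rw [x3 _ _ m h'] at hX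
        have := C.lin _ (by omega) hX
        rcases Nat.lt_or_ge (m + 1) n with h'' | h''
        · rw [fl25_nx h''] at hs ⊢
          rw [y3 _ _ (m + 1) (by omega)] at hs
          rw [s5 s (m + 1) (by omega)]
          rw [fl25_nx (by omega), show m - (j - i) + 1 + 1 = m + 1 - (j - i) + 1 by omega] at this
          exact this s hs
        · rw [fl25_nx0 (by omega)] at hs ⊢
          rw [fl25_nx0 (by omega)] at this
          rw [y1 _ _ 0 (by omega)] at hs
          rcases Nat.eq_zero_or_pos i with h0 | h0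
          · subst h0
            rw [s2 s]
            refine (fl25_lin VI (FI ?_)).1 s hs
            rw [fl25_pv0 (by omega)]
            rw [show n - (j - 0) + 1 - 1 = m - (j - 0) + 1 by omega]
            exact hX
          · rw [s1 s 0 h0]
            exact this s hs
  · -- lout
    intro m hm hX ht s hs
    rcases Nat.lt_or_ge m i with h | h
    · rw [x1 _ _ m h] at hX
      rw [fl25_nx (show m + 1 < n by omega)] at hs ht ⊢
      rw [y1 _ _ (m + 1) (by omega)] at hs
      rcases Nat.lt_or_ge (m + 1) i with h' | h'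
      · rw [s1 s (m + 1) h']
        have := C.lout m (by omega) hX
        rw [fl25_nx (by omega), tlt _ h'] at this
        exact this ht s hs
      · have e : m + 1 = i := by omega
        rw [e] at hs ht ⊢
        rw [s2 s]
        refine (fl25_lin VI (FI ?_)).2 (by rw [← eti]; exact ht) s hs
        rw [fl25_pv (by omega) (by omega), show i - 1 = m by omega]
        exact hX
    · rcases Nat.lt_or_ge m j with h' | h'
      · rw [x2 _ _ m h h'] at hX
        rw [fl25_nx (show m + 1 < n by omega)] at hs ht ⊢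
        rw [y2 _ _ (m + 1) (by omega) (by omega)] at hs
        rcases Nat.lt_or_ge (m + 1) j with h'' | h''
        · rw [s3 s (m + 1) (by omega) h'']
          have := A.lout (m - i) (by omega) hX
          rw [fl25_nx (by omega), show m - i + 1 = m + 1 - i by omega,
            tn_arc_mid h2 (by omega) h''] at this
          exact this ht s hs
        · have e : m + 1 = j := by omega
          rw [e] at hs ht ⊢
          rw [s4 s]
          refine (fl25_lin VJ (FJ ?_)).2 (by rw [← etj]; exact ht) s hs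
          rw [show j - i - 1 = m - i by omega]
          exact hX
      · rw [x3 _ _ m h'] at hX
        have := C.lout _ (by omega) hX
        rcases Nat.lt_or_ge (m + 1) n with h'' | h''
        · rw [fl25_nx h''] at hs ht ⊢
          rw [y3 _ _ (m + 1) (by omega)] at hs
          rw [s5 s (m + 1) (by omega)]
          rw [fl25_nx (by omega), show m - (j - i) + 1 + 1 = m + 1 - (j - i) + 1 by omega,
            tn_co_gt h2 h1 (by omega) h''] at this
          exact this ht s hs
        · rw [fl25_nx0 (by omega)] at hs ht ⊢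
          rw [fl25_nx0 (by omega)] at this
          rw [y1 _ _ 0 (by omega)] at hs
          rcases Nat.eq_zero_or_pos i with h0 | h0
          · subst h0
            rw [s2 s]
            refine (fl25_lin VI (FI ?_)).2 (by rw [← eti]; exact ht) s hs
            rw [fl25_pv0 (by omega)]
            rw [show n - (j - 0) + 1 - 1 = m - (j - 0) + 1 by omega]
            exact hX
          · rw [s1 s 0 h0]
            rw [tlt _ h0] at this
            exact this ht s hs
  · -- de
    intro m hm hX
    rcases Nat.lt_or_ge m i with h | h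
    · rw [x1 _ _ m h] at hX ⊢
      rw [fl25_nx (show m + 1 < n by omega), y1 _ _ (m + 1) (by omega)]
      have := C.de m (by omega) hX
      rw [fl25_nx (by omega)] at this
      exact this
    · rcases Nat.lt_or_ge m j with h' | h'
      · rw [x2 _ _ m h h'] at hX ⊢
        rw [fl25_nx (show m + 1 < n by omega), y2 _ _ (m + 1) (by omega) (by omega)]
        have := A.de (m - i) (by omega) hX
        rw [fl25_nx (by omega), show m - i + 1 = m + 1 - i by omega] at this
        exact this
      · rw [x3 _ _ m h'] at hX ⊢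
        have := C.de _ (by omega) hX
        rcases Nat.lt_or_ge (m + 1) n with h'' | h''
        · rw [fl25_nx h'', y3 _ _ (m + 1) (by omega)]
          rw [fl25_nx (by omega), show m - (j - i) + 1 + 1 = m + 1 - (j - i) + 1 by omega] at this
          exact this
        · rw [fl25_nx0 (by omega), y1 _ _ 0 (by omega)]
          rw [fl25_nx0 (by omega)] at this
          exact this
  · -- dv
    intro m hm hX hXp ht
    rcases lt_trichotomy m i with h | h | h
    · rw [x1 _ _ m h] at hX ⊢
      rw [y1 _ _ m h.le]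
      refine C.dv m (by omega) hX ?_ (by rw [tlt m h]; exact ht)
      rcases Nat.eq_zero_or_pos m with h0 | h0
      · subst h0
        rw [fl25_pv0 (by omega)] at hXp ⊢
        rw [x3 _ _ (n - 1) (by omega)] at hXp
        rw [show n - (j - i) + 1 - 1 = n - 1 - (j - i) + 1 by omega]
        exact hXp
      · rw [fl25_pv h0 (by omega)] at hXp ⊢
        rw [x1 _ _ (m - 1) (by omega)] at hXp
        exact hXp
    · subst h
      rw [x2 _ _ m le_rfl (by omega), Nat.sub_self] at hX ⊢
      rw [y1 _ _ m le_rfl]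
      refine (fl25_dvk VI (FI ?_) (GI hX)).1 (by rw [← eti]; exact ht)
      rcases Nat.eq_zero_or_pos m with h0 | h0
      · subst h0
        rw [fl25_pv0 (by omega)] at hXp ⊢
        rw [x3 _ _ (n - 1) (by omega)] at hXp
        rw [show n - (j - 0) + 1 - 1 = n - 1 - (j - 0) + 1 by omega]
        exact hXp
      · rw [fl25_pv h0 (by omega)] at hXp ⊢
        rw [x1 _ _ (m - 1) (by omega)] at hXp
        exact hXp
    · rw [fl25_pv (by omega) hm] at hXp
      rcases lt_trichotomy m j with h' | h' | h'
      · rw [x2 _ _ m h.le h'] at hX ⊢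
        rw [y2 _ _ m h h'.le]
        rw [x2 _ _ (m - 1) (by omega) (by omega)] at hXp
        refine A.dv (m - i) (by omega) hX ?_ (by rw [tn_arc_mid h2 h h']; exact ht)
        rw [fl25_pv (by omega) (by omega), show m - i - 1 = m - 1 - i by omega]
        exact hXp
      · subst h'
        rw [x3 _ _ m le_rfl, show m - (m - i) + 1 = i + 1 by omega] at hX ⊢
        rw [y2 _ _ m h le_rfl]
        rw [x2 _ _ (m - 1) (by omega) (by omega)] at hXp
        refine (fl25_dvk VJ (FJ ?_) (GJ hX)).1 (by rw [← etj]; exact ht)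
        rw [show m - i - 1 = m - 1 - i by omega]
        exact hXp
      · rw [x3 _ _ m h'.le] at hX ⊢
        rw [y3 _ _ m h']
        rw [x3 _ _ (m - 1) (by omega)] at hXp
        refine C.dv _ (by omega) hX ?_ (by rw [tn_co_gt h2 h1 h' hm]; exact ht)
        rw [fl25_pv (by omega) (by omega),
          show m - (j - i) + 1 - 1 = m - 1 - (j - i) + 1 by omega]
        exact hXp
  · -- dk
    intro m hm hX hXp ht
    rcases lt_trichotomy m i with h | h | h
    · rw [x1 _ _ m h] at hX ⊢
      rw [y1 _ _ m h.le]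
      refine C.dk m (by omega) hX ?_ (by rw [tlt m h]; exact ht)
      rcases Nat.eq_zero_or_pos m with h0 | h0
      · subst h0
        rw [fl25_pv0 (by omega)] at hXp ⊢
        rw [x3 _ _ (n - 1) (by omega)] at hXp
        rw [show n - (j - i) + 1 - 1 = n - 1 - (j - i) + 1 by omega]
        exact hXp
      · rw [fl25_pv h0 (by omega)] at hXp ⊢
        rw [x1 _ _ (m - 1) (by omega)] at hXp
        exact hXp
    · subst h
      rw [x2 _ _ m le_rfl (by omega), Nat.sub_self] at hX ⊢
      rw [y1 _ _ m le_rfl]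
      refine (fl25_dvk VI (FI ?_) (GI hX)).2 (by rw [← eti]; exact ht)
      rcases Nat.eq_zero_or_pos m with h0 | h0
      · subst h0
        rw [fl25_pv0 (by omega)] at hXp ⊢
        rw [x3 _ _ (n - 1) (by omega)] at hXp
        rw [show n - (j - 0) + 1 - 1 = n - 1 - (j - 0) + 1 by omega]
        exact hXp
      · rw [fl25_pv h0 (by omega)] at hXp ⊢
        rw [x1 _ _ (m - 1) (by omega)] at hXp
        exact hXp
    · rw [fl25_pv (by omega) hm] at hXp
      rcases lt_trichotomy m j with h' | h' | h'
      · rw [x2 _ _ m h.le h'] at hX ⊢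
        rw [y2 _ _ m h h'.le]
        rw [x2 _ _ (m - 1) (by omega) (by omega)] at hXp
        refine A.dk (m - i) (by omega) hX ?_ (by rw [tn_arc_mid h2 h h']; exact ht)
        rw [fl25_pv (by omega) (by omega), show m - i - 1 = m - 1 - i by omega]
        exact hXp
      · subst h'
        rw [x3 _ _ m le_rfl, show m - (m - i) + 1 = i + 1 by omega] at hX ⊢
        rw [y2 _ _ m h le_rfl]
        rw [x2 _ _ (m - 1) (by omega) (by omega)] at hXp
        refine (fl25_dvk VJ (FJ ?_) (GJ hX)).2 (by rw [← etj]; exact ht)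
        rw [show m - i - 1 = m - 1 - i by omega]
        exact hXp
      · rw [x3 _ _ m h'.le] at hX ⊢
        rw [y3 _ _ m h']
        rw [x3 _ _ (m - 1) (by omega)] at hXp
        refine C.dk _ (by omega) hX ?_ (by rw [tn_co_gt h2 h1 h' hm]; exact ht)
        rw [fl25_pv (by omega) (by omega),
          show m - (j - i) + 1 - 1 = m - 1 - (j - i) + 1 by omega]
        exact hXp

end glue

end Pool.Agent.FL
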