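import Pool.Agent.FL.Base14
import Pool.Agent.FL.FD
import Pool.Agent.FL.ConGlue
import Pool.Agent.FL.ConMir
import Pool.Agent.FL.ApIx

/-! MP_8a5d4f_co, project FL, row FL-33 -/

set_option autoImplicit false

namespace Pool.Agent.FL

open Set Filter Topology Pool.Agent.H54.Fl Pool.Agent.H75.PolyJ Pool.Agent.H95.Poly

section ind14

/-- the step of the induction along a first diagonal -/
theorem fl33_step {N : ℕ}
    (ih : ∀ m < N, ∀ (b c : ℕ) (v : ℕ → ℝ × ℝ), Ap m b c v → Con14 m b c v)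
    {b c i j : ℕ} {v : ℕ → ℝ × ℝ} (A : Ap N b c v) (F : FDc N v i j) : Con14 N b c v := by
  obtain ⟨h1, h2, h3, ⟨ca, Aa, -⟩, ⟨bc, Ac, -, -⟩, -⟩ := F.ix A
  have hlt := F.dg.lt
  have hn := F.dg.ltn
  have hnl := F.dg.nl
  have Ga := ih (j - i + 1) (by omega) _ _ _ Aa
  have Gc := ih (N - (j - i) + 1) (by omega) _ _ _ Ac
  exact Con14.glue A F Aa Ga Ac Gc

theorem con14 {n b c : ℕ} {v : ℕ → ℝ × ℝ} (A : Ap n b c v) : Con14 n b c v := by
  induction n using Nat.strong_induction_on generalizing b c v with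
  | _ N ih =>
    have ih' : ∀ m < N, ∀ (b c : ℕ) (v : ℕ → ℝ × ℝ), Ap m b c v → Con14 m b c v :=
      fun m hm b c v A => ih m hm A
    have hk := three_le_kc A.pg
    rcases Nat.lt_or_ge (kc N v) 4 with h3 | h4
    · exact (A.pt (by omega)).con14
    · rcases first_diag A.pg A.c0 h4 with ⟨i, j, F⟩ | ⟨i, j, F⟩
      · exact fl33_step ih' A F
      · exact Con14.mir A (fl33_step ih' A.mir F)

end ind14

end Pool.Agent.FL
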