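import Pool.Agent.FL.Sect
import Pool.Agent.FL.Diag
import Pool.Agent.FL.Shift
import Pool.Agent.H95.Poly.Asm

/-! MP_8a5d4f_co, project FL, row FL-35 -/

set_option autoImplicit false

namespace Pool.Agent.FL

open Set Filter Topology Pool.Agent.H54.Fl Pool.Agent.H75.PolyJ Pool.Agent.H95.Poly

section red

lemma fl35_idx {n i k : ℕ} (hi : i < n) (hk : k < n) : ((i + k) % n + (n - i)) % n = k := by
  rw [Nat.mod_add_mod, show i + k + (n - i) = k + n by omega, Nat.add_mod_right,
    Nat.mod_eq_of_lt hk]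

/-- light sets of a shifted polygon -/
lemma fl35_shift {n k : ℕ} {v : ℕ → ℝ × ℝ} (hs : IsSimplePolygon n v) {i : ℕ} (hi : i < n)
    (h : CanLight n (sh n v i) k) : CanLight n v k := by
  classical
  obtain ⟨S, N, h1, h2, h3⟩ := h
  refine ⟨S.image (fun k => (i + k) % n), fun m => N ((m + (n - i)) % n), ?_, ?_, ?_⟩
  · intro m hm
    obtain ⟨k, hk, rfl⟩ := Finset.mem_image.1 hm
    obtain ⟨a, b, c⟩ := h1 k hk
    simp only [fl35_idx hi a]
    refine ⟨Nat.mod_lt _ (by omega), b, ?_⟩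
    rw [region_sh hs] at c
    exact c
  · intro q hq
    rw [← region_sh hs i] at hq
    obtain ⟨k, hk, hl⟩ := h2 q hq
    obtain ⟨a, b, c⟩ := h1 k hk
    refine ⟨(i + k) % n, Finset.mem_image.2 ⟨k, hk, rfl⟩, ?_⟩
    simp only [fl35_idx hi a]
    rw [region_sh hs] at hl
    exact hl
  · exact Finset.card_image_le.trans h3

/-- polygons in general position with a convex vertex `0` are enough -/
theorem f_le_of_pg {n k : ℕ} (hn : 3 ≤ n)
    (h : ∀ v, PG n v → 0 < tn n v 0 → CanLight n v k) : f n ≤ (k : ℕ∞) := by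
  refine f_le_of_gen (P := (1 : VP)) one_ne_zero ?_
  intro w hw hc hG _
  have P : PG n w := ⟨hw, hc, hG⟩
  obtain ⟨i, hi, hci⟩ := exists_convex P
  apply fl35_shift hw hi
  apply h _ (P.sh i)
  rw [tn_sh (by omega), Nat.add_zero, Nat.mod_eq_of_lt hi]
  exact hci

end red

end Pool.Agent.FL
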