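import Pool.Agent.FL.Ind14
import Pool.Agent.FL.Fin
import Pool.Agent.FL.Red

/-! MP_8a5d4f_co, project FL, row FL-36 -/

set_option autoImplicit false

namespace Pool.Agent.FL

open Set Filter Topology Pool.Agent.H54.Fl Pool.Agent.H75.PolyJ Pool.Agent.H95.Poly

section main14

theorem f_le_14 {n : ℕ} (hn : 3 ≤ n) : f n ≤ ((9 * (n - 1) / 14 : ℕ) : ℕ∞) := by
  refine f_le_of_pg hn fun v P h0 => ?_
  obtain ⟨b, c, A⟩ := exists_ap P h0
  obtain ⟨R, L, σ, S, -, -, -, -, htot⟩ := con14 A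
  obtain ⟨s, hs⟩ : ∃ s, cnt n (σ s) ≤ 9 * (n - 1) / 14 := by
    by_contra hcon
    push Not at hcon
    have h1 : (∑ s : Fin 14, (9 * (n - 1) / 14 + 1)) ≤ ∑ s, cnt n (σ s) :=
      Finset.sum_le_sum fun s _ => hcon s
    rw [Finset.sum_const, Finset.card_univ, Fintype.card_fin, smul_eq_mul] at h1
    have h2 : (∑ s, cnt n (σ s)) ≤ 9 * (n - 1) := by
      refine le_trans ?_ htot
      exact Nat.le_add_right _ _
    omega
  obtain ⟨T, N, h1, h2, h3⟩ := Cov.canLight P (S.cov s) (S.ok s)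
  exact ⟨T, N, h1, h2, h3.trans hs⟩

end main14

end Pool.Agent.FL
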