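import Pool.Agent.FL.Sect

/-! MP_8a5d4f_co, project FL, row FL-3 -/

set_option autoImplicit false

namespace Pool.Agent.FL

open Set Filter Topology Pool.Agent.H54.Fl Pool.Agent.H75.PolyJ Pool.Agent.H95.Poly

section rot

variable {n : ℕ} {v : ℕ → ℝ × ℝ}

lemma fl3_comb (a b z w : ℝ × ℝ) (t : ℝ) :
    orient a b (z + t • (w - z)) = (1 - t) * orient a b z + t * orient a b w := by
  unfold orient
  simp only [Prod.fst_add, Prod.smul_fst, Prod.snd_add, Prod.smul_snd, smul_eq_mul, Prod.fst_sub,
    Prod.snd_sub]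
  ring

lemma fl3_pos {a b z w : ℝ × ℝ} (h : 0 < orient a b z ∨ (0 ≤ orient a b z ∧ 0 < orient a b w)) :
    ∀ᶠ t : ℝ in 𝓝[>] 0, 0 < orient a b (z + t • (w - z)) := by
  rcases h with h | ⟨h1, h2⟩
  · have hc : Continuous (fun t : ℝ => orient a b (z + t • (w - z))) :=
      (continuous_orient a b).comp (by fun_prop)
    have h0 : 0 < (fun t : ℝ => orient a b (z + t • (w - z))) 0 := by simpa using h
    exact (hc.continuousAt.eventually_const_lt h0).filter_mono nhdsWithin_le_nhds
  · have : Ioo (0 : ℝ) 1 ∈ 𝓝[>] (0 : ℝ) := Ioo_mem_nhdsGT one_pos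
    filter_upwards [this] with t ht
    rw [fl3_comb]
    have h3 := mul_pos ht.1 h2
    have h4 := mul_nonneg (sub_nonneg.2 ht.2.le) h1
    linarith

lemma fl3_cross {a b p q : ℝ × ℝ} (hp : 0 < orient a b p) (hq : orient a b q ≤ 0) :
    ∃ r ∈ segment ℝ p q, orient a b r = 0 := by
  have hd : 0 < orient a b p - orient a b q := by linarith
  refine ⟨(-orient a b q / (orient a b p - orient a b q)) • p +
    (orient a b p / (orient a b p - orient a b q)) • q,
    ⟨_, _, div_nonneg (by linarith) hd.le, div_nonneg hp.le hd.le, ?_, rfl⟩, ?_⟩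
  · field_simp
    ring
  · rw [orient_comb _ _ _ _ (by field_simp; ring)]
    field_simp
    ring

lemma fl3_nonneg {a b p q r : ℝ × ℝ} (hr : r ∈ segment ℝ p q) (hp : 0 ≤ orient a b p)
    (hq : 0 ≤ orient a b q) : 0 ≤ orient a b r := by
  obtain ⟨s, t, hs, ht, hst, rfl⟩ := hr
  rw [orient_comb _ _ _ _ hst]
  positivity

lemma fl3_posseg {a b p q r : ℝ × ℝ} (hr : r ∈ segment ℝ p q) (hp : 0 < orient a b p)
    (hq : 0 < orient a b q) : 0 < orient a b r := by
  obtain ⟨s, t, hs, ht, hst, rfl⟩ := hr
  rw [orient_comb _ _ _ _ hst]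
  rcases eq_or_lt_of_le hs with h0 | h0
  · have : t = 1 := by linarith
    rw [this, ← h0]; linarith
  · have := mul_pos h0 hp
    have := mul_nonneg ht hq.le
    linarith

/-- barycentric coordinates -/
lemma fl3_bary (a c x p : ℝ × ℝ) :
    orient a c x * p.1 = orient c x p * a.1 + orient x a p * c.1 + orient a c p * x.1 ∧
    orient a c x * p.2 = orient c x p * a.2 + orient x a p * c.2 + orient a c p * x.2 := by
  constructor <;> (unfold orient; ring)

lemma fl3_sum (a c x p : ℝ × ℝ) :
    orient c x p + orient x a p + orient a c p = orient a c x := by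
  unfold orient; ring

/-- Plücker relation -/
lemma fl3_pl (a c x u m : ℝ × ℝ) : orient a c x * orient a u m =
    orient x a u * orient a c m - orient a c u * orient x a m := by
  unfold orient; ring

lemma fl3_seg {a c x r : ℝ × ℝ} (hD : 0 < orient a c x) (h1 : orient x a r = 0)
    (h2 : 0 ≤ orient c x r) (h3 : 0 ≤ orient a c r) :
    r ∈ segment ℝ a x := by
  have hs := fl3_sum a c x r
  obtain ⟨e1, e2⟩ := fl3_bary a c x r
  rw [h1] at e1 e2 hs
  refine ⟨orient c x r / orient a c x, orient a c r / orient a c x, div_nonneg h2 hD.le,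
    div_nonneg h3 hD.le, ?_, ?_⟩
  · rw [← add_div, div_eq_one_iff_eq hD.ne']
    linarith
  · ext
    · simp only [Prod.fst_add, Prod.smul_fst, smul_eq_mul]
      field_simp
      linarith
    · simp only [Prod.snd_add, Prod.smul_snd, smul_eq_mul]
      field_simp
      linarith

/-- the data of the rotation -/
structure fl3_dat (n : ℕ) (v : ℕ → ℝ × ℝ) (i k u : ℕ) (x : ℝ × ℝ) : Prop where
  P : PG n v
  hi : i < n
  hk : k < n
  hu : u < n
  hx : x ∈ segment ℝ (v k) (v (nx n k))
  hxk : x ≠ v k
  hl : 0 < orient (v k) (v (nx n k)) (v i)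
  hs : See n v (v i) x
  u1 : 0 < orient x (v i) (v u)
  u2 : 0 ≤ orient (v i) (v k) (v u)
  u3 : 0 ≤ orient (v k) x (v u)
  hmin : ∀ m < n, 0 < orient x (v i) (v m) → 0 ≤ orient (v i) (v k) (v m) →
    0 ≤ orient (v k) x (v m) → orient (v i) (v u) (v m) ≤ 0

/-- the open swept triangle -/
def fl3_T (v : ℕ → ℝ × ℝ) (i k u : ℕ) (x : ℝ × ℝ) : Set (ℝ × ℝ) :=
  {q | 0 < orient x (v i) q} ∩ ({q | 0 < orient (v i) (v u) q} ∩ {q | 0 < orient (v k) x q})

lemma fl3_param {c e x : ℝ × ℝ} (hx : x ∈ segment ℝ c e) (hxc : x ≠ c) :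
    ∃ τ : ℝ, 0 < τ ∧ τ ≤ 1 ∧ x = c + τ • (e - c) := by
  obtain ⟨s, t, hs, ht, hst, rfl⟩ := hx
  refine ⟨t, ?_, by linarith, ?_⟩
  · rcases eq_or_lt_of_le ht with h0 | h0
    · exfalso
      apply hxc
      rw [← h0, show s = 1 by linarith]
      simp
    · exact h0
  · have : s = 1 - t := by linarith
    subst this
    ext <;> simp <;> ring

lemma fl3_seg2 {a c x r : ℝ × ℝ} (hD : 0 < orient a c x) (h1 : orient c x r = 0)
    (h2 : 0 ≤ orient x a r) (h3 : 0 ≤ orient a c r) :
    r ∈ segment ℝ c x := by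
  have hs := fl3_sum a c x r
  obtain ⟨e1, e2⟩ := fl3_bary a c x r
  rw [h1] at e1 e2 hs
  refine ⟨orient x a r / orient a c x, orient a c r / orient a c x, div_nonneg h2 hD.le,
    div_nonneg h3 hD.le, ?_, ?_⟩
  · rw [← add_div, div_eq_one_iff_eq hD.ne']
    linarith
  · ext
    · simp only [Prod.fst_add, Prod.smul_fst, smul_eq_mul]
      field_simp
      linarith
    · simp only [Prod.snd_add, Prod.smul_snd, smul_eq_mul]
      field_simp
      linarith

lemma fl3_scale (c e p : ℝ × ℝ) (τ : ℝ) : orient c (c + τ • (e - c)) p = τ * orient c e p := by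
  unfold orient
  simp only [Prod.fst_add, Prod.smul_fst, Prod.snd_add, Prod.smul_snd, smul_eq_mul, Prod.fst_sub,
    Prod.snd_sub]
  ring

variable {i k u : ℕ} {x : ℝ × ℝ}

lemma fl3_D (d : fl3_dat n v i k u x) : 0 < orient (v i) (v k) x := by
  obtain ⟨τ, h0, h1, he⟩ := fl3_param d.hx d.hxk
  have h2 : orient (v i) (v k) (v (nx n k)) = orient (v k) (v (nx n k)) (v i) :=
    (orient_cyc _ _ _).symm
  rw [he, fl3_comb, orient_self_right, h2]
  have := mul_pos h0 d.hl
  linarith

lemma fl3_ac (d : fl3_dat n v i k u x) {m : ℝ × ℝ} (h1 : 0 ≤ orient x (v i) m)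
    (h2 : 0 < orient (v i) (v u) m) : 0 < orient (v i) (v k) m := by
  have hD := fl3_D d
  have h3 := fl3_pl (v i) (v k) x (v u) m
  have h4 := mul_pos hD h2
  have h5 := mul_nonneg d.u2 h1
  by_contra h6
  push Not at h6
  have := mul_nonpos_of_nonneg_of_nonpos d.u1.le h6
  linarith

lemma fl3_novx (d : fl3_dat n v i k u x) {m : ℕ} (hm : m < n) : v m ∉ fl3_T v i k u x := by
  rintro ⟨h1, h2, h3⟩
  have h1' : 0 < orient x (v i) (v m) := h1
  have h2' : 0 < orient (v i) (v u) (v m) := h2
  have h3' : 0 < orient (v k) x (v m) := h3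
  have := d.hmin m hm h1' (fl3_ac d h1'.le h2').le h3'.le
  linarith

/-- the swept triangle does not meet the curve -/
lemma fl3_free (d : fl3_dat n v i k u x) {p : ℝ × ℝ} (hp : p ∈ fl3_T v i k u x) :
    p ∉ curve n v := by
  rintro ⟨j, hj, hpj⟩
  obtain ⟨h1, h2, h3⟩ := hp
  have h1' : 0 < orient x (v i) p := h1
  have h2' : 0 < orient (v i) (v u) p := h2
  have h3' : 0 < orient (v k) x p := h3
  have hS := d.P.simple
  have hn := pos hS
  have hD := fl3_D d
  obtain ⟨τ, ht0, ht1, hxe⟩ := fl3_param d.hx d.hxk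
  have hjk : j ≠ k := by
    rintro rfl
    have := orient_of_mem hpj
    change orient (v j) (v (nx n j)) p = 0 at this
    rw [hxe, fl3_scale, this] at h3'
    simp at h3'
  -- the case of the next edge
  have special : ¬ (nx n k = j ∧ x = v j) := by
    rintro ⟨e1, e2⟩
    subst e1
    have hpx : p ≠ x := by
      rintro rfl
      rw [orient_self_left] at h1'
      exact lt_irrefl _ h1'
    rw [edge_eq, ← e2] at hpj
    obtain ⟨t, ht, hpt⟩ := seg_param hpj hpx
    have g1 : 0 < orient x (v i) (v (nx n (nx n k))) := by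
      rw [hpt, fl3_comb, orient_self_left] at h1'
      by_contra h6
      push Not at h6
      have := mul_nonpos_of_nonneg_of_nonpos ht.le h6
      linarith
    have g2 : 0 < orient (v k) x (v (nx n (nx n k))) := by
      rw [hpt, fl3_comb, orient_self_right] at h3'
      by_contra h6
      push Not at h6
      have := mul_nonpos_of_nonneg_of_nonpos ht.le h6
      linarith
    have hai : v i ≠ v (nx n k) := by
      intro h
      have := d.hl
      rw [h, orient_self_right] at this
      exact lt_irrefl _ this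
    have hsee : See n v (v (nx n k)) (v i) := by
      rw [← e2]
      exact d.hs.symm
    have hsec := see_sector d.P (nx_lt hn k) hai hsee
    have htn : tn n v (nx n k) = orient (v k) x (v (nx n (nx n k))) := by
      unfold tn
      rw [pv_nx d.hk, ← e2]
    rw [htn] at hsec
    rcases hsec with ⟨-, -, h7⟩ | ⟨h7, -⟩
    · rw [← e2] at h7
      have : orient x (v (nx n (nx n k))) (v i) = - orient x (v i) (v (nx n (nx n k))) := by
        unfold orient; ring
      linarith
    · linarith
  -- points on the two sides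
  have A1 : ∀ r ∈ edge n v j, orient x (v i) r = 0 → 0 ≤ orient (v k) x r →
      ¬ 0 < orient (v i) (v u) r := by
    intro r hr r1 r2 r3
    have r4 := fl3_ac d r1.ge r3
    have hrs : r ∈ segment ℝ (v i) x := fl3_seg hD r1 r2 r4.le
    have hra : v i ≠ r := by
      rintro rfl
      rw [orient_self_left] at r3
      exact lt_irrefl _ r3
    by_cases hrx : x = r
    · subst hrx
      rcases edge_inter hS hj d.hk hjk hr d.hx with ⟨-, h5⟩ | h5
      · exact d.hxk h5
      · exact special h5
    · have h5 := d.hs r (mem_openSegment_of_ne_left_right hra hrx hrs)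
      exact h5.1 ⟨j, hj, hr⟩
  have A3 : ∀ r ∈ edge n v j, orient (v k) x r = 0 → 0 ≤ orient x (v i) r →
      ¬ 0 < orient (v i) (v u) r := by
    intro r hr r1 r2 r3
    have r4 := fl3_ac d r2 r3
    have hrs : r ∈ segment ℝ (v k) x := fl3_seg2 hD r1 r2 r4.le
    have hrk : r ∈ edge n v k := by
      rw [edge_eq]
      exact (convex_segment _ _).segment_subset (left_mem_segment ℝ _ _) d.hx hrs
    have hrc : r ≠ v k := by
      rintro rfl
      rw [orient_self_right] at r4
      exact lt_irrefl _ r4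
    rcases edge_inter hS hj d.hk hjk hr hrk with ⟨-, h5⟩ | ⟨h5, h6⟩
    · exact hrc h5
    · apply special
      refine ⟨h5, ?_⟩
      -- `r = v (nx n k)` is in the segment from `v k` to `x`
      rw [← h6]
      obtain ⟨ρ, hρ0, hρ1, hρ⟩ := fl3_param hrs hrc
      rw [← h5] at h6
      rw [hxe] at hρ
      have hne : v k ≠ v (nx n k) := edge_nondeg hS d.hk
      have e1 : (1 - ρ * τ) • (v (nx n k) - v k) = 0 := by
        have : v (nx n k) = v k + ρ • (v k + τ • (v (nx n k) - v k) - v k) := by
          rw [← hρ, h6]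
        have e2 : v (nx n k) - v k = (ρ * τ) • (v (nx n k) - v k) := by
          conv_lhs => rw [this]
          rw [mul_smul]
          simp
        rw [sub_smul, one_smul, ← e2, sub_self]
      have e3 : ρ * τ = 1 := by
        rcases smul_eq_zero.1 e1 with h7 | h7
        · linarith
        · exact absurd (sub_eq_zero.1 h7).symm hne
      have e4 : τ = 1 := by
        have : ρ * τ ≤ 1 * τ := mul_le_mul_of_nonneg_right hρ1 ht0.le
        linarith
      rw [hxe, h6, e4]
      simp
  -- an endpoint on the left side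
  obtain ⟨m, hm, hseg, hm2⟩ : ∃ m < n, segment ℝ p (v m) ⊆ edge n v j ∧
      0 < orient (v i) (v u) (v m) := by
    by_cases hk3 : 0 < orient (v i) (v u) (v j)
    · refine ⟨j, hj, ?_, hk3⟩
      exact (convex_segment _ _).segment_subset hpj (left_mem_segment ℝ _ _)
    · refine ⟨nx n j, nx_lt hn j, ?_, ?_⟩
      · exact (convex_segment _ _).segment_subset hpj (right_mem_segment ℝ _ _)
      · by_contra hk4
        push Not at hk3 hk4
        obtain ⟨s, t, hs, ht, hst, hpe⟩ := hpj
        rw [← hpe, orient_comb _ _ _ _ hst] at h2'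
        have := mul_nonpos_of_nonneg_of_nonpos hs hk3
        have := mul_nonpos_of_nonneg_of_nonpos ht hk4
        change 0 < s * orient (v i) (v u) (v j) + t * orient (v i) (v u) (v (nx n j)) at h2'
        linarith
  by_cases hm1 : 0 < orient x (v i) (v m)
  · have hm3 : orient (v k) x (v m) ≤ 0 := by
      by_contra hm3
      push Not at hm3
      exact fl3_novx d hm ⟨hm1, hm2, hm3⟩
    obtain ⟨r, hr, hr0⟩ := fl3_cross h3' hm3
    exact A3 r (hseg hr) hr0 (fl3_nonneg hr h1'.le hm1.le) (fl3_posseg hr h2' hm2)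
  · push Not at hm1
    obtain ⟨r, hr, hr0⟩ := fl3_cross h1' hm1
    have hr2 := fl3_posseg hr h2' hm2
    by_cases hr3 : 0 ≤ orient (v k) x r
    · exact A1 r (hseg hr) hr0 hr3 hr2
    · push Not at hr3
      obtain ⟨r', hr', hr'0⟩ := fl3_cross h3' hr3.le
      have hr'' : r' ∈ segment ℝ p (v m) :=
        (convex_segment _ _).segment_subset (left_mem_segment ℝ _ _) hr hr'
      exact A3 r' (hseg hr'') hr'0 (fl3_nonneg hr' h1'.le hr0.ge) (fl3_posseg hr' h2' hr2)

lemma fl3_step (d : fl3_dat n v i k u x) {z w : ℝ × ℝ}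
    (h1 : 0 < orient x (v i) z ∨ (0 ≤ orient x (v i) z ∧ 0 < orient x (v i) w))
    (h2 : 0 < orient (v i) (v u) z ∨ (0 ≤ orient (v i) (v u) z ∧ 0 < orient (v i) (v u) w))
    (h3 : 0 < orient (v k) x z ∨ (0 ≤ orient (v k) x z ∧ 0 < orient (v k) x w)) :
    ∀ᶠ t : ℝ in 𝓝[>] 0, z + t • (w - z) ∈ fl3_T v i k u x := by
  filter_upwards [fl3_pos h1, fl3_pos h2, fl3_pos h3] with t t1 t2 t3
  exact ⟨t1, t2, t3⟩

lemma fl3_xu (d : fl3_dat n v i k u x) : 0 < orient (v i) (v u) x := by
  have h1 := d.u1
  rwa [← orient_cyc] at h1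

lemma fl3_cxa (d : fl3_dat n v i k u x) : 0 < orient (v k) x (v i) := by
  have h1 := fl3_D d
  rwa [← orient_cyc] at h1

/-- the swept triangle is inside -/
lemma fl3_inner (d : fl3_dat n v i k u x) : fl3_T v i k u x ⊆ inn n v := by
  have hconv : Convex ℝ (fl3_T v i k u x) :=
    (convex_pos _ _).inter ((convex_pos _ _).inter (convex_pos _ _))
  have hdis : Disjoint (fl3_T v i k u x) (curve n v) := by
    rw [Set.disjoint_left]
    intro q hq
    exact fl3_free d hq
  set z : ℝ × ℝ := (1 / 2 : ℝ) • v i + (1 / 2 : ℝ) • x with hz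
  have hzo : z ∈ openSegment ℝ (v i) x :=
    ⟨1 / 2, 1 / 2, by norm_num, by norm_num, by norm_num, rfl⟩
  have hzi := d.hs z hzo
  have hst := fl3_step d (z := z) (w := v u)
    (Or.inr ⟨by
      rw [hz, orient_comb _ _ _ _ (by norm_num), orient_self_right, orient_self_left]
      norm_num, d.u1⟩)
    (Or.inl (by
      rw [hz, orient_comb _ _ _ _ (by norm_num), orient_self_left]
      have := fl3_xu d
      linarith))
    (Or.inl (by
      rw [hz, orient_comb _ _ _ _ (by norm_num), orient_self_right]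
      have := fl3_cxa d
      linarith))
  have hfr : ∃ᶠ q in 𝓝 z, q ∈ fl3_T v i k u x := frequently_of_path hst
  obtain ⟨q, hq1, hq2⟩ := (hfr.and_eventually ((isOpen_inner n v).mem_nhds hzi)).exists
  exact subset_inner d.P.simple hconv.isPreconnected hdis hq1
    (inner_subset_region d.P.simple hq2)

/-- the points of the side towards `u` -/
lemma fl3_side (d : fl3_dat n v i k u x) {z : ℝ × ℝ} (h1 : 0 < orient x (v i) z)
    (h2 : orient (v i) (v u) z = 0) (h3 : 0 < orient (v k) x z) (hv : ∀ m < n, z ≠ v m) :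
    z ∈ inn n v ∨ ∃ j < n, z ∈ edge n v j ∧ orient (v i) (v u) (v j) = 0 ∧
      orient (v i) (v u) (v (nx n j)) = 0 := by
  have hS := d.P.simple
  have hn := pos hS
  have hreg : z ∈ region n v := by
    rw [← closure_inner hS]
    have hst := fl3_step d (z := z) (w := x) (Or.inl h1) (Or.inr ⟨h2.ge, fl3_xu d⟩) (Or.inl h3)
    have hfr : ∃ᶠ q in 𝓝 z, q ∈ fl3_T v i k u x := frequently_of_path hst
    exact mem_closure_iff_frequently.2 (hfr.mono fun q hq => fl3_inner d hq)
  rw [region_eq hS] at hreg
  rcases hreg with h4 | h4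
  · right
    obtain ⟨j, hj, hzj⟩ := h4
    have key : ∀ m, segment ℝ z (v m) ⊆ edge n v j → orient (v i) (v u) (v m) ≤ 0 := by
      intro m hseg
      by_contra h5
      push Not at h5
      have hst := fl3_step d (z := z) (w := v m) (Or.inl h1) (Or.inr ⟨h2.ge, h5⟩) (Or.inl h3)
      have hI : Ioo (0 : ℝ) 1 ∈ 𝓝[>] (0 : ℝ) := Ioo_mem_nhdsGT one_pos
      obtain ⟨t, ht1, ht2⟩ := (hst.and hI).exists
      apply fl3_free d ht1
      refine ⟨j, hj, hseg ⟨1 - t, t, by linarith [ht2.2], ht2.1.le, by ring, ?_⟩⟩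
      ext <;> simp <;> ring
    have k1 := key j ((convex_segment _ _).segment_subset hzj (left_mem_segment ℝ _ _))
    have k2 := key (nx n j) ((convex_segment _ _).segment_subset hzj (right_mem_segment ℝ _ _))
    refine ⟨j, hj, hzj, ?_⟩
    obtain ⟨s, t, hs, ht, hst, hze⟩ := hzj
    change s • v j + t • v (nx n j) = z at hze
    have hs0 : 0 < s := by
      rcases eq_or_lt_of_le hs with h6 | h6
      · exfalso
        apply hv _ (nx_lt hn j)
        rw [← hze, ← h6, show t = 1 by linarith]
        simp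
      · exact h6
    have ht0 : 0 < t := by
      rcases eq_or_lt_of_le ht with h6 | h6
      · exfalso
        apply hv _ hj
        rw [← hze, ← h6, show s = 1 by linarith]
        simp
      · exact h6
    rw [← hze, orient_comb _ _ _ _ hst] at h2
    have z1 : s * orient (v i) (v u) (v j) ≤ 0 := mul_nonpos_of_nonneg_of_nonpos hs k1
    have z2 : t * orient (v i) (v u) (v (nx n j)) ≤ 0 := mul_nonpos_of_nonneg_of_nonpos ht k2
    constructor
    · have : s * orient (v i) (v u) (v j) = 0 := by linarith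
      rcases mul_eq_zero.1 this with h6 | h6
      · linarith
      · exact h6
    · have : t * orient (v i) (v u) (v (nx n j)) = 0 := by linarith
      rcases mul_eq_zero.1 this with h6 | h6
      · linarith
      · exact h6
  · exact Or.inl h4

lemma fl3_ui (d : fl3_dat n v i k u x) : u ≠ i := by
  rintro rfl
  have := d.u1
  rw [orient_self_right] at this
  exact lt_irrefl _ this

/-- vertices on the line of `i` and `u` -/
lemma fl3_line (d : fl3_dat n v i k u x) {m : ℕ} (hm : m < n)
    (h : orient (v i) (v u) (v m) = 0) : m = i ∨ m = u := by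
  by_contra hcon
  push Not at hcon
  exact d.P.gen i d.hi u d.hu m hm (Ne.symm (fl3_ui d)) (Ne.symm hcon.1) (Ne.symm hcon.2) h

lemma fl3_notprev (d : fl3_dat n v i k u x) : nx n u ≠ i := by
  intro he
  have hS := d.P.simple
  have hn := pos hS
  set z : ℝ × ℝ := (1 / 2 : ℝ) • v u + (1 / 2 : ℝ) • v i with hz
  have hze : z ∈ edge n v u := by
    rw [edge_eq, he]
    exact ⟨1 / 2, 1 / 2, by norm_num, by norm_num, by norm_num, rfl⟩
  have h1 : 0 < orient x (v i) z := by
    rw [hz, orient_comb _ _ _ _ (by norm_num), orient_self_right]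
    have := d.u1
    linarith
  have h2 : orient (v i) (v u) z = 0 := by
    rw [hz, orient_comb _ _ _ _ (by norm_num), orient_self_right, orient_self_left]
    norm_num
  have h3 : 0 < orient (v k) x z := by
    rw [hz, orient_comb _ _ _ _ (by norm_num)]
    have := fl3_cxa d
    have := d.u3
    linarith
  have hzu : z ≠ v u := by
    intro h
    have h4 : orient x (v i) z = orient x (v i) (v u) := by rw [h]
    rw [hz, orient_comb _ _ _ _ (by norm_num), orient_self_right] at h4
    have := d.u1
    linarith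
  have hzi : z ≠ v (nx n u) := by
    rw [he]
    intro h
    rw [h, orient_self_right] at h1
    exact lt_irrefl _ h1
  have hre := region_edge hS d.P.ccw d.hu hze hzu hzi
  have hst := fl3_step d (z := z) (w := x) (Or.inl h1) (Or.inr ⟨h2.ge, fl3_xu d⟩) (Or.inl h3)
  have hfr : ∃ᶠ q in 𝓝 z, q ∈ fl3_T v i k u x := frequently_of_path hst
  obtain ⟨q, hq1, hq2⟩ := (hfr.and_eventually hre).exists
  have hq3 := hq2.1 (inner_subset_region hS (fl3_inner d hq1))
  rw [he, orient_swap] at hq3
  have : 0 < orient (v i) (v u) q := hq1.2.1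
  linarith

/-- the vertex `i` sees `u` -/
lemma fl3_see (d : fl3_dat n v i k u x) : See n v (v i) (v u) ∨ u = nx n i := by
  by_cases hun : u = nx n i
  · exact Or.inr hun
  left
  have hS := d.P.simple
  rintro z hz
  have hzo := hz
  obtain ⟨s, t, hs, ht, hst, hze⟩ := hz
  have h1 : 0 < orient x (v i) z := by
    rw [← hze, orient_comb _ _ _ _ hst, orient_self_right]
    have := mul_pos ht d.u1
    linarith
  have h2 : orient (v i) (v u) z = 0 := by
    rw [← hze, orient_comb _ _ _ _ hst, orient_self_right, orient_self_left]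
    ring
  have h3 : 0 < orient (v k) x z := by
    rw [← hze, orient_comb _ _ _ _ hst]
    have := mul_pos hs (fl3_cxa d)
    have := mul_nonneg ht.le d.u3
    linarith
  have hzi : z ≠ v i := by
    intro h
    rw [h, orient_self_right] at h1
    exact lt_irrefl _ h1
  have hzu : z ≠ v u := by
    intro h
    have h4 : orient x (v i) z = orient x (v i) (v u) := by rw [h]
    rw [← hze, orient_comb _ _ _ _ hst, orient_self_right] at h4
    have h5 := d.u1
    have : (1 - t) * orient x (v i) (v u) = 0 := by linarith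
    rcases mul_eq_zero.1 this with h6 | h6
    · linarith
    · linarith
  have hv : ∀ m < n, z ≠ v m := by
    intro m hm h
    rw [h] at h2
    rcases fl3_line d hm h2 with rfl | rfl
    · exact hzi h
    · exact hzu h
  rcases fl3_side d h1 h2 h3 hv with h4 | ⟨j, hj, -, h5, h6⟩
  · exact h4
  · exfalso
    have hnj := nx_ne hS hj
    rcases fl3_line d hj h5 with rfl | rfl
    · rcases fl3_line d (nx_lt (pos hS) j) h6 with h7 | h7
      · exact hnj h7
      · exact hun h7.symm
    · rcases fl3_line d (nx_lt (pos hS) j) h6 with h7 | h7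
      · exact fl3_notprev d h7
      · exact hnj h7

lemma fl3_zone (d : fl3_dat n v i k u x)
    (hx : orient (v (pv n i)) (v i) x ≤ 0) : orient (v (pv n i)) (v i) (v u) < 0 := by
  have hS := d.P.simple
  have hn := pos hS
  have hpi := pv_lt hn i
  have hup : u ≠ pv n i := by
    intro h
    apply fl3_notprev d
    rw [h, nx_pv d.hi]
  have hpne : pv n i ≠ i := by
    intro h
    have := nx_ne hS hpi
    rw [nx_pv d.hi] at this
    exact this h.symm
  by_contra hcon
  push Not at hcon
  have hne : orient (v (pv n i)) (v i) (v u) ≠ 0 :=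
    d.P.gen _ hpi i d.hi u d.hu hpne (Ne.symm hup) (Ne.symm (fl3_ui d))
  have hpos : 0 < orient (v (pv n i)) (v i) (v u) := lt_of_le_of_ne hcon (Ne.symm hne)
  have c2 : orient (v i) (v u) (v (pv n i)) = orient (v (pv n i)) (v i) (v u) :=
    orient_cyc _ _ _
  have c1 : orient x (v i) (v (pv n i)) = - orient (v (pv n i)) (v i) x := by
    unfold orient; ring
  rcases eq_or_lt_of_le hx with h0 | h0
  · -- `x` is on the line of the previous edge
    -- `x - a = τ (a - b)`
    have hsee := d.hs
    have hxa : x ≠ v i := by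
      intro h
      have := d.u1
      rw [h] at this
      unfold orient at this
      simp at this
    have hba : v (pv n i) ≠ v i := fun h => hpne (vertex_inj hS hpi d.hi h)
    set a := v i with ha
    set b := v (pv n i) with hb
    have hN : 0 < (b.1 - a.1) ^ 2 + (b.2 - a.2) ^ 2 := dot_pos (Ne.symm hba)
    obtain ⟨σ, hσ⟩ : ∃ σ : ℝ, x = a + σ • (b - a) := by
      refine ⟨((x.1 - a.1) * (b.1 - a.1) + (x.2 - a.2) * (b.2 - a.2)) /
        ((b.1 - a.1) ^ 2 + (b.2 - a.2) ^ 2), ?_⟩
      unfold orient at h0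
      ext
      · simp only [Prod.fst_add, Prod.smul_fst, smul_eq_mul, Prod.fst_sub]
        field_simp
        linear_combination (b.2 - a.2) * h0
      · simp only [Prod.snd_add, Prod.smul_snd, smul_eq_mul, Prod.snd_sub]
        field_simp
        linear_combination (-(b.1 - a.1)) * h0
    rcases lt_trichotomy σ 0 with h4 | h4 | h4
    · have h5 := fl3_xu d
      rw [hσ, fl3_comb, orient_self_left, c2] at h5
      have := mul_neg_of_neg_of_pos h4 hpos
      linarith
    · apply hxa
      rw [hσ, h4]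
      simp
    · set ε : ℝ := 1 / (1 + σ) with hε
      have h1σ : 0 < 1 + σ := by linarith
      have hε0 : 0 < ε := by positivity
      have hε1 : ε < 1 := by
        rw [hε, div_lt_one h1σ]
        linarith
      have hεσ : 0 ≤ ε * σ := by positivity
      have hεσ1 : ε * σ ≤ 1 := by
        rw [hε]
        rw [div_mul_eq_mul_div, div_le_one h1σ]
        linarith
      have hz : a + ε • (x - a) ∈ openSegment ℝ a x := by
        refine ⟨1 - ε, ε, by linarith, hε0, by ring, ?_⟩
        ext <;> simp <;> ring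
      apply (hsee _ hz).1
      refine ⟨pv n i, hpi, ?_⟩
      rw [edge_eq, nx_pv d.hi, ← hb, ← ha]
      refine ⟨ε * σ, 1 - ε * σ, hεσ, by linarith, by ring, ?_⟩
      rw [hσ]
      ext <;> simp <;> ring
  · have hst := fl3_step d (z := v i) (w := v (pv n i))
      (Or.inr ⟨(orient_self_right _ _).ge, by rw [c1]; linarith⟩)
      (Or.inr ⟨(orient_self_left _ _).ge, by rw [c2]; exact hpos⟩)
      (Or.inl (fl3_cxa d))
    have hI : Ioo (0 : ℝ) 1 ∈ 𝓝[>] (0 : ℝ) := Ioo_mem_nhdsGT one_pos
    obtain ⟨t, ht1, ht2⟩ := (hst.and hI).exists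
    apply fl3_free d ht1
    refine ⟨pv n i, hpi, ?_⟩
    rw [edge_eq, nx_pv d.hi]
    refine ⟨t, 1 - t, ht2.1.le, by linarith [ht2.2], by ring, ?_⟩
    ext <;> simp <;> ring

lemma fl3_nb (d : fl3_dat n v i k u x) (h3 : 0 < orient (v k) x (v u)) {m : ℕ}
    (hc : ∀ t : ℝ, 0 < t → t < 1 → v u + t • (v m - v u) ∈ curve n v) :
    orient (v i) (v u) (v m) ≤ 0 := by
  by_contra h5
  push Not at h5
  have hst := fl3_step d (z := v u) (w := v m) (Or.inl d.u1)
    (Or.inr ⟨(orient_self_right _ _).ge, h5⟩) (Or.inl h3)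
  have hI : Ioo (0 : ℝ) 1 ∈ 𝓝[>] (0 : ℝ) := Ioo_mem_nhdsGT one_pos
  obtain ⟨t, ht1, ht2⟩ := (hst.and hI).exists
  exact fl3_free d ht1 (hc t ht2.1 ht2.2)

lemma fl3_k (d : fl3_dat n v i k u x) : k ≠ i := by
  rintro rfl
  have := d.hl
  rw [orient_self_left] at this
  exact lt_irrefl _ this

lemma fl3_main (d : fl3_dat n v i k u x) : ∃ y, y ∈ segment ℝ (v k) x ∧ y ≠ x ∧
    v u ∈ segment ℝ (v i) y ∧
    ((u = k ∧ y = v k) ∨
      (u ≠ k ∧ u ≠ nx n k ∧ v u ∈ openSegment ℝ (v i) y ∧ y ∈ openSegment ℝ (v k) x ∧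
        See n v (v u) y ∧ (pv n u = i ∨ orient (v i) (v u) (v (pv n u)) < 0) ∧
        orient (v i) (v u) (v (nx n u)) < 0)) := by
  have hS := d.P.simple
  have hn := pos hS
  have hD := fl3_D d
  have hsum := fl3_sum (v i) (v k) x (v u)
  obtain ⟨b1, b2⟩ := fl3_bary (v i) (v k) x (v u)
  set D := orient (v i) (v k) x with hDd
  set α := orient (v k) x (v u) with hα
  set β := orient x (v i) (v u) with hβ
  set γ := orient (v i) (v k) (v u) with hγ
  have hβ0 : 0 < β := d.u1
  have hγ0 : 0 ≤ γ := d.u2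
  have hα0 : 0 ≤ α := d.u3
  have hW : 0 < β + γ := by linarith
  set y : ℝ × ℝ := (β / (β + γ)) • v k + (γ / (β + γ)) • x with hy
  have hyw : β / (β + γ) + γ / (β + γ) = 1 := by field_simp
  have hyseg : y ∈ segment ℝ (v k) x :=
    ⟨_, _, by positivity, by positivity, hyw, rfl⟩
  have hDxac : orient x (v i) (v k) = D := by
    rw [hDd]; unfold orient; ring
  have hf1y : orient x (v i) y = β / (β + γ) * D := by
    rw [hy, orient_comb _ _ _ _ hyw, hDxac]
    have : orient x (v i) x = 0 := orient_self_left _ _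
    rw [this]
    ring
  have hyx : y ≠ x := by
    intro h
    rw [h, orient_self_left] at hf1y
    have : 0 < β / (β + γ) * D := by positivity
    linarith
  have hvu : v u = (α / D) • v i + ((β + γ) / D) • y := by
    ext
    · rw [hy]
      simp only [Prod.fst_add, Prod.smul_fst, smul_eq_mul]
      field_simp
      linarith
    · rw [hy]
      simp only [Prod.snd_add, Prod.smul_snd, smul_eq_mul]
      field_simp
      linarith
  have hvw : α / D + (β + γ) / D = 1 := by
    rw [← add_div, div_eq_one_iff_eq hD.ne']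
    linarith
  have hvseg : v u ∈ segment ℝ (v i) y :=
    ⟨α / D, (β + γ) / D, by positivity, by positivity, hvw, hvu.symm⟩
  refine ⟨y, hyseg, hyx, hvseg, ?_⟩
  by_cases huk : u = k
  · left
    refine ⟨huk, ?_⟩
    have hγ1 : γ = 0 := by rw [hγ, huk, orient_self_right]
    rw [hy, hγ1]
    have : β / (β + 0) = 1 := by rw [add_zero]; exact div_self hβ0.ne'
    rw [this]
    simp
  right
  obtain ⟨τ, ht0, ht1, hxe⟩ := fl3_param d.hx d.hxk
  have hunk : u ≠ nx n k := by
    intro h
    have h1 : orient x (v i) (v (nx n k)) = -((1 - τ) * orient (v k) (v (nx n k)) (v i)) := by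
      rw [hxe]
      unfold orient
      simp only [Prod.fst_add, Prod.smul_fst, Prod.snd_add, Prod.smul_snd, smul_eq_mul,
        Prod.fst_sub, Prod.snd_sub]
      ring
    rw [← h, ← hβ] at h1
    have := mul_nonneg (sub_nonneg.2 ht1) d.hl.le
    rw [← h] at this
    linarith
  have hnk := nx_lt hn k
  have hki := fl3_k d
  have hui := fl3_ui d
  have hα1 : 0 < α := by
    apply lt_of_le_of_ne hα0
    intro h
    have h1 : α = τ * orient (v k) (v (nx n k)) (v u) := by
      rw [hα, hxe, fl3_scale]
    rw [← h] at h1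
    rcases mul_eq_zero.1 h1.symm with h2 | h2
    · linarith
    · exact d.P.gen k d.hk _ hnk u d.hu (Ne.symm (nx_ne hS d.hk)) (Ne.symm huk) (Ne.symm hunk) h2
  have hγ1 : 0 < γ := by
    apply lt_of_le_of_ne hγ0
    intro h
    exact d.P.gen i d.hi k d.hk u d.hu (Ne.symm hki) (Ne.symm hui) (Ne.symm huk) h.symm
  have hvo : v u ∈ openSegment ℝ (v i) y :=
    ⟨α / D, (β + γ) / D, by positivity, by positivity, hvw, hvu.symm⟩
  have hyo : y ∈ openSegment ℝ (v k) x :=
    ⟨_, _, by positivity, by positivity, hyw, rfl⟩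
  have hf3y : orient (v k) x y = 0 := by
    rw [hy, orient_comb _ _ _ _ hyw, orient_self_left, orient_self_right]
    ring
  have hf2y : orient (v i) (v u) y = 0 := by
    have h1 : orient (v i) (v u) (v u) = 0 := orient_self_right _ _
    have h2 : (β + γ) / D * orient (v i) (v u) y = 0 := by
      conv at h1 => rw [show orient (v i) (v u) (v u) = orient (v i) (v u)
        ((α / D) • v i + ((β + γ) / D) • y) by rw [← hvu]]
      rw [orient_comb _ _ _ _ hvw, orient_self_left] at h1
      linarith
    rcases mul_eq_zero.1 h2 with h3 | h3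
    · have : 0 < (β + γ) / D := by positivity
      linarith
    · exact h3
  have hlt : orient x (v i) (v u) < orient x (v i) y := by
    rw [hf1y, ← hβ]
    have : β / (β + γ) * D - β = β * α / (β + γ) := by
      field_simp
      linarith
    have h2 : 0 < β * α / (β + γ) := by positivity
    linarith
  refine ⟨huk, hunk, hvo, hyo, ?_, ?_, ?_⟩
  · rintro z hz
    obtain ⟨s, t, hs, ht, hst, hze⟩ := hz
    have h1 : orient x (v i) z = s * β + t * orient x (v i) y := by
      rw [← hze, orient_comb _ _ _ _ hst]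
    have h1p : β < orient x (v i) z := by
      rw [h1]
      have e : β = s * β + t * β := by rw [← add_mul, hst, one_mul]
      have := mul_lt_mul_of_pos_left hlt ht
      linarith
    have h2 : orient (v i) (v u) z = 0 := by
      rw [← hze, orient_comb _ _ _ _ hst, orient_self_right, hf2y]
      ring
    have h3 : 0 < orient (v k) x z := by
      rw [← hze, orient_comb _ _ _ _ hst, hf3y, ← hα]
      have := mul_pos hs hα1
      linarith
    have hv : ∀ m < n, z ≠ v m := by
      intro m hm h
      rw [h] at h2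
      rcases fl3_line d hm h2 with rfl | rfl
      · rw [h, orient_self_right] at h1p
        linarith
      · rw [h] at h1p
        exact lt_irrefl _ h1p
    rcases fl3_side d (by linarith) h2 h3 hv with h4 | ⟨j, hj, hzj, h5, h6⟩
    · exact h4
    · exfalso
      have hle : orient x (v i) z ≤ β := by
        obtain ⟨s', t', hs', ht', hst', hze'⟩ := hzj
        have hb : ∀ m < n, orient (v i) (v u) (v m) = 0 → orient x (v i) (v m) ≤ β := by
          intro m hm h7
          rcases fl3_line d hm h7 with rfl | rfl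
          · rw [orient_self_right]; exact hβ0.le
          · exact le_rfl
        have l1 := hb j hj h5
        have l2 := hb _ (nx_lt hn j) h6
        rw [← hze', orient_comb _ _ _ _ hst']
        have e : β = s' * β + t' * β := by rw [← add_mul, hst', one_mul]
        have m1 := mul_le_mul_of_nonneg_left l1 hs'
        have m2 := mul_le_mul_of_nonneg_left l2 ht'
        change s' * orient x (v i) (v j) + t' * orient x (v i) (v (nx n j)) ≤ β
        linarith
      linarith
  · by_cases hpu : pv n u = i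
    · exact Or.inl hpu
    right
    have hpun : pv n u ≠ u := by
      intro h
      have := nx_ne hS (pv_lt hn u)
      rw [nx_pv d.hu] at this
      exact this h.symm
    have h1 := fl3_nb d hα1 (m := pv n u) (by
      intro t ht0 ht1
      refine ⟨pv n u, pv_lt hn u, t, 1 - t, ht0.le, by linarith, by ring, ?_⟩
      change t • v (pv n u) + (1 - t) • v (nx n (pv n u)) = _
      rw [nx_pv d.hu]
      ext <;> simp <;> ring)
    exact lt_of_le_of_ne h1 (d.P.gen i d.hi u d.hu _ (pv_lt hn u) (Ne.symm hui)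
      (Ne.symm hpu) (Ne.symm hpun))
  · have h1 := fl3_nb d hα1 (m := nx n u) (by
      intro t ht0 ht1
      refine ⟨u, d.hu, 1 - t, t, by linarith, ht0.le, by ring, ?_⟩
      change (1 - t) • v u + t • v (nx n u) = _
      ext <;> simp <;> ring)
    exact lt_of_le_of_ne h1 (d.P.gen i d.hi u d.hu _ (nx_lt hn u) (Ne.symm hui)
      (Ne.symm (fl3_notprev d)) (Ne.symm (nx_ne hS d.hu)))

/-- Rotation lemma, clockwise. The vertex `i` sees the point `x` of the edge `k` (from the left),
`x` is not the beginning of the edge. Rotate the ray from `i` through `x` clockwise: `u` is the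
first vertex, `y` the point of the edge behind it. -/
theorem rotate (P : PG n v) {i k : ℕ} (hi : i < n) (hk : k < n) {x : ℝ × ℝ}
    (hx : x ∈ segment ℝ (v k) (v (nx n k))) (hxk : x ≠ v k)
    (hl : 0 < orient (v k) (v (nx n k)) (v i)) (hs : See n v (v i) x) :
    ∃ u < n, ∃ y, u ≠ i ∧ y ∈ segment ℝ (v k) x ∧ y ≠ x ∧ v u ∈ segment ℝ (v i) y ∧
      0 < orient (v i) (v u) x ∧
      (See n v (v i) (v u) ∨ u = nx n i) ∧
      (tn n v i < 0 → orient (v (pv n i)) (v i) x ≤ 0 → orient (v (pv n i)) (v i) (v u) < 0) ∧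
      ((u = k ∧ y = v k) ∨
        (u ≠ k ∧ u ≠ nx n k ∧ v u ∈ openSegment ℝ (v i) y ∧ y ∈ openSegment ℝ (v k) x ∧
          See n v (v u) y ∧ (pv n u = i ∨ orient (v i) (v u) (v (pv n u)) < 0) ∧
          orient (v i) (v u) (v (nx n u)) < 0)) := by
  classical
  obtain ⟨τ, ht0, ht1, hxe⟩ := fl3_param hx hxk
  have hD : 0 < orient (v i) (v k) x := by
    have h2 : orient (v i) (v k) (v (nx n k)) = orient (v k) (v (nx n k)) (v i) :=
      (orient_cyc _ _ _).symm
    rw [hxe, fl3_comb, orient_self_right, h2]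
    have := mul_pos ht0 hl
    linarith
  set Z : Finset ℕ := (Finset.range n).filter (fun m => 0 < orient x (v i) (v m) ∧
    0 ≤ orient (v i) (v k) (v m) ∧ 0 ≤ orient (v k) x (v m)) with hZ
  have hkZ : k ∈ Z := by
    rw [hZ, Finset.mem_filter]
    refine ⟨Finset.mem_range.2 hk, ?_, ?_, ?_⟩
    · rw [← orient_cyc] at hD
      rw [← orient_cyc] at hD
      exact hD
    · rw [orient_self_right]
    · rw [orient_self_left]
  obtain ⟨u, huZ, hmin⟩ := Finset.exists_min_image Z (fun m => orient x (v i) (v m) /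
    (orient x (v i) (v m) + orient (v i) (v k) (v m))) ⟨k, hkZ⟩
  obtain ⟨hun, u1, u2, u3⟩ := Finset.mem_filter.1 huZ
  rw [Finset.mem_range] at hun
  have d : fl3_dat n v i k u x := by
    refine ⟨P, hi, hk, hun, hx, hxk, hl, hs, u1, u2, u3, ?_⟩
    intro m hm m1 m2 m3
    have h1 := hmin m (Finset.mem_filter.2 ⟨Finset.mem_range.2 hm, m1, m2, m3⟩)
    rw [div_le_div_iff₀ (by linarith) (by linarith)] at h1
    have h2 := fl3_pl (v i) (v k) x (v u) (v m)
    by_contra h3
    push Not at h3
    have := mul_pos hD h3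
    linarith
  obtain ⟨y, y1, y2, y3, y4⟩ := fl3_main d
  exact ⟨u, hun, y, fl3_ui d, y1, y2, y3, fl3_xu d, fl3_see d, fun _ h => fl3_zone d h, y4⟩

end rot

end Pool.Agent.FL
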