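import Pool.Agent.FL.Diag
import Pool.Agent.H75.FL.Sum

/-! MP_8a5d4f_co, project FL, row FL-9 -/

set_option autoImplicit false

namespace Pool.Agent.FL

open Set Filter Topology Pool.Agent.H54.Fl Pool.Agent.H75.PolyJ Pool.Agent.H95.Poly

section tau

variable {n : ℕ} {v : ℕ → ℝ × ℝ}

lemma fl9_tC (p q : ℝ × ℝ) : tC (p - q) = Pool.Agent.H75.PolyJ.cx p - Pool.Agent.H75.PolyJ.cx q := by
  apply Complex.ext <;> simp [tC, Pool.Agent.H75.PolyJ.cx]

/-- the two definitions of the exterior angle agree -/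
lemma fl9_turn_eq (n : ℕ) (v : ℕ → ℝ × ℝ) (i : ℕ) :
    Pool.Agent.H75.FL.turn n v i = tau n v i := by
  unfold Pool.Agent.H75.FL.turn Pool.Agent.H75.FL.tau tau
  rw [fl9_tC, fl9_tC]

/-- a diagonal gives a split after a shift -/
lemma fl9_split (P : PG n v) {i j : ℕ} (D : Dg n v i j) : Split n (sh n v i) (j - i) := by
  obtain ⟨h1, h2, h3, h4⟩ := D
  have hn : 3 ≤ n := P.simple.three_le
  have e0 : sh n v i 0 = v i := by rw [sh_at (by omega), add_zero]
  have ej : sh n v i (j - i) = v j := by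
    rw [sh_at (by omega)]; congr 1; omega
  have hg := Pool.Agent.H75.FL.gen_sh P.gen i
  refine ⟨by omega, by omega, ?_, ?_, ?_, ?_, ?_⟩
  · intro p hp hp1 hp2
    rw [inner_sh P.simple]
    rw [e0] at hp hp1
    rw [ej] at hp hp2
    exact h4 p (mem_openSegment_of_ne_left_right hp1.symm hp2.symm hp)
  · exact hg _ (by omega) _ (by omega) _ (by omega) (by omega) (by omega) (by omega)
  · exact hg _ (by omega) _ (by omega) _ (by omega) (by omega) (by omega) (by omega)
  · exact hg _ (by omega) _ (by omega) _ (by omega) (by omega) (by omega) (by omega)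
  · exact hg _ (by omega) _ (by omega) _ (by omega) (by omega) (by omega) (by omega)

/-- the sum of the turning angles -/
theorem fl9_hsum (P : PG n v) :
    ∑ i ∈ Finset.range n, Pool.Agent.H75.FL.turn n v i = 2 * Real.pi := by
  apply Pool.Agent.H75.FL.turn_sum _ n v P.simple P.ccw P.gen
  intro m w h1 h2 h3 h4
  have Q : PG m w := ⟨h1, h2, h3⟩
  obtain ⟨i, j, D⟩ := exists_diag Q h4
  exact ⟨i, by have := D.lt; have := D.ltn; omega, j - i, fl9_split Q D⟩

theorem sum_tau (P : PG n v) : ∑ i ∈ Finset.range n, tau n v i = 2 * Real.pi := by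
  rw [← fl9_hsum P]
  exact Finset.sum_congr rfl fun i _ => (fl9_turn_eq n v i).symm

end tau

end Pool.Agent.FL
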