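import Pool.Agent.FL.Sect
import Pool.Agent.FL.Tau

/-! MP_8a5d4f_co, project FL, row FL-10 -/

set_option autoImplicit false

namespace Pool.Agent.FL

open Set Filter Topology Pool.Agent.H54.Fl Pool.Agent.H75.PolyJ Pool.Agent.H95.Poly

section turn

variable {n : ℕ} {v : ℕ → ℝ × ℝ}

theorem fl10_tC_ne {w : ℝ × ℝ} (h : w ≠ 0) : tC w ≠ 0 := by
  intro h0
  apply h
  have h1 := congrArg Complex.re h0
  have h2 := congrArg Complex.im h0
  simp only [tC, Complex.zero_re, Complex.zero_im] at h1 h2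
  exact Prod.ext h1 h2

theorem fl10_im (w z : ℝ × ℝ) : (tC z / tC w).im = cr w z / Complex.normSq (tC w) := by
  rw [Complex.div_im]
  simp only [tC, cr]
  ring

theorem fl10_tn (i : ℕ) : tn n v i = cr (v i - v (pv n i)) (v (nx n i) - v i) := by
  simp only [tn, orient, cr, Prod.fst_sub, Prod.snd_sub]
  ring

theorem fl10_ne_left {w z : ℝ × ℝ} (h : cr w z ≠ 0) : w ≠ 0 := by
  rintro rfl
  apply h
  simp [cr]

theorem fl10_ne_right {w z : ℝ × ℝ} (h : cr w z ≠ 0) : z ≠ 0 := by
  rintro rfl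
  apply h
  simp [cr]

theorem fl10_tau_pos {i : ℕ} (h : 0 < tn n v i) : 0 < tau n v i ∧ tau n v i < Real.pi := by
  rw [fl10_tn] at h
  have hw : tC (v i - v (pv n i)) ≠ 0 := fl10_tC_ne (fl10_ne_left h.ne')
  have him : 0 < (tC (v (nx n i) - v i) / tC (v i - v (pv n i))).im := by
    rw [fl10_im]
    exact div_pos h (Complex.normSq_pos.2 hw)
  unfold tau
  refine ⟨?_, ?_⟩
  · refine lt_of_le_of_ne (Complex.arg_nonneg_iff.2 him.le) ?_
    intro h0
    rw [eq_comm, Complex.arg_eq_zero_iff] at h0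
    exact him.ne' h0.2
  · refine lt_of_le_of_ne (Complex.arg_le_pi _) ?_
    intro h0
    rw [Complex.arg_eq_pi_iff] at h0
    exact him.ne' h0.2

theorem fl10_tau_neg {i : ℕ} (h : tn n v i < 0) : -Real.pi < tau n v i ∧ tau n v i < 0 := by
  rw [fl10_tn] at h
  have hw : tC (v i - v (pv n i)) ≠ 0 := fl10_tC_ne (fl10_ne_left h.ne)
  have him : (tC (v (nx n i) - v i) / tC (v i - v (pv n i))).im < 0 := by
    rw [fl10_im]
    exact div_neg_of_neg_of_pos h (Complex.normSq_pos.2 hw)
  unfold tau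
  exact ⟨Complex.neg_pi_lt_arg _, Complex.arg_neg_iff.2 him⟩

/-- a sum over a set is at most the sum over a set with all positive terms -/
theorem fl10_bd {f : ℕ → ℝ} {Z K : Finset ℕ} (hK : ∀ m ∈ K, 0 < f m)
    (hZ : ∀ m ∈ Z, m ∉ K → f m ≤ 0) : ∑ m ∈ Z, f m ≤ ∑ m ∈ K, f m := by
  classical
  rw [← Finset.sum_filter_add_sum_filter_not Z (fun m => m ∈ K)]
  have h1 : ∑ m ∈ Z.filter (fun m => m ∉ K), f m ≤ 0 := by
    refine Finset.sum_nonpos ?_
    intro m hm
    rw [Finset.mem_filter] at hm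
    exact hZ m hm.1 hm.2
  have h2 : ∑ m ∈ Z.filter (fun m => m ∈ K), f m ≤ ∑ m ∈ K, f m := by
    refine Finset.sum_le_sum_of_subset_of_nonneg ?_ ?_
    · intro m hm
      rw [Finset.mem_filter] at hm
      exact hm.2
    · intro m hm _
      exact (hK m hm).le
  linarith

theorem three_le_kc (P : PG n v) : 3 ≤ kc n v := by
  classical
  by_contra hlt
  push Not at hlt
  have hsum := sum_tau P
  set K := (Finset.range n).filter fun i => 0 < tn n v i with hKdef
  have hKc : K.card = kc n v := by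
    rw [hKdef]
    unfold kc
    congr
  have hpi := Real.pi_pos
  have hle : ∑ m ∈ Finset.range n, tau n v m ≤ ∑ m ∈ K, tau n v m := by
    refine fl10_bd ?_ ?_
    · intro m hm
      rw [hKdef, Finset.mem_filter] at hm
      exact (fl10_tau_pos hm.2).1
    · intro m hm hmK
      have hm' : m < n := Finset.mem_range.1 hm
      have h1 : ¬ 0 < tn n v m := by
        intro h
        apply hmK
        rw [hKdef, Finset.mem_filter]
        exact ⟨hm, h⟩
      have h2 : tn n v m < 0 := lt_of_le_of_ne (not_lt.1 h1) (tn_ne P hm')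
      exact (fl10_tau_neg h2).2.le
  have hle2 : ∑ m ∈ K, tau n v m ≤ (K.card : ℝ) * Real.pi := by
    rw [← nsmul_eq_mul]
    refine Finset.sum_le_card_nsmul _ _ _ ?_
    intro m hm
    rw [hKdef, Finset.mem_filter] at hm
    exact (fl10_tau_pos hm.2).2.le
  rcases K.eq_empty_or_nonempty with h0 | hne
  · rw [h0, Finset.sum_empty] at hle
    linarith
  · have hlt2 : ∑ m ∈ K, tau n v m < (K.card : ℝ) * Real.pi := by
      rw [← nsmul_eq_mul, ← Finset.sum_const]
      refine Finset.sum_lt_sum_of_nonempty hne ?_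
      intro m hm
      rw [hKdef, Finset.mem_filter] at hm
      exact (fl10_tau_pos hm.2).2
    have h2 : (K.card : ℝ) ≤ 2 := by
      rw [hKc]
      have : kc n v ≤ 2 := by omega
      exact_mod_cast this
    nlinarith

/-- the direction of a later edge -/
theorem fl10_rot (h0 : ∀ m < n, tn n v m ≠ 0) {i : ℕ} {j : ℕ} (hij : i ≤ j) (hj : j < n) :
    ∃ r : ℝ, 0 < r ∧ tC (ed n v j) =
      (r : ℂ) * Complex.exp ((∑ m ∈ Finset.Ioc i j, tau n v m : ℝ) * Complex.I) *
        tC (ed n v i) := by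
  induction j, hij using Nat.le_induction with
  | base => exact ⟨1, one_pos, by simp⟩
  | succ j hij ih =>
    obtain ⟨r, hr, hrot⟩ := ih (by omega)
    have hpv : pv n (j + 1) = j := by
      rcases pv_cases hj with ⟨_, h⟩ | ⟨h, _⟩ <;> omega
    have hnx : nx n j = j + 1 := by
      rcases nx_cases (show j < n by omega) with ⟨_, h⟩ | ⟨h, _⟩ <;> omega
    have hprev : v (j + 1) - v (pv n (j + 1)) = ed n v j := by
      rw [hpv]
      unfold ed
      rw [hnx]
    have hcr : cr (ed n v j) (ed n v (j + 1)) ≠ 0 := by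
      have h := h0 (j + 1) hj
      rw [fl10_tn, hprev] at h
      exact h
    have hA : tC (ed n v j) ≠ 0 := fl10_tC_ne (fl10_ne_left hcr)
    have hB : tC (ed n v (j + 1)) ≠ 0 := fl10_tC_ne (fl10_ne_right hcr)
    set z : ℂ := tC (ed n v (j + 1)) / tC (ed n v j) with hz
    have hz0 : z ≠ 0 := div_ne_zero hB hA
    have htau : tau n v (j + 1) = Complex.arg z := by
      unfold tau
      rw [hprev, hz]
      rfl
    have hstep : tC (ed n v (j + 1)) = z * tC (ed n v j) := by
      rw [hz, div_mul_cancel₀ _ hA]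
    refine ⟨‖z‖ * r, mul_pos (norm_pos_iff.2 hz0) hr, ?_⟩
    have hIoc : Finset.Ioc i (j + 1) = insert (j + 1) (Finset.Ioc i j) := by
      ext m
      simp only [Finset.mem_insert, Finset.mem_Ioc]
      omega
    have hnot : j + 1 ∉ Finset.Ioc i j := by
      simp
    rw [hIoc, Finset.sum_insert hnot, hstep, hrot, htau]
    conv_lhs => rw [← Complex.norm_mul_exp_arg_mul_I z]
    have hexp : Complex.exp (((Complex.arg z + ∑ m ∈ Finset.Ioc i j, tau n v m : ℝ) : ℂ) *
        Complex.I) = Complex.exp (Complex.arg z * Complex.I) *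
        Complex.exp (((∑ m ∈ Finset.Ioc i j, tau n v m : ℝ) : ℂ) * Complex.I) := by
      rw [← Complex.exp_add]
      congr 1
      push_cast
      ring
    rw [hexp]
    push_cast
    ring

/-- the cross product of two edges as a sine -/
theorem fl10_cr (h0 : ∀ m < n, tn n v m ≠ 0) {i j : ℕ} (hij : i ≤ j) (hj : j < n)
    (hne : ed n v i ≠ 0) :
    ∃ c : ℝ, 0 < c ∧ cr (ed n v i) (ed n v j) =
      c * Real.sin (∑ m ∈ Finset.Ioc i j, tau n v m) := by
  obtain ⟨r, hr, hrot⟩ := fl10_rot (v := v) h0 hij hj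
  have hA : tC (ed n v i) ≠ 0 := fl10_tC_ne hne
  refine ⟨r * Complex.normSq (tC (ed n v i)), mul_pos hr (Complex.normSq_pos.2 hA), ?_⟩
  set S : ℝ := ∑ m ∈ Finset.Ioc i j, tau n v m with hS
  have h1 : cr (ed n v i) (ed n v j) =
      ((starRingEnd ℂ) (tC (ed n v i)) * tC (ed n v j)).im := by
    simp only [cr, tC, Complex.mul_im, Complex.conj_re, Complex.conj_im]
    ring
  have h2 : (starRingEnd ℂ) (tC (ed n v i)) * tC (ed n v j) =
      ((r * Complex.normSq (tC (ed n v i)) : ℝ) : ℂ) * Complex.exp ((S : ℂ) * Complex.I) := by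
    rw [hrot]
    have h3 := Complex.mul_conj (tC (ed n v i))
    push_cast
    linear_combination ((r : ℂ) * Complex.exp ((S : ℂ) * Complex.I)) * h3
  rw [h1, h2, Complex.im_ofReal_mul, Complex.exp_ofReal_mul_I_im]

theorem fl10_ed_ne (P : PG n v) {i : ℕ} (hi : i < n) : ed n v i ≠ 0 := by
  intro h
  have h1 := edge_nondeg P.simple hi
  apply h1
  unfold ed at h
  exact (sub_eq_zero.1 h).symm

theorem PT.fl10_tau {α β : ℕ} (T : PT n α β v) {m : ℕ} (hm : m < n) (h0 : m ≠ 0) (h1 : m ≠ α)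
    (h2 : m ≠ β) : tau n v m < 0 := (fl10_tau_neg (T.rf m hm h0 h1 h2)).2

theorem PT.t1 {α β : ℕ} (T : PT n α β v) {i j : ℕ} (hij : i < j)
    (h : j < α ∨ (α ≤ i ∧ j < β) ∨ (β ≤ i ∧ j < n)) : cr (ed n v i) (ed n v j) < 0 := by
  classical
  have hα := T.h0
  have hβ := T.h1
  have hn := T.h2
  have hj : j < n := by omega
  obtain ⟨c, hc, hcr⟩ := fl10_cr (v := v) (fun m hm => tn_ne T.pg hm) hij.le hj
    (fl10_ed_ne T.pg (by omega))
  have hneg : ∀ m ∈ Finset.Ioc i j, tau n v m < 0 := by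
    intro m hm
    rw [Finset.mem_Ioc] at hm
    exact T.fl10_tau (by omega) (by omega) (by omega) (by omega)
  have hS0 : ∑ m ∈ Finset.Ioc i j, tau n v m < 0 := by
    refine Finset.sum_neg hneg ?_
    exact ⟨j, Finset.mem_Ioc.2 ⟨hij, le_rfl⟩⟩
  have hsum := sum_tau T.pg
  have hsub : Finset.Ioc i j ⊆ Finset.range n := by
    intro m hm
    rw [Finset.mem_Ioc] at hm
    exact Finset.mem_range.2 (by omega)
  have hsplit := Finset.sum_sdiff (f := fun m => tau n v m) hsub
  have hle : ∑ m ∈ Finset.range n \ Finset.Ioc i j, tau n v m ≤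
      ∑ m ∈ ({0, α, β} : Finset ℕ), tau n v m := by
    refine fl10_bd ?_ ?_
    · intro m hm
      simp only [Finset.mem_insert, Finset.mem_singleton] at hm
      rcases hm with rfl | rfl | rfl
      · exact (fl10_tau_pos T.c0).1
      · exact (fl10_tau_pos T.c1).1
      · exact (fl10_tau_pos T.c2).1
    · intro m hm hmK
      rw [Finset.mem_sdiff, Finset.mem_range] at hm
      simp only [Finset.mem_insert, Finset.mem_singleton, not_or] at hmK
      exact (T.fl10_tau hm.1 hmK.1 hmK.2.1 hmK.2.2).le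
  have h3 : ∑ m ∈ ({0, α, β} : Finset ℕ), tau n v m = tau n v 0 + (tau n v α + tau n v β) := by
    rw [Finset.sum_insert, Finset.sum_pair (by omega)]
    simp only [Finset.mem_insert, Finset.mem_singleton, not_or]
    omega
  have p0 := (fl10_tau_pos T.c0).2
  have p1 := (fl10_tau_pos T.c1).2
  have p2 := (fl10_tau_pos T.c2).2
  have hS1 : -Real.pi < ∑ m ∈ Finset.Ioc i j, tau n v m := by linarith
  rw [hcr]
  exact mul_neg_of_pos_of_neg hc (Real.sin_neg_of_neg_of_neg_pi_lt hS0 hS1)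

theorem PT.t2 {α β : ℕ} (T : PT n α β v) {i j : ℕ}
    (h : (i < α ∧ α ≤ j ∧ j < β) ∨ (α ≤ i ∧ i < β ∧ β ≤ j ∧ j < n) ∨
      (β ≤ i ∧ i < n ∧ j < α)) : 0 < cr (ed n v i) (ed n v j) := by
  classical
  have hα := T.h0
  have hβ := T.h1
  have hn := T.h2
  have hsum := sum_tau T.pg
  have p0 := fl10_tau_pos T.c0
  have p1 := fl10_tau_pos T.c1
  have p2 := fl10_tau_pos T.c2
  -- sums over an interval and its complement
  have key : ∀ a b : ℕ, b < n → ∀ K K' : Finset ℕ, (∀ m ∈ K, 0 < tau n v m) →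
      (∀ m ∈ K', 0 < tau n v m) →
      (∀ m, a < m → m ≤ b → m ∉ K → m ≠ 0 ∧ m ≠ α ∧ m ≠ β) →
      (∀ m, m < n → ¬ (a < m ∧ m ≤ b) → m ∉ K' → m ≠ 0 ∧ m ≠ α ∧ m ≠ β) →
      ∑ m ∈ Finset.Ioc a b, tau n v m ≤ ∑ m ∈ K, tau n v m ∧
      2 * Real.pi - ∑ m ∈ K', tau n v m ≤ ∑ m ∈ Finset.Ioc a b, tau n v m := by
    intro a b hb K K' hK hK' h1 h2
    have hsub : Finset.Ioc a b ⊆ Finset.range n := by
      intro m hm
      rw [Finset.mem_Ioc] at hm
      exact Finset.mem_range.2 (by omega)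
    have hsplit := Finset.sum_sdiff (f := fun m => tau n v m) hsub
    refine ⟨fl10_bd hK ?_, ?_⟩
    · intro m hm hmK
      rw [Finset.mem_Ioc] at hm
      obtain ⟨q1, q2, q3⟩ := h1 m hm.1 hm.2 hmK
      exact (T.fl10_tau (by omega) q1 q2 q3).le
    · have hle : ∑ m ∈ Finset.range n \ Finset.Ioc a b, tau n v m ≤ ∑ m ∈ K', tau n v m := by
        refine fl10_bd hK' ?_
        intro m hm hmK
        rw [Finset.mem_sdiff, Finset.mem_range, Finset.mem_Ioc] at hm
        obtain ⟨q1, q2, q3⟩ := h2 m hm.1 hm.2 hmK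
        exact (T.fl10_tau hm.1 q1 q2 q3).le
      linarith
  rcases h with ⟨ha, hb, hc'⟩ | ⟨ha, hb, hc', hd⟩ | ⟨ha, hb, hc'⟩
  · obtain ⟨c, hc, hcr⟩ := fl10_cr (v := v) (fun m hm => tn_ne T.pg hm) (show i ≤ j by omega)
      (show j < n by omega) (fl10_ed_ne T.pg (by omega))
    obtain ⟨k1, k2⟩ := key i j (by omega) {α} {0, β}
      (by simpa using p1.1) (by simpa using ⟨p0.1, p2.1⟩)
      (by
        intro m h1 h2 h3
        rw [Finset.mem_singleton] at h3
        omega)
      (by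
        intro m h1 h2 h3
        simp only [Finset.mem_insert, Finset.mem_singleton, not_or] at h3
        omega)
    rw [Finset.sum_singleton] at k1
    rw [Finset.sum_pair (by omega)] at k2
    rw [hcr]
    exact mul_pos hc (Real.sin_pos_of_pos_of_lt_pi (by linarith [p0.2, p2.2])
      (by linarith [p1.2]))
  · obtain ⟨c, hc, hcr⟩ := fl10_cr (v := v) (fun m hm => tn_ne T.pg hm) (show i ≤ j by omega)
      hd (fl10_ed_ne T.pg (by omega))
    obtain ⟨k1, k2⟩ := key i j hd {β} {0, α}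
      (by simpa using p2.1) (by simpa using ⟨p0.1, p1.1⟩)
      (by
        intro m h1 h2 h3
        rw [Finset.mem_singleton] at h3
        omega)
      (by
        intro m h1 h2 h3
        simp only [Finset.mem_insert, Finset.mem_singleton, not_or] at h3
        omega)
    rw [Finset.sum_singleton] at k1
    rw [Finset.sum_pair (by omega)] at k2
    rw [hcr]
    exact mul_pos hc (Real.sin_pos_of_pos_of_lt_pi (by linarith [p0.2, p1.2])
      (by linarith [p2.2]))
  · obtain ⟨c, hc, hcr⟩ := fl10_cr (v := v) (fun m hm => tn_ne T.pg hm) (show j ≤ i by omega)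
      hb (fl10_ed_ne T.pg (by omega))
    obtain ⟨k1, k2⟩ := key j i hb {α, β} {0}
      (by simpa using ⟨p1.1, p2.1⟩) (by simpa using p0.1)
      (by
        intro m h1 h2 h3
        simp only [Finset.mem_insert, Finset.mem_singleton, not_or] at h3
        omega)
      (by
        intro m h1 h2 h3
        rw [Finset.mem_singleton] at h3
        omega)
    rw [Finset.sum_pair (by omega)] at k1
    rw [Finset.sum_singleton] at k2
    have hs : Real.sin (∑ m ∈ Finset.Ioc j i, tau n v m) < 0 := by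
      have h1 : Real.sin (∑ m ∈ Finset.Ioc j i, tau n v m) =
          -Real.sin (2 * Real.pi - ∑ m ∈ Finset.Ioc j i, tau n v m) := by
        rw [Real.sin_two_pi_sub, neg_neg]
      rw [h1]
      have h2 := Real.sin_pos_of_pos_of_lt_pi
        (x := 2 * Real.pi - ∑ m ∈ Finset.Ioc j i, tau n v m)
        (by linarith [p1.2, p2.2]) (by linarith [p0.2])
      linarith
    have h3 : cr (ed n v j) (ed n v i) < 0 := by
      rw [hcr]
      exact mul_neg_of_pos_of_neg hc hs
    have h4 : cr (ed n v i) (ed n v j) = - cr (ed n v j) (ed n v i) := by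
      simp only [cr]
      ring
    rw [h4]
    linarith

end turn

end Pool.Agent.FL
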