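import Pool.Agent.FL.Hit
import Pool.Agent.FL.Turn

/-! MP_8a5d4f_co, project FL, row FL-11: the cover of the corner `0` of a pseudo-triangle. -/

set_option autoImplicit false

namespace Pool.Agent.FL

open Set Filter Topology Pool.Agent.H54.Fl Pool.Agent.H75.PolyJ Pool.Agent.H95.Poly

section sa

variable {n : ℕ} {v : ℕ → ℝ × ℝ} {α β : ℕ}

/-! ### cross products -/

theorem fl11_or (a b c : ℝ × ℝ) : orient a b c = cr (b - a) (c - a) := by
  simp only [orient, cr, Prod.fst_sub, Prod.snd_sub]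

theorem fl11_or' (a b c : ℝ × ℝ) : orient a b c = cr (b - a) (c - b) := by
  simp only [orient, cr, Prod.fst_sub, Prod.snd_sub]
  ring

theorem fl11_add (D a b : ℝ × ℝ) : cr D (a + b) = cr D a + cr D b := by
  simp only [cr, Prod.fst_add, Prod.snd_add]
  ring

theorem fl11_sub (D a b : ℝ × ℝ) : cr D (a - b) = cr D a - cr D b := by
  simp only [cr, Prod.fst_sub, Prod.snd_sub]
  ring

theorem fl11_smul (D a : ℝ × ℝ) (t : ℝ) : cr D (t • a) = t * cr D a := by
  simp only [cr, Prod.smul_fst, Prod.smul_snd, smul_eq_mul]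
  ring

theorem fl11_anti (a b : ℝ × ℝ) : cr a b = - cr b a := by
  simp only [cr]
  ring

theorem fl11_self (a : ℝ × ℝ) : cr a a = 0 := by
  simp only [cr]
  ring

theorem fl11_plu (e d a b : ℝ × ℝ) : cr e d * cr a b = cr e a * cr d b + cr e b * cr a d := by
  simp only [cr]
  ring

theorem fl11_shift (a b p q : ℝ × ℝ) : orient a b p = orient a b q + cr (b - a) (p - q) := by
  simp only [orient, cr, Prod.fst_sub, Prod.snd_sub]
  ring

/-- a point of an open segment -/
theorem fl11_seg {x a b : ℝ × ℝ} (h : x ∈ openSegment ℝ a b) (D c : ℝ × ℝ) :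
    ∃ s t : ℝ, 0 < s ∧ 0 < t ∧ s + t = 1 ∧ cr D (x - c) = s * cr D (a - c) + t * cr D (b - c) := by
  obtain ⟨s, t, hs, ht, hst, rfl⟩ := h
  refine ⟨s, t, hs, ht, hst, ?_⟩
  simp only [cr, Prod.fst_add, Prod.snd_add, Prod.smul_fst, Prod.smul_snd, smul_eq_mul,
    Prod.fst_sub, Prod.snd_sub]
  linear_combination (D.1 * c.2 - D.2 * c.1) * hst

/-- a point of the open segment from `p` to `a`, relative to `a` -/
theorem fl11_seg' {x p a : ℝ × ℝ} (h : x ∈ openSegment ℝ p a) :
    ∃ s : ℝ, 0 < s ∧ ∀ D : ℝ × ℝ, cr D (x - a) = s * cr D (p - a) := by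
  obtain ⟨s, t, hs, ht, hst, rfl⟩ := h
  refine ⟨s, hs, fun D => ?_⟩
  simp only [cr, Prod.fst_add, Prod.snd_add, Prod.smul_fst, Prod.smul_snd, smul_eq_mul,
    Prod.fst_sub, Prod.snd_sub]
  linear_combination (D.1 * a.2 - D.2 * a.1) * hst

/-- points on the edge `k`, from the signs at its ends -/
theorem fl11_edge_le {x a b : ℝ × ℝ} (h : x ∈ openSegment ℝ a b) {D c : ℝ × ℝ}
    (ha : cr D (a - c) ≤ 0) (hb : cr D (b - c) ≤ 0) : cr D (x - c) ≤ 0 := by
  obtain ⟨s, t, hs, ht, -, he⟩ := fl11_seg h D c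
  rw [he]
  nlinarith

/-- the cone condition at a reflex vertex, next side -/
theorem fl11_coneN {e d a b : ℝ × ℝ} (hab : cr a b < 0) (h1 : cr a d < 0) (h2 : 0 < cr b d) :
    (cr e a ≤ 0 → cr e b < 0 → cr e d < 0) ∧ (0 ≤ cr e a → 0 < cr e b → 0 < cr e d) := by
  have h := fl11_plu e d a b
  rw [fl11_anti d b] at h
  refine ⟨fun h3 h4 => ?_, fun h3 h4 => ?_⟩
  · by_contra hc
    push Not at hc
    nlinarith [mul_nonpos_of_nonneg_of_nonpos hc hab.le, mul_pos_of_neg_of_neg h4 h1,
      mul_nonneg (neg_nonneg.2 h3) h2.le]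
  · by_contra hc
    push Not at hc
    nlinarith [mul_nonneg_of_nonpos_of_nonpos hc hab.le, mul_pos h4 (neg_pos.2 h1),
      mul_nonneg h3 h2.le]

/-- the cone condition at a reflex vertex, previous side -/
theorem fl11_coneP {e d a b : ℝ × ℝ} (hab : cr a b < 0) (h1 : 0 < cr a d) (h2 : cr b d < 0) :
    (cr e a < 0 → cr e b ≤ 0 → 0 < cr e d) ∧ (0 < cr e a → 0 ≤ cr e b → cr e d < 0) := by
  have h := fl11_plu e d a b
  rw [fl11_anti d b] at h
  refine ⟨fun h3 h4 => ?_, fun h3 h4 => ?_⟩
  · by_contra hc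
    push Not at hc
    nlinarith [mul_nonneg_of_nonpos_of_nonpos hc hab.le, mul_pos_of_neg_of_neg h3 h2,
      mul_nonneg (neg_nonneg.2 h4) h1.le]
  · by_contra hc
    push Not at hc
    nlinarith [mul_nonpos_of_nonneg_of_nonpos hc hab.le, mul_pos h3 (neg_pos.2 h2),
      mul_nonneg h4 h1.le]

/-! ### sums of edges -/

theorem fl11_mod {k : ℕ} (hk : k < n) : v (k % n) = v k := by
  rw [Nat.mod_eq_of_lt hk]

theorem fl11_ed {k : ℕ} (hk : k < n) : ed n v k = v ((k + 1) % n) - v (k % n) := by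
  rw [fl11_mod (v := v) hk]
  rfl

theorem fl11_tele_le {D : ℝ × ℝ} {a b : ℕ} (hab : a ≤ b) (hb : b ≤ n)
    (h : ∀ l, a ≤ l → l < b → cr D (ed n v l) ≤ 0) : cr D (v (b % n) - v (a % n)) ≤ 0 := by
  induction b, hab using Nat.le_induction with
  | base => simp [cr]
  | succ m hm ih =>
    have h1 := ih (by omega) (fun l hl hl2 => h l hl (by omega))
    have h2 := h m hm (by omega)
    rw [fl11_ed (by omega)] at h2
    have h3 : v ((m + 1) % n) - v (a % n) =
        (v ((m + 1) % n) - v (m % n)) + (v (m % n) - v (a % n)) := by abel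
    rw [h3, fl11_add]
    linarith

theorem fl11_tele_lt {D : ℝ × ℝ} {a b : ℕ} (hab : a < b) (hb : b ≤ n)
    (h : ∀ l, a ≤ l → l < b → cr D (ed n v l) < 0) : cr D (v (b % n) - v (a % n)) < 0 := by
  have h1 := fl11_tele_le (n := n) (v := v) (D := D) (a := a + 1) (b := b) hab hb
    (fun l hl hl2 => (h l (by omega) hl2).le)
  have h2 := h a le_rfl hab
  rw [fl11_ed (by omega)] at h2
  have h3 : v (b % n) - v (a % n) =
      (v (b % n) - v ((a + 1) % n)) + (v ((a + 1) % n) - v (a % n)) := by abel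
  rw [h3, fl11_add]
  linarith

theorem fl11_neg (D a b : ℝ × ℝ) : cr (-D) (a - b) = - cr D (a - b) := by
  simp only [cr, Prod.fst_neg, Prod.snd_neg]
  ring

theorem fl11_tele_ge {D : ℝ × ℝ} {a b : ℕ} (hab : a ≤ b) (hb : b ≤ n)
    (h : ∀ l, a ≤ l → l < b → 0 ≤ cr D (ed n v l)) : 0 ≤ cr D (v (b % n) - v (a % n)) := by
  have h1 := fl11_tele_le (n := n) (v := v) (D := -D) hab hb (fun l hl hl2 => by
    have := h l hl hl2
    rw [ed, fl11_neg]
    rw [ed] at this
    linarith)
  rw [fl11_neg] at h1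
  linarith

theorem fl11_tele_gt {D : ℝ × ℝ} {a b : ℕ} (hab : a < b) (hb : b ≤ n)
    (h : ∀ l, a ≤ l → l < b → 0 < cr D (ed n v l)) : 0 < cr D (v (b % n) - v (a % n)) := by
  have h1 := fl11_tele_lt (n := n) (v := v) (D := -D) hab hb (fun l hl hl2 => by
    have := h l hl hl2
    rw [ed, fl11_neg]
    rw [ed] at this
    linarith)
  rw [fl11_neg] at h1
  linarith

/-! ### positions of the chains -/

/-- the edges `i ≤ k < α` are to the right of the edge `i` -/
theorem PT.fl11_posC (T : PT n α β v) {i k : ℕ} (hik : i ≤ k) (hk : k < α) {x : ℝ × ℝ}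
    (hx : x ∈ openSegment ℝ (v k) (v (nx n k))) : cr (ed n v i) (x - v i) ≤ 0 := by
  have h1 := T.h1
  have h2 := T.h2
  have key : ∀ m, i ≤ m → m ≤ α → cr (ed n v i) (v (m % n) - v i) ≤ 0 := by
    intro m hm hm2
    rw [← fl11_mod (v := v) (show i < n by omega)]
    refine fl11_tele_le hm (by omega) fun l hl hl2 => ?_
    rcases Nat.eq_or_lt_of_le hl with rfl | hl
    · exact (fl11_self _).le
    · exact (T.t1 hl (Or.inl (by omega))).le
  refine fl11_edge_le hx ?_ ?_
  · rw [← fl11_mod (v := v) (show k < n by omega)]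
    exact key k hik hk.le
  · exact key (k + 1) (by omega) hk

/-- the edges `β ≤ k < i` are to the right of the edge `i - 1` -/
theorem PT.fl11_posB (T : PT n α β v) {i k : ℕ} (hi : i ≤ n) (hk : β ≤ k) (hki : k < i)
    {x : ℝ × ℝ} (hx : x ∈ openSegment ℝ (v k) (v (nx n k))) :
    cr (ed n v (i - 1)) (x - v (i % n)) ≤ 0 := by
  have h1 := T.h1
  have h2 := T.h2
  have key : ∀ m, β ≤ m → m ≤ i → cr (ed n v (i - 1)) (v (m % n) - v (i % n)) ≤ 0 := by
    intro m hm hm2
    have h3 : 0 ≤ cr (ed n v (i - 1)) (v (i % n) - v (m % n)) := by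
      refine fl11_tele_ge hm2 hi fun l hl hl2 => ?_
      rcases Nat.lt_or_ge l (i - 1) with hl3 | hl3
      · have := T.t1 hl3 (Or.inr (Or.inr ⟨by omega, by omega⟩))
        rw [fl11_anti]
        linarith
      · have : l = i - 1 := by omega
        rw [this]
        exact (fl11_self _).ge
    rw [fl11_sub] at h3 ⊢
    linarith
  refine fl11_edge_le hx ?_ ?_
  · rw [← fl11_mod (v := v) (show k < n by omega)]
    exact key k hk hki.le
  · exact key (k + 1) (by omega) hki

theorem fl11_pv {i : ℕ} (h0 : 0 < i) (hi : i < n) : pv n i = i - 1 := by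
  rcases pv_cases hi with h | h <;> omega

theorem fl11_nx' {i : ℕ} (hi : i + 1 < n) : nx n i = i + 1 := by
  rcases nx_cases (show i < n by omega) with h | h <;> omega

/-- a vertex of the first chain is seen from its zone `N` -/
theorem PT.seeN (T : PT n α β v) {p : ℝ × ℝ} (hp : p ∈ inn n v) (hg : GP n v p) {i : ℕ}
    (h0 : 0 < i) (hi : i < α) (h1 : orient (v (i - 1)) (v i) p < 0)
    (h2 : 0 < orient (v i) (v (i + 1)) p) : See n v p (v i) := by
  have b1 := T.h1
  have b2 := T.h2
  rcases hit_or_see T.pg hp hg (show i < n by omega) with h | ⟨k, hk, x, hx1, hx2, -, hp1, hp2⟩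
  · exact h
  exfalso
  have e1 : ed n v (i - 1) = v i - v (i - 1) := by
    rw [ed, fl11_nx' (by omega), show i - 1 + 1 = i by omega]
  have e2 : ed n v i = v (i + 1) - v i := by
    rw [ed, fl11_nx' (by omega)]
  rw [fl11_or', ← e1] at h1
  rw [fl11_or, ← e2] at h2
  have hτ : cr (ed n v (i - 1)) (ed n v i) < 0 := T.t1 (by omega) (Or.inl hi)
  have cone := fun e => fl11_coneN (e := e) hτ h1 h2
  obtain ⟨s, hs, hsx⟩ := fl11_seg' hx2
  -- the point `p` and the edge `k`
  have hpk : orient (v k) (v (nx n k)) p = orient (v k) (v (nx n k)) (v i) +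
      cr (ed n v k) (p - v i) := fl11_shift _ _ _ _
  have bad : cr (ed n v k) (p - v i) < 0 → False := fun h => by linarith
  rcases Nat.lt_or_ge k i with hki | hki
  · refine bad ((cone _).1 ?_ ?_)
    · rcases Nat.lt_or_ge k (i - 1) with h3 | h3
      · exact (T.t1 h3 (Or.inl (by omega))).le
      · have : k = i - 1 := by omega
        rw [this]
        exact (fl11_self _).le
    · exact T.t1 hki (Or.inl hi)
  rcases Nat.lt_or_ge k α with hkα | hkα
  · have h3 := T.fl11_posC hki hkα hx1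
    rw [hsx] at h3
    nlinarith
  rcases Nat.lt_or_ge k β with hkβ | hkβ
  · refine bad ((cone _).1 ?_ ?_)
    · rw [fl11_anti]
      have := T.t2 (i := i - 1) (j := k) (Or.inl ⟨by omega, hkα, hkβ⟩)
      linarith
    · rw [fl11_anti]
      have := T.t2 (i := i) (j := k) (Or.inl ⟨hi, hkα, hkβ⟩)
      linarith
  · have h3 := T.fl11_posB (i := n) le_rfl hkβ hk hx1
    have h4 : 0 < cr (ed n v (n - 1)) (v (i % n) - v (0 % n)) :=
      fl11_tele_gt h0 (by omega) fun l _ hl2 =>
        T.t2 (Or.inr (Or.inr ⟨by omega, by omega, by omega⟩))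
    have h5 : 0 < cr (ed n v (n - 1)) (p - v i) := (cone _).2
      (T.t2 (Or.inr (Or.inr ⟨by omega, by omega, by omega⟩))).le
      (T.t2 (Or.inr (Or.inr ⟨by omega, by omega, by omega⟩)))
    have h6 : x - v (n % n) = (x - v i) + (v (i % n) - v (0 % n)) := by
      rw [fl11_mod (v := v) (show i < n by omega), Nat.mod_self, Nat.zero_mod]
      abel
    rw [h6, fl11_add, hsx] at h3
    nlinarith

/-- a vertex of the last chain is seen from its zone `P` -/
theorem PT.seeP (T : PT n α β v) {p : ℝ × ℝ} (hp : p ∈ inn n v) (hg : GP n v p) {i : ℕ}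
    (h0 : β < i) (hi : i < n) (h1 : 0 < orient (v (i - 1)) (v i) p)
    (h2 : orient (v i) (v (nx n i)) p < 0) : See n v p (v i) := by
  have b0 := T.h0
  have b1 := T.h1
  have b2 := T.h2
  rcases hit_or_see T.pg hp hg hi with h | ⟨k, hk, x, hx1, hx2, -, hp1, hp2⟩
  · exact h
  exfalso
  have e1 : ed n v (i - 1) = v i - v (i - 1) := by
    rw [ed, fl11_nx' (by omega), show i - 1 + 1 = i by omega]
  rw [fl11_or', ← e1] at h1
  rw [fl11_or] at h2
  change cr (ed n v i) (p - v i) < 0 at h2
  have hτ : cr (ed n v (i - 1)) (ed n v i) < 0 :=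
    T.t1 (by omega) (Or.inr (Or.inr ⟨by omega, hi⟩))
  have cone := fun e => fl11_coneP (e := e) hτ h1 h2
  obtain ⟨s, hs, hsx⟩ := fl11_seg' hx2
  have hpk : orient (v k) (v (nx n k)) p = orient (v k) (v (nx n k)) (v i) +
      cr (ed n v k) (p - v i) := fl11_shift _ _ _ _
  have bad : cr (ed n v k) (p - v i) < 0 → False := fun h => by linarith
  rcases Nat.lt_or_ge k α with hkα | hkα
  · have h3 := T.fl11_posC (Nat.zero_le k) hkα hx1
    have h4 : cr (ed n v 0) (v (n % n) - v (i % n)) < 0 :=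
      fl11_tele_lt hi le_rfl fun l hl hl2 => by
        rw [fl11_anti]
        have := T.t2 (i := l) (j := 0) (Or.inr (Or.inr ⟨by omega, hl2, b0⟩))
        linarith
    have h5 : 0 < cr (ed n v 0) (p - v i) := (cone _).1
      (by
        rw [fl11_anti]
        have := T.t2 (i := i - 1) (j := 0) (Or.inr (Or.inr ⟨by omega, by omega, b0⟩))
        linarith)
      (by
        rw [fl11_anti]
        have := T.t2 (i := i) (j := 0) (Or.inr (Or.inr ⟨by omega, hi, b0⟩))
        linarith)
    have h6 : x - v 0 = (x - v i) - (v (n % n) - v (i % n)) := by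
      rw [fl11_mod (v := v) hi, Nat.mod_self]
      abel
    rw [h6, fl11_sub, hsx] at h3
    nlinarith
  rcases Nat.lt_or_ge k β with hkβ | hkβ
  · exact bad ((cone _).2 (T.t2 (Or.inr (Or.inl ⟨hkα, hkβ, by omega, by omega⟩)))
      (T.t2 (Or.inr (Or.inl ⟨hkα, hkβ, by omega, by omega⟩))).le)
  rcases Nat.lt_or_ge k i with hki | hki
  · have h3 := T.fl11_posB hi.le hkβ hki hx1
    rw [fl11_mod (v := v) hi, hsx] at h3
    nlinarith
  · refine bad ((cone _).2 ?_ ?_)
    · rw [fl11_anti]
      have := T.t1 (i := i - 1) (j := k) (by omega) (Or.inr (Or.inr ⟨by omega, hk⟩))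
      linarith
    · rcases Nat.eq_or_lt_of_le hki with rfl | hki
      · exact (fl11_self _).ge
      · rw [fl11_anti]
        have := T.t1 (i := i) (j := k) hki (Or.inr (Or.inr ⟨by omega, hk⟩))
        linarith

/-- the corner `0` is seen from its angle -/
theorem PT.see0 (T : PT n α β v) {p : ℝ × ℝ} (hp : p ∈ inn n v) (hg : GP n v p)
    (h1 : 0 < orient (v 0) (v 1) p) (h2 : 0 < orient (v (n - 1)) (v 0) p) :
    See n v p (v 0) := by
  have b0 := T.h0
  have b1 := T.h1
  have b2 := T.h2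
  rcases hit_or_see T.pg hp hg (show 0 < n by omega) with h | ⟨k, hk, x, hx1, hx2, -, hp1, hp2⟩
  · exact h
  exfalso
  have e1 : ed n v 0 = v 1 - v 0 := by
    rw [ed, fl11_nx' (by omega)]
  have e2 : ed n v (n - 1) = v 0 - v (n - 1) := by
    rw [ed, nx, show n - 1 + 1 = n by omega, Nat.mod_self]
  rw [fl11_or, ← e1] at h1
  rw [fl11_or', ← e2] at h2
  obtain ⟨s, hs, hsx⟩ := fl11_seg' hx2
  have hpk : orient (v k) (v (nx n k)) p = orient (v k) (v (nx n k)) (v 0) +
      cr (ed n v k) (p - v 0) := fl11_shift _ _ _ _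
  rcases Nat.lt_or_ge k α with hkα | hkα
  · have h3 := T.fl11_posC (Nat.zero_le k) hkα hx1
    rw [hsx] at h3
    nlinarith
  rcases Nat.lt_or_ge k β with hkβ | hkβ
  · have a1 : 0 < cr (ed n v (n - 1)) (ed n v 0) :=
      T.t2 (Or.inr (Or.inr ⟨by omega, by omega, b0⟩))
    have a2 : 0 < cr (ed n v k) (ed n v (n - 1)) :=
      T.t2 (Or.inr (Or.inl ⟨hkα, hkβ, by omega, by omega⟩))
    have a3 : 0 < cr (ed n v 0) (ed n v k) := T.t2 (Or.inl ⟨b0, hkα, hkβ⟩)
    have h := fl11_plu (ed n v k) (p - v 0) (ed n v (n - 1)) (ed n v 0)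
    rw [fl11_anti (p - v 0) (ed n v 0), fl11_anti (ed n v k) (ed n v 0)] at h
    have : cr (ed n v k) (p - v 0) < 0 := by
      by_contra hc
      push Not at hc
      nlinarith [mul_nonneg hc a1.le, mul_pos a2 h1, mul_pos a3 h2]
    linarith
  · have h3 := T.fl11_posB (i := n) le_rfl hkβ hk hx1
    rw [Nat.mod_self, hsx] at h3
    nlinarith

/-! ### every generic inner point is to the left of some edge of every chain -/

/-- a ray from an inner point which avoids the vertices leaves through an edge, from the left -/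
theorem fl11_hit (P : PG n v) {p d : ℝ × ℝ} (hp : p ∈ inn n v) (hd0 : d ≠ 0)
    (hd : ∀ j < n, cr d (v j - p) ≠ 0) :
    ∃ k < n, 0 ≤ orient (v k) (v (nx n k)) p ∧ cr (ed n v k) d * orient (v k) (v (nx n k)) p ≤ 0 ∧
      ∃ t : ℝ, 0 < t ∧ orient (v k) (v (nx n k)) p + t * cr (ed n v k) d = 0 := by
  have hS := P.simple
  set f : ℝ → ℝ × ℝ := fun t => p + t • d with hf
  have hfc : Continuous f := by
    rw [hf]
    fun_prop
  have hcc : IsClosed (curve n v) := isClosed_curve n v
  -- the ray leaves the region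
  obtain ⟨T, hT0, hT⟩ : ∃ T : ℝ, 0 < T ∧ f T ∉ region n v := by
    obtain ⟨R, hR⟩ := (isCompact_region hS).isBounded.subset_closedBall (0 : ℝ × ℝ)
    have hdn : 0 < ‖d‖ := norm_pos_iff.2 hd0
    refine ⟨(|R| + ‖p‖ + 1) / ‖d‖, by positivity, fun hc => ?_⟩
    have h1 := hR hc
    rw [mem_closedBall_zero_iff] at h1
    have h2 : ‖((|R| + ‖p‖ + 1) / ‖d‖) • d‖ = |R| + ‖p‖ + 1 := by
      rw [norm_smul, Real.norm_eq_abs, abs_of_pos (by positivity)]
      field_simp
    have h3 : ‖((|R| + ‖p‖ + 1) / ‖d‖) • d‖ ≤ ‖f ((|R| + ‖p‖ + 1) / ‖d‖)‖ + ‖p‖ := by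
      have h4 : ((|R| + ‖p‖ + 1) / ‖d‖) • d = f ((|R| + ‖p‖ + 1) / ‖d‖) - p := by
        rw [hf]
        simp
      rw [h4]
      exact norm_sub_le _ _
    have := le_abs_self R
    linarith
  set K : Set ℝ := Icc 0 T ∩ f ⁻¹' (curve n v) with hK
  have hKc : IsCompact K := isCompact_Icc.inter_right (hcc.preimage hfc)
  have hKn : K.Nonempty := by
    by_contra hc
    rw [Set.not_nonempty_iff_eq_empty] at hc
    have h1 : f '' Icc 0 T ⊆ inn n v := by
      refine subset_inner hS (isPreconnected_Icc.image f hfc.continuousOn) ?_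
        (p := p) ⟨0, ⟨le_rfl, hT0.le⟩, by simp [hf]⟩ (inner_subset_region hS hp)
      rw [Set.disjoint_left]
      rintro _ ⟨t, ht, rfl⟩ hft
      have : t ∈ K := ⟨ht, hft⟩
      rw [hc] at this
      exact this
    exact hT (inner_subset_region hS (h1 ⟨T, ⟨hT0.le, le_rfl⟩, rfl⟩))
  obtain ⟨t, ht, hmin⟩ := hKc.exists_isLeast hKn
  have ht0 : 0 < t := by
    rcases lt_or_eq_of_le ht.1.1 with h | h
    · exact h
    · exfalso
      have := ht.2
      rw [mem_preimage, ← h] at this
      simp only [hf, zero_smul, add_zero] at this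
      exact hp.1 this
  obtain ⟨k, hk, hx⟩ := ht.2
  -- the point `f t` is not a vertex
  have hnv : ∀ j < n, f t ≠ v j := by
    intro j hj hc
    apply hd j hj
    rw [← hc, hf]
    simp only [add_sub_cancel_left]
    rw [fl11_smul, fl11_self, mul_zero]
  have hx' : f t ∈ openSegment ℝ (v k) (v (nx n k)) := by
    have h1 : f t ∈ segment ℝ (v k) (v (nx n k)) := hx
    rcases eq_or_ne (f t) (v k) with h | h
    · exact absurd h (hnv k hk)
    rcases eq_or_ne (f t) (v (nx n k)) with h' | h'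
    · exact absurd h' (hnv _ (nx_lt (by omega) k))
    exact mem_openSegment_of_ne_left_right h.symm h'.symm h1
  have hsee : See n v p (f t) := by
    refine see_of_inner P hp ?_
    rintro z ⟨a, b, ha, hb, hab, rfl⟩ hz
    have h1 : a • p + b • f t = f (b * t) := by
      rw [hf]
      simp only
      rw [smul_add, ← add_assoc, ← add_smul, hab, one_smul, smul_smul]
    rw [h1] at hz
    have h2 : b * t ∈ K := ⟨⟨by positivity, by nlinarith [ht.1.2]⟩, hz⟩
    have h3 := hmin h2
    nlinarith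
  have hpx : p ≠ f t := by
    intro hc
    have : t • d = 0 := by
      have h1 : p + t • d = p + 0 := by rw [add_zero]; exact hc.symm
      exact add_left_cancel h1
    rcases smul_eq_zero.1 this with h | h
    · exact ht0.ne' h
    · exact hd0 h
  have hleft := left_of_hit P hk hx' hpx hsee
  have h0 : orient (v k) (v (nx n k)) p + t * cr (ed n v k) d = 0 := by
    have h1 : orient (v k) (v (nx n k)) (f t) = 0 :=
      orient_of_mem (openSegment_subset_segment ℝ _ _ hx')
    rw [fl11_or] at h1 ⊢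
    have h2 : f t - v k = (p - v k) + t • d := by
      rw [hf]
      simp only
      abel
    rw [h2, fl11_add, fl11_smul] at h1
    exact h1
  refine ⟨k, hk, hleft, ?_, t, ht0, h0⟩
  have h1 : t * cr (ed n v k) d ≤ 0 := by linarith
  have h2 : cr (ed n v k) d ≤ 0 := by
    by_contra hc
    push Not at hc
    nlinarith
  exact mul_nonpos_of_nonpos_of_nonneg h2 hleft

theorem fl11_zero {a b w : ℝ × ℝ} (hab : cr a b ≠ 0) (h1 : cr a w = 0) (h2 : cr b w = 0) :
    w = 0 := by
  have h3 : ∀ e, cr e w = 0 := by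
    intro e
    have h := fl11_plu e w a b
    rw [fl11_anti w b, h1, h2] at h
    have : cr e w * cr a b = 0 := by linarith
    exact (mul_eq_zero.1 this).resolve_right hab
  have h4 := h3 (1, 0)
  have h5 := h3 (0, 1)
  simp only [cr] at h4 h5
  ext
  · simp only [Prod.fst_zero]
    linarith
  · simp only [Prod.snd_zero]
    linarith

theorem fl11_exist (P : PG n v) {p : ℝ × ℝ} (hp : p ∈ inn n v) (hg : GP n v p) (g : ℕ)
    (hc : 0 < cr (ed n v (g - 1)) (ed n v g)) (S : ℕ → Prop)
    (hS : ∀ k < n, S k → (0 ≤ cr (ed n v k) (ed n v g) ∧ cr (ed n v k) (ed n v (g - 1)) < 0) ∨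
      (0 < cr (ed n v k) (ed n v g) ∧ cr (ed n v k) (ed n v (g - 1)) ≤ 0)) :
    ∃ k < n, ¬ S k ∧ 0 < orient (v k) (v (nx n k)) p := by
  have h3 : 3 ≤ n := P.simple.three_le
  set a := ed n v (g - 1) with ha
  set b := ed n v g with hb
  obtain ⟨s, hs0, hs⟩ : ∃ s : ℝ, 0 < s ∧ ∀ j < n, cr (b - s • a) (v j - p) ≠ 0 := by
    have hfin : ((fun j => cr b (v j - p) / cr a (v j - p)) '' (Finset.range n : Set ℕ)).Finite :=
      (Finset.range n).finite_toSet.image _
    obtain ⟨s, hs1, hs2⟩ := ((Set.Ioi_infinite (0 : ℝ)).diff hfin).nonempty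
    refine ⟨s, hs1, fun j hj hc0 => ?_⟩
    have h1 : cr b (v j - p) - s * cr a (v j - p) = 0 := by
      rw [← hc0]
      simp only [cr, Prod.fst_sub, Prod.snd_sub, Prod.smul_fst, Prod.smul_snd, smul_eq_mul]
      ring
    by_cases h2 : cr a (v j - p) = 0
    · have h4 : cr b (v j - p) = 0 := by
        rw [h2, mul_zero, sub_zero] at h1
        exact h1
      have h5 := fl11_zero hc.ne' h2 h4
      have h6 : p = v j := (sub_eq_zero.1 h5).symm
      rcases Nat.eq_zero_or_pos j with h7 | h7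
      · refine hg j hj 1 (by omega) (by omega) ?_
        rw [h6]
        exact orient_self_left _ _
      · refine hg j hj 0 (by omega) (by omega) ?_
        rw [h6]
        exact orient_self_left _ _
    · apply hs2
      refine ⟨j, by simpa using hj, ?_⟩
      simp only
      rw [div_eq_iff h2]
      linarith
  have hd0 : b - s • a ≠ 0 := by
    intro h
    have h1 : cr a (b - s • a) = cr a b := by
      rw [fl11_sub, fl11_smul, fl11_self]
      ring
    rw [h] at h1
    have h2 : cr a 0 = 0 := by simp [cr]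
    linarith
  obtain ⟨k, hk, hk1, -, t, ht, hk2⟩ := fl11_hit P hp hd0 hs
  have hk3 : 0 < orient (v k) (v (nx n k)) p := by
    refine lt_of_le_of_ne hk1 (Ne.symm (hg k hk _ (nx_lt (by omega) k) ?_))
    rcases nx_cases hk with h | h <;> omega
  refine ⟨k, hk, fun hSk => ?_, hk3⟩
  have h5 : cr (ed n v k) (b - s • a) = cr (ed n v k) b - s * cr (ed n v k) a := by
    rw [fl11_sub, fl11_smul]
  have h6 : 0 < cr (ed n v k) (b - s • a) := by
    rw [h5]
    rcases hS k hk hSk with ⟨h7, h8⟩ | ⟨h7, h8⟩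
    · nlinarith
    · nlinarith
  nlinarith

theorem PT.exC (T : PT n α β v) {p : ℝ × ℝ} (hp : p ∈ inn n v) (hg : GP n v p) :
    ∃ k < α, 0 < orient (v k) (v (nx n k)) p := by
  have b0 := T.h0
  have b1 := T.h1
  have b2 := T.h2
  obtain ⟨k, hk, hk1, hk2⟩ := fl11_exist T.pg hp hg β
    (T.t2 (Or.inr (Or.inl ⟨by omega, by omega, le_rfl, b2⟩))) (fun k => α ≤ k) (by
      intro k hk hαk
      rcases Nat.lt_or_ge k β with hkβ | hkβ
      · right
        refine ⟨T.t2 (Or.inr (Or.inl ⟨hαk, hkβ, le_rfl, b2⟩)), ?_⟩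
        rcases Nat.lt_or_ge k (β - 1) with h | h
        · exact (T.t1 h (Or.inr (Or.inl ⟨hαk, by omega⟩))).le
        · have : k = β - 1 := by omega
          rw [this]
          exact (fl11_self _).le
      · left
        refine ⟨?_, ?_⟩
        · rcases Nat.eq_or_lt_of_le hkβ with h | h
          · rw [← h]
            exact (fl11_self _).ge
          · rw [fl11_anti]
            have := T.t1 h (Or.inr (Or.inr ⟨le_rfl, hk⟩))
            linarith
        · rw [fl11_anti]
          have := T.t2 (i := β - 1) (j := k) (Or.inr (Or.inl ⟨by omega, by omega, hkβ, hk⟩))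
          linarith)
  exact ⟨k, by omega, hk2⟩

theorem PT.exB (T : PT n α β v) {p : ℝ × ℝ} (hp : p ∈ inn n v) (hg : GP n v p) :
    ∃ k < n, β ≤ k ∧ 0 < orient (v k) (v (nx n k)) p := by
  have b0 := T.h0
  have b1 := T.h1
  have b2 := T.h2
  obtain ⟨k, hk, hk1, hk2⟩ := fl11_exist T.pg hp hg α
    (T.t2 (Or.inl ⟨by omega, le_rfl, b1⟩)) (fun k => k < β) (by
      intro k hk hkβ
      rcases Nat.lt_or_ge k α with hkα | hkα
      · right
        refine ⟨T.t2 (Or.inl ⟨hkα, le_rfl, b1⟩), ?_⟩
        rcases Nat.lt_or_ge k (α - 1) with h | h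
        · exact (T.t1 h (Or.inl (by omega))).le
        · have : k = α - 1 := by omega
          rw [this]
          exact (fl11_self _).le
      · left
        refine ⟨?_, ?_⟩
        · rcases Nat.eq_or_lt_of_le hkα with h | h
          · rw [← h]
            exact (fl11_self _).ge
          · rw [fl11_anti]
            have := T.t1 h (Or.inr (Or.inl ⟨le_rfl, hkβ⟩))
            linarith
        · rw [fl11_anti]
          have := T.t2 (i := α - 1) (j := k) (Or.inl ⟨by omega, hkα, hkβ⟩)
          linarith)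
  exact ⟨k, hk, by omega, hk2⟩

/-- the light of the corner `0`: the corner, or a vertex of the first chain in its zone `N`, or a
vertex of the last chain in its zone `P` -/
theorem PT.light0 (T : PT n α β v) {p : ℝ × ℝ} (hp : p ∈ inn n v) (hg : GP n v p) :
    (0 < orient (v 0) (v 1) p ∧ 0 < orient (v (n - 1)) (v 0) p ∧ See n v p (v 0)) ∨
    (∃ i, 0 < i ∧ i < α ∧ orient (v (i - 1)) (v i) p < 0 ∧ See n v p (v i)) ∨
    (∃ i, β < i ∧ i < n ∧ orient (v i) (v (nx n i)) p < 0 ∧ See n v p (v i)) := by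
  classical
  have b0 := T.h0
  have b1 := T.h1
  have b2 := T.h2
  have hne : ∀ k < n, orient (v k) (v (nx n k)) p ≠ 0 := by
    intro k hk
    refine hg k hk _ (nx_lt (by omega) k) ?_
    rcases nx_cases hk with h | h <;> omega
  by_cases h1 : 0 < orient (v 0) (v 1) p
  · by_cases h2 : 0 < orient (v (n - 1)) (v 0) p
    · exact Or.inl ⟨h1, h2, T.see0 hp hg h1 h2⟩
    · right
      right
      -- the largest edge of the last chain with `p` on its left
      obtain ⟨k0, hk0, hk0β, hk0p⟩ := T.exB hp hg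
      set S := (Finset.range n).filter fun k => β ≤ k ∧ 0 < orient (v k) (v (nx n k)) p with hS
      have hSn : S.Nonempty := ⟨k0, by
        rw [hS, Finset.mem_filter, Finset.mem_range]
        exact ⟨hk0, hk0β, hk0p⟩⟩
      have hm := S.max'_mem hSn
      set k := S.max' hSn with hk
      rw [hS, Finset.mem_filter, Finset.mem_range] at hm
      obtain ⟨hkn, hkβ, hkp⟩ := hm
      have hkl : k + 1 < n := by
        by_contra hc
        have hk' : k = n - 1 := by omega
        apply h2
        have h3 : nx n (n - 1) = 0 := by rw [nx, show n - 1 + 1 = n by omega, Nat.mod_self]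
        rw [hk', h3] at hkp
        exact hkp
      have hnk : orient (v (k + 1)) (v (nx n (k + 1))) p < 0 := by
        refine lt_of_le_of_ne ?_ (hne (k + 1) hkl)
        by_contra hc
        push Not at hc
        have : k + 1 ∈ S := by
          rw [hS, Finset.mem_filter, Finset.mem_range]
          exact ⟨hkl, by omega, hc⟩
        have := S.le_max' _ this
        omega
      rw [fl11_nx' hkl] at hkp
      exact ⟨k + 1, by omega, hkl, hnk, T.seeP hp hg (by omega) hkl
        (by simpa using hkp) hnk⟩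
  · right
    left
    obtain ⟨k0, hk0, hk0p⟩ := T.exC hp hg
    have hex : ∃ k, k < α ∧ 0 < orient (v k) (v (nx n k)) p := ⟨k0, hk0, hk0p⟩
    obtain ⟨hkα, hkp⟩ := Nat.find_spec hex
    set k := Nat.find hex with hk
    have hk0 : 0 < k := by
      rcases Nat.eq_zero_or_pos k with h | h
      · exfalso
        apply h1
        rw [h, fl11_nx' (by omega)] at hkp
        exact hkp
      · exact h
    have hpk : orient (v (k - 1)) (v k) p < 0 := by
      have h3 : nx n (k - 1) = k := by
        rw [fl11_nx' (by omega)]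
        omega
      have h4 := hne (k - 1) (by omega)
      rw [h3] at h4
      refine lt_of_le_of_ne ?_ h4
      by_contra hc
      push Not at hc
      have h5 := Nat.find_min hex (m := k - 1) (by omega)
      apply h5
      rw [h3]
      exact ⟨by omega, hc⟩
    rw [fl11_nx' (by omega)] at hkp
    exact ⟨k, hk0, hkα, hpk, T.seeN hp hg hk0 hkα hpk hkp⟩

theorem PT.cS0 (T : PT n α β v) : Cov n v (sS0 α β) := by
  intro p hp hg
  have b0 := T.h0
  have b1 := T.h1
  have b2 := T.h2
  rcases T.light0 hp hg with ⟨-, -, h⟩ | ⟨i, h0, hi, h1, h⟩ | ⟨i, h0, hi, h1, h⟩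
  · refine ⟨0, by omega, ?_, h⟩
    have : sS0 α β 0 = St.K := by simp [sS0]
    rw [this]
    trivial
  · refine ⟨i, by omega, ?_, h⟩
    have : sS0 α β i = St.N := by
      rw [sS0, if_neg (by omega), if_pos hi]
    rw [this]
    change orient (v (pv n i)) (v i) p < 0
    rw [fl11_pv h0 (by omega)]
    exact h1
  · refine ⟨i, hi, ?_, h⟩
    have : sS0 α β i = St.P := by
      rw [sS0, if_neg (by omega), if_neg (by omega), if_neg (by omega)]
    rw [this]
    exact h1

end sa

end Pool.Agent.FL
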