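import Pool.Agent.FL.Diag
import Pool.Agent.FL.DgSub

/-! MP_8a5d4f_co, project FL, row FL-8 -/

set_option autoImplicit false

namespace Pool.Agent.FL

open Set Filter Topology Pool.Agent.H54.Fl Pool.Agent.H75.PolyJ Pool.Agent.H95.Poly

theorem fl8_aux (N : ℕ) : ∀ (n : ℕ) (v : ℕ → ℝ × ℝ), n ≤ N → 3 ≤ n → PG n v →
    ∃ k, 0 < k ∧ k + 1 < n ∧ Ed n v 0 k ∧ Ed n v k (n - 1) := by
  induction N with
  | zero =>
    intro n v h1 h2 _
    omega
  | succ N ih =>
    intro n v h1 h2 P
    rcases Nat.lt_or_ge n 4 with h3 | h3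
    · have h4 : n = 3 := by omega
      subst h4
      exact ⟨1, by norm_num, by norm_num, Or.inl ⟨by norm_num, Or.inl rfl⟩,
        Or.inl ⟨by norm_num, Or.inl rfl⟩⟩
    · obtain ⟨i, j, D⟩ := exists_diag P h3
      have hl := D.lt
      have hj := D.ltn
      have hnl := D.nl
      have hm : 3 ≤ n - (j - i) + 1 := by
        by_contra h
        apply hnl
        omega
      obtain ⟨k, k0, k1, e1, e2⟩ := ih (n - (j - i) + 1) (co v i j) (by omega) hm (D.co_pg P)
      have f1 := Ed.of_co P D e1 k0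
      have f2 := Ed.of_co P D e2 (by omega)
      have c0 : cx i j 0 = 0 := by
        unfold cx
        rw [if_pos (Nat.zero_le i)]
      have c1 : cx i j (n - (j - i) + 1 - 1) = n - 1 := by
        unfold cx
        rw [if_neg (by omega)]
        omega
      rw [c0] at f1
      rw [c1] at f2
      refine ⟨cx i j k, ?_, ?_, f1, f2⟩
      · unfold cx
        split_ifs <;> omega
      · unfold cx
        split_ifs <;> omega

section tri

variable {n : ℕ} {v : ℕ → ℝ × ℝ}

/-- the third vertex of a triangle at the edge from `n - 1` to `0` -/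
theorem third (P : PG n v) : ∃ k, 0 < k ∧ k + 1 < n ∧ Ed n v 0 k ∧ Ed n v k (n - 1) :=
  fl8_aux n n v le_rfl P.simple.1 P

end tri

end Pool.Agent.FL
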